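import Pool.Agent.N959.EX.Def

/-!
# Almost stationarity in boxes, boundary sums (S_APX, S_BDY, S_RN)
-/

set_option autoImplicit false

open MeasureTheory Filter Topology

namespace Pool.Agent.N959.EX

namespace Apx

/-! ### functions of finitely many sites -/

/-- extension of a partial configuration -/
noncomputable def ext (n : ℕ) (r : {x // x ∈ Lam n} → Bool) : Conf := fun x => if h : x ∈ Lam n then r ⟨x, h⟩ else false

lemma dep_fac {n : ℕ} {F : Conf → ℝ} (hF : Dep n F) (η : Conf) :
    F η = F (ext n (fun x : {x // x ∈ Lam n} => η x)) := by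
  refine hF _ _ fun x hx => ?_
  unfold ext
  rw [dif_pos hx]

lemma dep_meas {n : ℕ} {F : Conf → ℝ} (hF : Dep n F) : Measurable F := by
  have h1 : F = (fun r => F (ext n r)) ∘ (fun η : Conf => fun x : {x // x ∈ Lam n} => η x) := by
    funext η
    exact dep_fac hF η
  rw [h1]
  refine (measurable_of_finite _).comp ?_
  exact measurable_pi_lambda _ fun x => measurable_pi_apply _

lemma dep_bdd {n : ℕ} {F : Conf → ℝ} (hF : Dep n F) : ∃ C : ℝ, 0 ≤ C ∧ ∀ η, |F η| ≤ C := by
  obtain ⟨C, hC⟩ := Finite.bddAbove_range (fun r => |F (ext n r)|)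
  refine ⟨max C 0, le_max_right _ _, fun η => ?_⟩
  rw [dep_fac hF η]
  exact (hC ⟨_, rfl⟩).trans (le_max_left _ _)

lemma mem_Lam {n : ℕ} {x : ℤ} : x ∈ Lam n ↔ -(n : ℤ) ≤ x ∧ x ≤ n := by
  unfold Lam
  rw [Finset.mem_Icc]

lemma dep_mv {n : ℕ} {F : Conf → ℝ} (hF : Dep n F) (x y : ℤ) :
    Dep (max n (max x.natAbs y.natAbs)) (fun η => F (mv x y η)) := by
  intro η ζ h
  have hx : η x = ζ x := h x (by rw [mem_Lam]; omega)
  have hy : η y = ζ y := h y (by rw [mem_Lam]; omega)
  refine hF _ _ fun z hz => ?_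
  have hz' : η z = ζ z := h z (by rw [mem_Lam] at hz ⊢; omega)
  unfold mv sw
  rw [hx, hy]
  by_cases hc : ζ x = true ∧ ζ y = false
  · rw [if_pos hc, if_pos hc]
    change (if z = x then ζ y else if z = y then ζ x else η z) =
      (if z = x then ζ y else if z = y then ζ x else ζ z)
    rw [hz']
  · rw [if_neg hc, if_neg hc]
    exact hz'

lemma int_of {f : Conf → ℝ} {μ : Measure Conf} [IsProbabilityMeasure μ] (hm : Measurable f)
    {C : ℝ} (hC : ∀ η, |f η| ≤ C) : Integrable f μ :=
  Integrable.of_bound hm.aestronglyMeasurable C (Eventually.of_forall hC)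

/-! ### one particle crosses the boundary -/

section

variable {n : ℕ} {F : Conf → ℝ} {d : ℤ → ℝ}

lemma d_nonneg (hd : ∀ η : Conf, ∀ x ∈ Lam n, η x = false → |F (put x η) - F η| ≤ d x) {x : ℤ}
    (hx : x ∈ Lam n) : 0 ≤ d x := (abs_nonneg _).trans (hd (fun _ => false) x hx rfl)

lemma F_out (hF : Dep n F) (hd : ∀ η : Conf, ∀ x ∈ Lam n, η x = false → |F (put x η) - F η| ≤ d x)
    {x y : ℤ} (hx : x ∈ Lam n) (hy : y ∉ Lam n) (η : Conf) :
    |F (mv x y η) - F η| ≤ {η : Conf | η x ≠ η y}.indicator (fun _ => d x) η := by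
  have h0 := d_nonneg hd hx
  by_cases h : η x = true ∧ η y = false
  · have hm : η ∈ {η : Conf | η x ≠ η y} := by
      rw [Set.mem_ofPred_eq, h.1, h.2]; decide
    rw [Set.indicator_of_mem hm]
    set ζ : Conf := Function.update η x false with hζ
    have e1 : F (mv x y η) = F ζ := by
      refine hF _ _ fun z hz => ?_
      unfold mv sw
      rw [if_pos h, hζ]
      by_cases hzx : z = x
      · rw [if_pos hzx, h.2, hzx, Function.update_self]
      · rw [if_neg hzx, if_neg (fun hzy : z = y => hy (hzy ▸ hz)), Function.update_of_ne hzx]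
    have e2 : η = put x ζ := by
      funext z
      unfold put
      by_cases hzx : z = x
      · rw [hzx, Function.update_self, h.1]
      · rw [Function.update_of_ne hzx, hζ, Function.update_of_ne hzx]
    have e3 := hd ζ x hx (by rw [hζ, Function.update_self])
    rw [← e2, abs_sub_comm] at e3
    rw [e1]
    exact e3
  · have e1 : mv x y η = η := by unfold mv; rw [if_neg h]
    rw [e1, sub_self, abs_zero]
    exact Set.indicator_nonneg (fun _ _ => h0) _

lemma F_in (hF : Dep n F) (hd : ∀ η : Conf, ∀ x ∈ Lam n, η x = false → |F (put x η) - F η| ≤ d x)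
    {x y : ℤ} (hx : x ∈ Lam n) (hy : y ∉ Lam n) (η : Conf) :
    |F (mv y x η) - F η| ≤ {η : Conf | η x ≠ η y}.indicator (fun _ => d x) η := by
  have h0 := d_nonneg hd hx
  by_cases h : η y = true ∧ η x = false
  · have hm : η ∈ {η : Conf | η x ≠ η y} := by
      rw [Set.mem_ofPred_eq, h.1, h.2]; decide
    rw [Set.indicator_of_mem hm]
    have e1 : F (mv y x η) = F (put x η) := by
      refine hF _ _ fun z hz => ?_
      unfold mv sw put
      rw [if_pos h, if_neg (fun hzy : z = y => hy (hzy ▸ hz))]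
      by_cases hzx : z = x
      · rw [if_pos hzx, h.1, hzx, Function.update_self]
      · rw [if_neg hzx, Function.update_of_ne hzx]
    rw [e1]
    exact hd η x hx h.2
  · have e1 : mv y x η = η := by unfold mv; rw [if_neg h]
    rw [e1, sub_self, abs_zero]
    exact Set.indicator_nonneg (fun _ _ => h0) _

lemma F_oo (hF : Dep n F) {x y : ℤ} (hx : x ∉ Lam n) (hy : y ∉ Lam n) (η : Conf) :
    F (mv x y η) = F η := by
  refine hF _ _ fun z hz => ?_
  unfold mv sw
  by_cases h : η x = true ∧ η y = false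
  · rw [if_pos h, if_neg (fun hzx : z = x => hx (hzx ▸ hz)), if_neg (fun hzy : z = y => hy (hzy ▸ hz))]
  · rw [if_neg h]

end

/-! ### sums over pairs -/

lemma sum_left {q : ℤ → ℝ} (h0 : ∀ z, 0 ≤ q z) (hq : Summable q) (A : Finset ℤ) :
    Summable fun w : ℤ × ℤ => if w.1 ∈ A then q (w.2 - w.1) else 0 := by
  rw [summable_prod_of_nonneg (fun w => by dsimp; split_ifs; exacts [h0 _, le_rfl])]
  refine ⟨fun x => ?_, ?_⟩
  · by_cases hx : x ∈ A
    · simp only [if_pos hx]
      exact (Equiv.subRight x).summable_iff.2 hq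
    · simp only [if_neg hx]
      exact summable_zero
  · refine summable_of_ne_finset_zero (s := A) fun x hx => ?_
    simp only [if_neg hx, tsum_zero]

lemma sum_right {q : ℤ → ℝ} (h0 : ∀ z, 0 ≤ q z) (hq : Summable q) (A : Finset ℤ) :
    Summable fun w : ℤ × ℤ => if w.2 ∈ A then q (w.2 - w.1) else 0 := by
  have h1 := (sum_left (q := fun z => q (-z)) (fun z => h0 _) ((Equiv.neg ℤ).summable_iff.2 hq) A).prod_symm
  refine h1.congr fun w => ?_
  simp only [Prod.fst_swap, Prod.snd_swap, neg_sub]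

end Apx

open Apx

theorem t_APX : S_APX := by
  classical
  intro p hp μ hμ hst n F d hF hd
  obtain ⟨C, hC0, hC⟩ := dep_bdd hF
  have hFm := dep_meas hF
  have hpS : Summable p := hp.sum.summable
  -- the integrals
  set D : ℤ × ℤ → Conf → ℝ := fun w η => F (mv w.1 w.2 η) - F η with hD
  have hDm : ∀ w, Measurable (D w) := fun w => (dep_meas (dep_mv hF w.1 w.2)).sub hFm
  have hDb : ∀ w η, |D w η| ≤ 2 * C := by
    intro w η
    have h1 := hC (mv w.1 w.2 η)
    have h2 := hC η
    calc |F (mv w.1 w.2 η) - F η| ≤ |F (mv w.1 w.2 η)| + |F η| := abs_sub _ _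
      _ ≤ _ := by linarith
  have hDi : ∀ w, Integrable (D w) μ := fun w => int_of (hDm w) (hDb w)
  set g : ℤ × ℤ → ℝ := fun w => ∫ η, D w η ∂μ with hg
  have hgC : ∀ w, |g w| ≤ 2 * C := by
    intro w
    have := norm_integral_le_of_norm_le_const (μ := μ) (f := D w) (C := 2 * C)
      (Eventually.of_forall (hDb w))
    simpa using this
  have hg0 : ∀ w : ℤ × ℤ, w.1 ∉ Lam n → w.2 ∉ Lam n → ∀ η, D w η = 0 := by
    intro w h1 h2 η
    simp only [hD]
    rw [F_oo hF h1 h2, sub_self]
  -- summability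
  have hS : Summable fun w : ℤ × ℤ => ((if w.1 ∈ Lam n then p (w.2 - w.1) else 0) +
      (if w.2 ∈ Lam n then p (w.2 - w.1) else 0)) * (2 * C) :=
    ((sum_left hp.nonneg hpS (Lam n)).add (sum_right hp.nonneg hpS (Lam n))).mul_right _
  have hle : ∀ w : ℤ × ℤ, ∀ c : ℝ, 0 ≤ c → c ≤ 2 * C →
      ((w.1 ∉ Lam n → w.2 ∉ Lam n → c = 0)) → p (w.2 - w.1) * c ≤
      ((if w.1 ∈ Lam n then p (w.2 - w.1) else 0) +
      (if w.2 ∈ Lam n then p (w.2 - w.1) else 0)) * (2 * C) := by
    intro w c h0 h1 h2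
    have h3 := hp.nonneg (w.2 - w.1)
    have h4 : p (w.2 - w.1) * c ≤ p (w.2 - w.1) * (2 * C) := mul_le_mul_of_nonneg_left h1 h3
    have h5 : 0 ≤ p (w.2 - w.1) * (2 * C) := by positivity
    by_cases a1 : w.1 ∈ Lam n <;> by_cases a2 : w.2 ∈ Lam n
    · rw [if_pos a1, if_pos a2]; linarith
    · rw [if_pos a1, if_neg a2]; linarith
    · rw [if_neg a1, if_pos a2]; linarith
    · rw [if_neg a1, if_neg a2, h2 a1 a2]; simp
  have hsumn : Summable fun w : ℤ × ℤ => ∫ η, ‖p (w.2 - w.1) * D w η‖ ∂μ := by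
    refine Summable.of_nonneg_of_le (fun w => integral_nonneg fun η => norm_nonneg _) (fun w => ?_) hS
    have e : ∀ η, ‖p (w.2 - w.1) * D w η‖ = p (w.2 - w.1) * |D w η| := fun η => by
      rw [norm_mul, Real.norm_eq_abs, Real.norm_eq_abs, abs_of_nonneg (hp.nonneg _)]
    simp only [e]
    rw [integral_const_mul]
    refine hle w _ (integral_nonneg fun η => abs_nonneg _) ?_ ?_
    · have := norm_integral_le_of_norm_le_const (μ := μ) (f := fun η => |D w η|) (C := 2 * C)
        (Eventually.of_forall fun η => by rw [Real.norm_eq_abs, abs_abs]; exact hDb w η)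
      rw [probReal_univ, mul_one] at this
      exact (le_abs_self _).trans this
    · intro h1 h2
      simp only [hg0 w h1 h2, abs_zero, integral_zero]
  have hgen := hasSum_integral_of_summable_integral_norm (μ := μ)
    (F := fun (w : ℤ × ℤ) η => p (w.2 - w.1) * D w η) (fun w => (hDi w).const_mul _) hsumn
  have hz : ∫ η, ∑' w : ℤ × ℤ, p (w.2 - w.1) * D w η ∂μ = 0 := hst n F hF
  rw [hz] at hgen
  have hgen' : HasSum (fun w : ℤ × ℤ => p (w.2 - w.1) * g w) 0 := by
    have e : (fun w : ℤ × ℤ => p (w.2 - w.1) * g w) =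
        fun w => ∫ η, p (w.2 - w.1) * D w η ∂μ := funext fun w => (integral_const_mul _ _).symm
    rw [e]
    exact hgen
  set a : ℤ × ℤ → ℝ := fun w => p (w.2 - w.1) * g w with ha
  have haS : Summable a := hgen'.summable
  -- the restricted generator
  have hLL : ∫ η, LL mv p n F η ∂μ = ∑ x ∈ Lam n, ∑ y ∈ Lam n, a (x, y) := by
    unfold LL
    rw [integral_finsetSum _ fun x _ => integrable_finsetSum _ fun y _ =>
      (hDi (x, y)).const_mul (p (y - x))]
    refine Finset.sum_congr rfl fun x _ => ?_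
    rw [integral_finsetSum _ fun y _ => (hDi (x, y)).const_mul (p (y - x))]
    refine Finset.sum_congr rfl fun y _ => ?_
    exact integral_const_mul _ _
  -- the three parts
  set A1 : ℤ × ℤ → ℝ := fun w => if w.1 ∈ Lam n ∧ w.2 ∈ Lam n then a w else 0 with hA1
  set A2 : ℤ × ℤ → ℝ := fun w => if w.1 ∈ Lam n ∧ w.2 ∉ Lam n then a w else 0 with hA2
  set A3 : ℤ × ℤ → ℝ := fun w => if w.1 ∉ Lam n ∧ w.2 ∈ Lam n then a w else 0 with hA3
  have hsub : ∀ (P : ℤ × ℤ → Prop) [DecidablePred P], Summable fun w => if P w then a w else 0 := by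
    intro P _
    refine Summable.of_norm_bounded haS.norm fun w => ?_
    split_ifs
    · exact le_rfl
    · rw [norm_zero]; exact norm_nonneg _
  have s1 : Summable A1 := hsub _
  have s2 : Summable A2 := hsub _
  have s3 : Summable A3 := hsub _
  have hsplit : ∀ w, a w = A1 w + A2 w + A3 w := by
    intro w
    simp only [hA1, hA2, hA3]
    by_cases a1 : w.1 ∈ Lam n <;> by_cases a2 : w.2 ∈ Lam n
    · simp [a1, a2]
    · simp [a1, a2]
    · simp [a1, a2]
    · have : a w = 0 := by
        simp only [ha, hg]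
        simp only [hg0 w a1 a2, integral_zero, mul_zero]
      simp [a1, a2, this]
  have htot : (∑' w, A1 w) + (∑' w, A2 w) + ∑' w, A3 w = 0 := by
    rw [← hgen'.tsum_eq, ← s1.tsum_add s2, ← (s1.add s2).tsum_add s3]
    exact (tsum_congr hsplit).symm
  have t1 : ∑' w, A1 w = ∑ x ∈ Lam n, ∑ y ∈ Lam n, a (x, y) := by
    rw [tsum_eq_sum (s := Lam n ×ˢ Lam n), Finset.sum_product]
    · refine Finset.sum_congr rfl fun x hx => Finset.sum_congr rfl fun y hy => ?_
      simp only [hA1]
      rw [if_pos ⟨hx, hy⟩]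
    · intro w hw
      simp only [hA1]
      rw [if_neg]
      rw [Finset.mem_product] at hw
      exact hw
  have t3 : ∑' w, A3 w = ∑' w : ℤ × ℤ, A3 w.swap := ((Equiv.prodComm ℤ ℤ).tsum_eq A3).symm
  have s3' : Summable fun w : ℤ × ℤ => A3 w.swap := s3.prod_symm
  -- the bound
  set B : ℤ × ℤ → ℝ := fun w => if w.1 ∈ Lam n ∧ w.2 ∉ Lam n then
    d w.1 * ((p (w.2 - w.1) + p (w.1 - w.2)) * μ.real {η | η w.1 ≠ η w.2}) else 0 with hB
  have hms : ∀ x y : ℤ, MeasurableSet {η : Conf | η x ≠ η y} := fun x y =>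
    (measurableSet_eq_fun (measurable_pi_apply x) (measurable_pi_apply y)).compl
  have hm1 : ∀ x y : ℤ, μ.real {η : Conf | η x ≠ η y} ≤ 1 := fun x y => measureReal_le_one
  have hgb : ∀ (w : ℤ × ℤ) (x y : ℤ), x ∈ Lam n →
      (∀ η, |D w η| ≤ {η : Conf | η x ≠ η y}.indicator (fun _ => d x) η) →
      |g w| ≤ d x * μ.real {η | η x ≠ η y} := by
    intro w x y hx h
    have h1 := norm_integral_le_of_norm_le (μ := μ) (f := D w)
      (g := {η : Conf | η x ≠ η y}.indicator (fun _ => d x)) ((integrable_const _).indicator (hms x y))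
      (Eventually.of_forall h)
    rw [integral_indicator_const _ (hms x y), smul_eq_mul, mul_comm] at h1
    exact h1
  have hBb : ∀ w, |A2 w + A3 w.swap| ≤ B w := by
    intro w
    simp only [hA2, hA3, hB, Prod.fst_swap, Prod.snd_swap]
    by_cases hw : w.1 ∈ Lam n ∧ w.2 ∉ Lam n
    · rw [if_pos hw, if_pos hw, if_pos ⟨hw.2, hw.1⟩]
      have g1 := hgb w w.1 w.2 hw.1 (fun η => F_out hF hd hw.1 hw.2 η)
      have g2 := hgb w.swap w.1 w.2 hw.1 (fun η => F_in hF hd hw.1 hw.2 η)
      simp only [ha, Prod.fst_swap, Prod.snd_swap]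
      have h1 := hp.nonneg (w.2 - w.1)
      have h2 := hp.nonneg (w.1 - w.2)
      calc |p (w.2 - w.1) * g w + p (w.1 - w.2) * g w.swap|
          ≤ |p (w.2 - w.1) * g w| + |p (w.1 - w.2) * g w.swap| := abs_add_le _ _
        _ = p (w.2 - w.1) * |g w| + p (w.1 - w.2) * |g w.swap| := by
            rw [abs_mul, abs_mul, abs_of_nonneg h1, abs_of_nonneg h2]
        _ ≤ p (w.2 - w.1) * (d w.1 * μ.real {η | η w.1 ≠ η w.2}) +
            p (w.1 - w.2) * (d w.1 * μ.real {η | η w.1 ≠ η w.2}) :=
            add_le_add (mul_le_mul_of_nonneg_left g1 h1) (mul_le_mul_of_nonneg_left g2 h2)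
        _ = _ := by ring
    · rw [if_neg hw, if_neg hw, if_neg (fun h => hw ⟨h.2, h.1⟩), add_zero, abs_zero]
  -- summability of `B`
  set Md : ℝ := ∑ x ∈ Lam n, d x with hMd
  have hdM : ∀ x ∈ Lam n, d x ≤ Md := fun x hx =>
    Finset.single_le_sum (fun y hy => d_nonneg hd hy) hx
  have hBS : Summable B := by
    have q1 : Summable fun z : ℤ => p z + p (-z) := hpS.add ((Equiv.neg ℤ).summable_iff.2 hpS)
    have q2 := (sum_left (q := fun z => p z + p (-z))
      (fun z => add_nonneg (hp.nonneg _) (hp.nonneg _)) q1 (Lam n)).mul_left Md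
    refine Summable.of_nonneg_of_le (fun w => ?_) (fun w => ?_) q2
    · simp only [hB]
      split_ifs with hw
      · have h1 := d_nonneg hd hw.1
        have h2 := hp.nonneg (w.2 - w.1)
        have h3 := hp.nonneg (w.1 - w.2)
        positivity
      · exact le_rfl
    · simp only [hB]
      split_ifs with hw h4
      · have h1 := d_nonneg hd hw.1
        have h2 := hp.nonneg (w.2 - w.1)
        have h3 := hp.nonneg (w.1 - w.2)
        rw [neg_sub]
        refine mul_le_mul (hdM _ hw.1) ?_ (by positivity) (h1.trans (hdM _ hw.1))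
        have := hm1 w.1 w.2
        exact mul_le_of_le_one_right (by positivity) this
      · exact absurd hw.1 h4
      · have h2 := hp.nonneg (w.2 - w.1)
        have h3 := hp.nonneg (-(w.2 - w.1))
        have h5 : 0 ≤ Md := Finset.sum_nonneg fun y hy => d_nonneg hd hy
        positivity
      · rw [mul_zero]
  have hfin : ∑' w, B w = ∑ x ∈ Lam n, d x * bd p n μ x := by
    rw [hBS.tsum_prod, tsum_eq_sum (s := Lam n)]
    · refine Finset.sum_congr rfl fun x hx => ?_
      unfold bd
      rw [← tsum_mul_left]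
      refine tsum_congr fun y => ?_
      simp only [hB]
      by_cases hy : y ∈ Lam n
      · rw [if_neg (fun h => h.2 hy), if_pos hy, mul_zero]
      · rw [if_pos ⟨hx, hy⟩, if_neg hy]
    · intro x hx
      simp only [hB]
      have : ∀ y, ¬ (x ∈ Lam n ∧ y ∉ Lam n) := fun y h => hx h.1
      simp only [if_neg (this _), tsum_zero]
  rw [hLL, ← t1]
  have h5 : ∑' w, A1 w = -(∑' w : ℤ × ℤ, (A2 w + A3 w.swap)) := by
    rw [s2.tsum_add s3', ← t3]
    linarith
  rw [h5, abs_neg, ← hfin]
  have h6 : Summable fun w : ℤ × ℤ => |A2 w + A3 w.swap| := (s2.add s3').norm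
  calc |∑' w : ℤ × ℤ, (A2 w + A3 w.swap)| ≤ ∑' w : ℤ × ℤ, |A2 w + A3 w.swap| :=
        norm_tsum_le_tsum_norm (f := fun w : ℤ × ℤ => A2 w + A3 w.swap) h6
    _ ≤ ∑' w, B w := h6.tsum_le_tsum hBb hBS

theorem t_BDY : S_BDY := by
  classical
  intro p hp w hw0 hw1 a b _ _ hwa hwb
  have hpS : Summable p := hp.sum.summable
  set q : ℤ → ℝ := fun z => p z + p (-z) with hq
  have hq0 : ∀ z, 0 ≤ q z := fun z => add_nonneg (hp.nonneg _) (hp.nonneg _)
  have hqS : Summable q := hpS.add ((Equiv.neg ℤ).summable_iff.2 hpS)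
  have hqm : Summable fun z : ℤ => |(z : ℝ)| * q z := by
    have h1 := hp.mean
    have h2 : Summable fun z : ℤ => |(z : ℝ)| * p (-z) := by
      have := (Equiv.neg ℤ).summable_iff.2 h1
      refine this.congr fun z => ?_
      simp [Function.comp]
    refine (h1.add h2).congr fun z => ?_
    simp only [hq]
    ring
  set S : ℕ → ℤ → ℝ := fun k z => ∑ x ∈ (Finset.Icc (a k) (b k)).filter
    (fun x => x + z ∉ Finset.Icc (a k) (b k)), w x (x + z) with hS
  have hS0 : ∀ k z, 0 ≤ S k z := fun k z => Finset.sum_nonneg fun x _ => hw0 _ _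
  -- exchange
  have hex : ∀ k, ∑ x ∈ Finset.Icc (a k) (b k), ∑' y : ℤ,
      (if y ∈ Finset.Icc (a k) (b k) then 0 else (p (y - x) + p (x - y)) * w x y) =
      ∑' z : ℤ, q z * S k z := by
    intro k
    have h1 : ∀ x, ∑' y : ℤ,
        (if y ∈ Finset.Icc (a k) (b k) then 0 else (p (y - x) + p (x - y)) * w x y) =
        ∑' z : ℤ, (if x + z ∈ Finset.Icc (a k) (b k) then 0 else q z * w x (x + z)) := by
      intro x
      rw [← (Equiv.addLeft x).tsum_eq]
      refine tsum_congr fun z => ?_
      simp only [Equiv.coe_addLeft, hq, add_sub_cancel_left, sub_add_cancel_left]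
    rw [Finset.sum_congr rfl fun x _ => h1 x, ← Summable.tsum_finsetSum]
    · refine tsum_congr fun z => ?_
      simp only [hS]
      rw [Finset.mul_sum, Finset.sum_filter]
      refine Finset.sum_congr rfl fun x _ => ?_
      by_cases h : x + z ∈ Finset.Icc (a k) (b k)
      · rw [if_pos h, if_neg (not_not.2 h)]
      · rw [if_neg h, if_pos h]
    · intro x _
      refine Summable.of_nonneg_of_le (fun z => ?_) (fun z => ?_) hqS
      · split_ifs
        · exact le_rfl
        · exact mul_nonneg (hq0 _) (hw0 _ _)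
      · split_ifs
        · exact hq0 z
        · exact mul_le_of_le_one_right (hq0 _) (hw1 _ _)
  simp only [hex]
  -- the inner sum
  have hup : ∀ k (z : ℤ), 0 ≤ z → S k z ≤ ∑ i ∈ Finset.range z.natAbs,
      w (b k + (-(i : ℤ))) (b k + (-(i : ℤ) + z)) := by
    intro k z hz
    have h1 : ∑ i ∈ Finset.range z.natAbs, w (b k + (-(i : ℤ))) (b k + (-(i : ℤ) + z)) =
        ∑ x ∈ (Finset.range z.natAbs).image (fun i : ℕ => b k + (-(i : ℤ))), w x (x + z) := by
      rw [Finset.sum_image]
      · refine Finset.sum_congr rfl fun i _ => ?_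
        rw [add_assoc]
      · intro i _ j _ hij
        simpa using hij
    rw [h1]
    refine Finset.sum_le_sum_of_subset_of_nonneg ?_ (fun x _ _ => hw0 _ _)
    intro x hx
    rw [Finset.mem_filter, Finset.mem_Icc, Finset.mem_Icc] at hx
    obtain ⟨⟨h2, h3⟩, h4⟩ := hx
    rw [Finset.mem_image]
    refine ⟨(b k - x).toNat, ?_, ?_⟩
    · rw [Finset.mem_range]
      by_contra hcon
      exact h4 ⟨by omega, by omega⟩
    · omega
  have hlo : ∀ k (z : ℤ), z ≤ 0 → S k z ≤ ∑ i ∈ Finset.range z.natAbs,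
      w (a k + (i : ℤ)) (a k + ((i : ℤ) + z)) := by
    intro k z hz
    have h1 : ∑ i ∈ Finset.range z.natAbs, w (a k + (i : ℤ)) (a k + ((i : ℤ) + z)) =
        ∑ x ∈ (Finset.range z.natAbs).image (fun i : ℕ => a k + (i : ℤ)), w x (x + z) := by
      rw [Finset.sum_image]
      · refine Finset.sum_congr rfl fun i _ => ?_
        rw [add_assoc]
      · intro i _ j _ hij
        simpa using hij
    rw [h1]
    refine Finset.sum_le_sum_of_subset_of_nonneg ?_ (fun x _ _ => hw0 _ _)
    intro x hx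
    rw [Finset.mem_filter, Finset.mem_Icc, Finset.mem_Icc] at hx
    obtain ⟨⟨h2, h3⟩, h4⟩ := hx
    rw [Finset.mem_image]
    refine ⟨(x - a k).toNat, ?_, ?_⟩
    · rw [Finset.mem_range]
      by_contra hcon
      exact h4 ⟨by omega, by omega⟩
    · omega
  have hlim : ∀ z : ℤ, Tendsto (fun k => S k z) atTop (𝓝 0) := by
    intro z
    rcases le_total 0 z with hz | hz
    · refine squeeze_zero (fun k => hS0 k z) (fun k => hup k z hz) ?_
      have := tendsto_finsetSum (Finset.range z.natAbs)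
        (fun i _ => hwb (-(i : ℤ)) (-(i : ℤ) + z))
      simpa using this
    · refine squeeze_zero (fun k => hS0 k z) (fun k => hlo k z hz) ?_
      have := tendsto_finsetSum (Finset.range z.natAbs)
        (fun i _ => hwa (i : ℤ) ((i : ℤ) + z))
      simpa using this
  have hbd : ∀ k (z : ℤ), S k z ≤ |(z : ℝ)| := by
    intro k z
    have e : (z.natAbs : ℝ) = |(z : ℝ)| := by
      rw [← Int.cast_abs, Int.abs_eq_natAbs]; rfl
    rw [← e]
    rcases le_total 0 z with hz | hz
    · refine (hup k z hz).trans ?_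
      refine (Finset.sum_le_sum fun i _ => hw1 _ _).trans ?_
      simp
    · refine (hlo k z hz).trans ?_
      refine (Finset.sum_le_sum fun i _ => hw1 _ _).trans ?_
      simp
  have := tendsto_tsum_of_dominated_convergence (𝓕 := atTop) (f := fun k z => q z * S k z)
    (g := fun _ => 0) (bound := fun z : ℤ => |(z : ℝ)| * q z) hqm
    (fun z => by simpa using (hlim z).const_mul (q z))
    (Eventually.of_forall fun k z => by
      rw [Real.norm_eq_abs, abs_of_nonneg (mul_nonneg (hq0 z) (hS0 k z)), mul_comm]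
      exact mul_le_mul_of_nonneg_right (hbd k z) (hq0 z))
  simpa using this

theorem t_RN : S_RN := by
  intro p hp μ hμ hpr
  obtain ⟨h0, h1⟩ := hpr
  have hms : ∀ x : ℤ, MeasurableSet {η : Conf | η x = true} := fun x =>
    measurableSet_eq_fun (measurable_pi_apply x) measurable_const
  have hle0 : ∀ x y : ℤ, μ.real {η | η x ≠ η y} ≤ rho μ x + rho μ y := by
    intro x y
    unfold rho
    refine (measureReal_mono ?_).trans (measureReal_union_le _ _)
    intro η hη
    rw [Set.mem_ofPred_eq] at hη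
    rw [Set.mem_union, Set.mem_ofPred_eq, Set.mem_ofPred_eq]
    cases hx : η x <;> cases hy : η y <;> simp_all
  have hle1 : ∀ x y : ℤ, μ.real {η | η x ≠ η y} ≤ (1 - rho μ x) + (1 - rho μ y) := by
    intro x y
    have e : ∀ x, 1 - rho μ x = μ.real {η : Conf | η x = true}ᶜ := by
      intro x
      unfold rho
      rw [probReal_compl_eq_one_sub (hms x)]
    rw [e, e]
    refine (measureReal_mono ?_).trans (measureReal_union_le _ _)
    intro η hη
    rw [Set.mem_ofPred_eq] at hη
    rw [Set.mem_union, Set.mem_compl_iff, Set.mem_compl_iff, Set.mem_ofPred_eq, Set.mem_ofPred_eq]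
    cases hx : η x <;> cases hy : η y <;> simp_all
  have ta : Tendsto (fun n : ℕ => -(n : ℤ)) atTop atBot :=
    tendsto_neg_atTop_atBot.comp tendsto_natCast_atTop_atTop
  have tb : Tendsto (fun n : ℕ => (n : ℤ)) atTop atTop := tendsto_natCast_atTop_atTop
  have := t_BDY p hp (fun x y => μ.real {η | η x ≠ η y}) (fun x y => measureReal_nonneg)
    (fun x y => measureReal_le_one) (fun n => -(n : ℤ)) (fun n => (n : ℤ)) ta tb
    (fun i j => by
      refine squeeze_zero (fun k => measureReal_nonneg) (fun k => hle0 _ _) ?_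
      have e1 : Tendsto (fun k : ℕ => rho μ (-(k : ℤ) + i)) atTop (𝓝 0) :=
        h0.comp (tendsto_atBot_add_const_right _ i ta)
      have e2 : Tendsto (fun k : ℕ => rho μ (-(k : ℤ) + j)) atTop (𝓝 0) :=
        h0.comp (tendsto_atBot_add_const_right _ j ta)
      simpa using e1.add e2)
    (fun i j => by
      refine squeeze_zero (fun k => measureReal_nonneg) (fun k => hle1 _ _) ?_
      have e1 : Tendsto (fun k : ℕ => rho μ ((k : ℤ) + i)) atTop (𝓝 1) :=
        h1.comp (tendsto_atTop_add_const_right _ i tb)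
      have e2 : Tendsto (fun k : ℕ => rho μ ((k : ℤ) + j)) atTop (𝓝 1) :=
        h1.comp (tendsto_atTop_add_const_right _ j tb)
      have e3 := (e1.const_sub 1).add (e2.const_sub 1)
      simpa using e3)
  exact this

end Pool.Agent.N959.EX
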