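import Pool.Agent.N959.EX.Def

/-! # EX/COND: restriction of a stationary coupling to the ordered pairs (helper222) -/

set_option autoImplicit false

open MeasureTheory Filter Topology

namespace Pool.Agent.N959.EX

namespace CondP

/-! ### moves -/

lemma mv_apply (x y u : ℤ) (η : Conf) :
    mv x y η u = if u = x then (η x && η y) else if u = y then (η x || η y) else η u := by
  unfold mv sw
  by_cases hux : u = x
  · subst hux
    cases h1 : η u <;> cases h2 : η y <;> simp_all
  · by_cases huy : u = y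
    · subst huy
      cases h1 : η x <;> cases h2 : η u <;> simp_all
    · cases h1 : η x <;> cases h2 : η y <;> simp_all

lemma mv_other {x y u : ℤ} (hx : u ≠ x) (hy : u ≠ y) (η : Conf) : mv x y η u = η u := by
  rw [mv_apply, if_neg hx, if_neg hy]

lemma mv_x (x y : ℤ) (η : Conf) : mv x y η x = (η x && η y) := by
  rw [mv_apply, if_pos rfl]

lemma mv_y (x y : ℤ) (η : Conf) : mv x y η y = (η x || η y) := by
  rw [mv_apply]
  by_cases h : y = x
  · subst h; simp
  · rw [if_neg h, if_pos rfl]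

/-- a discrepancy of the bad sign -/
def bad (z : Conf × Conf) (u : ℤ) : Prop := z.1 u = true ∧ z.2 u = false

/-- no bad discrepancies in `I` -/
def Hp (I : Finset ℤ) (z : Conf × Conf) : Prop := ∀ x ∈ I, z.1 x = true → z.2 x = true

lemma Hp_iff (I : Finset ℤ) (z : Conf × Conf) : Hp I z ↔ ∀ x ∈ I, ¬ bad z x := by
  unfold Hp bad
  refine forall₂_congr fun x _ => ?_
  cases z.1 x <;> cases z.2 x <;> simp

lemma bad_other {x y u : ℤ} (hx : u ≠ x) (hy : u ≠ y) (z : Conf × Conf) :
    bad (mv2 x y z) u ↔ bad z u := by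
  unfold bad mv2
  simp only [mv_other hx hy]

/-- all discrepancies of one sign -/
def Good (z : Conf × Conf) : Prop :=
  ∀ x y : ℤ, ¬ (z.1 x = true ∧ z.2 x = false ∧ z.1 y = false ∧ z.2 y = true)

lemma split_Hp {I : Finset ℤ} {x y : ℤ} (hx : x ∈ I) (hy : y ∈ I) (z : Conf × Conf) :
    Hp I z ↔ (∀ u ∈ I, u ≠ x → u ≠ y → ¬ bad z u) ∧ ¬ (bad z x ∨ bad z y) := by
  rw [Hp_iff]
  constructor
  · intro h
    exact ⟨fun u hu _ _ => h u hu, fun hc => hc.elim (h x hx) (h y hy)⟩
  · rintro ⟨h1, h2⟩ u hu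
    push Not at h2
    by_cases hux : u = x
    · rw [hux]; exact h2.1
    · by_cases huy : u = y
      · rw [huy]; exact h2.2
      · exact h1 u hu hux huy

lemma both {I : Finset ℤ} {z : Conf × Conf} (hz : Good z) {x y : ℤ} (hx : x ∈ I) (hy : y ∈ I) :
    Hp I (mv2 x y z) ↔ Hp I z := by
  rw [split_Hp hx hy, split_Hp hx hy]
  refine and_congr (forall₂_congr fun u _ => forall₂_congr fun hux huy => ?_) (not_congr ?_)
  · rw [bad_other hux huy]
  · by_cases hB : ∃ u, bad z u
    · obtain ⟨u, hu⟩ := hB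
      have hxx : ¬ (z.1 x = false ∧ z.2 x = true) := fun h => hz u x ⟨hu.1, hu.2, h.1, h.2⟩
      have hyy : ¬ (z.1 y = false ∧ z.2 y = true) := fun h => hz u y ⟨hu.1, hu.2, h.1, h.2⟩
      unfold bad mv2
      simp only [mv_x, mv_y]
      revert hxx hyy
      cases z.1 x <;> cases z.2 x <;> cases z.1 y <;> cases z.2 y <;> simp
    · push Not at hB
      have hxx := hB x
      have hyy := hB y
      unfold bad at hxx hyy
      unfold bad mv2
      simp only [mv_x, mv_y]
      revert hxx hyy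
      cases z.1 x <;> cases z.2 x <;> cases z.1 y <;> cases z.2 y <;> simp

lemma step {I : Finset ℤ} {z : Conf × Conf} (hz : Good z) (x y : ℤ)
    (h : ¬ (Hp I (mv2 x y z) ↔ Hp I z)) :
    ((x ∈ I ∧ y ∉ I) ∨ (x ∉ I ∧ y ∈ I)) ∧ (z.1 x ≠ z.2 x ∨ z.1 y ≠ z.2 y) := by
  constructor
  · by_contra hc
    apply h
    by_cases hxI : x ∈ I
    · have hyI : y ∈ I := by tauto
      exact both hz hxI hyI
    · have hyI : y ∉ I := by tauto
      rw [Hp_iff, Hp_iff]
      refine forall₂_congr fun u hu => ?_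
      rw [bad_other (fun e => hxI (by rw [← e]; exact hu)) (fun e => hyI (by rw [← e]; exact hu))]
  · rw [Hp_iff, Hp_iff] at h
    by_contra hc
    push Not at hc
    obtain ⟨h1, h2⟩ := hc
    apply h
    refine forall₂_congr fun u hu => ?_
    by_cases hux : u = x
    · subst hux
      unfold bad mv2
      simp only [mv_x, h1, h2]
      cases z.2 u <;> cases z.2 y <;> simp
    · by_cases huy : u = y
      · subst huy
        unfold bad mv2
        simp only [mv_y, h1, h2]
        cases z.2 x <;> cases z.2 u <;> simp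
      · rw [bad_other hux huy]

/-! ### functions of finitely many sites -/

lemma meas_coord1 (x : ℤ) : Measurable (fun z : Conf × Conf => z.1 x) :=
  (measurable_pi_apply x).comp measurable_fst

lemma meas_coord2 (x : ℤ) : Measurable (fun z : Conf × Conf => z.2 x) :=
  (measurable_pi_apply x).comp measurable_snd

/-- restriction to the box -/
def res (n : ℕ) (z : Conf × Conf) : (Lam n) → Bool × Bool := fun x => (z.1 x, z.2 x)

open Classical in
/-- extension from the box -/
noncomputable def ext (n : ℕ) (r : (Lam n) → Bool × Bool) : Conf × Conf :=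
  (fun x => if h : x ∈ Lam n then (r ⟨x, h⟩).1 else false,
    fun x => if h : x ∈ Lam n then (r ⟨x, h⟩).2 else false)

lemma F_eq {n : ℕ} {F : Conf × Conf → ℝ} (hF : Dep2 n F) (z : Conf × Conf) :
    F z = (F ∘ ext n) (res n z) := by
  simp only [Function.comp_apply]
  apply hF
  intro x hx
  simp [ext, res, hx]

lemma meas_F {n : ℕ} {F : Conf × Conf → ℝ} (hF : Dep2 n F) : Measurable F := by
  have h1 : Measurable (res n) := by
    refine measurable_pi_lambda _ fun x => ?_
    exact (meas_coord1 _).prodMk (meas_coord2 _)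
  have h2 : Measurable (F ∘ ext n) := measurable_of_countable _
  have : F = (F ∘ ext n) ∘ res n := by
    funext z
    exact F_eq hF z
  rw [this]
  exact h2.comp h1

lemma bdd_F {n : ℕ} {F : Conf × Conf → ℝ} (hF : Dep2 n F) : ∃ C : ℝ, 0 ≤ C ∧ ∀ z, |F z| ≤ C := by
  obtain ⟨C, hC⟩ := (Set.finite_range (fun r => |(F ∘ ext n) r|)).bddAbove
  refine ⟨max C 0, le_max_right _ _, fun z => ?_⟩
  rw [F_eq hF z]
  exact (hC ⟨_, rfl⟩).trans (le_max_left _ _)

lemma F_mv {n : ℕ} {F : Conf × Conf → ℝ} (hF : Dep2 n F) {x y : ℤ} (hx : x ∉ Lam n)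
    (hy : y ∉ Lam n) (z : Conf × Conf) : F (mv2 x y z) = F z := by
  apply hF
  intro u hu
  have h1 : u ≠ x := fun e => hx (by rw [← e]; exact hu)
  have h2 : u ≠ y := fun e => hy (by rw [← e]; exact hu)
  unfold mv2
  simp only [mv_other h1 h2]
  exact ⟨trivial, trivial⟩

/-! ### rows and columns -/

lemma hasSum_rc (I : Finset ℤ) (r c : ℤ → ℤ → ℝ) (hr : ∀ x ∈ I, Summable (r x))
    (hc : ∀ x ∈ I, Summable (c x)) :
    HasSum (fun w : ℤ × ℤ => (if w.1 ∈ I then r w.1 w.2 else 0) +
      (if w.2 ∈ I then c w.2 w.1 else 0)) (∑ x ∈ I, (∑' y, r x y + ∑' y, c x y)) := by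
  have key : HasSum (fun w : ℤ × ℤ => ∑ x ∈ I, ((if w.1 = x then r x w.2 else 0) +
      (if w.2 = x then c x w.1 else 0))) (∑ x ∈ I, (∑' y, r x y + ∑' y, c x y)) := by
    refine hasSum_sum fun x hx => HasSum.add ?_ ?_
    · have hinj : Function.Injective (fun y : ℤ => ((x, y) : ℤ × ℤ)) := fun y y' h => by
        simpa using h
      rw [← hinj.hasSum_iff]
      · have : (fun w : ℤ × ℤ => if w.1 = x then r x w.2 else 0) ∘ (fun y : ℤ => ((x, y) : ℤ × ℤ)) =
            r x := by
          funext y; simp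
        rw [this]
        exact (hr x hx).hasSum
      · rintro ⟨a, b⟩ hab
        rw [if_neg]
        rintro rfl
        exact hab ⟨b, rfl⟩
    · have hinj : Function.Injective (fun y : ℤ => ((y, x) : ℤ × ℤ)) := fun y y' h => by
        simpa using h
      rw [← hinj.hasSum_iff]
      · have : (fun w : ℤ × ℤ => if w.2 = x then c x w.1 else 0) ∘ (fun y : ℤ => ((y, x) : ℤ × ℤ)) =
            c x := by
          funext y; simp
        rw [this]
        exact (hc x hx).hasSum
      · rintro ⟨a, b⟩ hab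
        rw [if_neg]
        rintro rfl
        exact hab ⟨a, rfl⟩
  convert key using 1
  funext w
  rw [Finset.sum_add_distrib]
  congr 1 <;> simp

/-! ### the generator -/

/-- majorant of the rates -/
noncomputable def M0 (p : ℤ → ℝ) (I : Finset ℤ) (w : ℤ × ℤ) : ℝ :=
  (if w.1 ∈ I then p (w.2 - w.1) else 0) + (if w.2 ∈ I then p (w.2 - w.1) else 0)

lemma sum_r {p : ℤ → ℝ} (hp : Ker p) (x : ℤ) : Summable (fun y => p (y - x)) :=
  hp.sum.summable.comp_injective (sub_left_injective)

lemma sum_c {p : ℤ → ℝ} (hp : Ker p) (x : ℤ) : Summable (fun y => p (x - y)) :=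
  hp.sum.summable.comp_injective (sub_right_injective)

lemma M0_summable {p : ℤ → ℝ} (hp : Ker p) (I : Finset ℤ) : Summable (M0 p I) :=
  (hasSum_rc I (fun x y => p (y - x)) (fun x y => p (x - y)) (fun x _ => sum_r hp x)
    (fun x _ => sum_c hp x)).summable

lemma M0_nonneg {p : ℤ → ℝ} (hp : Ker p) (I : Finset ℤ) (w : ℤ × ℤ) : 0 ≤ M0 p I w := by
  unfold M0
  have := hp.nonneg (w.2 - w.1)
  split_ifs <;> positivity

lemma term_le {p : ℤ → ℝ} (hp : Ker p) {n : ℕ} {F : Conf × Conf → ℝ} (hF : Dep2 n F) {C : ℝ}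
    (hC0 : 0 ≤ C) (hC : ∀ z, |F z| ≤ C) (z : Conf × Conf) (w : ℤ × ℤ) :
    ‖p (w.2 - w.1) * (F (mv2 w.1 w.2 z) - F z)‖ ≤ (2 * C) * M0 p (Lam n) w := by
  have hpn := hp.nonneg (w.2 - w.1)
  by_cases h : w.1 ∉ Lam n ∧ w.2 ∉ Lam n
  · rw [F_mv hF h.1 h.2, sub_self, mul_zero, norm_zero]
    have := M0_nonneg hp (Lam n) w
    positivity
  · have h1 : p (w.2 - w.1) ≤ M0 p (Lam n) w := by
      unfold M0
      by_cases h1 : w.1 ∈ Lam n
      · rw [if_pos h1]
        split_ifs <;> linarith
      · have h2 : w.2 ∈ Lam n := by tauto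
        rw [if_neg h1, if_pos h2, zero_add]
    rw [norm_mul, Real.norm_of_nonneg hpn, Real.norm_eq_abs]
    have h2 : |F (mv2 w.1 w.2 z) - F z| ≤ 2 * C := by
      have := abs_sub (F (mv2 w.1 w.2 z)) (F z)
      have := hC (mv2 w.1 w.2 z)
      have := hC z
      linarith
    calc _ ≤ p (w.2 - w.1) * (2 * C) := mul_le_mul_of_nonneg_left h2 hpn
      _ ≤ M0 p (Lam n) w * (2 * C) := mul_le_mul_of_nonneg_right h1 (by positivity)
      _ = _ := by ring

lemma gen_summable {p : ℤ → ℝ} (hp : Ker p) {n : ℕ} {F : Conf × Conf → ℝ} (hF : Dep2 n F)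
    (z : Conf × Conf) : Summable (fun w : ℤ × ℤ => p (w.2 - w.1) * (F (mv2 w.1 w.2 z) - F z)) := by
  obtain ⟨C, hC0, hC⟩ := bdd_F hF
  exact Summable.of_norm_bounded ((M0_summable hp (Lam n)).mul_left (2 * C))
    (term_le hp hF hC0 hC z)

lemma gen_bdd {p : ℤ → ℝ} (hp : Ker p) {n : ℕ} {F : Conf × Conf → ℝ} (hF : Dep2 n F) :
    ∃ C : ℝ, 0 ≤ C ∧ ∀ z, |gen mv2 p F z| ≤ C := by
  obtain ⟨C, hC0, hC⟩ := bdd_F hF
  have hM : 0 ≤ ∑' w, M0 p (Lam n) w := tsum_nonneg (M0_nonneg hp _)
  refine ⟨(2 * C) * ∑' w, M0 p (Lam n) w, by positivity, fun z => ?_⟩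
  rw [← Real.norm_eq_abs]
  exact tsum_of_norm_bounded ((M0_summable hp (Lam n)).hasSum.mul_left (2 * C))
    (term_le hp hF hC0 hC z)

lemma tsum_meas {ι α : Type*} [Countable ι] [MeasurableSpace α] (f : ι → α → ℝ)
    (hm : ∀ i, Measurable (f i)) (hs : ∀ z, Summable (fun i => f i z)) :
    Measurable (fun z => ∑' i, f i z) := by
  refine measurable_of_tendsto_metrizable' (atTop : Filter (Finset ι))
    (f := fun s z => ∑ i ∈ s, f i z) (fun s => Finset.measurable_fun_sum s fun i _ => hm i)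
    (tendsto_pi_nhds.2 fun z => (hs z).hasSum)

lemma mv_meas (x y : ℤ) : Measurable (mv x y) := by
  refine measurable_pi_lambda _ fun u => ?_
  have hx : Measurable (fun η : Conf => η x) := measurable_pi_apply x
  have hy : Measurable (fun η : Conf => η y) := measurable_pi_apply y
  have hu : Measurable (fun η : Conf => η u) := measurable_pi_apply u
  have hxy : Measurable (fun η : Conf => (η x, η y)) := hx.prodMk hy
  have hand : Measurable (fun b : Bool × Bool => b.1 && b.2) := measurable_of_countable _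
  have hor : Measurable (fun b : Bool × Bool => b.1 || b.2) := measurable_of_countable _
  simp only [mv_apply]
  by_cases h1 : u = x
  · simp only [h1, if_true]
    exact hand.comp hxy
  · by_cases h2 : u = y
    · have h3 : ¬ y = x := fun e => h1 (h2.trans e)
      simp only [h2, h3, if_true, if_false]
      exact hor.comp hxy
    · simp only [h1, h2, if_false]
      exact hu

lemma mv2_meas (x y : ℤ) : Measurable (mv2 x y) :=
  ((mv_meas x y).comp measurable_fst).prodMk ((mv_meas x y).comp measurable_snd)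

lemma gen_meas {p : ℤ → ℝ} (hp : Ker p) {n : ℕ} {F : Conf × Conf → ℝ} (hF : Dep2 n F) :
    Measurable (gen mv2 p F) := by
  have h1 := meas_F hF
  exact tsum_meas (fun w : ℤ × ℤ => fun z => p (w.2 - w.1) * (F (mv2 w.1 w.2 z) - F z))
    (fun w => ((h1.comp (mv2_meas w.1 w.2)).sub h1).const_mul _) (gen_summable hp hF)

/-! ### the cut-off -/

open Classical in
/-- indicator of `Hp` -/
noncomputable def hI (I : Finset ℤ) (z : Conf × Conf) : ℝ := if Hp I z then 1 else 0

open Classical in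
/-- indicator of a discrepancy at `x` -/
noncomputable def dd (z : Conf × Conf) (x : ℤ) : ℝ := if z.1 x ≠ z.2 x then 1 else 0

lemma hI_congr {I : Finset ℤ} {z w : Conf × Conf} (h : Hp I z ↔ Hp I w) : hI I z = hI I w := by
  unfold hI
  by_cases h1 : Hp I z
  · rw [if_pos h1, if_pos (h.1 h1)]
  · rw [if_neg h1, if_neg (fun h2 => h1 (h.2 h2))]

lemma hI_abs (I : Finset ℤ) (z : Conf × Conf) : |hI I z| ≤ 1 := by
  unfold hI; split_ifs <;> simp

lemma dd_nonneg (z : Conf × Conf) (x : ℤ) : 0 ≤ dd z x := by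
  unfold dd; split_ifs <;> simp

lemma dd_le (z : Conf × Conf) (x : ℤ) : dd z x ≤ 1 := by
  unfold dd; split_ifs <;> simp

lemma exists_box (n : ℕ) (I : Finset ℤ) : ∃ N : ℕ, Lam n ⊆ Lam N ∧ I ⊆ Lam N := by
  refine ⟨n + I.sup Int.natAbs, ?_, ?_⟩
  · intro x hx
    unfold Lam at *
    rw [Finset.mem_Icc] at *
    push_cast
    omega
  · intro x hx
    have : x.natAbs ≤ I.sup Int.natAbs := Finset.le_sup hx
    unfold Lam
    rw [Finset.mem_Icc]
    push_cast
    omega

lemma dep_mul {n : ℕ} {F : Conf × Conf → ℝ} (hF : Dep2 n F) (I : Finset ℤ) :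
    ∃ N, Dep2 N (fun z => hI I z * F z) := by
  obtain ⟨N, h1, h2⟩ := exists_box n I
  refine ⟨N, fun z w hzw => ?_⟩
  have e1 : F z = F w := hF z w fun x hx => hzw x (h1 hx)
  have e2 : Hp I z ↔ Hp I w := by
    unfold Hp
    refine forall₂_congr fun x hx => ?_
    rw [(hzw x (h2 hx)).1, (hzw x (h2 hx)).2]
  have e3 : hI I z = hI I w := hI_congr e2
  change hI I z * F z = hI I w * F w
  rw [e1, e3]

lemma hI_dep (I : Finset ℤ) : ∃ N, Dep2 N (hI I) := by
  obtain ⟨N, h⟩ := dep_mul (n := 0) (F := fun _ => (1 : ℝ)) (fun _ _ _ => rfl) I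
  refine ⟨N, fun z w hzw => ?_⟩
  have := h z w hzw
  simpa using this

lemma hI_meas (I : Finset ℤ) : Measurable (hI I) := by
  obtain ⟨N, h⟩ := hI_dep I
  exact meas_F h

lemma hI_step {I : Finset ℤ} {z : Conf × Conf} (hz : Good z) (x y : ℤ) :
    |hI I (mv2 x y z) - hI I z| ≤
      (if x ∈ I then (if y ∈ I then 0 else dd z x + dd z y) else 0) +
      (if y ∈ I then (if x ∈ I then 0 else dd z y + dd z x) else 0) := by
  have h1 := dd_nonneg z x
  have h2 := dd_nonneg z y
  have hpos : 0 ≤ (if x ∈ I then (if y ∈ I then 0 else dd z x + dd z y) else 0) +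
      (if y ∈ I then (if x ∈ I then 0 else dd z y + dd z x) else 0) := by
    split_ifs <;> positivity
  by_cases h : Hp I (mv2 x y z) ↔ Hp I z
  · have : hI I (mv2 x y z) = hI I z := hI_congr h
    rw [this, sub_self, abs_zero]
    exact hpos
  · obtain ⟨h3, h4⟩ := step hz x y h
    have h5 : 1 ≤ dd z x + dd z y := by
      rcases h4 with h4 | h4
      · have : dd z x = 1 := by unfold dd; rw [if_pos h4]
        linarith
      · have : dd z y = 1 := by unfold dd; rw [if_pos h4]
        linarith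
    have h6 : |hI I (mv2 x y z) - hI I z| ≤ 1 := by
      unfold hI
      split_ifs <;> simp
    rcases h3 with ⟨ha, hb⟩ | ⟨ha, hb⟩
    · rw [if_pos ha, if_neg hb, if_neg hb]; linarith
    · rw [if_neg ha, if_pos hb, if_neg ha]; linarith

/-- majorant of the boundary terms -/
noncomputable def R (p : ℤ → ℝ) (I : Finset ℤ) (x y : ℤ) (z : Conf × Conf) : ℝ :=
  if y ∈ I then 0 else (p (y - x) + p (x - y)) * (dd z x + dd z y)

lemma R_nonneg {p : ℤ → ℝ} (hp : Ker p) (I : Finset ℤ) (x y : ℤ) (z : Conf × Conf) :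
    0 ≤ R p I x y z := by
  unfold R
  have h1 := dd_nonneg z x
  have h2 := dd_nonneg z y
  have h3 := hp.nonneg (y - x)
  have h4 := hp.nonneg (x - y)
  split_ifs <;> positivity

lemma R_le {p : ℤ → ℝ} (hp : Ker p) (I : Finset ℤ) (x y : ℤ) (z : Conf × Conf) :
    R p I x y z ≤ 2 * (p (y - x) + p (x - y)) := by
  unfold R
  have h1 := dd_nonneg z x
  have h2 := dd_nonneg z y
  have h3 := hp.nonneg (y - x)
  have h4 := hp.nonneg (x - y)
  have h5 := dd_le z x
  have h6 := dd_le z y
  split_ifs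
  · positivity
  · nlinarith

lemma R_summable {p : ℤ → ℝ} (hp : Ker p) (I : Finset ℤ) (x : ℤ) (z : Conf × Conf) :
    Summable (fun y => R p I x y z) :=
  Summable.of_nonneg_of_le (fun y => R_nonneg hp I x y z) (fun y => R_le hp I x y z)
    (((sum_r hp x).add (sum_c hp x)).mul_left 2)

lemma dd_meas (x : ℤ) : Measurable (fun z => dd z x) := by
  have h : Measurable (fun b : Bool × Bool => if b.1 ≠ b.2 then (1 : ℝ) else 0) :=
    measurable_of_countable _
  have h2 := h.comp ((meas_coord1 x).prodMk (meas_coord2 x))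
  have e : (fun z => dd z x) = (fun b : Bool × Bool => if b.1 ≠ b.2 then (1 : ℝ) else 0) ∘
      fun a : Conf × Conf => (a.1 x, a.2 x) := by
    funext z
    simp only [dd, Function.comp_apply]
  rw [e]
  exact h2

lemma R_meas {p : ℤ → ℝ} (I : Finset ℤ) (x y : ℤ) : Measurable (R p I x y) := by
  unfold R
  by_cases h : y ∈ I
  · simp only [h, if_true]; exact measurable_const
  · simp only [h, if_false]
    exact ((dd_meas x).add (dd_meas y)).const_mul _

/-- the boundary majorant -/
noncomputable def GG (p : ℤ → ℝ) (I : Finset ℤ) (z : Conf × Conf) : ℝ :=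
  ∑ x ∈ I, ∑' y, R p I x y z

lemma GG_nonneg {p : ℤ → ℝ} (hp : Ker p) (I : Finset ℤ) (z : Conf × Conf) : 0 ≤ GG p I z :=
  Finset.sum_nonneg fun x _ => tsum_nonneg fun y => R_nonneg hp I x y z

lemma diff_le {p : ℤ → ℝ} (hp : Ker p) {n : ℕ} {F : Conf × Conf → ℝ} (hF : Dep2 n F) {C : ℝ}
    (hC : ∀ z, |F z| ≤ C) (I : Finset ℤ) {z : Conf × Conf} (hz : Good z) :
    |gen mv2 p (fun z => hI I z * F z) z - hI I z * gen mv2 p F z| ≤ C * GG p I z := by
  obtain ⟨N, hN⟩ := dep_mul hF I
  have s1 := (gen_summable hp hN z).hasSum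
  have s2 := (gen_summable hp hF z).hasSum.mul_left (hI I z)
  have s3 := s1.sub s2
  have e : ∀ w : ℤ × ℤ, p (w.2 - w.1) * (hI I (mv2 w.1 w.2 z) * F (mv2 w.1 w.2 z) - hI I z * F z) -
      hI I z * (p (w.2 - w.1) * (F (mv2 w.1 w.2 z) - F z)) =
      p (w.2 - w.1) * ((hI I (mv2 w.1 w.2 z) - hI I z) * F (mv2 w.1 w.2 z)) := by
    intro w; ring
  simp only [e] at s3
  have hr : ∀ x ∈ I, Summable (fun y => if y ∈ I then 0 else p (y - x) * (dd z x + dd z y)) := by
    intro x _
    refine Summable.of_nonneg_of_le (fun y => ?_) (fun y => ?_) ((sum_r hp x).mul_left 2)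
    · have h1 := dd_nonneg z x
      have h2 := dd_nonneg z y
      have h3 := hp.nonneg (y - x)
      split_ifs <;> positivity
    · have h1 := dd_le z x
      have h2 := dd_le z y
      have h3 := hp.nonneg (y - x)
      split_ifs
      · positivity
      · nlinarith
  have hc : ∀ x ∈ I, Summable (fun y => if y ∈ I then 0 else p (x - y) * (dd z x + dd z y)) := by
    intro x _
    refine Summable.of_nonneg_of_le (fun y => ?_) (fun y => ?_) ((sum_c hp x).mul_left 2)
    · have h1 := dd_nonneg z x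
      have h2 := dd_nonneg z y
      have h3 := hp.nonneg (x - y)
      split_ifs <;> positivity
    · have h1 := dd_le z x
      have h2 := dd_le z y
      have h3 := hp.nonneg (x - y)
      split_ifs
      · positivity
      · nlinarith
  have key := (hasSum_rc I (fun x y => if y ∈ I then 0 else p (y - x) * (dd z x + dd z y))
    (fun x y => if y ∈ I then 0 else p (x - y) * (dd z x + dd z y)) hr hc).mul_left C
  have eG : (∑ x ∈ I, (∑' y, (if y ∈ I then 0 else p (y - x) * (dd z x + dd z y)) +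
      ∑' y, (if y ∈ I then 0 else p (x - y) * (dd z x + dd z y)))) = GG p I z := by
    unfold GG
    refine Finset.sum_congr rfl fun x hx => ?_
    rw [← (hr x hx).tsum_add (hc x hx)]
    refine tsum_congr fun y => ?_
    unfold R
    split_ifs
    · simp
    · ring
  rw [eG] at key
  have hb : ∀ w : ℤ × ℤ, ‖p (w.2 - w.1) * ((hI I (mv2 w.1 w.2 z) - hI I z) *
      F (mv2 w.1 w.2 z))‖ ≤ C * ((if w.1 ∈ I then (if w.2 ∈ I then 0 else
        p (w.2 - w.1) * (dd z w.1 + dd z w.2)) else 0) +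
      (if w.2 ∈ I then (if w.1 ∈ I then 0 else p (w.2 - w.1) * (dd z w.2 + dd z w.1)) else 0)) := by
    intro w
    have hpn := hp.nonneg (w.2 - w.1)
    have h1 := hI_step (I := I) hz w.1 w.2
    have h2 := hC (mv2 w.1 w.2 z)
    rw [norm_mul, norm_mul, Real.norm_of_nonneg hpn, Real.norm_eq_abs, Real.norm_eq_abs]
    have h3 : |hI I (mv2 w.1 w.2 z) - hI I z| * |F (mv2 w.1 w.2 z)| ≤
        ((if w.1 ∈ I then (if w.2 ∈ I then 0 else dd z w.1 + dd z w.2) else 0) +
      (if w.2 ∈ I then (if w.1 ∈ I then 0 else dd z w.2 + dd z w.1) else 0)) * C :=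
      mul_le_mul h1 h2 (abs_nonneg _) (le_trans (abs_nonneg _) h1)
    refine (mul_le_mul_of_nonneg_left h3 hpn).trans (le_of_eq ?_)
    split_ifs <;> ring
  have hfin := s3.tsum_eq
  have h4 := tsum_of_norm_bounded key hb
  rw [hfin, Real.norm_eq_abs] at h4
  exact h4

/-! ### integration -/

lemma bdd_int {π : Measure (Conf × Conf)} [IsProbabilityMeasure π] {f : Conf × Conf → ℝ}
    (hm : Measurable f) {C : ℝ} (hC : ∀ z, |f z| ≤ C) : Integrable f π :=
  Integrable.of_bound hm.aestronglyMeasurable C (Eventually.of_forall hC)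

lemma dd_int (π : Measure (Conf × Conf)) [IsProbabilityMeasure π] (x : ℤ) :
    Integrable (fun z => dd z x) π := by
  refine bdd_int (dd_meas x) (C := 1) fun z => ?_
  rw [abs_of_nonneg (dd_nonneg z x)]
  exact dd_le z x

lemma meas_disc (x : ℤ) : MeasurableSet {z : Conf × Conf | z.1 x ≠ z.2 x} := by
  have h : MeasurableSet {b : Bool × Bool | b.1 ≠ b.2} := Set.to_countable _ |>.measurableSet
  exact ((meas_coord1 x).prodMk (meas_coord2 x)) h

lemma int_dd (π : Measure (Conf × Conf)) [IsProbabilityMeasure π] (x : ℤ) :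
    ∫ z, dd z x ∂π = π.real {z | z.1 x ≠ z.2 x} := by
  have e : (fun z => dd z x) = Set.indicator {z : Conf × Conf | z.1 x ≠ z.2 x} (fun _ => (1 : ℝ)) := by
    funext z
    unfold dd
    by_cases h : z.1 x ≠ z.2 x
    · rw [if_pos h, Set.indicator_of_mem (by exact h)]
    · rw [if_neg h, Set.indicator_of_notMem (by exact h)]
  rw [e, integral_indicator (meas_disc x), setIntegral_const, smul_eq_mul, mul_one]

lemma R_abs {p : ℤ → ℝ} (hp : Ker p) (I : Finset ℤ) (x y : ℤ) (z : Conf × Conf) :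
    |R p I x y z| ≤ 2 * (p (y - x) + p (x - y)) := by
  rw [abs_of_nonneg (R_nonneg hp I x y z)]
  exact R_le hp I x y z

lemma R_int {p : ℤ → ℝ} (hp : Ker p) (π : Measure (Conf × Conf)) [IsProbabilityMeasure π]
    (I : Finset ℤ) (x y : ℤ) : Integrable (R p I x y) π :=
  bdd_int (R_meas I x y) (R_abs hp I x y)

lemma int_R (p : ℤ → ℝ) (π : Measure (Conf × Conf)) [IsProbabilityMeasure π]
    (I : Finset ℤ) (x y : ℤ) : ∫ z, R p I x y z ∂π = if y ∈ I then 0 else
      (p (y - x) + p (x - y)) * (π.real {z | z.1 x ≠ z.2 x} + π.real {z | z.1 y ≠ z.2 y}) := by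
  unfold R
  by_cases h : y ∈ I
  · simp only [h, if_true, integral_zero]
  · simp only [h, if_false]
    rw [integral_const_mul, integral_add (dd_int π x) (dd_int π y), int_dd, int_dd]

lemma row_meas {p : ℤ → ℝ} (hp : Ker p) (I : Finset ℤ) (x : ℤ) :
    Measurable (fun z => ∑' y, R p I x y z) :=
  tsum_meas (fun y z => R p I x y z) (fun y => R_meas I x y) (R_summable hp I x)

lemma row_abs {p : ℤ → ℝ} (hp : Ker p) (I : Finset ℤ) (x : ℤ) (z : Conf × Conf) :
    |∑' y, R p I x y z| ≤ ∑' y, 2 * (p (y - x) + p (x - y)) := by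
  rw [← Real.norm_eq_abs]
  exact tsum_of_norm_bounded (((sum_r hp x).add (sum_c hp x)).mul_left 2).hasSum
    (fun y => by rw [Real.norm_eq_abs]; exact R_abs hp I x y z)

lemma row_int {p : ℤ → ℝ} (hp : Ker p) (π : Measure (Conf × Conf)) [IsProbabilityMeasure π]
    (I : Finset ℤ) (x : ℤ) : Integrable (fun z => ∑' y, R p I x y z) π :=
  bdd_int (row_meas hp I x) (row_abs hp I x)

lemma int_row {p : ℤ → ℝ} (hp : Ker p) (π : Measure (Conf × Conf)) [IsProbabilityMeasure π]
    (I : Finset ℤ) (x : ℤ) : ∫ z, ∑' y, R p I x y z ∂π = ∑' y, ∫ z, R p I x y z ∂π := by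
  symm
  refine (hasSum_integral_of_summable_integral_norm (fun y => R_int hp π I x y) ?_).tsum_eq
  refine Summable.of_nonneg_of_le (fun y => integral_nonneg fun z => norm_nonneg _) (fun y => ?_)
    (((sum_r hp x).add (sum_c hp x)).mul_left 2)
  have h1 : ∫ z, ‖R p I x y z‖ ∂π ≤ ∫ z, 2 * (p (y - x) + p (x - y)) ∂π := by
    refine integral_mono (R_int hp π I x y).norm (integrable_const _) fun z => ?_
    rw [Real.norm_eq_abs]
    exact R_abs hp I x y z
  simpa using h1

lemma GG_int {p : ℤ → ℝ} (hp : Ker p) (π : Measure (Conf × Conf)) [IsProbabilityMeasure π]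
    (I : Finset ℤ) : Integrable (GG p I) π :=
  integrable_finsetSum _ fun x _ => row_int hp π I x

lemma int_GG {p : ℤ → ℝ} (hp : Ker p) (π : Measure (Conf × Conf)) [IsProbabilityMeasure π]
    (I : Finset ℤ) : ∫ z, GG p I z ∂π = 2 * ∑ x ∈ I, ∑' y : ℤ,
      if y ∈ I then 0 else (p (y - x) + p (x - y)) *
        ((π.real {z | z.1 x ≠ z.2 x} + π.real {z | z.1 y ≠ z.2 y}) / 2) := by
  unfold GG
  rw [integral_finsetSum _ fun x _ => row_int hp π I x, Finset.mul_sum]
  refine Finset.sum_congr rfl fun x _ => ?_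
  rw [int_row hp, ← tsum_mul_left]
  refine tsum_congr fun y => ?_
  rw [int_R]
  split_ifs
  · simp
  · ring

lemma Ord_meas : MeasurableSet Ord := by
  have : Ord = ⋂ x : ℤ, {z : Conf × Conf | z.1 x = true → z.2 x = true} := by
    ext z; simp [Ord]
  rw [this]
  refine MeasurableSet.iInter fun x => ?_
  have h : MeasurableSet {b : Bool × Bool | b.1 = true → b.2 = true} :=
    Set.to_countable _ |>.measurableSet
  exact ((meas_coord1 x).prodMk (meas_coord2 x)) h

lemma hI_tendsto {a b : ℕ → ℤ} (ha : Tendsto a atTop atBot) (hb : Tendsto b atTop atTop)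
    (z : Conf × Conf) : Tendsto (fun k => hI (Finset.Icc (a k) (b k)) z) atTop
      (𝓝 (Set.indicator Ord (fun _ => (1 : ℝ)) z)) := by
  by_cases hz : z ∈ Ord
  · rw [Set.indicator_of_mem hz]
    refine tendsto_const_nhds.congr fun k => ?_
    unfold hI
    rw [if_pos]
    exact fun x _ => hz x
  · rw [Set.indicator_of_notMem hz]
    have hz' : ∃ x, ¬ (z.1 x = true → z.2 x = true) := by
      by_contra hc
      push Not at hc
      exact hz hc
    obtain ⟨x, hx⟩ := hz'
    refine tendsto_const_nhds.congr' ?_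
    filter_upwards [ha.eventually (eventually_le_atBot x), hb.eventually (eventually_ge_atTop x)]
      with k h1 h2
    unfold hI
    rw [if_neg]
    intro h
    exact hx (h x (Finset.mem_Icc.2 ⟨h1, h2⟩))

theorem main {p : ℤ → ℝ} (hp : Ker p) (π : Measure (Conf × Conf)) [IsProbabilityMeasure π]
    (hπ : Stat2 p π) {a b : ℕ → ℤ} (ha : Tendsto a atTop atBot) (hb : Tendsto b atTop atTop)
    (hlim : Tendsto (fun k => ∑ x ∈ Finset.Icc (a k) (b k), ∑' y : ℤ,
      if y ∈ Finset.Icc (a k) (b k) then 0 else (p (y - x) + p (x - y)) *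
        ((π.real {z | z.1 x ≠ z.2 x} + π.real {z | z.1 y ≠ z.2 y}) / 2)) atTop (𝓝 0))
    (hgood : ∀ᵐ z ∂π, Good z) {n : ℕ} {F : Conf × Conf → ℝ} (hF : Dep2 n F) :
    ∫ z in Ord, gen mv2 p F z ∂π = 0 := by
  obtain ⟨C, hC0, hC⟩ := bdd_F hF
  obtain ⟨K, hK0, hK⟩ := gen_bdd hp hF
  have hgm := gen_meas hp hF
  -- the integrals tend to zero
  have h1 : ∀ k, |∫ z, hI (Finset.Icc (a k) (b k)) z * gen mv2 p F z ∂π| ≤
      C * (2 * ∑ x ∈ Finset.Icc (a k) (b k), ∑' y : ℤ,
      if y ∈ Finset.Icc (a k) (b k) then 0 else (p (y - x) + p (x - y)) *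
        ((π.real {z | z.1 x ≠ z.2 x} + π.real {z | z.1 y ≠ z.2 y}) / 2)) := by
    intro k
    set I := Finset.Icc (a k) (b k) with hI_def
    obtain ⟨N, hN⟩ := dep_mul hF I
    obtain ⟨K', hK0', hK'⟩ := gen_bdd hp hN
    have hgm' := gen_meas hp hN
    have i1 : Integrable (gen mv2 p (fun z => hI I z * F z)) π := bdd_int hgm' hK'
    have i2 : Integrable (fun z => hI I z * gen mv2 p F z) π := by
      refine bdd_int ((hI_meas I).mul hgm) (C := K) fun z => ?_
      rw [abs_mul]
      calc |hI I z| * |gen mv2 p F z| ≤ 1 * K :=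
            mul_le_mul (hI_abs I z) (hK z) (abs_nonneg _) zero_le_one
        _ = K := one_mul K
    have e1 : ∫ z, hI I z * gen mv2 p F z ∂π =
        - ∫ z, (gen mv2 p (fun z => hI I z * F z) z - hI I z * gen mv2 p F z) ∂π := by
      rw [integral_sub i1 i2, hπ N _ hN]
      ring
    rw [e1, abs_neg, ← int_GG hp]
    refine (abs_integral_le_integral_abs).trans ?_
    rw [← integral_const_mul]
    refine integral_mono_ae (i1.sub i2).abs ((GG_int hp π I).const_mul C) ?_
    filter_upwards [hgood] with z hz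
    exact diff_le hp hF hC I hz
  have h2 : Tendsto (fun k => ∫ z, hI (Finset.Icc (a k) (b k)) z * gen mv2 p F z ∂π) atTop (𝓝 0) := by
    refine squeeze_zero_norm (fun k => ?_) (a := fun k => C * (2 * ∑ x ∈ Finset.Icc (a k) (b k),
      ∑' y : ℤ, if y ∈ Finset.Icc (a k) (b k) then 0 else (p (y - x) + p (x - y)) *
        ((π.real {z | z.1 x ≠ z.2 x} + π.real {z | z.1 y ≠ z.2 y}) / 2))) ?_
    · rw [Real.norm_eq_abs]; exact h1 k
    · have := (hlim.const_mul 2).const_mul C
      simpa using this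
  -- dominated convergence
  have h3 : Tendsto (fun k => ∫ z, hI (Finset.Icc (a k) (b k)) z * gen mv2 p F z ∂π) atTop
      (𝓝 (∫ z, Set.indicator Ord (fun _ => (1 : ℝ)) z * gen mv2 p F z ∂π)) := by
    refine tendsto_integral_of_dominated_convergence (fun _ => K)
      (fun k => ((hI_meas _).mul hgm).aestronglyMeasurable) (integrable_const _) (fun k => ?_) ?_
    · refine Eventually.of_forall fun z => ?_
      rw [Real.norm_eq_abs, abs_mul]
      calc |hI _ z| * |gen mv2 p F z| ≤ 1 * K :=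
            mul_le_mul (hI_abs _ z) (hK z) (abs_nonneg _) zero_le_one
        _ = K := one_mul K
    · exact Eventually.of_forall fun z => (hI_tendsto ha hb z).mul_const _
  have h4 := tendsto_nhds_unique h3 h2
  rw [← h4, ← integral_indicator Ord_meas]
  refine integral_congr_ae (Eventually.of_forall fun z => ?_)
  by_cases hz : z ∈ Ord
  · simp [Set.indicator_of_mem hz]
  · simp [Set.indicator_of_notMem hz]

end CondP

open CondP in
/-- **EX/COND** -/
theorem t_COND : S_BDY → S_COND := by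
  intro hBDY p hp π hprob hπ a b ha hb hda hdb hopp
  set w : ℤ → ℤ → ℝ := fun x y =>
    (π.real {z | z.1 x ≠ z.2 x} + π.real {z | z.1 y ≠ z.2 y}) / 2 with hw
  have hlim := hBDY p hp w (fun x y => by positivity) (fun x y => by
      have h1 : π.real {z | z.1 x ≠ z.2 x} ≤ 1 := measureReal_le_one
      have h2 : π.real {z | z.1 y ≠ z.2 y} ≤ 1 := measureReal_le_one
      simp only [hw]
      linarith) a b ha hb (fun i j => by
      have := ((hda i).add (hda j)).div_const 2
      simpa [hw] using this) (fun i j => by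
      have := ((hdb i).add (hdb j)).div_const 2
      simpa [hw] using this)
  have hgood : ∀ᵐ z ∂π, Good z := by
    have h1 : ∀ xy : ℤ × ℤ, ∀ᵐ z ∂π, ¬ (z.1 xy.1 = true ∧ z.2 xy.1 = false ∧ z.1 xy.2 = false ∧
        z.2 xy.2 = true) := by
      intro xy
      rw [ae_iff]
      simpa using hopp xy.1 xy.2
    filter_upwards [ae_all_iff.2 h1] with z hz
    exact fun x y => hz (x, y)
  have key : ∀ n F, Dep2 n F → ∫ z in Ord, gen mv2 p F z ∂π = 0 := fun n F hF =>
    main hp π hπ ha hb hlim hgood hF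
  refine ⟨key, fun n F hF => ?_⟩
  obtain ⟨K, hK0, hK⟩ := gen_bdd hp hF
  have hi : Integrable (gen mv2 p F) π := bdd_int (gen_meas hp hF) hK
  have := integral_add_compl Ord_meas hi
  rw [key n F hF, hπ n F hF, zero_add] at this
  exact this

end Pool.Agent.N959.EX
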