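import Pool.Agent.N959.EX.Def

/-!
# EX/CONE: the exclusion chain preserves the cone

`t_CONE : S_CONE`, and `mono_KK` (the monotone functions are preserved, for every `p ≥ 0`).
-/

set_option autoImplicit false

open Finset

namespace Pool.Agent.N959.EX

namespace ConeP

/-! ### Configurations -/

lemma put_self (u : ℤ) (η : Conf) : put u η u = true := by simp [put]

lemma put_ne {u z : ℤ} (h : z ≠ u) (η : Conf) : put u η z = η z := by
  simp [put, Function.update_of_ne h]

lemma put_comm (u v : ℤ) (η : Conf) : put u (put v η) = put v (put u η) := by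
  funext z
  by_cases h1 : z = u <;> by_cases h2 : z = v <;> simp [put, Function.update_apply, h1, h2]

lemma mv_apply_ne {x y z : ℤ} (hx : z ≠ x) (hy : z ≠ y) (η : Conf) : mv x y η z = η z := by
  unfold mv
  split_ifs
  · simp [sw, hx, hy]
  · rfl

lemma mv_of_not {x y : ℤ} {η : Conf} (h : ¬ (η x = true ∧ η y = false)) : mv x y η = η := by
  simp only [mv, if_neg h]

lemma mv_of {x y : ℤ} {η : Conf} (hx : η x = true) (hy : η y = false) :
    mv x y η = sw x y η := by
  simp only [mv, hx, hy, and_self, if_true]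

lemma mv_diag (x : ℤ) (η : Conf) : mv x x η = η := by
  apply mv_of_not
  rintro ⟨h1, h2⟩
  rw [h1] at h2
  exact absurd h2 (by simp)

lemma sw_put_ne {x y u : ℤ} (hx : u ≠ x) (hy : u ≠ y) (η : Conf) :
    sw x y (put u η) = put u (sw x y η) := by
  funext z
  simp only [sw, put, Function.update_apply]
  by_cases h1 : z = x
  · subst h1; simp [hx.symm, hy.symm]
  · by_cases h2 : z = y
    · subst h2; simp [h1, hx.symm, hy.symm]
    · simp [h1, h2]

lemma mv_put_ne {x y u : ℤ} (hx : u ≠ x) (hy : u ≠ y) (η : Conf) :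
    mv x y (put u η) = put u (mv x y η) := by
  by_cases h : η x = true ∧ η y = false
  · rw [mv_of h.1 h.2, mv_of (by rw [put_ne hx.symm, h.1]) (by rw [put_ne hy.symm, h.2]),
      sw_put_ne hx hy]
  · rw [mv_of_not h, mv_of_not]
    rwa [put_ne hx.symm, put_ne hy.symm]

/-- the added particle jumps -/
lemma mv_put_src {x y : ℤ} (hxy : x ≠ y) {η : Conf} (hx : η x = false) (hy : η y = false) :
    mv x y (put x η) = put y η := by
  rw [mv_of (put_self x η) (by rw [put_ne hxy.symm, hy])]
  funext z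
  simp only [sw, put, Function.update_apply]
  by_cases h1 : z = x
  · subst h1; simp [hxy, hxy.symm, hx, hy]
  · by_cases h2 : z = y
    · subst h2; simp [h1]
    · simp [h1, h2]

lemma sw_fst (x y : ℤ) (η : Conf) : sw x y η x = η y := by simp [sw]

lemma sw_snd (x y : ℤ) (η : Conf) : sw x y η y = η x := by
  simp only [sw]
  split_ifs with h
  · rw [h]
  · simp

lemma sw_ne {x y z : ℤ} (hx : z ≠ x) (hy : z ≠ y) (η : Conf) : sw x y η z = η z := by
  simp [sw, hx, hy]

/-- the target is filled: source and target are occupied after and before -/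
lemma put_tgt {x y : ℤ} (hxy : x ≠ y) {η : Conf} (hx : η x = true) :
    put y η = put x (put y (sw x y η)) := by
  funext z
  simp only [sw, put, Function.update_apply]
  by_cases h1 : z = x
  · subst h1; simp [hxy, hx]
  · by_cases h2 : z = y
    · subst h2; simp [h1]
    · simp [h1, h2]

/-! ### The chain as a convex combination -/

lemma KK_eq (p : ℤ → ℝ) (n : ℕ) (h : ℝ) (F : Conf → ℝ) (z : Conf) :
    KK mv p n h F z = (1 - h * Rt p n) * F z +
      h * ∑ x ∈ Lam n, ∑ y ∈ Lam n, p (y - x) * F (mv x y z) := by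
  have e : LL mv p n F z = (∑ x ∈ Lam n, ∑ y ∈ Lam n, p (y - x) * F (mv x y z)) -
      Rt p n * F z := by
    unfold LL Rt
    rw [Finset.sum_mul, ← Finset.sum_sub_distrib]
    refine Finset.sum_congr rfl fun x _ => ?_
    rw [Finset.sum_mul, ← Finset.sum_sub_distrib]
    exact Finset.sum_congr rfl fun y _ => by ring
  unfold KK
  rw [e]
  ring

/-! ### Monotonicity -/

/-- the field `mono` of `Cone` -/
def Mono (n : ℕ) (F : Conf → ℝ) : Prop :=
  ∀ η : Conf, ∀ u ∈ Lam n, η u = false → F η ≤ F (put u η)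

lemma mono_mv {n : ℕ} {F : Conf → ℝ} (hF : Mono n F) {x y : ℤ} (hx : x ∈ Lam n) (hy : y ∈ Lam n)
    (η : Conf) {u : ℤ} (hu : u ∈ Lam n) (h : η u = false) :
    F (mv x y η) ≤ F (mv x y (put u η)) := by
  by_cases hxy : x = y
  · subst hxy
    rw [mv_diag, mv_diag]
    exact hF η u hu h
  by_cases h1 : u = x
  · subst h1
    have e : mv u y η = η := mv_of_not (by simp [h])
    by_cases h2 : η y = false
    · rw [e, mv_put_src hxy h h2]
      exact hF η y hy h2
    · rw [e, mv_of_not (by rw [put_ne (Ne.symm hxy)]; tauto)]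
      exact hF η u hu h
  by_cases h2 : u = y
  · subst h2
    rw [mv_of_not (η := put u η) (by simp [put_self])]
    by_cases h3 : η x = true
    · rw [mv_of h3 h]
      have e : put u η = put x (sw x u η) := by
        funext z
        simp only [sw, put, Function.update_apply]
        by_cases h1' : z = x
        · subst h1'; simp [hxy, h3]
        · by_cases h2' : z = u
          · subst h2'; simp [h1', h3]
          · simp [h1', h2']
      rw [e]
      exact hF _ x hx (by rw [sw_fst, h])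
    · rw [mv_of_not (by tauto)]
      exact hF η u hu h
  · rw [mv_put_ne h1 h2]
    exact hF _ u hu (by rw [mv_apply_ne h1 h2, h])

lemma small_le {p : ℤ → ℝ} {n : ℕ} {h : ℝ} (hs : Small p n h) (hp : ∀ z, 0 ≤ p z) :
    0 ≤ 1 - h * Rt p n := by
  have h1 : 0 ≤ Rt p n := Finset.sum_nonneg fun x _ => Finset.sum_nonneg fun y _ => hp _
  have h2 : 0 ≤ h * Rt p n := mul_nonneg hs.1 h1
  have h3 := hs.2
  linarith

/-- **The chain preserves monotone functions.** -/
theorem mono_KK {p : ℤ → ℝ} (hp : ∀ z, 0 ≤ p z) {n : ℕ} {h : ℝ} (hs : Small p n h)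
    {F : Conf → ℝ} (hF : ∀ η : Conf, ∀ u ∈ Lam n, η u = false → F η ≤ F (put u η)) :
    ∀ η : Conf, ∀ u ∈ Lam n, η u = false → KK mv p n h F η ≤ KK mv p n h F (put u η) := by
  intro η u hu h0
  rw [KK_eq, KK_eq]
  refine add_le_add (mul_le_mul_of_nonneg_left (hF η u hu h0) (small_le hs hp))
    (mul_le_mul_of_nonneg_left ?_ hs.1)
  refine Finset.sum_le_sum fun x hx => Finset.sum_le_sum fun y hy => ?_
  exact mul_le_mul_of_nonneg_left (mono_mv hF hx hy η hu h0) (hp _)

/-! ### Submodularity -/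

/-- the submodularity defect -/
def SD (F : Conf → ℝ) (η : Conf) (u v : ℤ) : ℝ :=
  F (put u η) + F (put v η) - F (put u (put v η)) - F η

lemma SD_comm (F : Conf → ℝ) (η : Conf) (u v : ℤ) : SD F η u v = SD F η v u := by
  unfold SD
  rw [put_comm u v]
  ring

/-- the field `sub` of `Cone` -/
def Sub (n : ℕ) (F : Conf → ℝ) : Prop :=
  ∀ η : Conf, ∀ u ∈ Lam n, ∀ v ∈ Lam n, η u = false → η v = false → u ≠ v → 0 ≤ SD F η u v

lemma mv_add_mv (F : Conf → ℝ) (x y : ℤ) (η : Conf) :
    F (mv x y η) + F (mv y x η) = F (sw x y η) + F η := by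
  have hsw : sw y x η = sw x y η := by
    funext z
    simp only [sw]
    split_ifs with h1 h2 <;> simp_all
  rcases hx : η x with _ | _ <;> rcases hy : η y with _ | _
  · have e : sw x y η = η := by
      funext z
      simp only [sw]
      split_ifs with h1 h2
      · rw [h1, hx, hy]
      · rw [h2, hx, hy]
      · rfl
    rw [mv_of_not (by simp [hx]), mv_of_not (by simp [hy]), e]
  · rw [mv_of_not (by simp [hx]), mv_of hy hx, hsw]
    ring
  · rw [mv_of hx hy, mv_of_not (by simp [hy])]
  · have e : sw x y η = η := by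
      funext z
      simp only [sw]
      split_ifs with h1 h2
      · rw [h1, hx, hy]
      · rw [h2, hx, hy]
      · rfl
    rw [mv_of_not (by simp [hy]), mv_of_not (by simp [hx]), e]

lemma SD_add (F : Conf → ℝ) (x y : ℤ) (η : Conf) (u v : ℤ) :
    SD (fun z => F (mv x y z)) η u v + SD (fun z => F (mv y x z)) η u v =
      SD (fun z => F (sw x y z)) η u v + SD F η u v := by
  have h1 := mv_add_mv F x y (put u η)
  have h2 := mv_add_mv F x y (put v η)
  have h3 := mv_add_mv F x y (put u (put v η))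
  have h4 := mv_add_mv F x y η
  simp only [SD]
  linarith

/-- the renaming of the sites -/
def sg (x y u : ℤ) : ℤ := if u = x then y else if u = y then x else u

lemma sw_put (x y u : ℤ) (η : Conf) : sw x y (put u η) = put (sg x y u) (sw x y η) := by
  funext z
  simp only [sw, put, Function.update_apply, sg]
  by_cases h1 : u = x
  · subst h1
    by_cases h2 : z = u
    · subst h2
      by_cases h3 : z = y
      · subst h3; simp
      · simp [h3, Ne.symm h3]
    · by_cases h3 : z = y
      · subst h3; simp [h2]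
      · simp [h2, h3]
  · by_cases h4 : u = y
    · subst h4
      by_cases h2 : z = x
      · subst h2; simp [h1]
      · by_cases h3 : z = u
        · subst h3; simp [h1, Ne.symm h1]
        · simp [h1, h2, h3]
    · by_cases h2 : z = x
      · subst h2; simp [h1, h4, Ne.symm h1, Ne.symm h4]
      · by_cases h3 : z = y
        · subst h3; simp [h1, h2, h4, Ne.symm h1, Ne.symm h4]
        · simp [h1, h2, h3, h4]

lemma sg_mem {n : ℕ} {x y u : ℤ} (hx : x ∈ Lam n) (hy : y ∈ Lam n) (hu : u ∈ Lam n) :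
    sg x y u ∈ Lam n := by
  unfold sg
  split_ifs <;> assumption

lemma sw_sg {x y u : ℤ} {η : Conf} (h : η u = false) : sw x y η (sg x y u) = false := by
  unfold sg
  split_ifs with h1 h2
  · rw [sw_snd, ← h1, h]
  · rw [sw_fst, ← h2, h]
  · rw [sw_ne h1 h2, h]

lemma sg_inj {x y u v : ℤ} (h : u ≠ v) : sg x y u ≠ sg x y v := by
  unfold sg
  split_ifs <;> omega

lemma sub_sw {n : ℕ} {F : Conf → ℝ} (hF : Sub n F) {x y : ℤ} (hx : x ∈ Lam n) (hy : y ∈ Lam n)
    (η : Conf) {u v : ℤ} (hu : u ∈ Lam n) (hv : v ∈ Lam n) (h1 : η u = false) (h2 : η v = false)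
    (huv : u ≠ v) : 0 ≤ SD (fun z => F (sw x y z)) η u v := by
  have h := hF (sw x y η) _ (sg_mem hx hy hu) _ (sg_mem hx hy hv) (sw_sg h1) (sw_sg h2)
    (sg_inj huv)
  unfold SD at h ⊢
  simpa only [sw_put] using h

lemma mv_full {x y : ℤ} {η : Conf} (h : η y = true) : mv x y η = η :=
  mv_of_not (by simp [h])

lemma mv_empty {x y : ℤ} {η : Conf} (h : η x = false) : mv x y η = η :=
  mv_of_not (by simp [h])

lemma sub_mv_A {n : ℕ} {F : Conf → ℝ} (hF : Sub n F) {x y v : ℤ} (hx : x ∈ Lam n)
    (hy : y ∈ Lam n) (hv : v ∈ Lam n) (hxy : x ≠ y) (hvx : v ≠ x) (hvy : v ≠ y) (η : Conf)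
    (h1 : η x = false) (h2 : η v = false) : 0 ≤ SD (fun z => F (mv x y z)) η x v := by
  have e2 : put v η x = false := by rw [put_ne (Ne.symm hvx), h1]
  by_cases h3 : η y = false
  · have e3 : put v η y = false := by rw [put_ne (Ne.symm hvy), h3]
    have h := hF η y hy v hv h3 h2 (Ne.symm hvy)
    unfold SD at h ⊢
    simpa only [mv_put_src hxy h1 h3, mv_empty h1, mv_empty e2, mv_put_src hxy e2 e3] using h
  · have h3' : η y = true := by simpa using h3
    have h := hF η x hx v hv h1 h2 (Ne.symm hvx)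
    have a1 : put x η y = true := by rw [put_ne (Ne.symm hxy), h3']
    have a2 : put v η y = true := by rw [put_ne (Ne.symm hvy), h3']
    have a3 : put x (put v η) y = true := by rw [put_ne (Ne.symm hxy), a2]
    unfold SD at h ⊢
    simpa only [mv_full h3', mv_full a1, mv_full a2, mv_full a3] using h

lemma sub_mv_B {n : ℕ} {F : Conf → ℝ} (hF : Sub n F) {x y v : ℤ} (hx : x ∈ Lam n)
    (hy : y ∈ Lam n) (hv : v ∈ Lam n) (hxy : x ≠ y) (hvx : v ≠ x) (hvy : v ≠ y) (η : Conf)
    (h1 : η y = false) (h2 : η v = false) : 0 ≤ SD (fun z => F (mv x y z)) η y v := by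
  have e0 : put y η y = true := put_self y η
  have e1 : put y (put v η) y = true := put_self y _
  by_cases h3 : η x = false
  · have e2 : put v η x = false := by rw [put_ne (Ne.symm hvx), h3]
    have h := hF η y hy v hv h1 h2 (Ne.symm hvy)
    unfold SD at h ⊢
    simpa only [mv_empty h3, mv_full e0, mv_full e1, mv_empty e2] using h
  · have h3' : η x = true := by simpa using h3
    obtain ⟨ζ, hζ, z1, z2, z3⟩ : ∃ ζ : Conf, η = put x ζ ∧ ζ x = false ∧ ζ y = false ∧
        ζ v = false := by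
      refine ⟨Function.update η x false, ?_, ?_, ?_, ?_⟩
      · funext z
        by_cases hz : z = x
        · subst hz; simp [put, h3']
        · simp [put, hz]
      · simp
      · simp [Ne.symm hxy, h1]
      · simp [hvx, h2]
    have a1 : mv x y η = put y ζ := by rw [hζ, mv_put_src hxy z1 z2]
    have a2 : mv x y (put v η) = put v (put y ζ) := by rw [mv_put_ne hvx hvy, a1]
    have b1 : put y η = put x (put y ζ) := by rw [hζ, put_comm]
    have b2 : put y (put v η) = put x (put v (put y ζ)) := by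
      rw [hζ, put_comm v x, put_comm y x, put_comm y v]
    have c1 : put y ζ x = false := by rw [put_ne hxy, z1]
    have c2 : put y ζ v = false := by rw [put_ne hvy, z3]
    have h := hF (put y ζ) x hx v hv c1 c2 (Ne.symm hvx)
    have d0 : mv x y (put y η) = put y η := mv_full e0
    have d1 : mv x y (put y (put v η)) = put y (put v η) := mv_full e1
    unfold SD at h ⊢
    simp only [a1, a2, d0, d1]
    rw [b1, b2]
    exact h

lemma sub_mv_C {n : ℕ} {F : Conf → ℝ} (hF : Sub n F) {x y : ℤ} (hx : x ∈ Lam n)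
    (hy : y ∈ Lam n) (hxy : x ≠ y) (η : Conf)
    (h1 : η x = false) (h2 : η y = false) (hr : F (put x η) ≤ F (put y η)) :
    0 ≤ SD (fun z => F (mv x y z)) η x y := by
  have h := hF η x hx y hy h1 h2 hxy
  have e1 : put y η y = true := put_self y _
  have e2 : put x (put y η) y = true := by rw [put_ne (Ne.symm hxy), e1]
  unfold SD at h ⊢
  simp only [mv_empty h1, mv_full e1, mv_full e2, mv_put_src hxy h1 h2]
  linarith

lemma sub_mv {n : ℕ} {F : Conf → ℝ} (hF : Sub n F)
    (hR : ∀ η : Conf, ∀ u ∈ Lam n, ∀ v ∈ Lam n, η u = false → η v = false → u < v →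
      F (put u η) ≤ F (put v η)) {x y : ℤ} (hx : x ∈ Lam n) (hy : y ∈ Lam n) (hxy : x < y)
    (η : Conf) {u v : ℤ} (hu : u ∈ Lam n) (hv : v ∈ Lam n) (h1 : η u = false) (h2 : η v = false)
    (huv : u ≠ v) : 0 ≤ SD (fun z => F (mv x y z)) η u v := by
  have hxy' : x ≠ y := hxy.ne
  by_cases a1 : u = x
  · subst a1
    by_cases a2 : v = y
    · subst a2
      exact sub_mv_C hF hu hv hxy' η h1 h2 (hR η _ hu _ hv h1 h2 hxy)
    · exact sub_mv_A hF hu hy hv hxy' (Ne.symm huv) a2 η h1 h2
  by_cases a2 : u = y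
  · subst a2
    by_cases a3 : v = x
    · subst a3
      rw [SD_comm]
      exact sub_mv_C hF hv hu hxy' η h2 h1 (hR η _ hv _ hu h2 h1 hxy)
    · exact sub_mv_B hF hx hu hv hxy' a3 (Ne.symm huv) η h1 h2
  by_cases a3 : v = x
  · subst a3
    rw [SD_comm]
    exact sub_mv_A hF hv hy hu hxy' a1 a2 η h2 h1
  by_cases a4 : v = y
  · subst a4
    rw [SD_comm]
    exact sub_mv_B hF hx hv hu hxy' a1 a2 η h2 h1
  have h := hF (mv x y η) u hu v hv (by rw [mv_apply_ne a1 a2, h1])
    (by rw [mv_apply_ne a3 a4, h2]) huv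
  unfold SD at h ⊢
  simpa only [mv_put_ne a1 a2, mv_put_ne a3 a4] using h

/-- the two moves between `x` and `y` together -/
lemma sub_pair {p : ℤ → ℝ} (hp : Uni p) {n : ℕ} {F : Conf → ℝ} (hF : Sub n F)
    (hR : ∀ η : Conf, ∀ u ∈ Lam n, ∀ v ∈ Lam n, η u = false → η v = false → u < v →
      F (put u η) ≤ F (put v η)) {x y : ℤ} (hx : x ∈ Lam n) (hy : y ∈ Lam n) (hxy : x < y)
    (η : Conf) {u v : ℤ} (hu : u ∈ Lam n) (hv : v ∈ Lam n) (h1 : η u = false) (h2 : η v = false)
    (huv : u ≠ v) : 0 ≤ p (y - x) * SD (fun z => F (mv x y z)) η u v +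
      p (x - y) * SD (fun z => F (mv y x z)) η u v := by
  have e := SD_add F x y η u v
  have s1 := sub_mv hF hR hx hy hxy η hu hv h1 h2 huv
  have s2 := sub_sw hF hx hy η hu hv h1 h2 huv
  have s3 := hF η u hu v hv h1 h2 huv
  have q0 := hp.nonneg (x - y)
  have q1 : p (x - y) ≤ p (y - x) := by
    have := hp.asym (y - x) (by omega)
    rwa [neg_sub] at this
  have e' : SD (fun z => F (mv y x z)) η u v =
      SD (fun z => F (sw x y z)) η u v + SD F η u v - SD (fun z => F (mv x y z)) η u v := by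
    linarith
  rw [e']
  have t1 := mul_nonneg (sub_nonneg.2 q1) s1
  have t2 := mul_nonneg q0 s2
  have t3 := mul_nonneg q0 s3
  nlinarith

lemma SD_KK (p : ℤ → ℝ) (n : ℕ) (h : ℝ) (F : Conf → ℝ) (η : Conf) (u v : ℤ) :
    SD (KK mv p n h F) η u v = (1 - h * Rt p n) * SD F η u v +
      h * ∑ x ∈ Lam n, ∑ y ∈ Lam n, p (y - x) * SD (fun z => F (mv x y z)) η u v := by
  have e : ∑ x ∈ Lam n, ∑ y ∈ Lam n, p (y - x) * SD (fun z => F (mv x y z)) η u v =
      ∑ x ∈ Lam n, ∑ y ∈ Lam n, p (y - x) * F (mv x y (put u η)) +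
      ∑ x ∈ Lam n, ∑ y ∈ Lam n, p (y - x) * F (mv x y (put v η)) -
      ∑ x ∈ Lam n, ∑ y ∈ Lam n, p (y - x) * F (mv x y (put u (put v η))) -
      ∑ x ∈ Lam n, ∑ y ∈ Lam n, p (y - x) * F (mv x y η) := by
    rw [← Finset.sum_add_distrib, ← Finset.sum_sub_distrib, ← Finset.sum_sub_distrib]
    refine Finset.sum_congr rfl fun x _ => ?_
    rw [← Finset.sum_add_distrib, ← Finset.sum_sub_distrib, ← Finset.sum_sub_distrib]
    refine Finset.sum_congr rfl fun y _ => ?_
    unfold SD
    ring
  rw [e]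
  unfold SD
  rw [KK_eq, KK_eq, KK_eq, KK_eq]
  ring

theorem sub_KK {p : ℤ → ℝ} (hp : Uni p) {n : ℕ} {h : ℝ} (hs : Small p n h)
    {F : Conf → ℝ} (hF : Sub n F)
    (hR : ∀ η : Conf, ∀ u ∈ Lam n, ∀ v ∈ Lam n, η u = false → η v = false → u < v →
      F (put u η) ≤ F (put v η)) : Sub n (KK mv p n h F) := by
  intro η u hu v hv h1 h2 huv
  rw [SD_KK]
  have hsum : 0 ≤ ∑ x ∈ Lam n, ∑ y ∈ Lam n, p (y - x) * SD (fun z => F (mv x y z)) η u v := by
    have e1 : 2 * ∑ x ∈ Lam n, ∑ y ∈ Lam n, p (y - x) * SD (fun z => F (mv x y z)) η u v =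
        ∑ x ∈ Lam n, ∑ y ∈ Lam n, (p (y - x) * SD (fun z => F (mv x y z)) η u v +
          p (x - y) * SD (fun z => F (mv y x z)) η u v) := by
      simp only [Finset.sum_add_distrib]
      rw [Finset.sum_comm (f := fun x y => p (x - y) * SD (fun z => F (mv y x z)) η u v)]
      ring
    have e2 : 0 ≤ ∑ x ∈ Lam n, ∑ y ∈ Lam n, (p (y - x) * SD (fun z => F (mv x y z)) η u v +
          p (x - y) * SD (fun z => F (mv y x z)) η u v) := by
      refine Finset.sum_nonneg fun x hx => Finset.sum_nonneg fun y hy => ?_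
      rcases lt_trichotomy x y with hxy | hxy | hxy
      · exact sub_pair hp hF hR hx hy hxy η hu hv h1 h2 huv
      · subst hxy
        have e3 : SD (fun z => F (mv x x z)) η u v = SD F η u v := by
          simp only [SD, mv_diag]
        rw [e3]
        have := mul_nonneg (hp.nonneg (x - x)) (hF η u hu v hv h1 h2 huv)
        linarith
      · have := sub_pair hp hF hR hy hx hxy η hu hv h1 h2 huv
        linarith
    linarith
  have t1 := mul_nonneg (small_le hs hp.nonneg) (hF η u hu v hv h1 h2 huv)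
  have t2 := mul_nonneg hs.1 hsum
  linarith

/-! ### Moving a particle to the right -/

/-- the field `right` of `Cone` -/
def Rgt (n : ℕ) (F : Conf → ℝ) : Prop :=
  ∀ η : Conf, ∀ u ∈ Lam n, ∀ v ∈ Lam n, η u = false → η v = false → u < v →
    F (put u η) ≤ F (put v η)

lemma ineqA {p : ℤ → ℝ} (hp : Uni p) {u v r : ℤ} (huv : u < v) (hru : r ≠ u) (hrv : r ≠ v)
    {fu fv fr : ℝ} (h1 : fu ≤ fv) (h2 : r < u → fr ≤ fu) (h3 : u < r → fu ≤ fr)
    (h4 : r < v → fr ≤ fv) (h5 : v < r → fv ≤ fr) :
    0 ≤ p (r - u) * (fv - fr) + p (r - v) * (fr - fu) := by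
  have q1 := hp.nonneg (r - u)
  have q2 := hp.nonneg (r - v)
  rcases lt_or_gt_of_ne hru with a | a
  · have b1 := h2 a
    have b2 : p (r - v) ≤ p (r - u) := by
      have := hp.left (u - r) (v - r) (by omega) (by omega)
      rwa [neg_sub, neg_sub] at this
    have c1 := mul_le_mul_of_nonneg_right b2 (sub_nonneg.2 b1)
    have c2 := mul_le_mul_of_nonneg_left (sub_le_sub_right h1 fr) q1
    linarith
  · rcases lt_or_gt_of_ne hrv with b | b
    · have b1 := h3 a
      have b2 := h4 b
      have c1 := mul_nonneg q1 (sub_nonneg.2 b2)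
      have c2 := mul_nonneg q2 (sub_nonneg.2 b1)
      linarith
    · have b1 := h5 b
      have b2 : p (r - u) ≤ p (r - v) := hp.right (r - v) (r - u) (by omega) (by omega)
      have c1 := mul_le_mul_of_nonneg_right b2 (sub_nonneg.2 b1)
      have c2 := mul_le_mul_of_nonneg_left (sub_le_sub_left h1 fr) q2
      linarith

lemma ineqB {p : ℤ → ℝ} (hp : Uni p) {u v r : ℤ} (huv : u < v) (hru : r ≠ u) (hrv : r ≠ v)
    {gu gv gr : ℝ} (h1 : gv ≤ gu) (h2 : r < u → gu ≤ gr) (h3 : u < r → gr ≤ gu)
    (h4 : r < v → gv ≤ gr) (h5 : v < r → gr ≤ gv) :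
    0 ≤ p (u - r) * (gr - gv) + p (v - r) * (gu - gr) := by
  have q1 := hp.nonneg (u - r)
  have q2 := hp.nonneg (v - r)
  rcases lt_or_gt_of_ne hru with a | a
  · have b1 := h2 a
    have b2 : p (v - r) ≤ p (u - r) := hp.right (u - r) (v - r) (by omega) (by omega)
    have c1 := mul_le_mul_of_nonneg_right b2 (sub_nonneg.2 b1)
    have c2 := mul_le_mul_of_nonneg_left (sub_le_sub_left h1 gr) q1
    linarith
  · rcases lt_or_gt_of_ne hrv with b | b
    · have b1 := h3 a
      have b2 := h4 b
      have c1 := mul_nonneg q1 (sub_nonneg.2 b2)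
      have c2 := mul_nonneg q2 (sub_nonneg.2 b1)
      linarith
    · have b1 := h5 b
      have b2 : p (u - r) ≤ p (v - r) := by
        have := hp.left (r - v) (r - u) (by omega) (by omega)
        rwa [neg_sub, neg_sub] at this
      have c1 := mul_le_mul_of_nonneg_right b2 (sub_nonneg.2 b1)
      have c2 := mul_le_mul_of_nonneg_left (sub_le_sub_right h1 gr) q2
      linarith

/-- the difference after a move -/
def TT (F : Conf → ℝ) (η : Conf) (u v x y : ℤ) : ℝ :=
  F (mv x y (put v η)) - F (mv x y (put u η))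

lemma right_third {p : ℤ → ℝ} (hp : Uni p) {n : ℕ} {F : Conf → ℝ} (hF : Rgt n F)
    {η : Conf} {u v r : ℤ} (hu : u ∈ Lam n) (hv : v ∈ Lam n) (hr : r ∈ Lam n)
    (h1 : η u = false) (h2 : η v = false) (huv : u < v) (hru : r ≠ u) (hrv : r ≠ v) :
    0 ≤ p (r - u) * TT F η u v u r + p (u - r) * TT F η u v r u +
      (p (r - v) * TT F η u v v r + p (v - r) * TT F η u v r v) := by
  have huv' : u ≠ v := huv.ne
  have D0 : 0 ≤ F (put v η) - F (put u η) := sub_nonneg.2 (hF η u hu v hv h1 h2 huv)
  by_cases h3 : η r = false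
  · have e1 : mv u r (put v η) = put v η := mv_empty (by rw [put_ne huv', h1])
    have e2 : mv u r (put u η) = put r η := mv_put_src (Ne.symm hru) h1 h3
    have e3 : mv r u (put v η) = put v η := mv_empty (by rw [put_ne hrv, h3])
    have e4 : mv r u (put u η) = put u η := mv_empty (by rw [put_ne hru, h3])
    have e5 : mv v r (put v η) = put r η := mv_put_src (Ne.symm hrv) h2 h3
    have e6 : mv v r (put u η) = put u η := mv_empty (by rw [put_ne (Ne.symm huv'), h2])
    have e7 : mv r v (put v η) = put v η := mv_empty (by rw [put_ne hrv, h3])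
    have e8 : mv r v (put u η) = put u η := mv_empty (by rw [put_ne hru, h3])
    simp only [TT, e1, e2, e3, e4, e5, e6, e7, e8]
    have k := ineqA hp huv hru hrv (fu := F (put u η)) (fv := F (put v η)) (fr := F (put r η))
      (hF η u hu v hv h1 h2 huv) (fun a => hF η r hr u hu h3 h1 a)
      (fun a => hF η u hu r hr h1 h3 a) (fun a => hF η r hr v hv h3 h2 a)
      (fun a => hF η v hv r hr h2 h3 a)
    have k1 := mul_nonneg (hp.nonneg (u - r)) D0
    have k2 := mul_nonneg (hp.nonneg (v - r)) D0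
    linarith
  · have h3' : η r = true := by simpa using h3
    obtain ⟨ζ, hζ, z1, z2, z3⟩ : ∃ ζ : Conf, η = put r ζ ∧ ζ r = false ∧ ζ u = false ∧
        ζ v = false := by
      refine ⟨Function.update η r false, ?_, ?_, ?_, ?_⟩
      · funext z
        by_cases hz : z = r
        · subst hz; simp [put, h3']
        · simp [put, hz]
      · simp
      · simp [Ne.symm hru, h1]
      · simp [Ne.symm hrv, h2]
    have f1 : put v η r = true := by rw [put_ne hrv, h3']
    have f2 : put u η r = true := by rw [put_ne hru, h3']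
    have e1 : mv u r (put v η) = put v η := mv_full f1
    have e2 : mv u r (put u η) = put u η := mv_full f2
    have e3 : mv r u (put v η) = put v (put u ζ) := by
      rw [mv_put_ne (Ne.symm hrv) (Ne.symm huv'), hζ, mv_put_src hru z1 z2]
    have e4 : mv r u (put u η) = put u η := mv_full (put_self _ _)
    have e5 : mv v r (put v η) = put v η := mv_full f1
    have e6 : mv v r (put u η) = put u η := mv_full f2
    have e7 : mv r v (put v η) = put v η := mv_full (put_self _ _)
    have e8 : mv r v (put u η) = put v (put u ζ) := by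
      rw [mv_put_ne (Ne.symm hru) huv', hζ, mv_put_src hrv z1 z3, put_comm]
    simp only [TT, e1, e2, e3, e4, e5, e6, e7, e8]
    -- `g_r = F (put v (put u ζ))`, `g_v = F (put u η)`, `g_u = F (put v η)`
    have gu : put v η = put r (put v ζ) := by rw [hζ, put_comm]
    have gv : put u η = put r (put u ζ) := by rw [hζ, put_comm]
    have gr : put v (put u ζ) = put u (put v ζ) := put_comm _ _ _
    have y1 : put v ζ r = false := by rw [put_ne hrv, z1]
    have y2 : put v ζ u = false := by rw [put_ne huv', z2]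
    have y3 : put u ζ r = false := by rw [put_ne hru, z1]
    have y4 : put u ζ v = false := by rw [put_ne (Ne.symm huv'), z3]
    have k := ineqB hp huv hru hrv (gu := F (put v η)) (gv := F (put u η))
      (gr := F (put v (put u ζ))) (hF η u hu v hv h1 h2 huv)
      (fun a => by rw [gu, gr]; exact hF _ r hr u hu y1 y2 a)
      (fun a => by rw [gu, gr]; exact hF _ u hu r hr y2 y1 a)
      (fun a => by rw [gv]; exact hF _ r hr v hv y3 y4 a)
      (fun a => by rw [gv]; exact hF _ v hv r hr y4 y3 a)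
    have k1 := mul_nonneg (hp.nonneg (r - u)) D0
    have k2 := mul_nonneg (hp.nonneg (r - v)) D0
    linarith

lemma sum_split1 {L : Finset ℤ} {u v : ℤ} (hu : u ∈ L) (hv : v ∈ L) (huv : u ≠ v) (g : ℤ → ℝ) :
    ∑ x ∈ L, g x = g u + g v + ∑ x ∈ (L.erase u).erase v, g x := by
  rw [← Finset.add_sum_erase L g hu,
    ← Finset.add_sum_erase (L.erase u) g (Finset.mem_erase.2 ⟨huv.symm, hv⟩)]
  ring

lemma sum_split2 {L : Finset ℤ} {u v : ℤ} (hu : u ∈ L) (hv : v ∈ L) (huv : u ≠ v)
    (f : ℤ → ℤ → ℝ) :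
    ∑ x ∈ L, ∑ y ∈ L, f x y = (f u u + f u v + f v u + f v v) +
      ∑ r ∈ (L.erase u).erase v, (f u r + f r u + (f v r + f r v)) +
      ∑ x ∈ (L.erase u).erase v, ∑ y ∈ (L.erase u).erase v, f x y := by
  rw [sum_split1 hu hv huv]
  simp only [sum_split1 hu hv huv, Finset.sum_add_distrib]
  ring

theorem right_KK {p : ℤ → ℝ} (hp : Uni p) {n : ℕ} {h : ℝ} (hs : Small p n h)
    {F : Conf → ℝ} (hF : Rgt n F) : Rgt n (KK mv p n h F) := by
  intro η u hu v hv h1 h2 huv
  have huv' : u ≠ v := huv.ne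
  have D0 := hF η u hu v hv h1 h2 huv
  have key : 0 ≤ ∑ x ∈ Lam n, ∑ y ∈ Lam n, p (y - x) * TT F η u v x y := by
    rw [sum_split2 hu hv huv' (fun x y => p (y - x) * TT F η u v x y)]
    have b1 : 0 ≤ p (u - u) * TT F η u v u u := by
      refine mul_nonneg (hp.nonneg _) ?_
      simp only [TT, mv_diag]
      linarith
    have b2 : 0 ≤ p (v - v) * TT F η u v v v := by
      refine mul_nonneg (hp.nonneg _) ?_
      simp only [TT, mv_diag]
      linarith
    have b3 : TT F η u v u v = 0 := by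
      simp only [TT, mv_full (put_self v η), mv_put_src huv' h1 h2, sub_self]
    have b4 : TT F η u v v u = 0 := by
      simp only [TT, mv_full (put_self u η), mv_put_src huv'.symm h2 h1, sub_self]
    have b5 : 0 ≤ ∑ r ∈ ((Lam n).erase u).erase v, (p (r - u) * TT F η u v u r +
        p (u - r) * TT F η u v r u + (p (r - v) * TT F η u v v r + p (v - r) * TT F η u v r v)) := by
      refine Finset.sum_nonneg fun r hr => ?_
      rw [Finset.mem_erase, Finset.mem_erase] at hr
      exact right_third hp hF hu hv hr.2.2 h1 h2 huv hr.2.1 hr.1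
    have b6 : 0 ≤ ∑ x ∈ ((Lam n).erase u).erase v, ∑ y ∈ ((Lam n).erase u).erase v,
        p (y - x) * TT F η u v x y := by
      refine Finset.sum_nonneg fun x hx => Finset.sum_nonneg fun y hy => ?_
      rw [Finset.mem_erase, Finset.mem_erase] at hx hy
      refine mul_nonneg (hp.nonneg _) ?_
      unfold TT
      rw [mv_put_ne (Ne.symm hx.1) (Ne.symm hy.1), mv_put_ne (Ne.symm hx.2.1) (Ne.symm hy.2.1)]
      refine sub_nonneg.2 (hF _ u hu v hv ?_ ?_ huv)
      · rw [mv_apply_ne (Ne.symm hx.2.1) (Ne.symm hy.2.1), h1]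
      · rw [mv_apply_ne (Ne.symm hx.1) (Ne.symm hy.1), h2]
    rw [b3, b4]
    linarith
  rw [KK_eq, KK_eq]
  have e : ∑ x ∈ Lam n, ∑ y ∈ Lam n, p (y - x) * TT F η u v x y =
      ∑ x ∈ Lam n, ∑ y ∈ Lam n, p (y - x) * F (mv x y (put v η)) -
      ∑ x ∈ Lam n, ∑ y ∈ Lam n, p (y - x) * F (mv x y (put u η)) := by
    rw [← Finset.sum_sub_distrib]
    refine Finset.sum_congr rfl fun x _ => ?_
    rw [← Finset.sum_sub_distrib]
    refine Finset.sum_congr rfl fun y _ => ?_
    unfold TT
    ring
  rw [e] at key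
  have t1 := mul_le_mul_of_nonneg_left D0 (small_le hs hp.nonneg)
  have t2 := mul_nonneg hs.1 key
  linarith

end ConeP

/-- **The exclusion chain preserves the cone.** -/
theorem t_CONE : S_CONE := by
  intro p hp n h hs F hF
  have hsub : ConeP.Sub n F := by
    intro η u hu v hv h1 h2 huv
    have := hF.sub η u hu v hv h1 h2 huv
    unfold ConeP.SD
    linarith
  refine ⟨ConeP.mono_KK hp.nonneg hs hF.mono, ConeP.right_KK hp hs hF.right, ?_⟩
  intro η u hu v hv h1 h2 huv
  have := ConeP.sub_KK hp hs hsub hF.right η u hu v hv h1 h2 huv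
  unfold ConeP.SD at this
  linarith

end Pool.Agent.N959.EX
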