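import Pool.Agent.N959.EX.Def

/-!
Task EX/CPL: existence of stationary couplings (`t_CPL : S_DISP → S_APX → S_CPL`).
-/

set_option autoImplicit false

open MeasureTheory Filter Topology
open scoped ENNReal NNReal

namespace Pool.Agent.N959.EX

namespace Cpl

/-! ### boxes -/

theorem mem_Lam {n : ℕ} {x : ℤ} : x ∈ Lam n ↔ -(n : ℤ) ≤ x ∧ x ≤ n := by
  unfold Lam; exact Finset.mem_Icc

theorem Lam_mono {m n : ℕ} (h : m ≤ n) : Lam m ⊆ Lam n := by
  intro x hx
  rw [mem_Lam] at hx ⊢
  omega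

theorem exists_Lam (x : ℤ) : ∃ n, x ∈ Lam n := ⟨x.natAbs, by rw [mem_Lam]; omega⟩

theorem exists_sub_Lam (s : Finset ℤ) : ∃ n, s ⊆ Lam n := by
  induction s using Finset.induction_on with
  | empty => exact ⟨0, by simp⟩
  | insert a s _ ih =>
    obtain ⟨n, hn⟩ := ih
    obtain ⟨k, hk⟩ := exists_Lam a
    refine ⟨max n k, ?_⟩
    intro y hy
    rcases Finset.mem_insert.1 hy with rfl | h
    · exact Lam_mono (le_max_right _ _) hk
    · exact Lam_mono (le_max_left _ _) (hn h)

theorem tendsto_Lam : Tendsto Lam atTop atTop :=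
  tendsto_atTop_finset_of_monotone (fun _ _ h => Lam_mono h) exists_Lam

/-! ### continuity -/

theorem cont_of_dep {n : ℕ} {F : Conf → ℝ} (h : Dep n F) : Continuous F := by
  classical
  let r : Conf → (Lam n → Bool) := fun η x => η x
  let e : (Lam n → Bool) → Conf := fun a x => if hx : x ∈ Lam n then a ⟨x, hx⟩ else false
  have hF : F = (F ∘ e) ∘ r := by
    funext η
    apply h
    intro x hx
    simp [e, r, hx]
  rw [hF]
  refine Continuous.comp (continuous_of_discreteTopology) ?_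
  exact continuous_pi fun x => continuous_apply _

theorem cont_of_dep2 {n : ℕ} {F : Conf × Conf → ℝ} (h : Dep2 n F) : Continuous F := by
  classical
  let r : Conf × Conf → (Lam n → Bool) × (Lam n → Bool) := fun z => (fun x => z.1 x, fun x => z.2 x)
  let e : (Lam n → Bool) → Conf := fun a x => if hx : x ∈ Lam n then a ⟨x, hx⟩ else false
  have hF : F = (fun a : (Lam n → Bool) × (Lam n → Bool) => F (e a.1, e a.2)) ∘ r := by
    funext z
    apply h
    intro x hx
    simp [e, r, hx]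
  rw [hF]
  refine Continuous.comp (continuous_of_discreteTopology) ?_
  refine Continuous.prodMk ?_ ?_
  · exact continuous_pi fun x => (continuous_apply _).comp continuous_fst
  · exact continuous_pi fun x => (continuous_apply _).comp continuous_snd

theorem cont_mv (x y : ℤ) : Continuous (mv x y) := by
  refine continuous_pi fun z => ?_
  have h : (fun η : Conf => mv x y η z) =
      (fun t : Bool × Bool × Bool => if t.1 = true ∧ t.2.1 = false then
        (if z = x then t.2.1 else if z = y then t.1 else t.2.2) else t.2.2) ∘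
        (fun η : Conf => (η x, η y, η z)) := by
    funext η
    by_cases hc : η x = true ∧ η y = false
    · simp only [mv, sw, Function.comp, hc, and_self, if_true]
    · simp only [mv, Function.comp, hc, if_false]
  rw [h]
  refine Continuous.comp (continuous_of_discreteTopology) ?_
  exact (continuous_apply _).prodMk ((continuous_apply _).prodMk (continuous_apply _))

theorem cont_mv2 (x y : ℤ) : Continuous (mv2 x y) := by
  unfold mv2
  exact ((cont_mv x y).comp continuous_fst).prodMk ((cont_mv x y).comp continuous_snd)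

theorem bdd_of_cont {Z : Type*} [TopologicalSpace Z] [CompactSpace Z] {F : Z → ℝ}
    (h : Continuous F) : ∃ B, 0 ≤ B ∧ ∀ z, |F z| ≤ B := by
  obtain ⟨B, hB⟩ := (isCompact_univ (X := Z)).exists_bound_of_continuousOn h.continuousOn
  refine ⟨max B 0, le_max_right _ _, fun z => ?_⟩
  exact (hB z (Set.mem_univ z)).trans (le_max_left _ _)

theorem integrable_of_cont {Z : Type*} [TopologicalSpace Z] [CompactSpace Z] [MeasurableSpace Z]
    [OpensMeasurableSpace Z] {F : Z → ℝ} (h : Continuous F) (μ : Measure Z) [IsFiniteMeasure μ] :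
    Integrable F μ := by
  obtain ⟨B, -, hB⟩ := bdd_of_cont h
  refine Integrable.of_bound h.measurable.aestronglyMeasurable B (ae_of_all _ ?_)
  exact hB

/-! ### the chain -/

section chain

variable {Z : Type*} (act : ℤ → ℤ → Z → Z) (p : ℤ → ℝ) (n : ℕ) (h : ℝ)

theorem KK_eq (F : Z → ℝ) (z : Z) : KK act p n h F z =
    (1 - h * Rt p n) * F z + ∑ x ∈ Lam n, ∑ y ∈ Lam n, (h * p (y - x)) * F (act x y z) := by
  unfold KK LL Rt
  have : ∑ x ∈ Lam n, ∑ y ∈ Lam n, p (y - x) * (F (act x y z) - F z) =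
      ∑ x ∈ Lam n, ∑ y ∈ Lam n, p (y - x) * F (act x y z) -
        (∑ x ∈ Lam n, ∑ y ∈ Lam n, p (y - x)) * F z := by
    simp_rw [mul_sub, Finset.sum_sub_distrib, Finset.sum_mul]
  rw [this]
  have h2 : ∑ x ∈ Lam n, ∑ y ∈ Lam n, (h * p (y - x)) * F (act x y z) =
      h * ∑ x ∈ Lam n, ∑ y ∈ Lam n, p (y - x) * F (act x y z) := by
    simp_rw [Finset.mul_sum, mul_assoc]
  rw [h2]; ring

variable {act p n h}

theorem small_nonneg (hs : Small p n h) : 0 ≤ 1 - h * Rt p n := by
  have := hs.2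
  have h3 := hs.1
  by_cases hr : 0 ≤ h * Rt p n
  · linarith
  · push Not at hr; linarith

theorem KK_abs (hp : ∀ z, 0 ≤ p z) (hs : Small p n h) {F : Z → ℝ} {B : ℝ}
    (hF : ∀ z, |F z| ≤ B) (z : Z) : |KK act p n h F z| ≤ B := by
  rw [KK_eq]
  have h0 := small_nonneg hs
  have h1 : ∀ x ∈ Lam n, ∀ y ∈ Lam n, |(h * p (y - x)) * F (act x y z)| ≤ (h * p (y - x)) * B := by
    intro x _ y _
    rw [abs_mul, abs_of_nonneg (mul_nonneg hs.1 (hp _))]
    exact mul_le_mul_of_nonneg_left (hF _) (mul_nonneg hs.1 (hp _))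
  calc |(1 - h * Rt p n) * F z + ∑ x ∈ Lam n, ∑ y ∈ Lam n, (h * p (y - x)) * F (act x y z)|
      ≤ |(1 - h * Rt p n) * F z| + |∑ x ∈ Lam n, ∑ y ∈ Lam n, (h * p (y - x)) * F (act x y z)| :=
        abs_add_le _ _
    _ ≤ (1 - h * Rt p n) * B + ∑ x ∈ Lam n, ∑ y ∈ Lam n, (h * p (y - x)) * B := by
        gcongr
        · rw [abs_mul, abs_of_nonneg h0]
          exact mul_le_mul_of_nonneg_left (hF z) h0
        · refine (Finset.abs_sum_le_sum_abs _ _).trans (Finset.sum_le_sum fun x hx => ?_)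
          refine (Finset.abs_sum_le_sum_abs _ _).trans (Finset.sum_le_sum fun y hy => ?_)
          exact h1 x hx y hy
    _ = B := by
        have : ∑ x ∈ Lam n, ∑ y ∈ Lam n, (h * p (y - x)) * B = h * Rt p n * B := by
          unfold Rt
          simp_rw [Finset.mul_sum, Finset.sum_mul]
        rw [this]; ring

theorem KK_iter_abs (hp : ∀ z, 0 ≤ p z) (hs : Small p n h) {F : Z → ℝ} {B : ℝ}
    (hF : ∀ z, |F z| ≤ B) (k : ℕ) (z : Z) : |(KK act p n h)^[k] F z| ≤ B := by
  induction k generalizing z with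
  | zero => exact hF z
  | succ k ih => rw [Function.iterate_succ_apply']; exact KK_abs hp hs ih z

theorem KK_neg (F : Z → ℝ) : KK act p n h (fun z => -F z) = fun z => -KK act p n h F z := by
  funext z
  rw [KK_eq, KK_eq]
  simp only [mul_neg, Finset.sum_neg_distrib]
  ring

theorem KK_iter_neg (F : Z → ℝ) (k : ℕ) :
    (KK act p n h)^[k] (fun z => -F z) = fun z => -(KK act p n h)^[k] F z := by
  induction k with
  | zero => rfl
  | succ k ih =>
    rw [Function.iterate_succ_apply', ih, KK_neg, Function.iterate_succ_apply']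

theorem KK_cont [TopologicalSpace Z] (ha : ∀ x y, Continuous (act x y)) {F : Z → ℝ}
    (hF : Continuous F) : Continuous (KK act p n h F) := by
  have : KK act p n h F = fun z => (1 - h * Rt p n) * F z +
      ∑ x ∈ Lam n, ∑ y ∈ Lam n, (h * p (y - x)) * F (act x y z) := by
    funext z; exact KK_eq _ _ _ _ _ _
  rw [this]
  refine (continuous_const.mul hF).add ?_
  refine continuous_finsetSum _ fun x _ => continuous_finsetSum _ fun y _ => ?_
  exact continuous_const.mul (hF.comp (ha x y))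

theorem LL_cont [TopologicalSpace Z] (ha : ∀ x y, Continuous (act x y)) {F : Z → ℝ}
    (hF : Continuous F) : Continuous (LL act p n F) := by
  unfold LL
  refine continuous_finsetSum _ fun x _ => continuous_finsetSum _ fun y _ => ?_
  exact continuous_const.mul ((hF.comp (ha x y)).sub hF)

theorem KK_iter_cont [TopologicalSpace Z] (ha : ∀ x y, Continuous (act x y)) {F : Z → ℝ}
    (hF : Continuous F) (k : ℕ) : Continuous ((KK act p n h)^[k] F) := by
  induction k with
  | zero => exact hF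
  | succ k ih => rw [Function.iterate_succ_apply']; exact KK_cont ha ih

/-- telescoping -/
theorem KK_tel (F : Z → ℝ) (k : ℕ) (z : Z) : (KK act p n h)^[k] F z - F z =
    h * ∑ i ∈ Finset.range k, LL act p n ((KK act p n h)^[i] F) z := by
  induction k with
  | zero => simp
  | succ k ih =>
    rw [Finset.sum_range_succ, mul_add, ← ih, Function.iterate_succ_apply']
    simp only [KK]
    ring

/-- the chain commutes with `LL` -/
theorem KK_LL (F : Z → ℝ) (hh : h ≠ 0) (k : ℕ) (z : Z) :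
    h * (KK act p n h)^[k] (LL act p n F) z =
      (KK act p n h)^[k + 1] F z - (KK act p n h)^[k] F z := by
  have hlin : ∀ (a b : ℝ) (G H : Z → ℝ), KK act p n h (fun z => a * G z + b * H z) =
      fun z => a * KK act p n h G z + b * KK act p n h H z := by
    intro a b G H
    funext z
    rw [KK_eq, KK_eq, KK_eq]
    simp only [mul_add, Finset.sum_add_distrib, Finset.mul_sum]
    have e1 : ∀ (c : ℝ) (G : Z → ℝ), ∑ x ∈ Lam n, ∑ y ∈ Lam n, h * p (y - x) * (c * G (act x y z)) =
        ∑ x ∈ Lam n, ∑ y ∈ Lam n, c * (h * p (y - x) * G (act x y z)) := by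
      intro c G
      refine Finset.sum_congr rfl fun x _ => Finset.sum_congr rfl fun y _ => ?_
      ring
    rw [e1, e1]
    ring
  have hiter : ∀ (k : ℕ) (a b : ℝ) (G H : Z → ℝ),
      (KK act p n h)^[k] (fun z => a * G z + b * H z) =
      fun z => a * (KK act p n h)^[k] G z + b * (KK act p n h)^[k] H z := by
    intro k
    induction k with
    | zero => intro a b G H; rfl
    | succ k ih =>
      intro a b G H
      rw [Function.iterate_succ_apply, hlin, ih]
      rfl
  have e : LL act p n F = fun z => h⁻¹ * KK act p n h F z + (-h⁻¹) * F z := by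
    funext z
    unfold KK
    field_simp
    ring
  rw [e, hiter]
  simp only
  rw [Function.iterate_succ_apply]
  field_simp
  ring

end chain

/-! ### measures -/

section meas

variable {Z : Type*} [MeasurableSpace Z] (act : ℤ → ℤ → Z → Z) (p : ℤ → ℝ) (n : ℕ) (h : ℝ)

/-- one step of the chain on measures -/
noncomputable def Tm (π : Measure Z) : Measure Z :=
  ENNReal.ofReal (1 - h * Rt p n) • π +
    ∑ x ∈ Lam n, ∑ y ∈ Lam n, ENNReal.ofReal (h * p (y - x)) • π.map (act x y)

variable {act p n h}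

theorem Tm_prob (hp : ∀ z, 0 ≤ p z) (hs : Small p n h) (ha : ∀ x y, Measurable (act x y))
    (π : Measure Z) [IsProbabilityMeasure π] : IsProbabilityMeasure (Tm act p n h π) := by
  constructor
  unfold Tm
  have h1 : ∀ x y, (π.map (act x y)) Set.univ = 1 := by
    intro x y
    rw [Measure.map_apply (ha x y) MeasurableSet.univ, Set.preimage_univ, measure_univ]
  simp only [Measure.add_apply, Measure.smul_apply, Measure.finsetSum_apply, h1, measure_univ,
    smul_eq_mul, mul_one]
  have h2 : ∑ x ∈ Lam n, ∑ y ∈ Lam n, ENNReal.ofReal (h * p (y - x)) =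
      ENNReal.ofReal (h * Rt p n) := by
    unfold Rt
    rw [Finset.mul_sum, ENNReal.ofReal_sum_of_nonneg]
    · refine Finset.sum_congr rfl fun x _ => ?_
      rw [Finset.mul_sum, ENNReal.ofReal_sum_of_nonneg]
      intro y _; exact mul_nonneg hs.1 (hp _)
    · intro x _
      exact mul_nonneg hs.1 (Finset.sum_nonneg fun y _ => hp _)
  have h3 : 0 ≤ h * Rt p n := by
    refine mul_nonneg hs.1 ?_
    exact Finset.sum_nonneg fun x _ => Finset.sum_nonneg fun y _ => hp _
  rw [h2, ← ENNReal.ofReal_add (small_nonneg hs) h3]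
  simp

theorem Tm_int [TopologicalSpace Z] [CompactSpace Z] [BorelSpace Z] (hp : ∀ z, 0 ≤ p z)
    (hs : Small p n h) (ha : ∀ x y, Continuous (act x y)) (π : Measure Z) [IsProbabilityMeasure π]
    {F : Z → ℝ} (hF : Continuous F) :
    ∫ z, F z ∂(Tm act p n h π) = ∫ z, KK act p n h F z ∂π := by
  have hI : ∀ (c : ℝ≥0∞) (hc : c ≠ ⊤) (μ : Measure Z) [IsFiniteMeasure μ], Integrable F (c • μ) :=
    fun c hc μ _ => (integrable_of_cont hF μ).smul_measure hc
  have hmap : ∀ x y, IsFiniteMeasure (π.map (act x y)) := fun x y => by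
    infer_instance
  unfold Tm
  rw [integral_add_measure (hI _ ENNReal.ofReal_ne_top _)]
  · rw [integral_finsetSum_measure]
    · have e : ∀ z, KK act p n h F z = (1 - h * Rt p n) * F z +
        ∑ x ∈ Lam n, ∑ y ∈ Lam n, (h * p (y - x)) * F (act x y z) := KK_eq _ _ _ _ _
      simp_rw [e]
      have hic : ∀ x y, Integrable (fun z => (h * p (y - x)) * F (act x y z)) π := fun x y =>
        integrable_of_cont (continuous_const.mul (hF.comp (ha x y))) π
      have e3 : ∫ z, ((1 - h * Rt p n) * F z +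
          ∑ x ∈ Lam n, ∑ y ∈ Lam n, (h * p (y - x)) * F (act x y z)) ∂π =
          ∫ z, (1 - h * Rt p n) * F z ∂π +
          ∫ z, ∑ x ∈ Lam n, ∑ y ∈ Lam n, (h * p (y - x)) * F (act x y z) ∂π :=
        integral_add (integrable_of_cont (continuous_const.mul hF) π)
        (integrable_finsetSum _ fun x _ => integrable_finsetSum _ fun y _ => hic x y)
      rw [e3, integral_smul_measure, ENNReal.toReal_ofReal (small_nonneg hs), integral_const_mul,
        smul_eq_mul]
      congr 1
      rw [integral_finsetSum _ fun x _ => integrable_finsetSum _ fun y _ => hic x y]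
      refine Finset.sum_congr rfl fun x _ => ?_
      rw [integral_finsetSum _ fun y _ => hic x y, integral_finsetSum_measure]
      · refine Finset.sum_congr rfl fun y _ => ?_
        rw [integral_smul_measure, ENNReal.toReal_ofReal (mul_nonneg hs.1 (hp _)),
          integral_map (ha x y).measurable.aemeasurable hF.measurable.aestronglyMeasurable,
          integral_const_mul, smul_eq_mul]
      · intro y _
        exact hI _ ENNReal.ofReal_ne_top _
    · intro x _
      rw [integrable_finsetSum_measure]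
      intro y _
      exact hI _ ENNReal.ofReal_ne_top _
  · rw [integrable_finsetSum_measure]
    intro x _
    rw [integrable_finsetSum_measure]
    intro y _
    exact hI _ ENNReal.ofReal_ne_top _

theorem Tm_iter_prob (hp : ∀ z, 0 ≤ p z) (hs : Small p n h) (ha : ∀ x y, Measurable (act x y))
    (π : Measure Z) [IsProbabilityMeasure π] (k : ℕ) :
    IsProbabilityMeasure ((Tm act p n h)^[k] π) := by
  induction k with
  | zero => simpa using (inferInstance : IsProbabilityMeasure π)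
  | succ k ih =>
    rw [Function.iterate_succ_apply']
    have := ih
    exact Tm_prob hp hs ha _

theorem Tm_iter_int [TopologicalSpace Z] [CompactSpace Z] [BorelSpace Z] (hp : ∀ z, 0 ≤ p z)
    (hs : Small p n h) (ha : ∀ x y, Continuous (act x y)) (π : Measure Z) [IsProbabilityMeasure π]
    (k : ℕ) : ∀ {F : Z → ℝ}, Continuous F →
    ∫ z, F z ∂((Tm act p n h)^[k] π) = ∫ z, (KK act p n h)^[k] F z ∂π := by
  induction k with
  | zero => intro F _; rfl
  | succ k ih =>
    intro F hF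
    rw [Function.iterate_succ_apply']
    have := Tm_iter_prob hp hs (fun x y => (ha x y).measurable) π k
    rw [Tm_int hp hs ha _ hF, ih (KK_cont ha hF)]
    rfl

/-- the averages -/
noncomputable def av (act : ℤ → ℤ → Z → Z) (p : ℤ → ℝ) (n : ℕ) (h : ℝ) (N : ℕ) (π : Measure Z) :
    Measure Z :=
  (N : ℝ≥0∞)⁻¹ • ∑ k ∈ Finset.range N, (Tm act p n h)^[k] π

theorem av_prob (hp : ∀ z, 0 ≤ p z) (hs : Small p n h) (ha : ∀ x y, Measurable (act x y))
    (π : Measure Z) [IsProbabilityMeasure π] {N : ℕ} (hN : 0 < N) :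
    IsProbabilityMeasure (av act p n h N π) := by
  constructor
  unfold av
  have h1 : ∀ k, ((Tm act p n h)^[k] π) Set.univ = 1 := fun k => by
    have := Tm_iter_prob hp hs ha π k
    exact measure_univ
  simp only [Measure.smul_apply, Measure.finsetSum_apply, h1, smul_eq_mul]
  simp only [Finset.sum_const, Finset.card_range, nsmul_eq_mul, mul_one]
  exact ENNReal.inv_mul_cancel (by exact_mod_cast hN.ne') (ENNReal.natCast_ne_top N)

theorem av_int [TopologicalSpace Z] [CompactSpace Z] [BorelSpace Z] (hp : ∀ z, 0 ≤ p z)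
    (hs : Small p n h) (ha : ∀ x y, Continuous (act x y)) (π : Measure Z) [IsProbabilityMeasure π]
    {N : ℕ} {F : Z → ℝ} (hF : Continuous F) :
    ∫ z, F z ∂(av act p n h N π) =
      (N : ℝ)⁻¹ * ∑ k ∈ Finset.range N, ∫ z, (KK act p n h)^[k] F z ∂π := by
  unfold av
  rw [integral_smul_measure, integral_finsetSum_measure]
  · rw [smul_eq_mul]
    congr 1
    · simp
    · exact Finset.sum_congr rfl fun k _ => Tm_iter_int hp hs ha π k hF
  · intro k _
    have := Tm_iter_prob hp hs (fun x y => (ha x y).measurable) π k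
    exact integrable_of_cont hF _

end meas

/-! ### rates -/

/-- the rate of the moves between `x` and the complement of the box -/
noncomputable def rr (p : ℤ → ℝ) (n : ℕ) (x : ℤ) : ℝ :=
  ∑' y : ℤ, if y ∈ Lam n then 0 else (p (y - x) + p (x - y))

/-- `∑ |z| p z` -/
noncomputable def C0 (p : ℤ → ℝ) : ℝ := ∑' z : ℤ, |(z : ℝ)| * p z

theorem sum_shift {p : ℤ → ℝ} (hp : Ker p) (x : ℤ) : Summable fun y : ℤ => p (y - x) + p (x - y) := by
  have h1 : Summable fun y : ℤ => p (y - x) :=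
    (Equiv.subRight x).summable_iff.2 hp.sum.summable
  have h2 : Summable fun y : ℤ => p (x - y) :=
    (Equiv.subLeft x).summable_iff.2 hp.sum.summable
  exact h1.add h2

theorem sum_rr {p : ℤ → ℝ} (hp : Ker p) (n : ℕ) (x : ℤ) :
    Summable fun y : ℤ => if y ∈ Lam n then 0 else (p (y - x) + p (x - y)) := by
  refine Summable.of_nonneg_of_le ?_ ?_ (sum_shift hp x)
  · intro y; split_ifs
    · exact le_rfl
    · exact add_nonneg (hp.nonneg _) (hp.nonneg _)
  · intro y; split_ifs
    · exact add_nonneg (hp.nonneg _) (hp.nonneg _)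
    · exact le_rfl

theorem rr_nonneg {p : ℤ → ℝ} (hp : Ker p) (n : ℕ) (x : ℤ) : 0 ≤ rr p n x := by
  refine tsum_nonneg fun y => ?_
  split_ifs
  · exact le_rfl
  · exact add_nonneg (hp.nonneg _) (hp.nonneg _)

theorem bd_nonneg {p : ℤ → ℝ} (hp : Ker p) (n : ℕ) (μ : Measure Conf) (x : ℤ) :
    0 ≤ bd p n μ x := by
  refine tsum_nonneg fun y => ?_
  split_ifs
  · exact le_rfl
  · exact mul_nonneg (add_nonneg (hp.nonneg _) (hp.nonneg _)) measureReal_nonneg

theorem bd_le {p : ℤ → ℝ} (hp : Ker p) (n : ℕ) (μ : Measure Conf) [IsProbabilityMeasure μ] (x : ℤ) :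
    bd p n μ x ≤ rr p n x := by
  have hle : ∀ y : ℤ, (if y ∈ Lam n then 0 else (p (y - x) + p (x - y)) * μ.real {η | η x ≠ η y}) ≤
      (if y ∈ Lam n then 0 else (p (y - x) + p (x - y))) := by
    intro y
    split_ifs
    · exact le_rfl
    · have h1 : μ.real {η : Conf | η x ≠ η y} ≤ 1 := measureReal_le_one
      have h2 : 0 ≤ p (y - x) + p (x - y) := add_nonneg (hp.nonneg _) (hp.nonneg _)
      calc _ ≤ (p (y - x) + p (x - y)) * 1 := mul_le_mul_of_nonneg_left h1 h2
        _ = _ := mul_one _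
  have hs : Summable fun y : ℤ =>
      (if y ∈ Lam n then 0 else (p (y - x) + p (x - y)) * μ.real {η | η x ≠ η y}) := by
    refine Summable.of_nonneg_of_le ?_ hle (sum_rr hp n x)
    intro y
    split_ifs
    · exact le_rfl
    · exact mul_nonneg (add_nonneg (hp.nonneg _) (hp.nonneg _)) measureReal_nonneg
  exact hs.tsum_le_tsum hle (sum_rr hp n x)

theorem count_le (n : ℕ) (z : ℤ) : (((Lam n).filter fun x => z + x ∉ Lam n).card : ℝ) ≤ |(z : ℝ)| := by
  have h : ((Lam n).filter fun x => z + x ∉ Lam n).card ≤ z.natAbs := by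
    rcases le_total 0 z with hz | hz
    · have hsub : ((Lam n).filter fun x => z + x ∉ Lam n) ⊆ Finset.Ioc ((n : ℤ) - z) n := by
        intro x hx
        rw [Finset.mem_filter, mem_Lam, mem_Lam] at hx
        rw [Finset.mem_Ioc]
        omega
      refine (Finset.card_le_card hsub).trans ?_
      rw [Int.card_Ioc]
      omega
    · have hsub : ((Lam n).filter fun x => z + x ∉ Lam n) ⊆ Finset.Ico (-(n : ℤ)) (-(n : ℤ) - z) := by
        intro x hx
        rw [Finset.mem_filter, mem_Lam, mem_Lam] at hx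
        rw [Finset.mem_Ico]
        omega
      refine (Finset.card_le_card hsub).trans ?_
      rw [Int.card_Ico]
      omega
  have h2 : (z.natAbs : ℝ) = |(z : ℝ)| := by
    rw [Nat.cast_natAbs]; push_cast; rfl
  rw [← h2]
  exact_mod_cast h

theorem sum_absq {p : ℤ → ℝ} (hp : Ker p) :
    HasSum (fun z : ℤ => |(z : ℝ)| * (p z + p (-z))) (2 * C0 p) := by
  have h1 : HasSum (fun z : ℤ => |(z : ℝ)| * p z) (C0 p) := hp.mean.hasSum
  have h2 : HasSum (fun z : ℤ => |(z : ℝ)| * p (-z)) (C0 p) := by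
    have := (Equiv.neg ℤ).hasSum_iff.2 h1
    refine this.congr_fun ?_ |> id
    intro z
    simp
  have := h1.add h2
  rw [two_mul]
  convert this using 1
  funext z; ring

theorem sum_rr_le {p : ℤ → ℝ} (hp : Ker p) (n : ℕ) : ∑ x ∈ Lam n, rr p n x ≤ 2 * C0 p := by
  have e1 : ∀ x : ℤ, rr p n x = ∑' z : ℤ, if z + x ∈ Lam n then 0 else (p z + p (-z)) := by
    intro x
    unfold rr
    rw [← (Equiv.addRight x).tsum_eq]
    refine tsum_congr fun z => ?_
    simp only [Equiv.coe_addRight]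
    have h1 : z + x - x = z := by ring
    have h2 : x - (z + x) = -z := by ring
    rw [h1, h2]
    all_goals (by_cases hz : z + x ∈ Lam n <;> simp [hz])
  have hs : ∀ x : ℤ, Summable fun z : ℤ => if z + x ∈ Lam n then 0 else (p z + p (-z)) := by
    intro x
    have h0 : Summable fun z : ℤ => p z + p (-z) :=
      hp.sum.summable.add ((Equiv.neg ℤ).summable_iff.2 hp.sum.summable)
    refine Summable.of_nonneg_of_le ?_ ?_ h0
    · intro y; split_ifs
      · exact le_rfl
      · exact add_nonneg (hp.nonneg _) (hp.nonneg _)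
    · intro y; split_ifs
      · exact add_nonneg (hp.nonneg _) (hp.nonneg _)
      · exact le_rfl
  simp_rw [e1]
  rw [← Summable.tsum_finsetSum fun x _ => hs x]
  rw [← (sum_absq hp).tsum_eq]
  refine Summable.tsum_le_tsum ?_ (summable_sum fun x _ => hs x) (sum_absq hp).summable
  intro z
  have h0 : 0 ≤ p z + p (-z) := add_nonneg (hp.nonneg _) (hp.nonneg _)
  have : ∑ x ∈ Lam n, (if z + x ∈ Lam n then 0 else (p z + p (-z))) =
      (((Lam n).filter fun x => z + x ∉ Lam n).card : ℝ) * (p z + p (-z)) := by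
    rw [Finset.card_filter]
    push_cast
    rw [Finset.sum_mul]
    refine Finset.sum_congr rfl fun x _ => ?_
    split_ifs <;> simp_all
  rw [this]
  exact mul_le_mul_of_nonneg_right (count_le n z) h0

/-- tails of a summable function outside of the boxes -/
theorem tail_zero {α : Type*} [DecidableEq α] {u : α → ℝ} (s : ℕ → Finset α)
    (hs : Tendsto s atTop atTop) :
    Tendsto (fun n => ∑' w : α, if w ∈ s n then 0 else u w) atTop (𝓝 0) := by
  have h := (tendsto_tsum_compl_atTop_zero u).comp hs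
  refine h.congr fun n => ?_
  simp only [Function.comp]
  have h2 := tsum_subtype {a | a ∉ s n} u
  refine h2.trans ?_
  refine tsum_congr fun w => ?_
  by_cases hw : w ∈ s n
  · rw [Set.indicator_of_notMem]
    · simp [hw]
    · exact fun h => h hw
  · rw [Set.indicator_of_mem]
    · simp [hw]
    · exact hw

theorem rr_tendsto (p : ℤ → ℝ) (x : ℤ) : Tendsto (fun n => rr p n x) atTop (𝓝 0) :=
  tail_zero (u := fun y => p (y - x) + p (x - y)) Lam tendsto_Lam

theorem rrsum_tendsto (p : ℤ → ℝ) (m : ℕ) :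
    Tendsto (fun n => ∑ x ∈ Lam m, rr p n x) atTop (𝓝 0) := by
  have := tendsto_finsetSum (Lam m) fun x _ => rr_tendsto p x
  simpa using this

/-! ### the generator -/

/-- total rate at the sites of `Lam m` -/
noncomputable def uu (p : ℤ → ℝ) (m : ℕ) (w : ℤ × ℤ) : ℝ :=
  if w.1 ∈ Lam m ∨ w.2 ∈ Lam m then p (w.2 - w.1) else 0

theorem uu_nonneg {p : ℤ → ℝ} (hp : Ker p) (m : ℕ) (w : ℤ × ℤ) : 0 ≤ uu p m w := by
  unfold uu; split_ifs
  · exact hp.nonneg _
  · exact le_rfl

theorem uu_summable {p : ℤ → ℝ} (hp : Ker p) (m : ℕ) : Summable (uu p m) := by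
  have hA : ∀ x : ℤ, Summable fun w : ℤ × ℤ => if w.1 = x then p (w.2 - w.1) else 0 := by
    intro x
    have hi : Function.Injective (fun y : ℤ => (x, y)) := fun a b h => (Prod.mk.inj h).2
    rw [← hi.summable_iff]
    · have : Summable fun y : ℤ => p (y - x) :=
        (Equiv.subRight x).summable_iff.2 hp.sum.summable
      refine this.congr fun y => ?_
      simp
    · rintro ⟨a, b⟩ hab
      have : a ≠ x := fun h => hab ⟨b, by rw [h]⟩
      simp [this]
  have hB : ∀ y : ℤ, Summable fun w : ℤ × ℤ => if w.2 = y then p (w.2 - w.1) else 0 := by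
    intro y
    have hi : Function.Injective (fun x : ℤ => (x, y)) := fun a b h => (Prod.mk.inj h).1
    rw [← hi.summable_iff]
    · have : Summable fun x : ℤ => p (y - x) :=
        (Equiv.subLeft y).summable_iff.2 hp.sum.summable
      refine this.congr fun y => ?_
      simp
    · rintro ⟨a, b⟩ hab
      have : b ≠ y := fun h => hab ⟨a, by rw [h]⟩
      simp [this]
  have hsum : Summable fun w : ℤ × ℤ => ∑ x ∈ Lam m, (if w.1 = x then p (w.2 - w.1) else 0) +
      ∑ y ∈ Lam m, (if w.2 = y then p (w.2 - w.1) else 0) :=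
    (summable_sum fun x _ => hA x).add (summable_sum fun y _ => hB y)
  refine Summable.of_nonneg_of_le (uu_nonneg hp m) ?_ hsum
  intro w
  have h1 : ∑ x ∈ Lam m, (if w.1 = x then p (w.2 - w.1) else 0) =
      if w.1 ∈ Lam m then p (w.2 - w.1) else 0 := by
    rw [Finset.sum_ite_eq]
  have h2 : ∑ x ∈ Lam m, (if w.2 = x then p (w.2 - w.1) else 0) =
      if w.2 ∈ Lam m then p (w.2 - w.1) else 0 := by
    rw [Finset.sum_ite_eq]
  rw [h1, h2]
  unfold uu
  have h0 := hp.nonneg (w.2 - w.1)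
  split_ifs <;> simp_all

theorem mv_off {m : ℕ} {x y : ℤ} (hx : x ∉ Lam m) (hy : y ∉ Lam m) (η : Conf) :
    ∀ z ∈ Lam m, mv x y η z = η z := by
  intro z hz
  unfold mv
  split_ifs
  · unfold sw
    have h1 : z ≠ x := fun h => hx (h ▸ hz)
    have h2 : z ≠ y := fun h => hy (h ▸ hz)
    simp [h1, h2]
  · rfl

theorem gen_term {m : ℕ} {F : Conf × Conf → ℝ} {B : ℝ} (hF : Dep2 m F) (hB : ∀ z, |F z| ≤ B)
    {p : ℤ → ℝ} (hp : Ker p) (w : ℤ × ℤ) (z : Conf × Conf) :
    |p (w.2 - w.1) * (F (mv2 w.1 w.2 z) - F z)| ≤ 2 * B * uu p m w := by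
  unfold uu
  split_ifs with h
  · rw [abs_mul, abs_of_nonneg (hp.nonneg _), mul_comm (2 * B)]
    refine mul_le_mul_of_nonneg_left ?_ (hp.nonneg _)
    have := abs_sub (F (mv2 w.1 w.2 z)) (F z)
    have h1 := hB (mv2 w.1 w.2 z)
    have h2 := hB z
    linarith
  · push Not at h
    have : F (mv2 w.1 w.2 z) = F z := by
      apply hF
      intro x hx
      exact ⟨mv_off h.1 h.2 z.1 x hx, mv_off h.1 h.2 z.2 x hx⟩
    rw [this]; simp

theorem gen_cont {m : ℕ} {F : Conf × Conf → ℝ} (hF : Dep2 m F) {p : ℤ → ℝ} (hp : Ker p) :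
    Continuous (gen mv2 p F) := by
  obtain ⟨B, -, hB⟩ := bdd_of_cont (cont_of_dep2 hF)
  unfold gen
  refine continuous_tsum (u := fun w => 2 * B * uu p m w) ?_ ((uu_summable hp m).mul_left _) ?_
  · intro w
    exact continuous_const.mul
      (((cont_of_dep2 hF).comp (cont_mv2 _ _)).sub (cont_of_dep2 hF))
  · intro w z
    rw [Real.norm_eq_abs]
    exact gen_term hF hB hp w z

/-- tails of `uu` -/
noncomputable def ut (p : ℤ → ℝ) (m n : ℕ) : ℝ :=
  ∑' w : ℤ × ℤ, if w ∈ Lam n ×ˢ Lam n then 0 else uu p m w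

theorem ut_tendsto (p : ℤ → ℝ) (m : ℕ) : Tendsto (fun n => ut p m n) atTop (𝓝 0) := by
  refine tail_zero (u := uu p m) (fun n => Lam n ×ˢ Lam n) ?_
  refine tendsto_atTop_finset_of_monotone ?_ ?_
  · intro a b hab
    exact Finset.product_subset_product (Lam_mono hab) (Lam_mono hab)
  · rintro ⟨x, y⟩
    obtain ⟨a, ha⟩ := exists_Lam x
    obtain ⟨b, hb⟩ := exists_Lam y
    exact ⟨max a b, Finset.mem_product.2 ⟨Lam_mono (le_max_left _ _) ha,
      Lam_mono (le_max_right _ _) hb⟩⟩

theorem gen_LL {m : ℕ} {F : Conf × Conf → ℝ} {B : ℝ} (hF : Dep2 m F) (hB : ∀ z, |F z| ≤ B)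
    {p : ℤ → ℝ} (hp : Ker p) (n : ℕ) (z : Conf × Conf) :
    |gen mv2 p F z - LL mv2 p n F z| ≤ 2 * B * ut p m n := by
  classical
  have hs : Summable fun w : ℤ × ℤ => p (w.2 - w.1) * (F (mv2 w.1 w.2 z) - F z) := by
    refine Summable.of_norm_bounded ((uu_summable hp m).mul_left (2 * B)) ?_
    intro w
    rw [Real.norm_eq_abs]
    exact gen_term hF hB hp w z
  have e1 : LL mv2 p n F z = ∑' w : ℤ × ℤ, if w ∈ Lam n ×ˢ Lam n then
      p (w.2 - w.1) * (F (mv2 w.1 w.2 z) - F z) else 0 := by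
    unfold LL
    rw [← Finset.sum_product', tsum_eq_sum (s := Lam n ×ˢ Lam n)]
    · refine Finset.sum_congr rfl fun w hw => ?_
      rw [if_pos hw]
    · intro w hw
      rw [if_neg hw]
  have hs2 : Summable fun w : ℤ × ℤ => if w ∈ Lam n ×ˢ Lam n then
      p (w.2 - w.1) * (F (mv2 w.1 w.2 z) - F z) else 0 := by
    refine summable_of_ne_finset_zero (s := Lam n ×ˢ Lam n) ?_
    intro w hw
    rw [if_neg hw]
  unfold gen
  rw [e1, ← hs.tsum_sub hs2]
  have e2 : ∀ w : ℤ × ℤ, (p (w.2 - w.1) * (F (mv2 w.1 w.2 z) - F z) -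
      if w ∈ Lam n ×ˢ Lam n then p (w.2 - w.1) * (F (mv2 w.1 w.2 z) - F z) else 0) =
      if w ∈ Lam n ×ˢ Lam n then 0 else p (w.2 - w.1) * (F (mv2 w.1 w.2 z) - F z) := by
    intro w; split_ifs <;> ring
  simp_rw [e2]
  have hu : Summable fun w : ℤ × ℤ => if w ∈ Lam n ×ˢ Lam n then 0 else uu p m w := by
    refine Summable.of_nonneg_of_le ?_ ?_ (uu_summable hp m)
    · intro w; split_ifs
      · exact le_rfl
      · exact uu_nonneg hp m w
    · intro w; split_ifs
      · exact uu_nonneg hp m w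
      · exact le_rfl
  have hle : ∀ w : ℤ × ℤ, ‖(if w ∈ Lam n ×ˢ Lam n then 0 else
      p (w.2 - w.1) * (F (mv2 w.1 w.2 z) - F z))‖ ≤
      2 * B * (if w ∈ Lam n ×ˢ Lam n then 0 else uu p m w) := by
    intro w
    split_ifs
    · simp
    · rw [Real.norm_eq_abs]; exact gen_term hF hB hp w z
  have := tsum_of_norm_bounded ((hu.hasSum).mul_left (2 * B)) hle
  rw [Real.norm_eq_abs] at this
  exact this

/-! ### functions of one configuration -/

theorem mv_agree {n : ℕ} {x y : ℤ} (hx : x ∈ Lam n) (hy : y ∈ Lam n) {η ζ : Conf}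
    (h : ∀ z ∈ Lam n, η z = ζ z) : ∀ z ∈ Lam n, mv x y η z = mv x y ζ z := by
  intro z hz
  unfold mv
  rw [h x hx, h y hy]
  split_ifs
  · unfold sw
    rw [h x hx, h y hy, h z hz]
  · exact h z hz

theorem dep_KK {p : ℤ → ℝ} {n : ℕ} {h : ℝ} {F : Conf → ℝ} (hF : Dep n F) :
    Dep n (KK mv p n h F) := by
  intro η ζ he
  rw [KK_eq, KK_eq, hF η ζ he]
  congr 1
  refine Finset.sum_congr rfl fun x hx => Finset.sum_congr rfl fun y hy => ?_
  rw [hF _ _ (mv_agree hx hy he)]

theorem dep_iter {p : ℤ → ℝ} {n : ℕ} {h : ℝ} {F : Conf → ℝ} (hF : Dep n F) (k : ℕ) :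
    Dep n ((KK mv p n h)^[k] F) := by
  induction k with
  | zero => exact hF
  | succ k ih => rw [Function.iterate_succ_apply']; exact dep_KK ih

theorem dep_mono {m n : ℕ} (h : m ≤ n) {F : Conf → ℝ} (hF : Dep m F) : Dep n F :=
  fun η ζ he => hF η ζ fun x hx => he x (Lam_mono h hx)

/-- the cut-off -/
noncomputable def ph (m M : ℕ) (x : ℤ) : ℝ := 2 * max 0 (1 - max 0 (|(x : ℝ)| - m) / M)

theorem ph_nonneg (m M : ℕ) (x : ℤ) : 0 ≤ ph m M x := by
  unfold ph; positivity

theorem ph_le (m M : ℕ) (x : ℤ) : ph m M x ≤ 2 := by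
  unfold ph
  have h1 : 0 ≤ max 0 (|(x : ℝ)| - m) / M := by positivity
  have : max 0 (1 - max 0 (|(x : ℝ)| - m) / M) ≤ 1 := max_le (by norm_num) (by linarith)
  linarith

theorem ph_in {m M : ℕ} {x : ℤ} (hx : x ∈ Lam m) : ph m M x = 2 := by
  unfold ph
  rw [mem_Lam] at hx
  have h1 : |(x : ℝ)| ≤ m := by
    rw [abs_le]
    constructor
    · exact_mod_cast hx.1
    · exact_mod_cast hx.2
  rw [max_eq_left (by linarith : |(x : ℝ)| - m ≤ 0)]
  simp

theorem ph_out {m M : ℕ} (hM : 0 < M) {x : ℤ} (hx : x ∉ Lam (m + M)) : ph m M x = 0 := by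
  unfold ph
  rw [mem_Lam] at hx
  have hM' : (0 : ℝ) < M := by exact_mod_cast hM
  have h1 : (m : ℝ) + M ≤ |(x : ℝ)| := by
    have h2 : ((m + M : ℕ) : ℤ) ≤ |x| := by
      push_cast at hx ⊢
      rw [le_abs]
      by_contra hc
      push Not at hc
      apply hx
      constructor <;> omega
    have h3 : (((m + M : ℕ) : ℤ) : ℝ) ≤ ((|x| : ℤ) : ℝ) := by exact_mod_cast h2
    push_cast at h3
    exact h3
  have h2 : (1 : ℝ) ≤ max 0 (|(x : ℝ)| - m) / M := by
    rw [le_div_iff₀ hM', one_mul]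
    exact le_max_of_le_right (by linarith)
  rw [max_eq_left (by linarith)]
  simp

theorem max0 (a b : ℝ) : |max 0 a - max 0 b| ≤ |a - b| := by
  rw [max_comm 0 a, max_comm 0 b]
  exact abs_max_sub_max_le_abs a b 0

theorem ph_lip {m M : ℕ} (hM : 0 < M) (x y : ℤ) :
    |ph m M x - ph m M y| ≤ 2 / M * |((x - y : ℤ) : ℝ)| := by
  have hM' : (0 : ℝ) < M := by exact_mod_cast hM
  unfold ph
  have h1 : |(|(x : ℝ)| - m) - (|(y : ℝ)| - m)| ≤ |(x : ℝ) - y| := by
    have : (|(x : ℝ)| - m) - (|(y : ℝ)| - m) = |(x : ℝ)| - |(y : ℝ)| := by ring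
    rw [this]
    exact abs_abs_sub_abs_le _ _
  have h2 : |max 0 (|(x : ℝ)| - m) - max 0 (|(y : ℝ)| - m)| ≤ |(x : ℝ) - y| :=
    (max0 _ _).trans h1
  have h3 : |(1 - max 0 (|(x : ℝ)| - m) / M) - (1 - max 0 (|(y : ℝ)| - m) / M)| ≤
      |(x : ℝ) - y| / M := by
    have : (1 - max 0 (|(x : ℝ)| - m) / M) - (1 - max 0 (|(y : ℝ)| - m) / M) =
        -(max 0 (|(x : ℝ)| - m) - max 0 (|(y : ℝ)| - m)) / M := by ring
    rw [this, abs_div, abs_neg, abs_of_pos hM']
    gcongr
  have h4 : |max 0 (1 - max 0 (|(x : ℝ)| - m) / M) - max 0 (1 - max 0 (|(y : ℝ)| - m) / M)| ≤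
      |(x : ℝ) - y| / M :=
    (max0 _ _).trans h3
  rw [← mul_sub, abs_mul, abs_of_pos (by norm_num : (0 : ℝ) < 2)]
  push_cast
  calc _ ≤ 2 * (|(x : ℝ) - y| / M) := by gcongr
    _ = _ := by ring

/-- influence of a site on the functions `K^i f` -/
theorem infl (hD : S_DISP) {p : ℤ → ℝ} (hp : Ker p) {n m M : ℕ} {h : ℝ} (hs : Small p n h)
    (hM : 0 < M) {f : Conf → ℝ} (hf : Dep m f) (hf1 : ∀ η, |f η| ≤ 1) (i : ℕ) (η : Conf) (x : ℤ)
    (hx : x ∈ Lam n) (hη : η x = false) :
    |(KK mv p n h)^[i] f (put x η) - (KK mv p n h)^[i] f η| ≤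
      ph m M x + i * h * (2 / M * (2 * C0 p)) := by
  have hM' : (0 : ℝ) < M := by exact_mod_cast hM
  have hdiff : ∀ η : Conf, ∀ x : ℤ, |f (put x η) - f η| ≤ ph m M x := by
    intro η x
    by_cases hx : x ∈ Lam m
    · rw [ph_in hx]
      have := abs_sub (f (put x η)) (f η)
      have h1 := hf1 (put x η)
      have h2 := hf1 η
      linarith
    · have : f (put x η) = f η := by
        apply hf
        intro z hz
        have : z ≠ x := fun h => hx (h ▸ hz)
        unfold put
        rw [Function.update_of_ne this]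
      rw [this, sub_self, abs_zero]
      exact ph_nonneg m M x
  have h1 := hD p hp n h hs f (ph m M) (2 / M) (by positivity) (ph_lip hM)
    (fun η x _ _ => (le_abs_self _).trans (hdiff η x)) i η x hx hη
  have h2 := hD p hp n h hs (fun η => -f η) (ph m M) (2 / M) (by positivity) (ph_lip hM)
    (fun η x _ _ => by
      have := (neg_abs_le (f (put x η) - f η))
      have h3 := hdiff η x
      linarith) i η x hx hη
  rw [KK_iter_neg] at h2
  simp only at h2
  rw [abs_le]
  unfold C0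
  constructor <;> linarith

theorem one_step (hD : S_DISP) (hA : S_APX) {p : ℤ → ℝ} (hp : Ker p) {μ : Measure Conf}
    [IsProbabilityMeasure μ] (hμ : Stat p μ) {n m M : ℕ} {h : ℝ} (hs : Small p n h) (hmn : m ≤ n)
    (hM : 0 < M) {f : Conf → ℝ} (hf : Dep m f) (hf1 : ∀ η, |f η| ≤ 1) (i : ℕ) :
    |∫ η, LL mv p n ((KK mv p n h)^[i] f) η ∂μ| ≤
      2 * ∑ x ∈ Lam (m + M), rr p n x + i * h * (2 / M * (2 * C0 p)) * (2 * C0 p) := by
  have hM' : (0 : ℝ) < M := by exact_mod_cast hM
  have h1 := hA p hp μ inferInstance hμ n _ (fun x => ph m M x + i * h * (2 / M * (2 * C0 p)))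
    (dep_iter (dep_mono hmn hf) i) (fun η x hx hη => infl hD hp hs hM hf hf1 i η x hx hη)
  refine h1.trans ?_
  have hC : 0 ≤ C0 p := tsum_nonneg fun z => mul_nonneg (abs_nonneg _) (hp.nonneg z)
  have hh : 0 ≤ (i : ℝ) * h * (2 / M * (2 * C0 p)) := by
    have := hs.1
    positivity
  simp_rw [add_mul]
  rw [Finset.sum_add_distrib]
  refine add_le_add ?_ ?_
  · calc ∑ x ∈ Lam n, ph m M x * bd p n μ x
        ≤ ∑ x ∈ Lam n, (if x ∈ Lam (m + M) then 2 * rr p n x else 0) := by
          refine Finset.sum_le_sum fun x _ => ?_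
          split_ifs with hx
          · exact mul_le_mul (ph_le m M x) (bd_le hp n μ x) (bd_nonneg hp n μ x) (by norm_num)
          · rw [ph_out hM hx, zero_mul]
      _ = ∑ x ∈ Lam n ∩ Lam (m + M), 2 * rr p n x := by
          rw [Finset.sum_ite_mem]
      _ ≤ ∑ x ∈ Lam (m + M), 2 * rr p n x := by
          refine Finset.sum_le_sum_of_subset_of_nonneg Finset.inter_subset_right ?_
          intro x _ _
          have := rr_nonneg hp n x
          positivity
      _ = _ := by rw [Finset.mul_sum]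
  · rw [← Finset.mul_sum]
    refine mul_le_mul_of_nonneg_left ?_ hh
    exact (Finset.sum_le_sum fun x _ => bd_le hp n μ x).trans (sum_rr_le hp n)

theorem drift (hD : S_DISP) (hA : S_APX) {p : ℤ → ℝ} (hp : Ker p) {μ : Measure Conf}
    [IsProbabilityMeasure μ] (hμ : Stat p μ) {n m M : ℕ} {h : ℝ} (hs : Small p n h) (hmn : m ≤ n)
    (hM : 0 < M) {f : Conf → ℝ} (hf : Dep m f) (hf1 : ∀ η, |f η| ≤ 1) {k : ℕ} {T : ℝ}
    (hk : k * h ≤ T) :
    |∫ η, (KK mv p n h)^[k] f η ∂μ - ∫ η, f η ∂μ| ≤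
      T * (2 * ∑ x ∈ Lam (m + M), rr p n x + T * (2 / M * (2 * C0 p)) * (2 * C0 p)) := by
  have hM' : (0 : ℝ) < M := by exact_mod_cast hM
  have hfc : Continuous f := cont_of_dep hf
  have hC : 0 ≤ C0 p := tsum_nonneg fun z => mul_nonneg (abs_nonneg _) (hp.nonneg z)
  have hh := hs.1
  have hT : 0 ≤ T := le_trans (by positivity) hk
  have hR : 0 ≤ ∑ x ∈ Lam (m + M), rr p n x := Finset.sum_nonneg fun x _ => rr_nonneg hp n x
  have hc : ∀ i, Continuous ((KK mv p n h)^[i] f) := fun i => KK_iter_cont cont_mv hfc i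
  have e : ∫ η, (KK mv p n h)^[k] f η ∂μ - ∫ η, f η ∂μ =
      h * ∑ i ∈ Finset.range k, ∫ η, LL mv p n ((KK mv p n h)^[i] f) η ∂μ := by
    rw [← integral_sub (integrable_of_cont (hc k) μ) (integrable_of_cont hfc μ)]
    simp_rw [KK_tel f k]
    rw [integral_const_mul, integral_finsetSum]
    intro i _
    exact integrable_of_cont (LL_cont cont_mv (hc i)) μ
  rw [e, abs_mul, abs_of_nonneg hh]
  have h1 : |∑ i ∈ Finset.range k, ∫ η, LL mv p n ((KK mv p n h)^[i] f) η ∂μ| ≤
      ∑ i ∈ Finset.range k, (2 * ∑ x ∈ Lam (m + M), rr p n x +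
        T * (2 / M * (2 * C0 p)) * (2 * C0 p)) := by
    refine (Finset.abs_sum_le_sum_abs _ _).trans (Finset.sum_le_sum fun i hi => ?_)
    refine (one_step hD hA hp hμ hs hmn hM hf hf1 i).trans ?_
    have hi' : (i : ℝ) * h ≤ T := by
      refine le_trans ?_ hk
      have : (i : ℝ) ≤ k := by exact_mod_cast (Finset.mem_range.1 hi).le
      exact mul_le_mul_of_nonneg_right this hh
    have : (i : ℝ) * h * (2 / M * (2 * C0 p)) * (2 * C0 p) ≤
        T * (2 / M * (2 * C0 p)) * (2 * C0 p) := by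
      gcongr
    linarith
  rw [Finset.sum_const, Finset.card_range, nsmul_eq_mul] at h1
  calc h * _ ≤ h * (k * (2 * ∑ x ∈ Lam (m + M), rr p n x +
        T * (2 / M * (2 * C0 p)) * (2 * C0 p))) := mul_le_mul_of_nonneg_left h1 hh
    _ = (k * h) * (2 * ∑ x ∈ Lam (m + M), rr p n x +
        T * (2 / M * (2 * C0 p)) * (2 * C0 p)) := by ring
    _ ≤ _ := by gcongr

/-- choice of the parameters -/
theorem stage (hD : S_DISP) (hA : S_APX) {p : ℤ → ℝ} (hp : Ker p) {j : ℕ} (hj : 0 < j) :
    ∃ (n N : ℕ) (h : ℝ), j ≤ n ∧ 0 < N ∧ 0 < h ∧ N * h = j ∧ Small p n h ∧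
      ∀ (μ : Measure Conf) [IsProbabilityMeasure μ], Stat p μ → ∀ f : Conf → ℝ, Dep j f →
      (∀ η, |f η| ≤ 1) → ∀ k ≤ N,
      |∫ η, (KK mv p n h)^[k] f η ∂μ - ∫ η, f η ∂μ| ≤ 1 / j := by
  have hj' : (0 : ℝ) < j := by exact_mod_cast hj
  have hC : 0 ≤ C0 p := tsum_nonneg fun z => mul_nonneg (abs_nonneg _) (hp.nonneg z)
  -- choice of `M`
  obtain ⟨M, hM0, hM⟩ : ∃ M : ℕ, 0 < M ∧
      (j : ℝ) * (j * (2 / M * (2 * C0 p)) * (2 * C0 p)) ≤ 1 / (2 * j) := by
    obtain ⟨M, hM⟩ := exists_nat_gt ((16 * j ^ 3 * C0 p ^ 2 : ℝ))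
    have hM0 : (0 : ℝ) < M := lt_of_le_of_lt (by positivity) hM
    refine ⟨M, by exact_mod_cast hM0, ?_⟩
    rw [le_div_iff₀ (by positivity)]
    have : (j : ℝ) * (j * (2 / M * (2 * C0 p)) * (2 * C0 p)) * (2 * j) =
        (16 * j ^ 3 * C0 p ^ 2) / M := by
      field_simp; ring
    rw [this, div_le_one hM0]
    exact hM.le
  -- choice of `n`
  obtain ⟨n, hn1, hn2⟩ : ∃ n : ℕ, j ≤ n ∧
      (j : ℝ) * (2 * ∑ x ∈ Lam (j + M), rr p n x) ≤ 1 / (2 * j) := by
    have ht : Tendsto (fun n => (j : ℝ) * (2 * ∑ x ∈ Lam (j + M), rr p n x)) atTop (𝓝 0) := by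
      have := ((rrsum_tendsto p (j + M)).const_mul 2).const_mul (j : ℝ)
      simpa using this
    have h1 : ∀ᶠ n in atTop, (j : ℝ) * (2 * ∑ x ∈ Lam (j + M), rr p n x) < 1 / (2 * j) :=
      ht.eventually (gt_mem_nhds (by positivity))
    obtain ⟨n, hn⟩ := (h1.and (eventually_ge_atTop j)).exists
    exact ⟨n, hn.2, hn.1.le⟩
  -- choice of `N`
  obtain ⟨N, hN⟩ := exists_nat_gt (max (4 * (j * Rt p n)) 0)
  have hN0 : (0 : ℝ) < N := lt_of_le_of_lt (le_max_right _ _) hN
  have hN1 : 4 * (j * Rt p n) < N := lt_of_le_of_lt (le_max_left _ _) hN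
  have hs : Small p n (j / N) := by
    refine ⟨by positivity, ?_⟩
    have : 4 * ((j : ℝ) / N * Rt p n) = 4 * (j * Rt p n) / N := by ring
    rw [this, div_le_one hN0]
    exact hN1.le
  refine ⟨n, N, j / N, hn1, by exact_mod_cast hN0, by positivity, by field_simp, hs, ?_⟩
  intro μ _ hμ f hf hf1 k hk
  have hk' : (k : ℝ) * (j / N) ≤ j := by
    have : (k : ℝ) ≤ N := by exact_mod_cast hk
    calc (k : ℝ) * (j / N) ≤ N * (j / N) := mul_le_mul_of_nonneg_right this (by positivity)
      _ = j := by field_simp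
  refine (drift hD hA hp hμ hs hn1 hM0 hf hf1 hk').trans ?_
  rw [mul_add]
  have : (1 : ℝ) / j = 1 / (2 * j) + 1 / (2 * j) := by field_simp; norm_num
  rw [this]
  exact add_le_add hn2 hM

/-! ### the couplings at the stages -/

theorem KK_fst {p : ℤ → ℝ} {n : ℕ} {h : ℝ} (f : Conf → ℝ) (k : ℕ) (z : Conf × Conf) :
    (KK mv2 p n h)^[k] (fun z => f z.1) z = (KK mv p n h)^[k] f z.1 := by
  induction k generalizing f with
  | zero => rfl
  | succ k ih =>
    rw [Function.iterate_succ_apply, Function.iterate_succ_apply, ← ih]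
    rfl

theorem KK_snd {p : ℤ → ℝ} {n : ℕ} {h : ℝ} (f : Conf → ℝ) (k : ℕ) (z : Conf × Conf) :
    (KK mv2 p n h)^[k] (fun z => f z.2) z = (KK mv p n h)^[k] f z.2 := by
  induction k generalizing f with
  | zero => rfl
  | succ k ih =>
    rw [Function.iterate_succ_apply, Function.iterate_succ_apply, ← ih]
    rfl

theorem stage2 (hD : S_DISP) (hA : S_APX) {p : ℤ → ℝ} (hp : Ker p) (μ ν : Measure Conf)
    [IsProbabilityMeasure μ] [IsProbabilityMeasure ν] (hμ : Stat p μ) (hν : Stat p ν) (j : ℕ)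
    (hj : 0 < j) :
    ∃ (n : ℕ) (π : Measure (Conf × Conf)), j ≤ n ∧ IsProbabilityMeasure π ∧
      (∀ f : Conf → ℝ, Dep j f → (∀ η, |f η| ≤ 1) →
        |∫ z, f z.1 ∂π - ∫ η, f η ∂μ| ≤ 1 / j ∧ |∫ z, f z.2 ∂π - ∫ η, f η ∂ν| ≤ 1 / j) ∧
      ∀ (F : Conf × Conf → ℝ) (B : ℝ), Continuous F → (∀ z, |F z| ≤ B) →
        |∫ z, LL mv2 p n F z ∂π| ≤ 2 * B / j := by
  obtain ⟨n, N, h, hjn, hN, hh, hNh, hs, hst⟩ := stage hD hA hp hj
  have hj' : (0 : ℝ) < j := by exact_mod_cast hj
  have hN' : (0 : ℝ) < N := by exact_mod_cast hN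
  have hm2 : ∀ x y, Continuous (mv2 x y) := cont_mv2
  have hprob := av_prob hp.nonneg hs (fun x y => (hm2 x y).measurable) (μ.prod ν) hN
  refine ⟨n, av mv2 p n h N (μ.prod ν), hjn, hprob, ?_, ?_⟩
  · intro f hf hf1
    have hfc := cont_of_dep hf
    have avg : ∀ (a : ℕ → ℝ) (c : ℝ), (∀ k ≤ N, |a k - c| ≤ 1 / j) →
        |(N : ℝ)⁻¹ * ∑ k ∈ Finset.range N, a k - c| ≤ 1 / j := by
      intro a c ha
      have e : (N : ℝ)⁻¹ * ∑ k ∈ Finset.range N, a k - c =
          (N : ℝ)⁻¹ * ∑ k ∈ Finset.range N, (a k - c) := by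
        rw [Finset.sum_sub_distrib, Finset.sum_const, Finset.card_range, nsmul_eq_mul]
        field_simp
      rw [e, abs_mul, abs_of_pos (by positivity : (0 : ℝ) < (N : ℝ)⁻¹)]
      have h1 : |∑ k ∈ Finset.range N, (a k - c)| ≤ N * (1 / j) := by
        refine (Finset.abs_sum_le_sum_abs _ _).trans ?_
        refine (Finset.sum_le_sum fun k hk => ha k (Finset.mem_range.1 hk).le).trans ?_
        rw [Finset.sum_const, Finset.card_range, nsmul_eq_mul]
      calc (N : ℝ)⁻¹ * _ ≤ (N : ℝ)⁻¹ * (N * (1 / j)) := by gcongr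
        _ = 1 / j := by field_simp
    constructor
    · rw [av_int hp.nonneg hs hm2 (μ.prod ν) (F := fun z => f z.1) (hfc.comp continuous_fst)]
      apply avg
      intro k hk
      have e : ∫ z, (KK mv2 p n h)^[k] (fun z => f z.1) z ∂(μ.prod ν) =
          ∫ η, (KK mv p n h)^[k] f η ∂μ := by
        simp_rw [KK_fst]
        rw [integral_fun_fst]
        simp
      rw [e]
      exact hst μ hμ f hf hf1 k hk
    · rw [av_int hp.nonneg hs hm2 (μ.prod ν) (F := fun z => f z.2) (hfc.comp continuous_snd)]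
      apply avg
      intro k hk
      have e : ∫ z, (KK mv2 p n h)^[k] (fun z => f z.2) z ∂(μ.prod ν) =
          ∫ η, (KK mv p n h)^[k] f η ∂ν := by
        simp_rw [KK_snd]
        rw [integral_fun_snd]
        simp
      rw [e]
      exact hst ν hν f hf hf1 k hk
  · intro F B hF hB
    rw [av_int hp.nonneg hs hm2 (μ.prod ν) (LL_cont hm2 hF)]
    have hc : ∀ k, Continuous ((KK mv2 p n h)^[k] F) := fun k => KK_iter_cont hm2 hF k
    have hc2 : ∀ k, Continuous ((KK mv2 p n h)^[k] (LL mv2 p n F)) :=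
      fun k => KK_iter_cont hm2 (LL_cont hm2 hF) k
    have e : ∀ k, h * ∫ z, (KK mv2 p n h)^[k] (LL mv2 p n F) z ∂(μ.prod ν) =
        ∫ z, (KK mv2 p n h)^[k + 1] F z ∂(μ.prod ν) - ∫ z, (KK mv2 p n h)^[k] F z ∂(μ.prod ν) := by
      intro k
      rw [← integral_const_mul]
      simp_rw [KK_LL F hh.ne']
      rw [integral_sub (integrable_of_cont (hc _) _) (integrable_of_cont (hc _) _)]
    have e2 : h * ∑ k ∈ Finset.range N, ∫ z, (KK mv2 p n h)^[k] (LL mv2 p n F) z ∂(μ.prod ν) =
        ∫ z, (KK mv2 p n h)^[N] F z ∂(μ.prod ν) - ∫ z, F z ∂(μ.prod ν) := by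
      rw [Finset.mul_sum]
      simp_rw [e]
      rw [Finset.sum_range_sub (fun k => ∫ z, (KK mv2 p n h)^[k] F z ∂(μ.prod ν))]
      rfl
    have e3 : (N : ℝ)⁻¹ * ∑ k ∈ Finset.range N,
        ∫ z, (KK mv2 p n h)^[k] (LL mv2 p n F) z ∂(μ.prod ν) =
        (∫ z, (KK mv2 p n h)^[N] F z ∂(μ.prod ν) - ∫ z, F z ∂(μ.prod ν)) / j := by
      rw [← e2, ← hNh]
      field_simp
    rw [e3, abs_div, abs_of_pos hj']
    gcongr
    have b1 : |∫ z, (KK mv2 p n h)^[N] F z ∂(μ.prod ν)| ≤ B := by
      have := norm_integral_le_of_norm_le_const (μ := μ.prod ν) (C := B)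
        (f := (KK mv2 p n h)^[N] F) (ae_of_all _ fun z => KK_iter_abs hp.nonneg hs hB N z)
      simpa using this
    have b2 : |∫ z, F z ∂(μ.prod ν)| ≤ B := by
      have := norm_integral_le_of_norm_le_const (μ := μ.prod ν) (C := B)
        (f := F) (ae_of_all _ fun z => hB z)
      simpa using this
    have := abs_sub (∫ z, (KK mv2 p n h)^[N] F z ∂(μ.prod ν)) (∫ z, F z ∂(μ.prod ν))
    linarith

/-! ### the limit -/

theorem map_eq {μ : Measure Conf} [IsProbabilityMeasure μ] {π : Measure (Conf × Conf)}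
    [IsProbabilityMeasure π] (g : Conf × Conf → Conf) (hg : Measurable g)
    (h : ∀ (m : ℕ) (f : Conf → ℝ), Dep m f → (∀ η, |f η| ≤ 1) →
      ∫ z, f (g z) ∂π = ∫ η, f η ∂μ) : π.map g = μ := by
  classical
  have : IsProbabilityMeasure (π.map g) := Measure.isProbabilityMeasure_map hg.aemeasurable
  refine ext_of_generate_finite (measurableCylinders fun _ : ℤ => Bool)
    generateFrom_measurableCylinders.symm isPiSystem_measurableCylinders ?_ (by simp)
  intro S hS
  have hSm : MeasurableSet S := by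
    rw [← generateFrom_measurableCylinders]
    exact MeasurableSpace.measurableSet_generateFrom hS
  obtain ⟨s, A, hA, rfl⟩ := (mem_measurableCylinders _).1 hS
  obtain ⟨m, hm⟩ := exists_sub_Lam s
  have h1 := h m ((cylinder s A).indicator fun _ => 1) (by
    intro η ζ he
    have : η ∈ cylinder s A ↔ ζ ∈ cylinder s A := by
      rw [mem_cylinder, mem_cylinder]
      have : s.restrict η = s.restrict ζ := by
        funext x
        exact he x (hm x.2)
      rw [this]
    by_cases hη : η ∈ cylinder s A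
    · rw [Set.indicator_of_mem hη, Set.indicator_of_mem (this.1 hη)]
    · rw [Set.indicator_of_notMem hη, Set.indicator_of_notMem (fun h => hη (this.2 h))])
    (by
      intro η
      by_cases hη : η ∈ cylinder s A
      · rw [Set.indicator_of_mem hη]; simp
      · rw [Set.indicator_of_notMem hη]; simp)
  have e1 : ∫ z, (cylinder s A).indicator (fun _ => (1 : ℝ)) (g z) ∂π =
      (π.map g).real (cylinder s A) := by
    have hpre : (fun z => (cylinder s A).indicator (fun _ => (1 : ℝ)) (g z)) =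
        (g ⁻¹' (cylinder s A)).indicator fun _ => (1 : ℝ) := rfl
    rw [hpre, integral_indicator_const _ (hg hSm), smul_eq_mul, mul_one, Measure.real, Measure.real,
      Measure.map_apply hg hSm]
  have e2 : ∫ η, (cylinder s A).indicator (fun _ => (1 : ℝ)) η ∂μ = μ.real (cylinder s A) := by
    rw [integral_indicator_const _ hSm, smul_eq_mul, mul_one]
  rw [e1, e2] at h1
  exact (ENNReal.toReal_eq_toReal_iff' (measure_ne_top _ _) (measure_ne_top _ _)).1 h1

end Cpl

open Cpl in
/-- **Existence of stationary couplings.** -/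
theorem t_CPL : S_DISP → S_APX → S_CPL := by
  intro hD hA p hp μ ν _ _ hμ hν
  have hst := fun j : ℕ => stage2 hD hA hp μ ν hμ hν (j + 1) (Nat.succ_pos j)
  choose n π hn hπ hf hF using hst
  -- a limit along an ultrafilter
  let P : ℕ → ProbabilityMeasure (Conf × Conf) := fun j => ⟨π j, hπ j⟩
  let U : Ultrafilter ℕ := hyperfilter ℕ
  obtain ⟨Q, -, hQ⟩ := (isCompact_univ (X := ProbabilityMeasure (Conf × Conf))).ultrafilter_le_nhds
    (U.map P) (by simp)
  have hQ' : Tendsto P U (𝓝 Q) := hQ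
  have hU : (U : Filter ℕ) ≤ atTop := Nat.hyperfilter_le_atTop
  have hlim : ∀ G : Conf × Conf → ℝ, Continuous G →
      Tendsto (fun j => ∫ z, G z ∂(π j)) U (𝓝 (∫ z, G z ∂(Q : Measure (Conf × Conf)))) := by
    intro G hG
    exact (ProbabilityMeasure.tendsto_iff_forall_integral_tendsto.1 hQ')
      (BoundedContinuousFunction.mkOfCompact ⟨G, hG⟩)
  have hQp : IsProbabilityMeasure (Q : Measure (Conf × Conf)) := inferInstance
  -- bounds tend to zero
  have hz : Tendsto (fun j : ℕ => (1 : ℝ) / ((j + 1 : ℕ) : ℝ)) U (𝓝 0) := by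
    have := (tendsto_one_div_add_atTop_nhds_zero_nat (𝕜 := ℝ)).mono_left hU
    simpa using this
  have hmar : ∀ (a : ℕ → ℝ) (c d : ℝ), Tendsto a U (𝓝 d) →
      (∀ᶠ j : ℕ in (U : Filter ℕ), |a j - c| ≤ 1 / ((j + 1 : ℕ) : ℝ)) → d = c := by
    intro a c d had hac
    have h1 : Tendsto (fun j => |a j - c|) U (𝓝 |d - c|) := (had.sub_const c).abs
    have h2 : |d - c| ≤ 0 := le_of_tendsto_of_tendsto h1 hz hac
    have h3 : d - c = 0 := abs_nonpos_iff.1 h2
    linarith
  refine ⟨Q, hQp, ?_, ?_, ?_⟩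
  · refine map_eq _ measurable_fst fun m f hfd hf1 => ?_
    refine hmar (fun j => ∫ z, f z.1 ∂(π j)) _ _
      (hlim (fun z => f z.1) ((cont_of_dep hfd).comp continuous_fst)) ?_
    filter_upwards [hU (eventually_ge_atTop m)] with j hj
    exact (hf j f (dep_mono (by omega) hfd) hf1).1
  · refine map_eq _ measurable_snd fun m f hfd hf1 => ?_
    refine hmar (fun j => ∫ z, f z.2 ∂(π j)) _ _
      (hlim (fun z => f z.2) ((cont_of_dep hfd).comp continuous_snd)) ?_
    filter_upwards [hU (eventually_ge_atTop m)] with j hj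
    exact (hf j f (dep_mono (by omega) hfd) hf1).2
  · intro m F hFd
    have hFc := cont_of_dep2 hFd
    obtain ⟨B, hB0, hB⟩ := bdd_of_cont hFc
    have hg := gen_cont hFd hp
    have h1 : Tendsto (fun j => |∫ z, gen mv2 p F z ∂(π j)|) U
        (𝓝 |∫ z, gen mv2 p F z ∂(Q : Measure (Conf × Conf))|) := (hlim _ hg).abs
    have hnT : Tendsto n atTop atTop := by
      refine tendsto_atTop_mono (f := fun j => j) (fun j => ?_) tendsto_id
      have := hn j
      omega
    have h2 : Tendsto (fun j : ℕ => 2 * B * ut p m (n j) + 2 * B * (1 / ((j + 1 : ℕ) : ℝ))) U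
        (𝓝 (2 * B * 0 + 2 * B * 0)) :=
      ((((ut_tendsto p m).comp hnT).mono_left hU).const_mul _).add (hz.const_mul _)
    have h3 : ∀ j, |∫ z, gen mv2 p F z ∂(π j)| ≤
        2 * B * ut p m (n j) + 2 * B * (1 / ((j + 1 : ℕ) : ℝ)) := by
      intro j
      have hpj := hπ j
      have hLc : Continuous (LL mv2 p (n j) F) := LL_cont cont_mv2 hFc
      have e : ∫ z, gen mv2 p F z ∂(π j) =
          ∫ z, (gen mv2 p F z - LL mv2 p (n j) F z) ∂(π j) + ∫ z, LL mv2 p (n j) F z ∂(π j) := by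
        rw [integral_sub (integrable_of_cont hg _) (integrable_of_cont hLc _)]
        ring
      rw [e]
      refine (abs_add_le _ _).trans (add_le_add ?_ ?_)
      · have := norm_integral_le_of_norm_le_const (μ := π j) (C := 2 * B * ut p m (n j))
          (f := fun z => gen mv2 p F z - LL mv2 p (n j) F z)
          (ae_of_all _ fun z => gen_LL hFd hB hp (n j) z)
        simpa using this
      · refine (hF j F B hFc hB).trans (le_of_eq ?_)
        ring
    have h4 := le_of_tendsto_of_tendsto' h1 h2 h3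
    have h5 : |∫ z, gen mv2 p F z ∂(Q : Measure (Conf × Conf))| ≤ 0 := by
      refine h4.trans (le_of_eq ?_)
      ring
    exact abs_nonpos_iff.1 h5

end Pool.Agent.N959.EX
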