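import Mathlib

/-!
# Stationary profile measures of the exclusion process (problem MP_8cded5_pr): definitions

All the statements of the project EX are at the end of this file (`S_CONE`, `S_APX`, ...).
-/

set_option autoImplicit false

open MeasureTheory Filter Topology

namespace Pool.Agent.N959.EX

/-- configurations: `η x = true` when the site `x` is occupied -/
abbrev Conf := ℤ → Bool

/-- exchange of the values at `x` and `y` -/
def sw (x y : ℤ) (η : Conf) : Conf :=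
  fun z => if z = x then η y else if z = y then η x else η z

/-- the particle at `x` (if there is one) jumps to `y` if `y` is vacant -/
def mv (x y : ℤ) (η : Conf) : Conf := if η x = true ∧ η y = false then sw x y η else η

/-- the same move in both configurations (basic coupling) -/
def mv2 (x y : ℤ) (z : Conf × Conf) : Conf × Conf := (mv x y z.1, mv x y z.2)

/-- add a particle at `x` -/
def put (x : ℤ) (η : Conf) : Conf := Function.update η x true

/-- translation -/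
def tau (m : ℤ) (η : Conf) : Conf := fun x => η (x + m)

/-- the box `[-n, n]` -/
noncomputable def Lam (n : ℕ) : Finset ℤ := Finset.Icc (-(n : ℤ)) (n : ℤ)

/-- `F` depends only on the sites of `[-n, n]` -/
def Dep (n : ℕ) (F : Conf → ℝ) : Prop :=
  ∀ η ζ : Conf, (∀ x ∈ Lam n, η x = ζ x) → F η = F ζ

/-- `F` depends only on the sites of `[-n, n]` -/
def Dep2 (n : ℕ) (F : Conf × Conf → ℝ) : Prop :=
  ∀ z w : Conf × Conf, (∀ x ∈ Lam n, z.1 x = w.1 x ∧ z.2 x = w.2 x) → F z = F w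

/-- the generator -/
noncomputable def gen {Z : Type*} (act : ℤ → ℤ → Z → Z) (p : ℤ → ℝ) (F : Z → ℝ) (z : Z) : ℝ :=
  ∑' w : ℤ × ℤ, p (w.2 - w.1) * (F (act w.1 w.2 z) - F z)

/-- the generator restricted to the moves inside of `[-n, n]` -/
noncomputable def LL {Z : Type*} (act : ℤ → ℤ → Z → Z) (p : ℤ → ℝ) (n : ℕ) (F : Z → ℝ) (z : Z) :
    ℝ :=
  ∑ x ∈ Lam n, ∑ y ∈ Lam n, p (y - x) * (F (act x y z) - F z)

/-- one step of the discrete time chain with step `h` -/
noncomputable def KK {Z : Type*} (act : ℤ → ℤ → Z → Z) (p : ℤ → ℝ) (n : ℕ) (h : ℝ) (F : Z → ℝ)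
    (z : Z) : ℝ :=
  F z + h * LL act p n F z

/-- the total rate in `[-n, n]` -/
noncomputable def Rt (p : ℤ → ℝ) (n : ℕ) : ℝ := ∑ x ∈ Lam n, ∑ y ∈ Lam n, p (y - x)

/-- the time step `h` is small -/
def Small (p : ℤ → ℝ) (n : ℕ) (h : ℝ) : Prop := 0 ≤ h ∧ 4 * (h * Rt p n) ≤ 1

/-- transition kernels of random walks with finite mean which charge all `z ≠ 0` -/
structure Ker (p : ℤ → ℝ) : Prop where
  nonneg : ∀ z, 0 ≤ p z
  sum : HasSum p 1
  mean : Summable fun z : ℤ => |(z : ℝ)| * p z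
  pos : ∀ z, z ≠ 0 → 0 < p z

/-- `p` is nonincreasing on both sides, and larger on the right -/
structure Uni (p : ℤ → ℝ) : Prop where
  nonneg : ∀ z, 0 ≤ p z
  right : ∀ k l : ℤ, 1 ≤ k → k ≤ l → p l ≤ p k
  left : ∀ k l : ℤ, 1 ≤ k → k ≤ l → p (-l) ≤ p (-k)
  asym : ∀ k : ℤ, 1 ≤ k → p (-k) ≤ p k

/-- heavy left tail -/
def Tail (p : ℤ → ℝ) : Prop :=
  ∃ β c : ℝ, β < 1 + Real.sqrt 2 ∧ 0 < c ∧ ∀ k : ℕ, 1 ≤ k → c * (k : ℝ) ^ (-β) ≤ p (-(k : ℤ))

/-- stationary measures of the exclusion process with kernel `p` -/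
def Stat (p : ℤ → ℝ) (μ : Measure Conf) : Prop :=
  ∀ n F, Dep n F → ∫ η, gen mv p F η ∂μ = 0

/-- stationary measures of the coupled process -/
def Stat2 (p : ℤ → ℝ) (π : Measure (Conf × Conf)) : Prop :=
  ∀ n F, Dep2 n F → ∫ z, gen mv2 p F z ∂π = 0

/-- the density -/
noncomputable def rho (μ : Measure Conf) (x : ℤ) : ℝ := μ.real {η | η x = true}

/-- profile measures -/
def Profile (μ : Measure Conf) : Prop :=
  Tendsto (rho μ) atBot (𝓝 0) ∧ Tendsto (rho μ) atTop (𝓝 1)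

/-- profile property in windows -/
def Win (μ : Measure Conf) : Prop :=
  ∃ a b : ℕ → ℤ, Tendsto a atTop atBot ∧ Tendsto b atTop atTop ∧
    (∀ j : ℤ, Tendsto (fun k => rho μ (a k + j)) atTop (𝓝 0)) ∧
    ∀ j : ℤ, Tendsto (fun k => rho μ (b k + j)) atTop (𝓝 1)

/-- extremal stationary measures -/
def Extremal (p : ℤ → ℝ) (μ : Measure Conf) : Prop :=
  Stat p μ ∧ ∀ (μ₁ μ₂ : Measure Conf), IsProbabilityMeasure μ₁ → IsProbabilityMeasure μ₂ →
    Stat p μ₁ → Stat p μ₂ → ∀ t : ℝ, 0 < t → t < 1 →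
    μ = ENNReal.ofReal t • μ₁ + ENNReal.ofReal (1 - t) • μ₂ → μ₁ = μ

/-- `z.1 ≤ z.2` -/
def Ord : Set (Conf × Conf) := {z | ∀ x, z.1 x = true → z.2 x = true}

/-- stationary profile measures which increase stochastically under translations to the left -/
structure Ordered (p : ℤ → ℝ) (μ : Measure Conf) : Prop where
  stat : Stat p μ
  prof : Profile μ
  ord : ∀ m : ℕ, ∃ π : Measure (Conf × Conf), IsProbabilityMeasure π ∧
    π.map Prod.fst = μ ∧ π.map Prod.snd = μ.map (tau m) ∧ ∀ᵐ z ∂π, z ∈ Ord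

/-- The cone of functions of the configuration in `[-n, n]` which are increasing (`mono`), which
increase when a particle is moved to the right (`right`), and are submodular (`sub`). -/
structure Cone (n : ℕ) (F : Conf → ℝ) : Prop where
  mono : ∀ η : Conf, ∀ u ∈ Lam n, η u = false → F η ≤ F (put u η)
  right : ∀ η : Conf, ∀ u ∈ Lam n, ∀ v ∈ Lam n, η u = false → η v = false → u < v →
    F (put u η) ≤ F (put v η)
  sub : ∀ η : Conf, ∀ u ∈ Lam n, ∀ v ∈ Lam n, η u = false → η v = false → u ≠ v →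
    F (put u (put v η)) + F η ≤ F (put u η) + F (put v η)

/-- boundary rate at `x` -/
noncomputable def bd (p : ℤ → ℝ) (n : ℕ) (μ : Measure Conf) (x : ℤ) : ℝ :=
  ∑' y : ℤ, if y ∈ Lam n then 0 else (p (y - x) + p (x - y)) * μ.real {η | η x ≠ η y}

/-! ### The statements -/

/-- the chain preserves the cone -/
def S_CONE : Prop := ∀ p, Uni p → ∀ n h, Small p n h → ∀ F, Cone n F → Cone n (KK mv p n h F)

/-- upper bound of the influence of a site, propagation with finite speed -/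
def S_DISP : Prop := ∀ p, Ker p → ∀ n h, Small p n h → ∀ (F : Conf → ℝ) (φ : ℤ → ℝ) (l : ℝ),
  0 ≤ l → (∀ x y : ℤ, |φ x - φ y| ≤ l * |((x - y : ℤ) : ℝ)|) →
  (∀ η : Conf, ∀ x ∈ Lam n, η x = false → F (put x η) - F η ≤ φ x) → ∀ k : ℕ,
  ∀ η : Conf, ∀ x ∈ Lam n, η x = false →
    (KK mv p n h)^[k] F (put x η) - (KK mv p n h)^[k] F η ≤
      φ x + k * h * (l * (2 * ∑' z : ℤ, |(z : ℝ)| * p z))

/-- stationary measures are almost stationary for the chain in the box -/
def S_APX : Prop := ∀ p, Ker p → ∀ μ : Measure Conf, IsProbabilityMeasure μ → Stat p μ →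
  ∀ n F (d : ℤ → ℝ), Dep n F →
  (∀ η : Conf, ∀ x ∈ Lam n, η x = false → |F (put x η) - F η| ≤ d x) →
  |∫ η, LL mv p n F η ∂μ| ≤ ∑ x ∈ Lam n, d x * bd p n μ x

/-- boundary sums tend to zero -/
def S_BDY : Prop := ∀ p, Ker p → ∀ w : ℤ → ℤ → ℝ, (∀ x y, 0 ≤ w x y) → (∀ x y, w x y ≤ 1) →
  ∀ a b : ℕ → ℤ, Tendsto a atTop atBot → Tendsto b atTop atTop →
  (∀ i j : ℤ, Tendsto (fun k => w (a k + i) (a k + j)) atTop (𝓝 0)) →
  (∀ i j : ℤ, Tendsto (fun k => w (b k + i) (b k + j)) atTop (𝓝 0)) →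
  Tendsto (fun k => ∑ x ∈ Finset.Icc (a k) (b k), ∑' y : ℤ,
    if y ∈ Finset.Icc (a k) (b k) then 0 else (p (y - x) + p (x - y)) * w x y) atTop (𝓝 0)

/-- the boundary rates tend to zero for profile measures -/
def S_RN : Prop := ∀ p, Ker p → ∀ μ : Measure Conf, IsProbabilityMeasure μ → Profile μ →
  Tendsto (fun n => ∑ x ∈ Lam n, bd p n μ x) atTop (𝓝 0)

/-- translations of stationary measures are stationary -/
def S_TAU : Prop := ∀ p, Ker p → ∀ (μ : Measure Conf) (m : ℤ), IsProbabilityMeasure μ → Stat p μ →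
  Stat p (μ.map (tau m))

/-- existence of extremal profile measures -/
def S_EXT : Prop := ∀ p, Ker p → ∀ μ : Measure Conf, IsProbabilityMeasure μ → Stat p μ →
  Profile μ → ∃ μ' : Measure Conf, IsProbabilityMeasure μ' ∧ Extremal p μ' ∧ Win μ'

/-- existence of stationary couplings -/
def S_CPL : Prop := ∀ p, Ker p → ∀ μ ν : Measure Conf, IsProbabilityMeasure μ →
  IsProbabilityMeasure ν → Stat p μ → Stat p ν → ∃ π : Measure (Conf × Conf),
    IsProbabilityMeasure π ∧ π.map Prod.fst = μ ∧ π.map Prod.snd = ν ∧ Stat2 p π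

/-- in a stationary coupling there are no opposite discrepancies -/
def S_OPP : Prop := ∀ p, Ker p → ∀ π : Measure (Conf × Conf), IsProbabilityMeasure π →
  Stat2 p π → ∀ a b : ℕ → ℤ, Tendsto a atTop atBot → Tendsto b atTop atTop →
  (∀ j : ℤ, Tendsto (fun k => π.real {z | z.1 (a k + j) ≠ z.2 (a k + j)}) atTop (𝓝 0)) →
  (∀ j : ℤ, Tendsto (fun k => π.real {z | z.1 (b k + j) ≠ z.2 (b k + j)}) atTop (𝓝 0)) →
  ∀ x y : ℤ, π {z | z.1 x = true ∧ z.2 x = false ∧ z.1 y = false ∧ z.2 y = true} = 0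

/-- the restriction of a stationary coupling to the ordered pairs is stationary -/
def S_COND : Prop := ∀ p, Ker p → ∀ π : Measure (Conf × Conf), IsProbabilityMeasure π →
  Stat2 p π → ∀ a b : ℕ → ℤ, Tendsto a atTop atBot → Tendsto b atTop atTop →
  (∀ j : ℤ, Tendsto (fun k => π.real {z | z.1 (a k + j) ≠ z.2 (a k + j)}) atTop (𝓝 0)) →
  (∀ j : ℤ, Tendsto (fun k => π.real {z | z.1 (b k + j) ≠ z.2 (b k + j)}) atTop (𝓝 0)) →
  (∀ x y : ℤ, π {z | z.1 x = true ∧ z.2 x = false ∧ z.1 y = false ∧ z.2 y = true} = 0) →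
  Stat2 p (π.restrict Ord) ∧ Stat2 p (π.restrict Ordᶜ)

/-- extremal profile measures are ordered -/
def S_ORD : Prop := ∀ p, Ker p → ∀ μ : Measure Conf, IsProbabilityMeasure μ → Extremal p μ →
  Win μ → Ordered p μ

/-- no ordered stationary profile measure -/
def S_FINAL : Prop := ∀ p, Ker p → Uni p → Tail p → ∀ μ : Measure Conf,
  IsProbabilityMeasure μ → ¬ Ordered p μ

/-- **Main theorem.** -/
def S_MAIN : Prop := ∀ p, Ker p → Uni p → Tail p → ∀ μ : Measure Conf,
  IsProbabilityMeasure μ → Stat p μ → ¬ Profile μ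

end Pool.Agent.N959.EX
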