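import Pool.Agent.N959.EX.Def

/-!
# Propagation with finite speed (`S_DISP`)
-/

set_option autoImplicit false

open MeasureTheory Filter Topology

namespace Pool.Agent.N959.EX

namespace Disp

theorem put_self (x : ℤ) (η : Conf) : put x η x = true := by simp [put]

theorem put_ne {x z : ℤ} (h : z ≠ x) (η : Conf) : put x η z = η z := by simp [put, h]

/-- increasing functions -/
def Mono (n : ℕ) (G : Conf → ℝ) : Prop :=
  ∀ η : Conf, ∀ x ∈ Lam n, η x = false → G η ≤ G (put x η)

theorem mv_mono {n : ℕ} {G : Conf → ℝ} (hG : Mono n G) {x y : ℤ} (hx : x ∈ Lam n)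
    (hy : y ∈ Lam n) : Mono n (fun η => G (mv x y η)) := by
  intro η u hu hηu
  show G (mv x y η) ≤ G (mv x y (put u η))
  by_cases hux : u = x
  · subst hux
    have h1 : mv u y η = η := by
      unfold mv
      rw [if_neg]
      rintro ⟨h, -⟩
      rw [hηu] at h
      exact Bool.false_ne_true h
    rw [h1]
    by_cases hyu : y = u
    · subst hyu
      have h2 : mv y y (put y η) = put y η := by
        unfold mv
        rw [if_neg]
        rintro ⟨h, h'⟩
        rw [h] at h'
        exact Bool.false_ne_true h'.symm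
      rw [h2]
      exact hG η y hu hηu
    · by_cases hyf : η y = false
      · have h2 : mv u y (put u η) = put y η := by
          unfold mv
          rw [if_pos ⟨put_self u η, by rw [put_ne hyu]; exact hyf⟩]
          funext z
          unfold sw
          by_cases hzu : z = u
          · subst hzu
            rw [if_pos rfl, put_ne hyu, put_ne (fun h => hyu h.symm), hyf, hηu]
          · rw [if_neg hzu]
            by_cases hzy : z = y
            · subst hzy
              rw [if_pos rfl, put_self, put_self]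
            · rw [if_neg hzy, put_ne hzu, put_ne hzy]
        rw [h2]
        exact hG η y hy hyf
      · have h2 : mv u y (put u η) = put u η := by
          unfold mv
          rw [if_neg]
          rintro ⟨-, h'⟩
          rw [put_ne hyu] at h'
          exact hyf h'
        rw [h2]
        exact hG η u hu hηu
  · by_cases huy : u = y
    · subst huy
      have h2 : mv x u (put u η) = put u η := by
        unfold mv
        rw [if_neg]
        rintro ⟨-, h'⟩
        rw [put_self] at h'
        exact Bool.false_ne_true h'.symm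
      rw [h2]
      by_cases hxt : η x = true
      · have h3 : mv x u η = sw x u η := by
          unfold mv
          rw [if_pos ⟨hxt, hηu⟩]
        have h4 : put x (sw x u η) = put u η := by
          funext z
          by_cases hzx : z = x
          · subst hzx
            rw [put_self, put_ne (fun h => hux h.symm), hxt]
          · rw [put_ne hzx]
            unfold sw
            rw [if_neg hzx]
            by_cases hzu : z = u
            · subst hzu
              rw [if_pos rfl, put_self, hxt]
            · rw [if_neg hzu, put_ne hzu]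
        rw [h3, ← h4]
        apply hG _ x hx
        unfold sw
        rw [if_pos rfl, hηu]
      · have h3 : mv x u η = η := by
          unfold mv
          rw [if_neg]
          rintro ⟨h, -⟩
          exact hxt h
        rw [h3]
        exact hG η u hu hηu
    · have hx' : put u η x = η x := put_ne (fun h => hux h.symm) η
      have hy' : put u η y = η y := put_ne (fun h => huy h.symm) η
      by_cases hm : η x = true ∧ η y = false
      · have h3 : mv x y η = sw x y η := by
          unfold mv
          rw [if_pos hm]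
        have h4 : mv x y (put u η) = put u (sw x y η) := by
          unfold mv
          rw [if_pos ⟨hx'.trans hm.1, hy'.trans hm.2⟩]
          funext z
          unfold sw
          by_cases hzx : z = x
          · subst hzx
            rw [if_pos rfl, put_ne (fun h => hux h.symm), if_pos rfl, hy']
          · rw [if_neg hzx]
            by_cases hzy : z = y
            · subst hzy
              rw [if_pos rfl, put_ne (fun h => huy h.symm), if_neg hzx, if_pos rfl, hx']
            · rw [if_neg hzy]
              by_cases hzu : z = u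
              · subst hzu
                rw [put_self, put_self]
              · rw [put_ne hzu, put_ne hzu, if_neg hzx, if_neg hzy]
        rw [h3, h4]
        apply hG _ u hu
        unfold sw
        rw [if_neg hux, if_neg huy, hηu]
      · have h3 : mv x y η = η := by
          unfold mv
          rw [if_neg hm]
        have h4 : mv x y (put u η) = put u η := by
          unfold mv
          rw [if_neg (by rw [hx', hy']; exact hm)]
        rw [h3, h4]
        exact hG η u hu hηu

theorem KK_eq (p : ℤ → ℝ) (n : ℕ) (h : ℝ) (G : Conf → ℝ) (η : Conf) :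
    KK mv p n h G η = (1 - h * Rt p n) * G η +
      h * ∑ x ∈ Lam n, ∑ y ∈ Lam n, p (y - x) * G (mv x y η) := by
  unfold KK LL Rt
  have : ∑ x ∈ Lam n, ∑ y ∈ Lam n, p (y - x) * (G (mv x y η) - G η) =
      (∑ x ∈ Lam n, ∑ y ∈ Lam n, p (y - x) * G (mv x y η)) -
        (∑ x ∈ Lam n, ∑ y ∈ Lam n, p (y - x)) * G η := by
    rw [Finset.sum_mul, ← Finset.sum_sub_distrib]
    refine Finset.sum_congr rfl fun x _ => ?_
    rw [Finset.sum_mul, ← Finset.sum_sub_distrib]
    refine Finset.sum_congr rfl fun y _ => ?_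
    ring
  rw [this]
  ring

theorem Rt_nonneg {p : ℤ → ℝ} (hp : ∀ z, 0 ≤ p z) (n : ℕ) : 0 ≤ Rt p n :=
  Finset.sum_nonneg fun _ _ => Finset.sum_nonneg fun _ _ => hp _

theorem KK_mono {p : ℤ → ℝ} (hp : ∀ z, 0 ≤ p z) {n : ℕ} {h : ℝ} (hs : Small p n h)
    {G : Conf → ℝ} (hG : Mono n G) : Mono n (KK mv p n h G) := by
  intro η u hu hηu
  rw [KK_eq, KK_eq]
  have h1 : 0 ≤ 1 - h * Rt p n := by
    have := hs.2
    have h2 := mul_nonneg hs.1 (Rt_nonneg hp n)
    linarith
  have h2 := mul_le_mul_of_nonneg_left (hG η u hu hηu) h1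
  have h3 : ∑ x ∈ Lam n, ∑ y ∈ Lam n, p (y - x) * G (mv x y η) ≤
      ∑ x ∈ Lam n, ∑ y ∈ Lam n, p (y - x) * G (mv x y (put u η)) :=
    Finset.sum_le_sum fun x hx => Finset.sum_le_sum fun y hy =>
      mul_le_mul_of_nonneg_left (mv_mono hG hx hy η u hu hηu) (hp _)
  have h4 := mul_le_mul_of_nonneg_left h3 hs.1
  linarith

/-- the linear functional -/
noncomputable def Phi (n : ℕ) (φ : ℤ → ℝ) (η : Conf) : ℝ :=
  ∑ x ∈ Lam n, if η x = true then φ x else 0

theorem Phi_put {n : ℕ} (φ : ℤ → ℝ) {η : Conf} {u : ℤ} (hu : u ∈ Lam n) (hηu : η u = false) :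
    Phi n φ (put u η) - Phi n φ η = φ u := by
  unfold Phi
  rw [← Finset.sum_sub_distrib, Finset.sum_eq_single u]
  · rw [if_pos (put_self u η), if_neg (by rw [hηu]; exact Bool.false_ne_true), sub_zero]
  · intro z _ hz
    rw [put_ne hz, sub_self]
  · exact fun h => absurd hu h

theorem Phi_mv {n : ℕ} (φ : ℤ → ℝ) (η : Conf) {x y : ℤ} (hx : x ∈ Lam n) (hy : y ∈ Lam n) :
    Phi n φ (mv x y η) - Phi n φ η = if η x = true ∧ η y = false then φ y - φ x else 0 := by
  by_cases hm : η x = true ∧ η y = false
  · rw [if_pos hm]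
    have hxy : x ≠ y := by
      rintro rfl
      rw [hm.1] at hm
      exact Bool.false_ne_true hm.2.symm
    -- the configuration without the particle
    have e1 : mv x y η = put y (Function.update η x false) := by
      unfold mv
      rw [if_pos hm]
      funext z
      unfold sw
      by_cases hzx : z = x
      · subst hzx
        rw [if_pos rfl, put_ne hxy, Function.update_self, hm.2]
      · rw [if_neg hzx]
        by_cases hzy : z = y
        · subst hzy
          rw [if_pos rfl, put_self, hm.1]
        · rw [if_neg hzy, put_ne hzy, Function.update_of_ne hzx]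
    have e2 : η = put x (Function.update η x false) := by
      funext z
      by_cases hzx : z = x
      · subst hzx
        rw [put_self, hm.1]
      · rw [put_ne hzx, Function.update_of_ne hzx]
    have h1 := Phi_put φ (η := Function.update η x false) hy
      (by rw [Function.update_of_ne hxy.symm]; exact hm.2)
    have h2 := Phi_put φ (η := Function.update η x false) hx (by rw [Function.update_self])
    rw [← e1] at h1
    rw [← e2] at h2
    linarith
  · rw [if_neg hm]
    unfold mv
    rw [if_neg hm, sub_self]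

theorem diff_le {φ : ℤ → ℝ} {l : ℝ} (hφ : ∀ x y : ℤ, |φ x - φ y| ≤ l * |((x - y : ℤ) : ℝ)|)
    {η : Conf} {u : ℤ} (hηu : η u = false) (x y : ℤ) :
    (if put u η x = true ∧ put u η y = false then φ y - φ x else 0) -
      (if η x = true ∧ η y = false then φ y - φ x else 0) ≤
      l * |((y - x : ℤ) : ℝ)| * ((if x = u then 1 else 0) + (if y = u then 1 else 0)) := by
  have hl : 0 ≤ l * |((y - x : ℤ) : ℝ)| := (abs_nonneg _).trans (hφ y x)
  have h1 : φ y - φ x ≤ l * |((y - x : ℤ) : ℝ)| := (le_abs_self _).trans (hφ y x)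
  have h2 : -(φ y - φ x) ≤ l * |((y - x : ℤ) : ℝ)| := (neg_le_abs _).trans (hφ y x)
  generalize l * |((y - x : ℤ) : ℝ)| = A at *
  by_cases hx : x = u
  · subst hx
    by_cases hy : y = x
    · subst hy
      simpa using hl
    · rw [put_self, put_ne hy, hηu, if_pos rfl, if_neg hy]
      by_cases h : η y = false
      · simp [h]; linarith
      · simp [h]; linarith
  · by_cases hy : y = u
    · subst hy
      rw [put_self, put_ne hx, hηu, if_neg hx, if_pos rfl]
      by_cases h : η x = true
      · simp [h]; linarith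
      · simp [h]; linarith
    · rw [put_ne hx, put_ne hy, if_neg hx, if_neg hy]
      simp

theorem LL_Phi {p : ℤ → ℝ} (hp : Ker p) {n : ℕ} {φ : ℤ → ℝ} {l : ℝ} (hl : 0 ≤ l)
    (hφ : ∀ x y : ℤ, |φ x - φ y| ≤ l * |((x - y : ℤ) : ℝ)|)
    {η : Conf} {u : ℤ} (hu : u ∈ Lam n) (hηu : η u = false) :
    LL mv p n (Phi n φ) (put u η) - LL mv p n (Phi n φ) η ≤
      l * (2 * ∑' z : ℤ, |(z : ℝ)| * p z) := by
  have e : ∀ ζ : Conf, LL mv p n (Phi n φ) ζ = ∑ x ∈ Lam n, ∑ y ∈ Lam n,
      p (y - x) * (if ζ x = true ∧ ζ y = false then φ y - φ x else 0) := by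
    intro ζ
    unfold LL
    exact Finset.sum_congr rfl fun x hx => Finset.sum_congr rfl fun y hy => by
      rw [Phi_mv φ ζ hx hy]
  have h0 : LL mv p n (Phi n φ) (put u η) - LL mv p n (Phi n φ) η ≤
      ∑ x ∈ Lam n, ∑ y ∈ Lam n, p (y - x) * (l * |((y - x : ℤ) : ℝ)| *
        ((if x = u then 1 else 0) + (if y = u then 1 else 0))) := by
    rw [e, e, ← Finset.sum_sub_distrib]
    refine Finset.sum_le_sum fun x _ => ?_
    rw [← Finset.sum_sub_distrib]
    refine Finset.sum_le_sum fun y _ => ?_
    rw [← mul_sub]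
    exact mul_le_mul_of_nonneg_left (diff_le hφ hηu x y) (hp.nonneg _)
  have h1 : ∑ x ∈ Lam n, ∑ y ∈ Lam n, p (y - x) * (l * |((y - x : ℤ) : ℝ)| *
        ((if x = u then 1 else 0) + (if y = u then 1 else 0))) =
      l * (∑ y ∈ Lam n, |((y - u : ℤ) : ℝ)| * p (y - u)) +
        l * ∑ x ∈ Lam n, |((u - x : ℤ) : ℝ)| * p (u - x) := by
    have a1 : ∀ x ∈ Lam n, ∑ y ∈ Lam n, p (y - x) * (l * |((y - x : ℤ) : ℝ)| *
        ((if x = u then 1 else 0) + (if y = u then 1 else 0))) =
        (if x = u then l * (∑ y ∈ Lam n, |((y - x : ℤ) : ℝ)| * p (y - x)) else 0) +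
        l * (|((u - x : ℤ) : ℝ)| * p (u - x)) := by
      intro x _
      have b1 : ∀ y ∈ Lam n, p (y - x) * (l * |((y - x : ℤ) : ℝ)| *
        ((if x = u then 1 else 0) + (if y = u then 1 else 0))) =
        (if x = u then l * (|((y - x : ℤ) : ℝ)| * p (y - x)) else 0) +
        (if y = u then l * (|((y - x : ℤ) : ℝ)| * p (y - x)) else 0) := by
        intro y _
        split_ifs <;> ring
      rw [Finset.sum_congr rfl b1, Finset.sum_add_distrib, Finset.sum_ite_eq', if_pos hu]
      congr 1
      split_ifs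
      · rw [Finset.mul_sum]
      · simp
    rw [Finset.sum_congr rfl a1, Finset.sum_add_distrib, Finset.sum_ite_eq', if_pos hu,
      ← Finset.mul_sum]
  have hs : Summable fun z : ℤ => |(z : ℝ)| * p z := hp.mean
  have hn : ∀ z : ℤ, 0 ≤ |(z : ℝ)| * p z := fun z => mul_nonneg (abs_nonneg _) (hp.nonneg _)
  have h2 : ∑ y ∈ Lam n, |((y - u : ℤ) : ℝ)| * p (y - u) ≤ ∑' z : ℤ, |(z : ℝ)| * p z := by
    have : ∑ y ∈ Lam n, |((y - u : ℤ) : ℝ)| * p (y - u) =
        ∑ z ∈ (Lam n).image (fun y => y - u), |(z : ℝ)| * p z :=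
      (Finset.sum_image (f := fun z : ℤ => |(z : ℝ)| * p z)
        (fun a _ b _ h => sub_left_injective h)).symm
    rw [this]
    exact hs.sum_le_tsum _ fun z _ => hn z
  have h3 : ∑ x ∈ Lam n, |((u - x : ℤ) : ℝ)| * p (u - x) ≤ ∑' z : ℤ, |(z : ℝ)| * p z := by
    have : ∑ x ∈ Lam n, |((u - x : ℤ) : ℝ)| * p (u - x) =
        ∑ z ∈ (Lam n).image (fun x => u - x), |(z : ℝ)| * p z :=
      (Finset.sum_image (f := fun z : ℤ => |(z : ℝ)| * p z)
        (fun a _ b _ h => sub_right_injective h)).symm
    rw [this]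
    exact hs.sum_le_tsum _ fun z _ => hn z
  rw [h1] at h0
  have h4 := mul_le_mul_of_nonneg_left h2 hl
  have h5 := mul_le_mul_of_nonneg_left h3 hl
  linarith

theorem KK_sub (p : ℤ → ℝ) (n : ℕ) (h : ℝ) (F G : Conf → ℝ) (η : Conf) :
    KK mv p n h (fun ζ => G ζ - F ζ) η = KK mv p n h G η - KK mv p n h F η := by
  have : LL mv p n (fun ζ => G ζ - F ζ) η = LL mv p n G η - LL mv p n F η := by
    unfold LL
    rw [← Finset.sum_sub_distrib]
    refine Finset.sum_congr rfl fun x _ => ?_
    rw [← Finset.sum_sub_distrib]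
    refine Finset.sum_congr rfl fun y _ => ?_
    ring
  unfold KK
  rw [this]
  ring

theorem step {p : ℤ → ℝ} (hp : Ker p) {n : ℕ} {h : ℝ} (hs : Small p n h) {F : Conf → ℝ}
    {φ : ℤ → ℝ} {l : ℝ} (hl : 0 ≤ l) (hφ : ∀ x y : ℤ, |φ x - φ y| ≤ l * |((x - y : ℤ) : ℝ)|)
    (hF : ∀ η : Conf, ∀ x ∈ Lam n, η x = false → F (put x η) - F η ≤ φ x) :
    ∀ η : Conf, ∀ x ∈ Lam n, η x = false →
      KK mv p n h F (put x η) - KK mv p n h F η ≤ φ x + h * (l * (2 * ∑' z : ℤ, |(z : ℝ)| * p z)) := by
  intro η x hx hηx
  have hG : Mono n (fun ζ => Phi n φ ζ - F ζ) := by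
    intro ζ u hu hζ
    have := hF ζ u hu hζ
    have h1 := Phi_put φ hu hζ
    show Phi n φ ζ - F ζ ≤ Phi n φ (put u ζ) - F (put u ζ)
    linarith
  have h1 := KK_mono hp.nonneg hs hG η x hx hηx
  rw [KK_sub, KK_sub] at h1
  have h2 := LL_Phi hp hl hφ hx hηx
  have h3 := mul_le_mul_of_nonneg_left h2 hs.1
  have h4 := Phi_put φ hx hηx
  have h5 : KK mv p n h (Phi n φ) (put x η) - KK mv p n h (Phi n φ) η =
      φ x + h * (LL mv p n (Phi n φ) (put x η) - LL mv p n (Phi n φ) η) := by
    unfold KK
    rw [← h4]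
    ring
  linarith

end Disp

open Disp

theorem t_DISP : S_DISP := by
  intro p hp n h hs F φ l hl hφ hF k
  induction k with
  | zero => simpa using hF
  | succ k ih =>
    intro η x hx hηx
    rw [Function.iterate_succ_apply']
    have hφ' : ∀ x y : ℤ, |(φ x + k * h * (l * (2 * ∑' z : ℤ, |(z : ℝ)| * p z))) -
        (φ y + k * h * (l * (2 * ∑' z : ℤ, |(z : ℝ)| * p z)))| ≤ l * |((x - y : ℤ) : ℝ)| := by
      intro x y
      have : (φ x + k * h * (l * (2 * ∑' z : ℤ, |(z : ℝ)| * p z))) -
        (φ y + k * h * (l * (2 * ∑' z : ℤ, |(z : ℝ)| * p z))) = φ x - φ y := by ring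
      rw [this]
      exact hφ x y
    have := step hp hs (φ := fun x => φ x + k * h * (l * (2 * ∑' z : ℤ, |(z : ℝ)| * p z))) hl
      hφ' ih η x hx hηx
    refine this.trans (le_of_eq ?_)
    push_cast
    ring

end Pool.Agent.N959.EX
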