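import Pool.Agent.N959.EX.Main

/-! # Explicit kernels -/

set_option autoImplicit false

open MeasureTheory Filter Topology

namespace Pool.Agent.N959.EX
namespace Ex

/-- symmetric power law, not normalised -/
noncomputable def pw (β : ℝ) (k : ℤ) : ℝ := if k = 0 then 0 else (|(k : ℝ)|) ^ (-β)

/-- normalising constant -/
noncomputable def Zc (β : ℝ) : ℝ := ∑' k : ℤ, pw β k

/-- the explicit kernel -/
noncomputable def ex (β b : ℝ) (k : ℤ) : ℝ :=
  (1 - b) * (pw β k / Zc β) + if k = 1 then b else 0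

lemma pw_nonneg (β : ℝ) (k : ℤ) : 0 ≤ pw β k := by
  unfold pw; split_ifs
  · exact le_refl _
  · positivity

lemma pw_pos (β : ℝ) {k : ℤ} (hk : k ≠ 0) : 0 < pw β k := by
  unfold pw
  rw [if_neg hk]
  have : (0 : ℝ) < |(k : ℝ)| := abs_pos.2 (by exact_mod_cast hk)
  positivity

lemma pw_neg (β : ℝ) (k : ℤ) : pw β (-k) = pw β k := by
  unfold pw
  simp

lemma pw_summable {β : ℝ} (hβ : 1 < β) : Summable (pw β) := by
  have h1 : Summable (fun n : ℕ => pw β n) := by
    refine Summable.of_nonneg_of_le (fun n => pw_nonneg _ _) (fun n => ?_)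
      (Real.summable_nat_rpow.2 (show -β < -1 by linarith))
    unfold pw
    split_ifs
    · positivity
    · simp
  have h2 : Summable (fun n : ℕ => pw β (-(n : ℤ))) := by
    simpa only [pw_neg] using h1
  exact Summable.of_nat_of_neg h1 h2

lemma Zc_pos {β : ℝ} (hβ : 1 < β) : 0 < Zc β :=
  (pw_summable hβ).tsum_pos (pw_nonneg β) 1 (pw_pos β one_ne_zero)

lemma abs_pw (β : ℝ) (k : ℤ) : |(k : ℝ)| * pw β k = pw (β - 1) k := by
  unfold pw
  by_cases hk : k = 0
  · simp [hk]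
  · rw [if_neg hk, if_neg hk]
    have : (0 : ℝ) < |(k : ℝ)| := abs_pos.2 (by exact_mod_cast hk)
    have e : -(β - 1) = 1 + -β := by ring
    rw [e, Real.rpow_add this, Real.rpow_one]

variable {β b : ℝ}

lemma ex_nonneg (hβ : 1 < β) (h0 : 0 < b) (h1 : b < 1) (k : ℤ) : 0 ≤ ex β b k := by
  have := Zc_pos hβ
  have := pw_nonneg β k
  unfold ex
  have : 0 ≤ (1 - b) * (pw β k / Zc β) := by
    apply mul_nonneg (by linarith)
    positivity
  split_ifs <;> linarith

lemma ex_sum (hβ : 1 < β) : HasSum (ex β b) 1 := by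
  have hZ := Zc_pos hβ
  have h1 : HasSum (fun k => (1 - b) * (pw β k / Zc β)) ((1 - b) * (Zc β / Zc β)) :=
    ((pw_summable hβ).hasSum.div_const _).mul_left _
  have h2 : HasSum (fun k : ℤ => if k = 1 then b else 0) b := hasSum_ite_eq 1 b
  have h3 := h1.add h2
  rw [div_self hZ.ne'] at h3
  have e : (1 - b) * 1 + b = 1 := by ring
  rw [e] at h3
  exact h3

lemma ex_mean (hβ : 2 < β) : Summable (fun k : ℤ => |(k : ℝ)| * ex β b k) := by
  have h1 : Summable (fun k => (1 - b) * (pw (β - 1) k / Zc β)) :=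
    ((pw_summable (by linarith)).div_const _).mul_left _
  have h2 : Summable (fun k : ℤ => if k = 1 then b else 0) := (hasSum_ite_eq 1 b).summable
  refine (h1.add h2).congr fun k => ?_
  unfold ex
  rw [← abs_pw, mul_add]
  congr 1
  · ring
  · by_cases hk : k = 1
    · simp [hk]
    · simp [hk]

lemma ex_drift (hβ : 2 < β) : ∑' k : ℤ, (k : ℝ) * ex β b k = b := by
  have hs : Summable (fun k : ℤ => (k : ℝ) * pw β k) := by
    refine Summable.of_norm_bounded (pw_summable (show 1 < β - 1 by linarith)) fun k => ?_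
    rw [norm_mul, Real.norm_eq_abs, Real.norm_of_nonneg (pw_nonneg _ _), abs_pw]
  have h0 : ∑' k : ℤ, (k : ℝ) * pw β k = 0 := by
    have e1 : ∑' k : ℤ, (k : ℝ) * pw β k = ∑' k : ℤ, ((-k : ℤ) : ℝ) * pw β (-k) :=
      ((Equiv.neg ℤ).tsum_eq (fun k : ℤ => (k : ℝ) * pw β k)).symm
    have e2 : ∑' k : ℤ, ((-k : ℤ) : ℝ) * pw β (-k) = -∑' k : ℤ, (k : ℝ) * pw β k := by
      rw [← tsum_neg]
      refine tsum_congr fun k => ?_
      rw [pw_neg]
      push_cast
      ring
    linarith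
  have h1 : HasSum (fun k : ℤ => (1 - b) * ((k : ℝ) * pw β k / Zc β)) ((1 - b) * (0 / Zc β)) := by
    rw [← h0]
    exact (hs.hasSum.div_const _).mul_left _
  have h2 : HasSum (fun k : ℤ => if k = 1 then b else 0) b := hasSum_ite_eq 1 b
  have h3 := h1.add h2
  have e : (1 - b) * (0 / Zc β) + b = b := by ring
  rw [e] at h3
  refine (tsum_congr fun k => ?_).trans h3.tsum_eq
  unfold ex
  rw [mul_add]
  congr 1
  · ring
  · by_cases hk : k = 1
    · simp [hk]
    · simp [hk]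

lemma ex_second (hβ : 1 < β) (hβ3 : β ≤ 3) (h1 : b < 1) :
    ¬ Summable (fun k : ℤ => if k < 0 then (k : ℝ) ^ 2 * ex β b k else 0) := by
  intro hs
  have h2 : Summable (fun n : ℕ => if -((n : ℤ) + 1) < 0 then
      ((-((n : ℤ) + 1) : ℤ) : ℝ) ^ 2 * ex β b (-((n : ℤ) + 1)) else 0) :=
    hs.comp_injective (i := fun n : ℕ => -((n : ℤ) + 1)) (fun a c h => by
      simp only at h; omega)
  have hZ := Zc_pos hβ
  have hc : 0 < (1 - b) / Zc β := div_pos (by linarith) hZ
  have e : ∀ n : ℕ, (if -((n : ℤ) + 1) < 0 then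
      ((-((n : ℤ) + 1) : ℤ) : ℝ) ^ 2 * ex β b (-((n : ℤ) + 1)) else 0) =
      (1 - b) / Zc β * ((n + 1 : ℕ) : ℝ) ^ (2 - β) := by
    intro n
    rw [if_pos (by omega)]
    unfold ex
    rw [if_neg (by omega), pw_neg, add_zero]
    unfold pw
    rw [if_neg (by omega)]
    have hn : (0 : ℝ) < ((n + 1 : ℕ) : ℝ) := by positivity
    have e1 : |(((n : ℤ) + 1 : ℤ) : ℝ)| = ((n + 1 : ℕ) : ℝ) := by
      push_cast
      rw [abs_of_pos (by positivity)]
    have e2 : (2 : ℝ) - β = 2 + -β := by ring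
    rw [e1, e2, Real.rpow_add hn, Real.rpow_two]
    push_cast
    ring
  simp only [e] at h2
  have h3 : Summable (fun n : ℕ => ((n + 1 : ℕ) : ℝ) ^ (2 - β)) := by
    have := h2.mul_left ((1 - b) / Zc β)⁻¹
    refine this.congr fun n => ?_
    rw [← mul_assoc, inv_mul_cancel₀ hc.ne', one_mul]
  have h4 := (summable_nat_add_iff (f := fun n : ℕ => ((n : ℕ) : ℝ) ^ (2 - β)) 1).1 h3
  have h5 := Real.summable_nat_rpow.1 h4
  linarith

lemma pw_anti {β : ℝ} (hβ : 0 < β) (k l : ℤ) (hk : 1 ≤ k) (hkl : k ≤ l) : pw β l ≤ pw β k := by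
  unfold pw
  rw [if_neg (by omega), if_neg (by omega)]
  have h1 : (0 : ℝ) < k := by exact_mod_cast (by omega : (0 : ℤ) < k)
  have h2 : (k : ℝ) ≤ l := by exact_mod_cast hkl
  rw [abs_of_pos h1, abs_of_pos (h1.trans_le h2)]
  exact Real.rpow_le_rpow_of_nonpos h1 h2 (by linarith)

lemma ex_neg (k : ℤ) (hk : 1 ≤ k) : ex β b (-k) = (1 - b) * (pw β k / Zc β) := by
  unfold ex
  rw [if_neg (by omega), pw_neg, add_zero]

lemma ex_uni (hβ : 1 < β) (h0 : 0 < b) (h1 : b < 1) : Uni (ex β b) := by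
  have hZ := Zc_pos hβ
  have hm : ∀ k l : ℤ, 1 ≤ k → k ≤ l → (1 - b) * (pw β l / Zc β) ≤ (1 - b) * (pw β k / Zc β) := by
    intro k l hk hkl
    have := pw_anti (β := β) (by linarith) k l hk hkl
    exact mul_le_mul_of_nonneg_left (div_le_div_of_nonneg_right this hZ.le) (by linarith)
  refine ⟨ex_nonneg hβ h0 h1, ?_, ?_, ?_⟩
  · intro k l hk hkl
    have := hm k l hk hkl
    unfold ex
    split_ifs <;> first | linarith | omega
  · intro k l hk hkl
    rw [ex_neg l (by omega), ex_neg k hk]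
    exact hm k l hk hkl
  · intro k hk
    rw [ex_neg k hk]
    unfold ex
    split_ifs <;> linarith

lemma ex_tail (k : ℕ) (hk : 1 ≤ k) :
    (1 - b) / Zc β * (k : ℝ) ^ (-β) ≤ ex β b (-(k : ℤ)) := by
  rw [ex_neg (k : ℤ) (by exact_mod_cast hk)]
  unfold pw
  rw [if_neg (by omega)]
  have : |((k : ℤ) : ℝ)| = k := by simp
  rw [this]
  apply le_of_eq
  ring

end Ex
end Pool.Agent.N959.EX
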