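import Pool.Agent.N959.EX.Def

/-!
# Existence of extremal stationary profile measures
-/

set_option autoImplicit false

open MeasureTheory Filter Topology
open scoped ENNReal BoundedContinuousFunction

namespace Pool.Agent.N959.EX

namespace Ext

/-! ### cylinder sets -/

/-- the configurations occupied on `A` -/
def Cyl (A : Finset ℤ) : Set Conf := {η | ∀ x ∈ A, η x = true}

theorem isClopen_Cyl (A : Finset ℤ) : IsClopen (Cyl A) := by
  have : Cyl A = ⋂ x ∈ A, (fun η : Conf => η x) ⁻¹' {true} := by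
    ext η; simp [Cyl]
  rw [this]
  exact isClopen_biInter_finset fun x _ => (isClopen_discrete _).preimage (continuous_apply x)

theorem measurableSet_Cyl (A : Finset ℤ) : MeasurableSet (Cyl A) :=
  (isClopen_Cyl A).isOpen.measurableSet

theorem generate_Cyl :
    (MeasurableSpace.pi : MeasurableSpace Conf) = MeasurableSpace.generateFrom (Set.range Cyl) := by
  refine le_antisymm ?_ ?_
  · refine iSup_le fun x => ?_
    rw [← measurable_iff_comap_le]
    refine @measurable_to_bool Conf (MeasurableSpace.generateFrom (Set.range Cyl))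
      (fun η : Conf => η x) ?_
    refine MeasurableSpace.measurableSet_generateFrom ⟨{x}, ?_⟩
    ext η; simp [Cyl]
  · refine MeasurableSpace.generateFrom_le ?_
    rintro _ ⟨A, rfl⟩
    exact measurableSet_Cyl A

theorem isPiSystem_Cyl : IsPiSystem (Set.range Cyl) := by
  rintro _ ⟨A, rfl⟩ _ ⟨B, rfl⟩ _
  refine ⟨A ∪ B, ?_⟩
  ext η
  simp only [Cyl, Set.mem_inter_iff, Finset.mem_union, Set.mem_ofPred_eq]
  constructor
  · intro h; exact ⟨fun x hx => h x (Or.inl hx), fun x hx => h x (Or.inr hx)⟩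
  · rintro ⟨h1, h2⟩ x (hx | hx)
    · exact h1 x hx
    · exact h2 x hx

/-- the correlation functions -/
noncomputable def cor (μ : Measure Conf) (A : Finset ℤ) : ℝ := μ.real (Cyl A)

theorem cor_inj (μ ν : Measure Conf) [IsProbabilityMeasure μ] [IsProbabilityMeasure ν]
    (h : cor μ = cor ν) : μ = ν := by
  refine ext_of_generate_finite _ generate_Cyl isPiSystem_Cyl ?_ (by simp)
  rintro _ ⟨A, rfl⟩
  have h1 := congrFun h A
  exact (measureReal_eq_measureReal_iff).1 h1

theorem cor_singleton (μ : Measure Conf) (x : ℤ) : cor μ {x} = rho μ x := by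
  unfold cor rho Cyl
  congr 1
  ext η; simp

theorem cor_nonneg (μ : Measure Conf) (A : Finset ℤ) : 0 ≤ cor μ A := measureReal_nonneg

theorem cor_le_one (μ : Measure Conf) [IsProbabilityMeasure μ] (A : Finset ℤ) : cor μ A ≤ 1 :=
  measureReal_le_one

theorem continuous_cor : Continuous (fun μ : ProbabilityMeasure Conf => cor (μ : Measure Conf)) := by
  refine continuous_pi fun A => ?_
  rw [continuous_iff_continuousAt]
  intro μ
  have h1 := ProbabilityMeasure.tendsto_measure_of_isClopen_of_tendsto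
    (tendsto_id (α := ProbabilityMeasure Conf) (x := 𝓝 μ)) (isClopen_Cyl A)
  have h2 := (NNReal.continuous_coe.tendsto _).comp h1
  exact h2

theorem cor_mix (μ μ₁ μ₂ : Measure Conf) [IsProbabilityMeasure μ₁] [IsProbabilityMeasure μ₂]
    (t : ℝ) (h0 : 0 < t) (h1 : t < 1)
    (h : μ = ENNReal.ofReal t • μ₁ + ENNReal.ofReal (1 - t) • μ₂) :
    cor μ = t • cor μ₁ + (1 - t) • cor μ₂ := by
  funext A
  simp only [cor, Pi.add_apply, Pi.smul_apply, smul_eq_mul]
  subst h
  rw [measureReal_def, Measure.add_apply, Measure.smul_apply, Measure.smul_apply, smul_eq_mul,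
    smul_eq_mul, ENNReal.toReal_add (by finiteness) (by finiteness), ENNReal.toReal_mul,
    ENNReal.toReal_mul, ENNReal.toReal_ofReal h0.le, ENNReal.toReal_ofReal (by linarith)]
  rfl

/-! ### continuity of the generator -/

theorem continuous_dep {n : ℕ} {F : Conf → ℝ} (hF : Dep n F) : Continuous F := by
  rw [continuous_iff_continuousAt]
  intro η
  have h1 : ∀ᶠ ζ in 𝓝 η, ∀ x ∈ Lam n, ζ x = η x := by
    rw [eventually_all_finset]
    intro x _
    have h2 : IsOpen ((fun ζ : Conf => ζ x) ⁻¹' {η x}) :=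
      (isOpen_discrete _).preimage (continuous_apply x)
    exact h2.mem_nhds rfl
  refine (continuousAt_const (y := F η)).congr ?_
  filter_upwards [h1] with ζ hζ
  exact (hF ζ η hζ).symm

theorem continuous_mv (x y : ℤ) : Continuous (mv x y) := by
  refine continuous_pi fun z => ?_
  have h1 : (fun η : Conf => mv x y η z) = (fun w : Bool × Bool × Bool =>
      if w.1 = true ∧ w.2.1 = false then (if z = x then w.2.1 else if z = y then w.1 else w.2.2)
      else w.2.2) ∘ (fun η : Conf => (η x, η y, η z)) := by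
    funext η
    simp only [mv, Function.comp_apply]
    split_ifs with h2 h3 h4 <;> simp_all [sw]
  rw [h1]
  exact continuous_of_discreteTopology.comp (by fun_prop)

theorem mv_apply_of_ne {x y z : ℤ} (h1 : z ≠ x) (h2 : z ≠ y) (η : Conf) : mv x y η z = η z := by
  unfold mv
  split_ifs
  · simp [sw, h1, h2]
  · rfl

theorem dep_mv {n : ℕ} {F : Conf → ℝ} (hF : Dep n F) {x y : ℤ} (hx : x ∉ Lam n) (hy : y ∉ Lam n)
    (η : Conf) : F (mv x y η) = F η := by
  refine hF _ _ fun z hz => mv_apply_of_ne ?_ ?_ η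
  · rintro rfl; exact hx hz
  · rintro rfl; exact hy hz

theorem summable_shift {p : ℤ → ℝ} (hp : Ker p) (a : ℤ) : Summable (fun y : ℤ => p (y - a)) := by
  have := (Equiv.subRight a).summable_iff.2 hp.sum.summable
  exact this

theorem summable_shift' {p : ℤ → ℝ} (hp : Ker p) (a : ℤ) : Summable (fun x : ℤ => p (a - x)) := by
  have := (Equiv.subLeft a).summable_iff.2 hp.sum.summable
  exact this

theorem summable_left {p : ℤ → ℝ} (hp : Ker p) (n : ℕ) :
    Summable (fun w : ℤ × ℤ => if w.1 ∈ Lam n then p (w.2 - w.1) else 0) := by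
  rw [summable_prod_of_nonneg]
  · refine ⟨fun x => ?_, ?_⟩
    · by_cases hx : x ∈ Lam n
      · simpa [hx] using summable_shift hp x
      · simp [hx, summable_zero]
    · refine summable_of_ne_finset_zero (s := Lam n) fun x hx => ?_
      simp [hx]
  · intro w
    show 0 ≤ if w.1 ∈ Lam n then p (w.2 - w.1) else 0
    split_ifs
    · exact hp.nonneg _
    · exact le_rfl

theorem summable_right {p : ℤ → ℝ} (hp : Ker p) (n : ℕ) :
    Summable (fun w : ℤ × ℤ => if w.2 ∈ Lam n then p (w.2 - w.1) else 0) := by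
  have h1 : Summable (fun w : ℤ × ℤ => if w.1 ∈ Lam n then p (w.1 - w.2) else 0) := by
    rw [summable_prod_of_nonneg]
    · refine ⟨fun x => ?_, ?_⟩
      · by_cases hx : x ∈ Lam n
        · simpa [hx] using summable_shift' hp x
        · simp [hx, summable_zero]
      · refine summable_of_ne_finset_zero (s := Lam n) fun x hx => ?_
        simp [hx]
    · intro w
      show 0 ≤ if w.1 ∈ Lam n then p (w.1 - w.2) else 0
      split_ifs
      · exact hp.nonneg _
      · exact le_rfl
  have h2 := h1.prod_symm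
  refine h2.congr fun w => ?_
  rfl

theorem continuous_gen {p : ℤ → ℝ} (hp : Ker p) {n : ℕ} {F : Conf → ℝ} (hF : Dep n F) :
    Continuous (gen mv p F) := by
  obtain ⟨C, hC⟩ : ∃ C, ∀ η, ‖F η‖ ≤ C := by
    obtain ⟨C, hC⟩ := isCompact_univ.exists_bound_of_continuousOn (continuous_dep hF).continuousOn
    exact ⟨C, fun η => hC η (Set.mem_univ η)⟩
  have hs : Summable (fun w : ℤ × ℤ => ((if w.1 ∈ Lam n then p (w.2 - w.1) else 0) +
      (if w.2 ∈ Lam n then p (w.2 - w.1) else 0)) * (2 * C)) :=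
    ((summable_left hp n).add (summable_right hp n)).mul_right _
  have hC0 : 0 ≤ C := (norm_nonneg _).trans (hC (fun _ => true))
  refine continuous_tsum (fun w => ?_) hs (fun w η => ?_)
  · exact continuous_const.mul
      (((continuous_dep hF).comp (continuous_mv w.1 w.2)).sub (continuous_dep hF))
  · have hp0 := hp.nonneg (w.2 - w.1)
    have hd : ‖F (mv w.1 w.2 η) - F η‖ ≤ 2 * C := by
      calc _ ≤ ‖F (mv w.1 w.2 η)‖ + ‖F η‖ := norm_sub_le _ _
        _ ≤ C + C := add_le_add (hC _) (hC _)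
        _ = 2 * C := by ring
    by_cases h1 : w.1 ∈ Lam n
    · rw [norm_mul, Real.norm_of_nonneg hp0]
      refine mul_le_mul ?_ hd (norm_nonneg _) ?_
      · simp only [h1, if_true]
        split_ifs <;> linarith
      · simp only [h1, if_true]
        split_ifs <;> linarith
    · by_cases h2 : w.2 ∈ Lam n
      · rw [norm_mul, Real.norm_of_nonneg hp0]
        refine mul_le_mul ?_ hd (norm_nonneg _) ?_
        · simp only [h1, h2, if_true, if_false]
          linarith
        · simp only [h1, h2, if_true, if_false]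
          linarith
      · rw [dep_mv hF h1 h2]
        simp [h1, h2]

theorem isClosed_stat {p : ℤ → ℝ} (hp : Ker p) :
    IsClosed {ν : ProbabilityMeasure Conf | Stat p (ν : Measure Conf)} := by
  have : {ν : ProbabilityMeasure Conf | Stat p (ν : Measure Conf)} =
      ⋂ n : ℕ, ⋂ F : Conf → ℝ, ⋂ _ : Dep n F,
        {ν : ProbabilityMeasure Conf | ∫ η, gen mv p F η ∂(ν : Measure Conf) = 0} := by
    ext ν; simp [Stat]
  rw [this]
  refine isClosed_iInter fun n => isClosed_iInter fun F => isClosed_iInter fun hF => ?_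
  have h1 : Continuous (fun ν : ProbabilityMeasure Conf =>
      ∫ η, gen mv p F η ∂(ν : Measure Conf)) :=
    ProbabilityMeasure.continuous_integral_boundedContinuousFunction
      (BoundedContinuousFunction.mkOfCompact ⟨gen mv p F, continuous_gen hp hF⟩)
  exact isClosed_eq h1 continuous_const

/-! ### the functional -/

/-- affine continuous functions -/
noncomputable def hk (x x' : ℕ → ℤ) (k : ℕ) (v : Finset ℤ → ℝ) : ℝ :=
  ∑ j ∈ Finset.Icc (-(k : ℤ)) k, (v {x k + j} + (1 - v {x' k + j}))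

/-- the lower semicontinuous functional -/
noncomputable def phi (x x' : ℕ → ℤ) (v : Finset ℤ → ℝ) : ℝ≥0∞ :=
  ∑' k, ENNReal.ofReal (hk x x' k v)

theorem continuous_hk (x x' : ℕ → ℤ) (k : ℕ) : Continuous (hk x x' k) := by
  unfold hk
  fun_prop

theorem lsc_phi (x x' : ℕ → ℤ) : LowerSemicontinuous (phi x x') := by
  refine lowerSemicontinuous_tsum fun k => ?_
  exact (ENNReal.continuous_ofReal.comp (continuous_hk x x' k)).lowerSemicontinuous

theorem hk_mix (x x' : ℕ → ℤ) (k : ℕ) (v w : Finset ℤ → ℝ) (t : ℝ) :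
    hk x x' k (t • v + (1 - t) • w) = t * hk x x' k v + (1 - t) * hk x x' k w := by
  unfold hk
  rw [Finset.mul_sum, Finset.mul_sum, ← Finset.sum_add_distrib]
  refine Finset.sum_congr rfl fun j _ => ?_
  simp only [Pi.add_apply, Pi.smul_apply, smul_eq_mul]
  ring

theorem hk_nonneg (x x' : ℕ → ℤ) (k : ℕ) (μ : Measure Conf) [IsProbabilityMeasure μ] :
    0 ≤ hk x x' k (cor μ) := by
  refine Finset.sum_nonneg fun j _ => add_nonneg (cor_nonneg μ _) ?_
  linarith [cor_le_one μ {x' k + j}]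

theorem phi_mix (x x' : ℕ → ℤ) (μ ν : Measure Conf) [IsProbabilityMeasure μ]
    [IsProbabilityMeasure ν] (t : ℝ) (h0 : 0 < t) (h1 : t < 1) :
    phi x x' (t • cor μ + (1 - t) • cor ν) =
      ENNReal.ofReal t * phi x x' (cor μ) + ENNReal.ofReal (1 - t) * phi x x' (cor ν) := by
  unfold phi
  rw [← ENNReal.tsum_mul_left, ← ENNReal.tsum_mul_left, ← ENNReal.tsum_add]
  congr 1
  funext k
  have h2 := hk_nonneg x x' k μ
  have h3 := hk_nonneg x x' k ν
  rw [hk_mix, ENNReal.ofReal_add (mul_nonneg h0.le h2) (mul_nonneg (by linarith) h3),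
    ENNReal.ofReal_mul h0.le, ENNReal.ofReal_mul (by linarith)]

/-- abstract part: a minimum of the functional at an extremal measure -/
theorem exists_extremal {p : ℤ → ℝ} (hp : Ker p) (μ : Measure Conf) [IsProbabilityMeasure μ]
    (hst : Stat p μ) (x x' : ℕ → ℤ) (hfin : phi x x' (cor μ) ≠ ∞) :
    ∃ μ' : Measure Conf, IsProbabilityMeasure μ' ∧ Extremal p μ' ∧ phi x x' (cor μ') ≠ ∞ := by
  set K : Set (ProbabilityMeasure Conf) := {ν | Stat p (ν : Measure Conf)} with hK
  have hKc : IsCompact K := (isClosed_stat hp).isCompact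
  set V : Set (Finset ℤ → ℝ) := (fun ν : ProbabilityMeasure Conf => cor (ν : Measure Conf)) '' K
    with hV
  have hVc : IsCompact V := hKc.image continuous_cor
  have hmemV : ∀ ν : Measure Conf, IsProbabilityMeasure ν → Stat p ν → cor ν ∈ V := by
    intro ν h1 h2
    exact ⟨⟨ν, h1⟩, h2, rfl⟩
  have hμV : cor μ ∈ V := hmemV μ inferInstance hst
  obtain ⟨v0, hv0, hmin⟩ := LowerSemicontinuousOn.exists_isMinOn ⟨_, hμV⟩ hVc
    ((lsc_phi x x').lowerSemicontinuousOn V)
  have hmin' : ∀ v ∈ V, phi x x' v0 ≤ phi x x' v := fun v hv => hmin hv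
  have hm : phi x x' v0 ≠ ∞ := ne_top_of_le_ne_top hfin (hmin' _ hμV)
  set Fc : Set (Finset ℤ → ℝ) := V ∩ {v | phi x x' v ≤ phi x x' v0} with hFc
  have hFcc : IsCompact Fc := by
    refine hVc.inter_right ?_
    exact (lsc_phi x x').isClosed_preimage (phi x x' v0)
  obtain ⟨v, hv⟩ := hFcc.extremePoints_nonempty ⟨v0, hv0, le_refl (phi x x' v0)⟩
  obtain ⟨hvF, hvext⟩ := hv
  obtain ⟨⟨μ', hμ', rfl⟩, hvle⟩ := hvF
  have hvle' : phi x x' (cor (μ' : Measure Conf)) ≤ phi x x' v0 := hvle
  refine ⟨μ', inferInstance, ⟨hμ', ?_⟩, ne_top_of_le_ne_top hm hvle'⟩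
  intro μ₁ μ₂ hp1 hp2 hs1 hs2 t h0 h1 hmix
  have hc := cor_mix _ μ₁ μ₂ t h0 h1 hmix
  have hph := phi_mix x x' μ₁ μ₂ t h0 h1
  rw [← hc] at hph
  have h1V := hmemV μ₁ hp1 hs1
  have h2V := hmemV μ₂ hp2 hs2
  have hl1 := hmin' _ h1V
  have hl2 := hmin' _ h2V
  have ht1 : 0 < 1 - t := by linarith
  -- both are minimal
  have hsum : phi x x' v0 = ENNReal.ofReal t * phi x x' v0 + ENNReal.ofReal (1 - t) * phi x x' v0 := by
    rw [← add_mul, ← ENNReal.ofReal_add h0.le ht1.le]
    simp
  have hle : ENNReal.ofReal t * phi x x' (cor μ₁) + ENNReal.ofReal (1 - t) * phi x x' (cor μ₂) ≤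
      ENNReal.ofReal t * phi x x' v0 + ENNReal.ofReal (1 - t) * phi x x' v0 := by
    rw [← hph, ← hsum]; exact hvle'
  have h1F : cor μ₁ ∈ Fc := by
    refine ⟨h1V, ?_⟩
    have h3 : ENNReal.ofReal t * phi x x' (cor μ₁) + ENNReal.ofReal (1 - t) * phi x x' v0 ≤
        ENNReal.ofReal t * phi x x' v0 + ENNReal.ofReal (1 - t) * phi x x' v0 :=
      le_trans (add_le_add le_rfl (mul_le_mul' le_rfl hl2)) hle
    have h4 := (ENNReal.add_le_add_iff_right (ENNReal.mul_ne_top ENNReal.ofReal_ne_top hm)).1 h3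
    exact (ENNReal.mul_le_mul_iff_right (by simpa using h0) ENNReal.ofReal_ne_top).1 h4
  have h2F : cor μ₂ ∈ Fc := by
    refine ⟨h2V, ?_⟩
    have h3 : ENNReal.ofReal t * phi x x' v0 + ENNReal.ofReal (1 - t) * phi x x' (cor μ₂) ≤
        ENNReal.ofReal t * phi x x' v0 + ENNReal.ofReal (1 - t) * phi x x' v0 :=
      le_trans (add_le_add (mul_le_mul' le_rfl hl1) le_rfl) hle
    have h4 := (ENNReal.add_le_add_iff_left (ENNReal.mul_ne_top ENNReal.ofReal_ne_top hm)).1 h3
    exact (ENNReal.mul_le_mul_iff_right (by simpa using h1) ENNReal.ofReal_ne_top).1 h4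
  have hseg : cor (μ' : Measure Conf) ∈ openSegment ℝ (cor μ₁) (cor μ₂) :=
    ⟨t, 1 - t, h0, ht1, by ring, hc.symm⟩
  have heq := hvext h1F h2F hseg
  exact cor_inj μ₁ _ heq

/-- the choice of the windows -/
theorem choose_windows {μ : Measure Conf} (hprof : Profile μ) :
    ∃ x x' : ℕ → ℤ, Tendsto x atTop atBot ∧ Tendsto x' atTop atTop ∧
      ∀ k : ℕ, ∀ j ∈ Finset.Icc (-(k : ℤ)) k,
        rho μ (x k + j) ≤ (1 / 2) ^ k / (2 * (2 * k + 1)) ∧
        1 - rho μ (x' k + j) ≤ (1 / 2) ^ k / (2 * (2 * k + 1)) := by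
  have hε : ∀ k : ℕ, (0 : ℝ) < (1 / 2) ^ k / (2 * (2 * k + 1)) := fun k => by positivity
  have hL : ∀ k : ℕ, ∃ X : ℤ, ∀ x ≤ X, rho μ x ≤ (1 / 2) ^ k / (2 * (2 * k + 1)) := by
    intro k
    have := hprof.1.eventually (gt_mem_nhds (hε k))
    obtain ⟨X, hX⟩ := eventually_atBot.1 this
    exact ⟨X, fun x hx => (hX x hx).le⟩
  have hR : ∀ k : ℕ, ∃ X : ℤ, ∀ x ≥ X, 1 - rho μ x ≤ (1 / 2) ^ k / (2 * (2 * k + 1)) := by
    intro k
    have h1 : Tendsto (fun x => 1 - rho μ x) atTop (𝓝 0) := by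
      have := hprof.2.const_sub 1
      simpa using this
    have := h1.eventually (gt_mem_nhds (hε k))
    obtain ⟨X, hX⟩ := eventually_atTop.1 this
    exact ⟨X, fun x hx => (hX x hx).le⟩
  choose XL hXL using hL
  choose XR hXR using hR
  refine ⟨fun k => min (XL k) 0 - 2 * k, fun k => max (XR k) 0 + 2 * k, ?_, ?_, ?_⟩
  · refine tendsto_atBot.2 fun b => ?_
    refine eventually_atTop.2 ⟨(-b).toNat, fun k hk => ?_⟩
    have h1 : min (XL k) 0 ≤ 0 := min_le_right _ _
    have h2 : -b ≤ (k : ℤ) := by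
      have := Int.self_le_toNat (-b)
      omega
    show min (XL k) 0 - 2 * (k : ℤ) ≤ b
    omega
  · refine tendsto_atTop.2 fun b => ?_
    refine eventually_atTop.2 ⟨b.toNat, fun k hk => ?_⟩
    have h1 : 0 ≤ max (XR k) 0 := le_max_right _ _
    have h2 : b ≤ (k : ℤ) := by
      have := Int.self_le_toNat b
      omega
    show b ≤ max (XR k) 0 + 2 * (k : ℤ)
    omega
  · intro k j hj
    rw [Finset.mem_Icc] at hj
    refine ⟨hXL k _ ?_, hXR k _ ?_⟩
    · have h1 : min (XL k) 0 ≤ XL k := min_le_left _ _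
      show min (XL k) 0 - 2 * (k : ℤ) + j ≤ XL k
      omega
    · have h1 : XR k ≤ max (XR k) 0 := le_max_left _ _
      show XR k ≤ max (XR k) 0 + 2 * (k : ℤ) + j
      omega

theorem phi_ne_top {μ : Measure Conf} (x x' : ℕ → ℤ)
    (h : ∀ k : ℕ, ∀ j ∈ Finset.Icc (-(k : ℤ)) k,
        rho μ (x k + j) ≤ (1 / 2) ^ k / (2 * (2 * k + 1)) ∧
        1 - rho μ (x' k + j) ≤ (1 / 2) ^ k / (2 * (2 * k + 1))) : phi x x' (cor μ) ≠ ∞ := by
  have h1 : ∀ k, hk x x' k (cor μ) ≤ (1 / 2) ^ k := by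
    intro k
    unfold hk
    calc ∑ j ∈ Finset.Icc (-(k : ℤ)) k, (cor μ {x k + j} + (1 - cor μ {x' k + j}))
        ≤ ∑ j ∈ Finset.Icc (-(k : ℤ)) k, (1 / 2 : ℝ) ^ k / (2 * k + 1) := by
          refine Finset.sum_le_sum fun j hj => ?_
          obtain ⟨h2, h3⟩ := h k j hj
          rw [cor_singleton, cor_singleton]
          have h4 : (1 / 2 : ℝ) ^ k / (2 * k + 1) = (1 / 2) ^ k / (2 * (2 * k + 1)) +
              (1 / 2) ^ k / (2 * (2 * k + 1)) := by field_simp; ring
          rw [h4]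
          exact add_le_add h2 h3
      _ = (1 / 2) ^ k := by
          rw [Finset.sum_const, Int.card_Icc, nsmul_eq_mul]
          have h5 : (((k : ℤ) + 1 - -(k : ℤ)).toNat : ℝ) = 2 * k + 1 := by
            have : ((k : ℤ) + 1 - -(k : ℤ)).toNat = 2 * k + 1 := by omega
            rw [this]; push_cast; ring
          rw [h5]
          field_simp
  have h2 : phi x x' (cor μ) ≤ ∑' k : ℕ, ENNReal.ofReal ((1 / 2) ^ k) :=
    ENNReal.tsum_le_tsum fun k => ENNReal.ofReal_le_ofReal (h1 k)
  refine ne_top_of_le_ne_top ?_ h2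
  rw [← ENNReal.ofReal_tsum_of_nonneg (fun k => by positivity) summable_geometric_two]
  exact ENNReal.ofReal_ne_top

theorem win_of_phi {μ : Measure Conf} [IsProbabilityMeasure μ] (x x' : ℕ → ℤ)
    (hx : Tendsto x atTop atBot) (hx' : Tendsto x' atTop atTop)
    (h : phi x x' (cor μ) ≠ ∞) : Win μ := by
  have h1 : Tendsto (fun k => hk x x' k (cor μ)) atTop (𝓝 0) := by
    have h2 := ENNReal.tendsto_atTop_zero_of_tsum_ne_top h
    have h3 := (ENNReal.tendsto_toReal (a := 0) (by simp)).comp h2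
    refine h3.congr fun k => ?_
    simp only [Function.comp_apply]
    rw [ENNReal.toReal_ofReal (hk_nonneg x x' k μ)]
  have hnn : ∀ k : ℕ, ∀ j ∈ Finset.Icc (-(k : ℤ)) k,
      0 ≤ cor μ {x k + j} + (1 - cor μ {x' k + j}) := fun k j _ => by
    linarith [cor_nonneg μ {x k + j}, cor_le_one μ {x' k + j}]
  have hle : ∀ k : ℕ, ∀ j ∈ Finset.Icc (-(k : ℤ)) k,
      cor μ {x k + j} + (1 - cor μ {x' k + j}) ≤ hk x x' k (cor μ) := fun k j hj =>
    Finset.single_le_sum (f := fun j => cor μ {x k + j} + (1 - cor μ {x' k + j}))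
      (fun i hi => hnn k i hi) hj
  have hev : ∀ j : ℤ, ∀ᶠ k : ℕ in atTop, j ∈ Finset.Icc (-(k : ℤ)) k := by
    intro j
    refine eventually_atTop.2 ⟨j.natAbs, fun k hk => ?_⟩
    rw [Finset.mem_Icc]
    omega
  refine ⟨x, x', hx, hx', fun j => ?_, fun j => ?_⟩
  · refine squeeze_zero' (Eventually.of_forall fun k => measureReal_nonneg) ?_ h1
    filter_upwards [hev j] with k hk
    have h2 := hle k j hk
    rw [cor_singleton] at h2
    linarith [cor_le_one μ {x' k + j}]
  · have h2 : Tendsto (fun k => 1 - rho μ (x' k + j)) atTop (𝓝 0) := by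
      refine squeeze_zero' (Eventually.of_forall fun k => ?_) ?_ h1
      · have : rho μ (x' k + j) ≤ 1 := measureReal_le_one
        linarith
      · filter_upwards [hev j] with k hk
        have h2 := hle k j hk
        rw [cor_singleton μ (x' k + j)] at h2
        linarith [cor_nonneg μ {x k + j}]
    have h3 := h2.const_sub 1
    simpa using h3

end Ext

/-- existence of extremal profile measures -/
theorem t_EXT : S_EXT := by
  intro p hp μ hμ hst hprof
  obtain ⟨x, x', hx, hx', h⟩ := Ext.choose_windows hprof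
  obtain ⟨μ', h1, h2, h3⟩ := Ext.exists_extremal hp μ hst x x' (Ext.phi_ne_top x x' h)
  exact ⟨μ', h1, h2, Ext.win_of_phi x x' hx hx' h3⟩

end Pool.Agent.N959.EX
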