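import Pool.Agent.N959.EX.Def

/-! # Basic facts for the final step -/

set_option autoImplicit false

open MeasureTheory Filter Topology

namespace Pool.Agent.N959.EX
namespace Fin1

section ops

variable {Z : Type*} {act : ℤ → ℤ → Z → Z} {p : ℤ → ℝ} {n : ℕ} {h : ℝ}

lemma KK_eq (F : Z → ℝ) (z : Z) : KK act p n h F z = (1 - h * Rt p n) * F z +
    h * ∑ x ∈ Lam n, ∑ y ∈ Lam n, p (y - x) * F (act x y z) := by
  have : LL act p n F z = ∑ x ∈ Lam n, ∑ y ∈ Lam n, p (y - x) * F (act x y z) - Rt p n * F z := by
    unfold LL Rt
    rw [Finset.sum_mul, ← Finset.sum_sub_distrib]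
    refine Finset.sum_congr rfl fun x _ => ?_
    rw [Finset.sum_mul, ← Finset.sum_sub_distrib]
    refine Finset.sum_congr rfl fun y _ => ?_
    ring
  unfold KK
  rw [this]
  ring

lemma LL_add (F G : Z → ℝ) : LL act p n (fun z => F z + G z) =
    fun z => LL act p n F z + LL act p n G z := by
  funext z
  unfold LL
  rw [← Finset.sum_add_distrib]
  refine Finset.sum_congr rfl fun x _ => ?_
  rw [← Finset.sum_add_distrib]
  refine Finset.sum_congr rfl fun y _ => ?_
  ring

lemma LL_smul (a : ℝ) (F : Z → ℝ) : LL act p n (fun z => a * F z) =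
    fun z => a * LL act p n F z := by
  funext z
  unfold LL
  rw [Finset.mul_sum]
  refine Finset.sum_congr rfl fun x _ => ?_
  rw [Finset.mul_sum]
  refine Finset.sum_congr rfl fun y _ => ?_
  ring

lemma KK_add (F G : Z → ℝ) : KK act p n h (fun z => F z + G z) =
    fun z => KK act p n h F z + KK act p n h G z := by
  funext z
  unfold KK
  rw [LL_add]
  ring

lemma KK_smul (a : ℝ) (F : Z → ℝ) : KK act p n h (fun z => a * F z) =
    fun z => a * KK act p n h F z := by
  funext z
  unfold KK
  rw [LL_smul]
  ring

lemma KK_sub (F G : Z → ℝ) : KK act p n h (fun z => F z - G z) =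
    fun z => KK act p n h F z - KK act p n h G z := by
  have : (fun z => F z - G z) = fun z => F z + (-1) * G z := by funext z; ring
  rw [this, KK_add, KK_smul]
  funext z
  ring

lemma KK_const (a : ℝ) : KK act p n h (fun _ => a) = fun _ => a := by
  funext z
  simp [KK, LL]

lemma KK_iter_add (k : ℕ) (F G : Z → ℝ) : (KK act p n h)^[k] (fun z => F z + G z) =
    fun z => (KK act p n h)^[k] F z + (KK act p n h)^[k] G z := by
  induction k with
  | zero => rfl
  | succ k ih => rw [Function.iterate_succ_apply', ih, KK_add, Function.iterate_succ_apply',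
      Function.iterate_succ_apply']

variable (hp : ∀ z, 0 ≤ p z) (hs : Small p n h)

include hp in
lemma Rt_nonneg : 0 ≤ Rt p n :=
  Finset.sum_nonneg fun _ _ => Finset.sum_nonneg fun _ _ => hp _

include hs in
lemma diag_ge : 3 / 4 ≤ 1 - h * Rt p n := by
  have := hs.2
  linarith

include hp hs in
lemma KK_mono {F G : Z → ℝ} (hFG : ∀ z, F z ≤ G z) (z : Z) :
    KK act p n h F z ≤ KK act p n h G z := by
  rw [KK_eq, KK_eq]
  have h1 := diag_ge hs
  refine add_le_add (mul_le_mul_of_nonneg_left (hFG z) (by linarith)) ?_
  refine mul_le_mul_of_nonneg_left ?_ hs.1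
  exact Finset.sum_le_sum fun x _ => Finset.sum_le_sum fun y _ =>
    mul_le_mul_of_nonneg_left (hFG _) (hp _)

include hp hs in
lemma KK_ge {F : Z → ℝ} {a : ℝ} (hF : ∀ z, a ≤ F z) (z : Z) : a ≤ KK act p n h F z := by
  have := KK_mono (act := act) hp hs (F := fun _ => a) (G := F) hF z
  rwa [KK_const] at this

include hp hs in
lemma KK_le {F : Z → ℝ} {a : ℝ} (hF : ∀ z, F z ≤ a) (z : Z) : KK act p n h F z ≤ a := by
  have := KK_mono (act := act) hp hs (F := F) (G := fun _ => a) hF z
  rwa [KK_const] at this

include hp hs in
lemma KK_iter_ge {F : Z → ℝ} {a : ℝ} (hF : ∀ z, a ≤ F z) (k : ℕ) (z : Z) :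
    a ≤ (KK act p n h)^[k] F z := by
  induction k generalizing z with
  | zero => exact hF z
  | succ k ih => rw [Function.iterate_succ_apply']; exact KK_ge hp hs ih z

include hp hs in
lemma KK_iter_le {F : Z → ℝ} {a : ℝ} (hF : ∀ z, F z ≤ a) (k : ℕ) (z : Z) :
    (KK act p n h)^[k] F z ≤ a := by
  induction k generalizing z with
  | zero => exact hF z
  | succ k ih => rw [Function.iterate_succ_apply']; exact KK_le hp hs ih z

end ops

/-! ### moves -/

lemma mv_of (x y : ℤ) (η : Conf) (h : η x = true ∧ η y = false) : mv x y η = sw x y η := by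
  unfold mv; rw [if_pos h]

lemma mv_not (x y : ℤ) (η : Conf) (h : ¬ (η x = true ∧ η y = false)) : mv x y η = η := by
  unfold mv; rw [if_neg h]

lemma put_of_true {x : ℤ} {η : Conf} (h : η x = true) : put x η = η := by
  unfold put
  rw [← h]
  exact Function.update_eq_self x η

lemma put_self (x : ℤ) (η : Conf) : put x η x = true := by simp [put]

lemma put_ne {x y : ℤ} (h : y ≠ x) (η : Conf) : put x η y = η y := by simp [put, h]

lemma put_comm (x y : ℤ) (η : Conf) : put x (put y η) = put y (put x η) := by
  funext z
  by_cases h1 : z = x <;> by_cases h2 : z = y <;> simp [put, Function.update_apply, h1, h2]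

/-- The new position of the discrepancy at `d` -/
def dn (x y : ℤ) (η : Conf) (d : ℤ) : ℤ :=
  if d = x then (if η y = false then y else d) else if d = y then (if η x = true then x else d)
  else d

lemma dn_valid (x y : ℤ) (η : Conf) (d : ℤ) (hd : η d = false) :
    mv x y η (dn x y η d) = false := by
  unfold mv dn sw
  by_cases h1 : d = x
  · subst h1
    simp only [hd, if_true]
    by_cases h2 : η y = false
    · simp [h2]
    · simp [h2, hd]
  · by_cases h2 : d = y
    · subst h2
      by_cases h3 : η x = true
      · simp [h1, h3, hd]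
      · simp [h1, h3, hd]
    · by_cases h3 : η x = true ∧ η y = false
      · simp [h1, h2, h3, hd]
      · simp [h1, h2, h3, hd]

lemma dn_mem (x y : ℤ) (η : Conf) (d : ℤ) (s : Finset ℤ) (hx : x ∈ s) (hy : y ∈ s) (hd : d ∈ s) :
    dn x y η d ∈ s := by
  unfold dn
  split_ifs <;> assumption

lemma mv_put (x y : ℤ) (η : Conf) (d : ℤ) (hd : η d = false) :
    mv x y (put d η) = put (dn x y η d) (mv x y η) := by
  by_cases h1 : d = x
  · subst h1
    by_cases h2 : η y = false
    · have e1 : dn d y η d = y := by simp [dn, h2]
      have e2 : mv d y η = η := mv_not _ _ _ (by simp [hd])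
      rw [e1, e2]
      by_cases h3 : y = d
      · subst h3
        exact mv_not _ _ _ (by simp [put_self])
      · rw [mv_of _ _ _ ⟨put_self _ _, by rw [put_ne h3]; exact h2⟩]
        funext z
        unfold sw
        by_cases h4 : z = d
        · subst h4
          simp [put_ne h3, put_ne (Ne.symm h3), h2, hd]
        · by_cases h5 : z = y
          · subst h5
            simp [h4, put_self]
          · simp [h4, h5, put_ne h4, put_ne h5]
    · have e1 : dn d y η d = d := by simp [dn, h2]
      have e2 : mv d y η = η := mv_not _ _ _ (by simp [hd])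
      rw [e1, e2]
      have h3 : y ≠ d := by
        rintro rfl
        exact h2 hd
      exact mv_not _ _ _ (by rw [put_ne h3]; simp [h2])
  · by_cases h2 : d = y
    · subst h2
      have e0 : mv x d (put d η) = put d η := mv_not _ _ _ (by simp [put_self])
      rw [e0]
      by_cases h3 : η x = true
      · have e1 : dn x d η d = x := by simp [dn, h1, h3]
        rw [e1, mv_of _ _ _ ⟨h3, hd⟩]
        funext z
        by_cases h4 : z = x
        · subst h4
          rw [put_self, put_ne (Ne.symm h1)]
          exact h3
        · rw [put_ne h4]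
          unfold sw
          by_cases h5 : z = d
          · subst h5
            simp [put_self, h1, h3]
          · simp [h4, h5, put_ne h5]
      · have e1 : dn x d η d = d := by simp [dn, h1, h3]
        rw [e1, mv_not _ _ _ (by simp [h3])]
    · have e1 : dn x y η d = d := by simp [dn, h1, h2]
      rw [e1]
      by_cases h3 : η x = true ∧ η y = false
      · rw [mv_of _ _ _ h3, mv_of _ _ _ (by rw [put_ne (Ne.symm h1), put_ne (Ne.symm h2)]; exact h3)]
        funext z
        unfold sw
        by_cases h4 : z = x
        · subst h4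
          simp [put_ne (Ne.symm h2), put_ne (Ne.symm h1)]
        · by_cases h5 : z = y
          · subst h5
            simp [h4, put_ne (Ne.symm h2), put_ne (Ne.symm h1)]
          · by_cases h6 : z = d
            · subst h6
              simp [h4, h5, put_self]
            · simp [h4, h5, h6, put_ne h6]
      · rw [mv_not _ _ _ h3, mv_not _ _ _ (by rw [put_ne (Ne.symm h1), put_ne (Ne.symm h2)]; exact h3)]

end Fin1
end Pool.Agent.N959.EX
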