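import Pool.Agent.N959.EX.Fin1

/-! # Basic facts for the final step, continued -/

set_option autoImplicit false

open MeasureTheory Filter Topology

namespace Pool.Agent.N959.EX
namespace Fin2

open Fin1

variable {p : ℤ → ℝ} {n : ℕ} {h : ℝ}

/-- increasing functions -/
def Mono (n : ℕ) (F : Conf → ℝ) : Prop := ∀ η : Conf, ∀ u ∈ Lam n, η u = false → F η ≤ F (put u η)

/-- supermodular functions -/
def Sup (n : ℕ) (F : Conf → ℝ) : Prop := ∀ η : Conf, ∀ u ∈ Lam n, ∀ v ∈ Lam n,
  η u = false → η v = false → u ≠ v →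
  F (put u η) + F (put v η) ≤ F (put u (put v η)) + F η

/-- the number of particles in `A` -/
noncomputable def cnt (A : Finset ℤ) (η : Conf) : ℝ := ∑ x ∈ A, if η x = true then 1 else 0

lemma cnt_nonneg (A : Finset ℤ) (η : Conf) : 0 ≤ cnt A η :=
  Finset.sum_nonneg fun _ _ => by split_ifs <;> norm_num

lemma cnt_le (A : Finset ℤ) (η : Conf) : cnt A η ≤ A.card := by
  unfold cnt
  calc ∑ x ∈ A, (if η x = true then (1 : ℝ) else 0) ≤ ∑ x ∈ A, (1 : ℝ) :=
        Finset.sum_le_sum fun _ _ => by split_ifs <;> norm_num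
    _ = A.card := by simp

lemma cnt_put (A : Finset ℤ) (η : Conf) (u : ℤ) (hu : η u = false) :
    cnt A (put u η) - cnt A η = if u ∈ A then 1 else 0 := by
  unfold cnt
  rw [← Finset.sum_sub_distrib]
  have : ∀ x ∈ A, ((if put u η x = true then (1 : ℝ) else 0) - if η x = true then 1 else 0) =
      if x = u then 1 else 0 := by
    intro x _
    by_cases hx : x = u
    · subst hx
      simp [put_self, hu]
    · rw [put_ne hx]
      simp [hx]
  rw [Finset.sum_congr rfl this, Finset.sum_ite_eq']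

lemma cnt_mono (n : ℕ) (A : Finset ℤ) : Mono n (cnt A) := by
  intro η u _ hu
  have := cnt_put A η u hu
  split_ifs at this <;> linarith

lemma mv_perm (x y : ℤ) (A : Finset ℤ) (hx : x ∈ A) (hy : y ∈ A) (η : Conf) :
    cnt A (mv x y η) = cnt A η := by
  by_cases hc : η x = true ∧ η y = false
  · rw [mv_of _ _ _ hc]
    have e : ∀ z, sw x y η z = η (Equiv.swap x y z) := by
      intro z
      unfold sw
      rw [Equiv.swap_apply_def]
      split_ifs <;> rfl
    unfold cnt
    simp only [e]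
    apply Equiv.Perm.sum_comp (Equiv.swap x y) A (fun z => if η z = true then (1 : ℝ) else 0)
    intro z hz
    simp only [Set.mem_ofPred_eq] at hz
    rcases Equiv.swap_apply_ne_self_iff.1 hz with ⟨_, h1 | h1⟩
    · rw [h1]; exact hx
    · rw [h1]; exact hy
  · rw [mv_not _ _ _ hc]

lemma KK_cnt_Lam : KK mv p n h (cnt (Lam n)) = cnt (Lam n) := by
  funext η
  unfold KK LL
  have : ∑ x ∈ Lam n, ∑ y ∈ Lam n, p (y - x) * (cnt (Lam n) (mv x y η) - cnt (Lam n) η) = 0 :=
    Finset.sum_eq_zero fun x hx => Finset.sum_eq_zero fun y hy => by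
      rw [mv_perm x y _ hx hy]; ring
  rw [this]; ring

lemma iter_cnt_Lam (k : ℕ) : (KK mv p n h)^[k] (cnt (Lam n)) = cnt (Lam n) := by
  induction k with
  | zero => rfl
  | succ k ih => rw [Function.iterate_succ_apply', ih, KK_cnt_Lam]

lemma cnt_add_compl (A : Finset ℤ) (hA : A ⊆ Lam n) :
    (fun η => cnt A η + cnt (Lam n \ A) η) = cnt (Lam n) := by
  funext η
  unfold cnt
  rw [add_comm]
  exact Finset.sum_sdiff hA

lemma iter_compl (A : Finset ℤ) (hA : A ⊆ Lam n) (k : ℕ) (η : Conf) :
    (KK mv p n h)^[k] (cnt A) η + (KK mv p n h)^[k] (cnt (Lam n \ A)) η = cnt (Lam n) η := by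
  have h1 := KK_iter_add (act := mv) (p := p) (n := n) (h := h) k (cnt A) (cnt (Lam n \ A))
  rw [cnt_add_compl A hA, iter_cnt_Lam] at h1
  rw [h1]

lemma Mono.KK (hp : ∀ z, 0 ≤ p z) (hs : Small p n h) {F : Conf → ℝ} (hF : Mono n F) :
    Mono n (KK mv p n h F) := by
  intro η u hu hη
  rw [KK_eq, KK_eq]
  have h1 := diag_ge hs
  refine add_le_add (mul_le_mul_of_nonneg_left (hF η u hu hη) (by linarith)) ?_
  refine mul_le_mul_of_nonneg_left ?_ hs.1
  refine Finset.sum_le_sum fun x hx => Finset.sum_le_sum fun y hy =>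
    mul_le_mul_of_nonneg_left ?_ (hp _)
  rw [mv_put x y η u hη]
  exact hF _ _ (dn_mem x y η u _ hx hy hu) (dn_valid x y η u hη)

lemma Mono.iter (hp : ∀ z, 0 ≤ p z) (hs : Small p n h) {F : Conf → ℝ} (hF : Mono n F) (k : ℕ) :
    Mono n ((EX.KK mv p n h)^[k] F) := by
  induction k with
  | zero => exact hF
  | succ k ih => rw [Function.iterate_succ_apply']; exact Mono.KK hp hs ih

/-- influence of a site on the number of particles in `A` -/
noncomputable def PP (p : ℤ → ℝ) (n : ℕ) (h : ℝ) (k : ℕ) (A : Finset ℤ) (η : Conf) (x : ℤ) : ℝ :=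
  (KK mv p n h)^[k] (cnt A) (put x η) - (KK mv p n h)^[k] (cnt A) η

lemma PP_nonneg (hp : ∀ z, 0 ≤ p z) (hs : Small p n h) (k : ℕ) (A : Finset ℤ) (η : Conf) (x : ℤ)
    (hx : x ∈ Lam n) (hη : η x = false) : 0 ≤ PP p n h k A η x := by
  unfold PP
  have := (cnt_mono n A).iter hp hs k η x hx hη
  linarith

lemma PP_compl (A : Finset ℤ) (hA : A ⊆ Lam n) (k : ℕ) (η : Conf) (x : ℤ) (hx : x ∈ Lam n)
    (hη : η x = false) : PP p n h k A η x + PP p n h k (Lam n \ A) η x = 1 := by
  unfold PP
  have h1 := iter_compl (p := p) (n := n) (h := h) A hA k η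
  have h2 := iter_compl (p := p) (n := n) (h := h) A hA k (put x η)
  have h3 := cnt_put (Lam n) η x hη
  rw [if_pos hx] at h3
  linarith

lemma PP_le_one (hp : ∀ z, 0 ≤ p z) (hs : Small p n h) (k : ℕ) (A : Finset ℤ) (hA : A ⊆ Lam n)
    (η : Conf) (x : ℤ) (hx : x ∈ Lam n) (hη : η x = false) : PP p n h k A η x ≤ 1 := by
  have h1 := PP_compl (p := p) (h := h) A hA k η x hx hη
  have h2 := PP_nonneg hp hs k (Lam n \ A) η x hx hη
  linarith

/-! ### cylinder functions -/

lemma dep_mono {m : ℕ} {F : Conf → ℝ} (hF : Dep m F) (hmn : m ≤ n) : Dep n F := by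
  intro η ζ hηζ
  refine hF η ζ fun x hx => hηζ x ?_
  simp only [Lam, Finset.mem_Icc] at hx ⊢
  omega

lemma mv_congr (x y : ℤ) (hx : x ∈ Lam n) (hy : y ∈ Lam n) {η ζ : Conf}
    (hηζ : ∀ z ∈ Lam n, η z = ζ z) : ∀ z ∈ Lam n, mv x y η z = mv x y ζ z := by
  intro z hz
  unfold mv
  rw [hηζ x hx, hηζ y hy]
  split_ifs
  · unfold sw
    rw [hηζ x hx, hηζ y hy, hηζ z hz]
  · exact hηζ z hz

lemma dep_LL {F : Conf → ℝ} (hF : Dep n F) : Dep n (LL mv p n F) := by
  intro η ζ hηζ
  unfold EX.LL
  refine Finset.sum_congr rfl fun x hx => Finset.sum_congr rfl fun y hy => ?_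
  rw [hF η ζ hηζ, hF _ _ (mv_congr x y hx hy hηζ)]

lemma dep_KK {F : Conf → ℝ} (hF : Dep n F) : Dep n (KK mv p n h F) := by
  intro η ζ hηζ
  unfold EX.KK
  rw [hF η ζ hηζ, dep_LL hF η ζ hηζ]

lemma dep_iter {F : Conf → ℝ} (hF : Dep n F) (k : ℕ) : Dep n ((EX.KK mv p n h)^[k] F) := by
  induction k with
  | zero => exact hF
  | succ k ih => rw [Function.iterate_succ_apply']; exact dep_KK ih

lemma Dep_cnt (A : Finset ℤ) (hA : A ⊆ Lam n) : Dep n (cnt A) := by
  intro η ζ hηζ
  unfold cnt
  refine Finset.sum_congr rfl fun x hx => ?_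
  rw [hηζ x (hA hx)]

lemma dep_comp_put {F : Conf → ℝ} (hF : Dep n F) (u : ℤ) : Dep n (fun η => F (put u η)) := by
  intro η ζ hηζ
  refine hF _ _ fun x hx => ?_
  by_cases h : x = u
  · subst h; rw [put_self, put_self]
  · rw [put_ne h, put_ne h]; exact hηζ x hx

/-- extension of a configuration in the box -/
noncomputable def ext (n : ℕ) (f : Lam n → Bool) : Conf := fun z => if h : z ∈ Lam n then f ⟨z, h⟩ else false

/-- restriction of a configuration to the box -/
def res (n : ℕ) (η : Conf) : Lam n → Bool := fun z => η z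

lemma dep_eq_ext {F : Conf → ℝ} (hF : Dep n F) (η : Conf) : F η = F (ext n (res n η)) := by
  apply hF
  intro x hx
  simp [ext, res, hx]

lemma dep_measurable {F : Conf → ℝ} (hF : Dep n F) : Measurable F := by
  have h1 : F = (fun f => F (ext n f)) ∘ res n := by
    funext η
    exact dep_eq_ext hF η
  rw [h1]
  have h2 : Measurable (res n) := by
    apply measurable_pi_lambda
    intro a
    exact measurable_pi_apply _
  exact (measurable_of_finite _).comp h2

lemma dep_bounded {F : Conf → ℝ} (hF : Dep n F) : ∃ C, ∀ η, |F η| ≤ C := by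
  obtain ⟨C, hC⟩ := (Set.finite_range (fun f : Lam n → Bool => |F (ext n f)|)).bddAbove
  refine ⟨C, fun η => ?_⟩
  rw [dep_eq_ext hF η]
  exact hC ⟨_, rfl⟩

lemma dep_integrable {F : Conf → ℝ} (hF : Dep n F) (μ : Measure Conf) [IsFiniteMeasure μ] :
    Integrable F μ := by
  obtain ⟨C, hC⟩ := dep_bounded hF
  exact Integrable.of_bound (dep_measurable hF).aestronglyMeasurable C
    (Eventually.of_forall fun η => by rw [Real.norm_eq_abs]; exact hC η)

lemma integral_ind (μ : Measure Conf) [IsFiniteMeasure μ] (x : ℤ) :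
    ∫ η, (if η x = true then (1 : ℝ) else 0) ∂μ = rho μ x := by
  have hm : MeasurableSet {η : Conf | η x = true} :=
    measurableSet_eq_fun (measurable_pi_apply x) measurable_const
  have : (fun η : Conf => if η x = true then (1 : ℝ) else 0) =
      Set.indicator {η : Conf | η x = true} (fun _ => (1 : ℝ)) := by
    funext η
    by_cases h : η x = true
    · simp [h]
    · simp [h]
  rw [this, integral_indicator hm]
  simp [rho]

lemma Dep_ind (x : ℤ) (hx : x ∈ Lam n) : Dep n (fun η => if η x = true then (1 : ℝ) else 0) := by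
  intro η ζ hηζ
  simp only [hηζ x hx]

lemma integral_cnt (μ : Measure Conf) [IsFiniteMeasure μ] (A : Finset ℤ) (hA : A ⊆ Lam n) :
    ∫ η, cnt A η ∂μ = ∑ x ∈ A, rho μ x := by
  unfold cnt
  rw [integral_finsetSum]
  · exact Finset.sum_congr rfl fun x _ => integral_ind μ x
  · intro x hx
    exact dep_integrable (Dep_ind x (hA hx)) μ

/-! ### adding many particles -/

/-- add particles on `T` -/
def putS (T : Finset ℤ) (η : Conf) : Conf := fun z => if z ∈ T then true else η z

lemma putS_empty (η : Conf) : putS ∅ η = η := by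
  funext z; simp [putS]

lemma putS_insert (a : ℤ) (T : Finset ℤ) (η : Conf) :
    putS (insert a T) η = put a (putS T η) := by
  funext z
  by_cases h : z = a
  · subst h; simp [putS, put_self]
  · rw [put_ne h]; simp [putS, h]

lemma putS_put (a : ℤ) (T : Finset ℤ) (η : Conf) :
    putS T (put a η) = put a (putS T η) := by
  funext z
  by_cases h : z = a
  · subst h; simp [putS, put_self]
  · rw [put_ne h]; simp [putS, put_ne h]

lemma Mono.putS {F : Conf → ℝ} (hF : Mono n F) (T : Finset ℤ) (hT : T ⊆ Lam n) (η : Conf) :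
    F η ≤ F (putS T η) := by
  induction T using Finset.induction_on with
  | empty => rw [putS_empty]
  | insert a T ha ih =>
    have h1 := ih (fun x hx => hT (Finset.mem_insert_of_mem hx))
    rw [putS_insert]
    by_cases h2 : Fin2.putS T η a = true
    · rw [put_of_true h2]; exact h1
    · exact h1.trans (hF _ a (hT (Finset.mem_insert_self _ _)) (by simpa using h2))

lemma Sup.incr {F : Conf → ℝ} (hF : Sup n F) (T : Finset ℤ) (hT : T ⊆ Lam n) (η : Conf)
    (a : ℤ) (ha : a ∈ Lam n) (haT : a ∉ T) (hη : η a = false) :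
    F (put a η) - F η ≤ F (put a (Fin2.putS T η)) - F (Fin2.putS T η) := by
  induction T using Finset.induction_on with
  | empty => rw [putS_empty]
  | insert b T hb ih =>
    have h1 := ih (fun x hx => hT (Finset.mem_insert_of_mem hx))
      (fun hx => haT (Finset.mem_insert_of_mem hx))
    have hab : a ≠ b := by
      rintro rfl
      exact haT (Finset.mem_insert_self _ _)
    rw [putS_insert]
    by_cases h2 : Fin2.putS T η b = true
    · rw [put_of_true h2]; exact h1
    · have h3 : Fin2.putS T η b = false := by simpa using h2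
      have h4 : Fin2.putS T η a = false := by
        have : a ∉ T := fun hx => haT (Finset.mem_insert_of_mem hx)
        simp [Fin2.putS, this, hη]
      have h5 := hF (Fin2.putS T η) a ha b (hT (Finset.mem_insert_self _ _)) h4 h3 hab
      linarith

lemma Sup.super {F : Conf → ℝ} (hF : Sup n F) (T : Finset ℤ) (hT : T ⊆ Lam n) (η : Conf)
    (hη : ∀ x ∈ T, η x = false) :
    ∑ x ∈ T, (F (put x η) - F η) ≤ F (Fin2.putS T η) - F η := by
  induction T using Finset.induction_on with
  | empty => rw [putS_empty]; simp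
  | insert a T ha ih =>
    have h1 := ih (fun x hx => hT (Finset.mem_insert_of_mem hx))
      (fun x hx => hη x (Finset.mem_insert_of_mem hx))
    have h2 := hF.incr T (fun x hx => hT (Finset.mem_insert_of_mem hx)) η a
      (hT (Finset.mem_insert_self _ _)) ha (hη a (Finset.mem_insert_self _ _))
    rw [Finset.sum_insert ha, putS_insert]
    linarith

/-- the discrepancies of an ordered pair in the box -/
noncomputable def DS (n : ℕ) (z : Conf × Conf) : Finset ℤ :=
  (Finset.Icc (-(n : ℤ)) (n : ℤ)).filter fun x => z.1 x = false ∧ z.2 x = true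

lemma DS_sub (z : Conf × Conf) : DS n z ⊆ Lam n := Finset.filter_subset _ _

lemma mem_DS (z : Conf × Conf) (x : ℤ) :
    x ∈ DS n z ↔ x ∈ Lam n ∧ z.1 x = false ∧ z.2 x = true := by
  simp [DS, Lam]

lemma dep_ord {F : Conf → ℝ} (hF : Dep n F) (z : Conf × Conf) (hz : z ∈ Ord) :
    F z.2 = F (Fin2.putS (DS n z) z.1) := by
  apply hF
  intro x hx
  unfold Fin2.putS
  by_cases h : x ∈ DS n z
  · rw [if_pos h]
    exact ((mem_DS z x).1 h).2.2
  · rw [if_neg h]
    rw [mem_DS] at h
    have h1 := hz x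
    cases h2 : z.1 x <;> cases h3 : z.2 x <;> simp_all

lemma Mono.ord {F : Conf → ℝ} (hF : Mono n F) (hD : Dep n F) (z : Conf × Conf) (hz : z ∈ Ord) :
    F z.1 ≤ F z.2 := by
  rw [dep_ord hD z hz]
  exact hF.putS _ (DS_sub z) _

lemma Mono.ord_put {F : Conf → ℝ} (hF : Mono n F) (hD : Dep n F) (z : Conf × Conf) (hz : z ∈ Ord)
    (x : ℤ) (h2 : z.2 x = true) : F (put x z.1) ≤ F z.2 := by
  have : (put x z.1, z.2) ∈ Ord := by
    intro y hy
    by_cases h : y = x
    · subst h; exact h2
    · simp only [put_ne h] at hy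
      exact hz y hy
  exact hF.ord hD (put x z.1, z.2) this

end Fin2
end Pool.Agent.N959.EX
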