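import Pool.Agent.N959.EX.Fin2

/-! # Coupling inequalities -/

set_option autoImplicit false

open MeasureTheory Filter Topology

namespace Pool.Agent.N959.EX
namespace Fin3

open Fin1 Pool.Agent.N959.EX.Fin2

variable {p : ℤ → ℝ} {n : ℕ} {h : ℝ}

/-- `F (put x η) - F η` if `x` is vacant -/
noncomputable def dd (F : Conf → ℝ) (x : ℤ) (η : Conf) : ℝ :=
  if η x = false then F (put x η) - F η else 0

lemma dep_dd {F : Conf → ℝ} (hF : Dep n F) (x : ℤ) (hx : x ∈ Lam n) : Dep n (dd F x) := by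
  intro η ζ hηζ
  unfold dd
  have h1 : F (put x η) = F (put x ζ) := dep_comp_put hF x η ζ hηζ
  rw [hηζ x hx, hF η ζ hηζ, h1]

lemma dd_nonneg {F : Conf → ℝ} (hF : Mono n F) (x : ℤ) (hx : x ∈ Lam n) (η : Conf) :
    0 ≤ dd F x η := by
  unfold dd
  split_ifs with h1
  · have := hF η x hx h1
    linarith
  · exact le_refl _

/-- an ordered coupling -/
structure Cpl (μ ν : Measure Conf) (π : Measure (Conf × Conf)) : Prop where
  prob : IsProbabilityMeasure π
  fst : π.map Prod.fst = μ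
  snd : π.map Prod.snd = ν
  ord : ∀ᵐ z ∂π, z ∈ Ord

variable {μ ν : Measure Conf} {π : Measure (Conf × Conf)}

lemma int_fst (hπ : Cpl μ ν π) {F : Conf → ℝ} (hF : Dep n F) :
    ∫ z, F z.1 ∂π = ∫ η, F η ∂μ := by
  rw [← hπ.fst, integral_map measurable_fst.aemeasurable
    (dep_measurable hF).aestronglyMeasurable]

lemma int_snd (hπ : Cpl μ ν π) {F : Conf → ℝ} (hF : Dep n F) :
    ∫ z, F z.2 ∂π = ∫ η, F η ∂ν := by
  rw [← hπ.snd, integral_map measurable_snd.aemeasurable
    (dep_measurable hF).aestronglyMeasurable]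

lemma integrable_fst (hπ : Cpl μ ν π) {F : Conf → ℝ} (hF : Dep n F) :
    Integrable (fun z : Conf × Conf => F z.1) π := by
  have := hπ.prob
  obtain ⟨C, hC⟩ := dep_bounded hF
  exact Integrable.of_bound ((dep_measurable hF).comp measurable_fst).aestronglyMeasurable C
    (Eventually.of_forall fun z => by rw [Real.norm_eq_abs]; exact hC _)

lemma integrable_snd (hπ : Cpl μ ν π) {F : Conf → ℝ} (hF : Dep n F) :
    Integrable (fun z : Conf × Conf => F z.2) π := by
  have := hπ.prob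
  obtain ⟨C, hC⟩ := dep_bounded hF
  exact Integrable.of_bound ((dep_measurable hF).comp measurable_snd).aestronglyMeasurable C
    (Eventually.of_forall fun z => by rw [Real.norm_eq_abs]; exact hC _)

lemma dep_vac (x : ℤ) (hx : x ∈ Lam n) : Dep n (fun η => if η x = true then (0 : ℝ) else 1) := by
  intro η ζ hηζ
  simp only [hηζ x hx]

lemma int_vac (ν : Measure Conf) [IsProbabilityMeasure ν] (x : ℤ) (hx : x ∈ Lam n) :
    ∫ η, (if η x = true then (0 : ℝ) else 1) ∂ν = 1 - rho ν x := by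
  have : (fun η : Conf => if η x = true then (0 : ℝ) else 1) =
      fun η : Conf => 1 - if η x = true then (1 : ℝ) else 0 := by
    funext η
    split_ifs <;> norm_num
  rw [this, integral_sub (integrable_const _) (dep_integrable (Dep_ind x hx) ν), integral_ind]
  simp

/-- no drift to the left, many sites -/
lemma noleft [IsProbabilityMeasure ν] (hπ : Cpl μ ν π) {F : Conf → ℝ} (hF : Dep n F)
    (hM : Mono n F) (hS : Sup n F)
    (I : Finset ℤ) (hI : I ⊆ Lam n) (h1 : ∀ x ∈ I, ∀ η, dd F x η ≤ 1) :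
    ∑ x ∈ I, ∫ η, dd F x η ∂μ ≤ ∫ η, F η ∂ν - ∫ η, F η ∂μ + ∑ x ∈ I, (1 - rho ν x) := by
  have := hπ.prob
  have e1 : ∑ x ∈ I, ∫ η, dd F x η ∂μ = ∫ z, ∑ x ∈ I, dd F x z.1 ∂π := by
    rw [integral_finsetSum]
    · exact Finset.sum_congr rfl fun x hx => (int_fst hπ (dep_dd hF x (hI hx))).symm
    · exact fun x hx => integrable_fst hπ (dep_dd hF x (hI hx))
  have e2 : ∫ η, F η ∂ν - ∫ η, F η ∂μ + ∑ x ∈ I, (1 - rho ν x) =
      ∫ z, (F z.2 - F z.1 + ∑ x ∈ I, if z.2 x = true then (0 : ℝ) else 1) ∂π := by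
    rw [integral_add, integral_sub, int_fst hπ hF, int_snd hπ hF, integral_finsetSum]
    · congr 1
      refine Finset.sum_congr rfl fun x hx => ?_
      rw [int_snd hπ (dep_vac x (hI hx)), int_vac ν x (hI hx)]
    · exact fun x hx => integrable_snd hπ (dep_vac x (hI hx))
    · exact integrable_snd hπ hF
    · exact integrable_fst hπ hF
    · exact (integrable_snd hπ hF).sub (integrable_fst hπ hF)
    · exact integrable_finsetSum _ fun x hx => integrable_snd hπ (dep_vac x (hI hx))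
  rw [e1, e2]
  apply integral_mono_ae
  · exact integrable_finsetSum _ fun x hx => integrable_fst hπ (dep_dd hF x (hI hx))
  · exact ((integrable_snd hπ hF).sub (integrable_fst hπ hF)).add
      (integrable_finsetSum _ fun x hx => integrable_snd hπ (dep_vac x (hI hx)))
  filter_upwards [hπ.ord] with z hz
  set T : Finset ℤ := I.filter fun x => z.1 x = false ∧ z.2 x = true with hT
  have hTL : T ⊆ Lam n := (Finset.filter_subset _ _).trans hI
  have h3 : ∑ x ∈ T, (F (put x z.1) - F z.1) ≤ F (putS T z.1) - F z.1 :=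
    hS.super T hTL z.1 fun x hx => ((Finset.mem_filter.1 hx).2).1
  have h4 : F (putS T z.1) ≤ F z.2 := by
    have : (putS T z.1, z.2) ∈ Ord := by
      intro x hx
      simp only [putS] at hx
      by_cases hxT : x ∈ T
      · exact (Finset.mem_filter.1 hxT).2.2
      · rw [if_neg hxT] at hx
        exact hz x hx
    exact hM.ord hF (putS T z.1, z.2) this
  have h5 : ∑ x ∈ I, dd F x z.1 ≤ ∑ x ∈ T, (F (put x z.1) - F z.1) +
      ∑ x ∈ I, if z.2 x = true then (0 : ℝ) else 1 := by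
    rw [hT, Finset.sum_filter, ← Finset.sum_add_distrib]
    refine Finset.sum_le_sum fun x hx => ?_
    have h6 := h1 x hx z.1
    have h7 := hz x
    unfold dd at h6 ⊢
    cases hc1 : z.1 x <;> cases hc2 : z.2 x <;> simp_all
  linarith

/-- trap inequality, one site -/
lemma trap [IsProbabilityMeasure ν] (hπ : Cpl μ ν π) {F : Conf → ℝ} (hF : Dep n F)
    (hM : Mono n F) (x : ℤ) (hx : x ∈ Lam n) (h1 : ∀ η, dd F x η ≤ 1) :
    ∫ η, dd F x η ∂μ ≤ ∫ η, F η ∂ν - ∫ η, F η ∂μ + (1 - rho ν x) := by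
  have := hπ.prob
  have e2 : ∫ η, F η ∂ν - ∫ η, F η ∂μ + (1 - rho ν x) =
      ∫ z, (F z.2 - F z.1 + if z.2 x = true then (0 : ℝ) else 1) ∂π := by
    rw [integral_add, integral_sub, int_fst hπ hF, int_snd hπ hF]
    · congr 1
      rw [int_snd hπ (dep_vac x hx), int_vac ν x hx]
    · exact integrable_snd hπ hF
    · exact integrable_fst hπ hF
    · exact (integrable_snd hπ hF).sub (integrable_fst hπ hF)
    · exact integrable_snd hπ (dep_vac x hx)
  rw [← int_fst hπ (dep_dd hF x hx), e2]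
  apply integral_mono_ae
  · exact integrable_fst hπ (dep_dd hF x hx)
  · exact ((integrable_snd hπ hF).sub (integrable_fst hπ hF)).add
      (integrable_snd hπ (dep_vac x hx))
  filter_upwards [hπ.ord] with z hz
  have h6 := h1 z.1
  have h7 := hM.ord hF z hz
  by_cases hc2 : z.2 x = true
  · have h8 := hM.ord_put hF z hz x hc2
    unfold dd
    simp only [hc2, if_true, add_zero]
    split_ifs <;> linarith
  · simp only [hc2]
    simp only [Bool.false_eq_true, if_false]
    linarith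

/-! ### approximate stationarity -/

/-- total boundary rate -/
noncomputable def rr (p : ℤ → ℝ) (n : ℕ) (μ : Measure Conf) : ℝ := ∑ x ∈ Lam n, bd p n μ x

lemma abs_diff_le {F : Conf → ℝ} {a b : ℝ} (h0 : ∀ η, a ≤ F η) (h1 : ∀ η, F η ≤ b) (η ζ : Conf) :
    |F η - F ζ| ≤ b - a := by
  rw [abs_le]
  constructor <;> linarith [h0 η, h1 η, h0 ζ, h1 ζ]

lemma apx (hA : S_APX) (hp : Ker p) [IsProbabilityMeasure μ] (hμ : Stat p μ) {F : Conf → ℝ}
    (hF : Dep n F) {d : ℝ} (hd : ∀ η, ∀ x ∈ Lam n, η x = false → |F (put x η) - F η| ≤ d) :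
    |∫ η, LL mv p n F η ∂μ| ≤ d * rr p n μ := by
  have := hA p hp μ inferInstance hμ n F (fun _ => d) hF hd
  unfold rr
  rw [Finset.mul_sum]
  exact this

lemma int_KK (hp : Ker p) [IsProbabilityMeasure μ] {F : Conf → ℝ} (hF : Dep n F) :
    ∫ η, KK mv p n h F η ∂μ = ∫ η, F η ∂μ + h * ∫ η, LL mv p n F η ∂μ := by
  unfold KK
  rw [integral_add (dep_integrable hF μ) ((dep_integrable (dep_LL hF) μ).const_mul _),
    integral_const_mul]

lemma apx_iter (hA : S_APX) (hp : Ker p) [IsProbabilityMeasure μ] (hμ : Stat p μ)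
    (hh : 0 ≤ h) {F : Conf → ℝ} (hF : Dep n F) {d : ℝ}
    (hd : ∀ k : ℕ, ∀ η, ∀ x ∈ Lam n, η x = false →
      |(KK mv p n h)^[k] F (put x η) - (KK mv p n h)^[k] F η| ≤ d) (k : ℕ) :
    |∫ η, (KK mv p n h)^[k] F η ∂μ - ∫ η, F η ∂μ| ≤ k * h * (d * rr p n μ) := by
  induction k with
  | zero => simp
  | succ k ih =>
    rw [Function.iterate_succ_apply', int_KK hp (dep_iter hF k)]
    have h1 := apx hA hp hμ (dep_iter hF k) (hd k)
    have h2 : |h * ∫ η, LL mv p n ((KK mv p n h)^[k] F) η ∂μ| ≤ h * (d * rr p n μ) := by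
      rw [abs_mul, abs_of_nonneg hh]
      exact mul_le_mul_of_nonneg_left h1 hh
    rw [abs_le] at *
    push_cast
    constructor <;> linarith [h2.1, h2.2, ih.1, ih.2]

lemma rr_nonneg (hA : S_APX) (hp : Ker p) [IsProbabilityMeasure μ] (hμ : Stat p μ) :
    0 ≤ rr p n μ := by
  have := apx (n := n) (μ := μ) (d := 1) hA hp hμ (F := fun _ => 0) (fun _ _ _ => rfl)
    (fun _ _ _ _ => by simp)
  have h2 := abs_nonneg (∫ η, LL mv p n (fun _ => 0) η ∂μ)
  linarith

lemma abs_PP (hp : Ker p) (hs : Small p n h) (A : Finset ℤ) (hA : A ⊆ Lam n) (k : ℕ) (η : Conf)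
    (x : ℤ) (hx : x ∈ Lam n) (hη : η x = false) :
    |(KK mv p n h)^[k] (cnt A) (put x η) - (KK mv p n h)^[k] (cnt A) η| ≤ 1 := by
  have h1 := PP_nonneg hp.nonneg hs k A η x hx hη
  have h2 := PP_le_one hp.nonneg hs k A hA η x hx hη
  unfold PP at h1 h2
  rw [abs_of_nonneg h1]
  exact h2

/-- number of particles in `A` at time `k` is almost stationary -/
lemma apx_cnt (hApx : S_APX) (hp : Ker p) (hs : Small p n h) [IsProbabilityMeasure μ]
    (hμ : Stat p μ) (A : Finset ℤ) (hA : A ⊆ Lam n) (k : ℕ) :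
    |∫ η, (KK mv p n h)^[k] (cnt A) η ∂μ - ∑ x ∈ A, rho μ x| ≤ k * h * rr p n μ := by
  have h1 := apx_iter hApx hp hμ hs.1 (Dep_cnt A hA) (d := 1)
    (fun k η x hx hη => abs_PP hp hs A hA k η x hx hη) k
  rw [integral_cnt μ A hA, one_mul] at h1
  exact h1

end Fin3
end Pool.Agent.N959.EX
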