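import Pool.Agent.N959.EX.Fin3

/-! # Escape to the left and to the right -/

set_option autoImplicit false

open MeasureTheory Filter Topology

namespace Pool.Agent.N959.EX
namespace Fin4

open Fin1 Pool.Agent.N959.EX.Fin2 Pool.Agent.N959.EX.Fin3

/-! ### telescoping -/

lemma tel (f : ℤ → ℝ) (a : ℤ) (N : ℕ) :
    ∑ z ∈ Finset.Ioc a (a + N), (f (z + 1) - f z) = f (a + N + 1) - f (a + 1) := by
  induction N with
  | zero => simp
  | succ N ih =>
    have e : Finset.Ioc a (a + ((N + 1 : ℕ) : ℤ)) = insert (a + N + 1) (Finset.Ioc a (a + N)) := by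
      ext z
      simp only [Finset.mem_insert, Finset.mem_Ioc]
      push_cast
      omega
    rw [e, Finset.sum_insert, ih]
    · push_cast
      ring_nf
    · simp only [Finset.mem_Ioc]; omega

lemma tel' (f : ℤ → ℝ) (a b : ℤ) (hab : a ≤ b) :
    ∑ z ∈ Finset.Ioc a b, (f (z + 1) - f z) = f (b + 1) - f (a + 1) := by
  obtain ⟨N, rfl⟩ : ∃ N : ℕ, b = a + N := ⟨(b - a).toNat, by omega⟩
  exact tel f a N

lemma tel_shift (f : ℤ → ℝ) (a b : ℤ) (hab : a ≤ b) (m : ℕ) :
    ∑ z ∈ Finset.Ioc a b, (f (z + m) - f z) =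
      ∑ i ∈ Finset.range m, (f (b + 1 + i) - f (a + 1 + i)) := by
  induction m with
  | zero => simp
  | succ m ih =>
    rw [Finset.sum_range_succ, ← ih]
    have h1 := tel' (fun z => f (z + m)) a b hab
    rw [← h1, ← Finset.sum_add_distrib]
    refine Finset.sum_congr rfl fun z _ => ?_
    push_cast
    have e2 : z + ((m : ℤ) + 1) = z + 1 + m := by ring
    rw [e2]
    ring

variable {f : ℤ → ℝ}

lemma tel_right (hm : Monotone f) (h1 : ∀ x, f x ≤ 1) (a b : ℤ) (hab : a ≤ b) (m : ℕ) :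
    ∑ z ∈ Finset.Ioc a b, (f (z + m) - f z) ≤ m * (1 - f a) := by
  rw [tel_shift f a b hab m]
  calc ∑ i ∈ Finset.range m, (f (b + 1 + i) - f (a + 1 + i)) ≤
        ∑ i ∈ Finset.range m, (1 - f a) := by
        refine Finset.sum_le_sum fun i _ => ?_
        have h2 : f a ≤ f (a + 1 + i) := hm (by omega)
        linarith [h1 (b + 1 + i)]
    _ = m * (1 - f a) := by rw [Finset.sum_const, Finset.card_range, nsmul_eq_mul]

lemma tel_left (hm : Monotone f) (h0 : ∀ x, 0 ≤ f x) (a b : ℤ) (hab : a ≤ b) (m : ℕ) :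
    ∑ z ∈ Finset.Ico a b, (f (z + m) - f z) ≤ m * f (b + m) := by
  have e : Finset.Ico a b = Finset.Ioc (a - 1) (b - 1) := by
    ext z
    simp only [Finset.mem_Ico, Finset.mem_Ioc]
    omega
  rw [e, tel_shift f (a - 1) (b - 1) (by omega) m]
  calc ∑ i ∈ Finset.range m, (f (b - 1 + 1 + i) - f (a - 1 + 1 + i)) ≤
        ∑ i ∈ Finset.range m, f (b + m) := by
        refine Finset.sum_le_sum fun i hi => ?_
        have hi' := Finset.mem_range.1 hi
        have h2 : f (b - 1 + 1 + i) ≤ f (b + m) := hm (by omega)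
        linarith [h0 (a - 1 + 1 + i)]
    _ = m * f (b + m) := by simp

variable {p : ℤ → ℝ} {n : ℕ} {h : ℝ} {μ : Measure Conf}

lemma rho_tau (μ : Measure Conf) (m : ℕ) (x : ℤ) : rho (μ.map (tau m)) x = rho μ (x + m) := by
  have hm : Measurable (tau m) := measurable_pi_lambda _ fun a => measurable_pi_apply _
  have hs : MeasurableSet {η : Conf | η x = true} :=
    measurableSet_eq_fun (measurable_pi_apply x) measurable_const
  unfold rho
  rw [map_measureReal_apply hm hs]
  rfl

lemma rho_nonneg (μ : Measure Conf) (x : ℤ) : 0 ≤ rho μ x := measureReal_nonneg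

lemma rho_le_one (μ : Measure Conf) [IsProbabilityMeasure μ] (x : ℤ) : rho μ x ≤ 1 :=
  measureReal_le_one

/-- The standing assumptions of the final step. -/
structure Hyp (p : ℤ → ℝ) (μ : Measure Conf) : Prop where
  cone : S_CONE
  disp : S_DISP
  apx : S_APX
  rn : S_RN
  tau : S_TAU
  ker : Ker p
  uni : Uni p
  prob : IsProbabilityMeasure μ
  ordered : Ordered p μ

lemma tau_meas (m : ℤ) : Measurable (tau m) :=
  measurable_pi_lambda _ fun a => measurable_pi_apply _

lemma Hyp.cpl (H : Hyp p μ) (m : ℕ) : ∃ π, Cpl μ (μ.map (EX.tau m)) π := by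
  obtain ⟨π, h1, h2, h3, h4⟩ := H.ordered.ord m
  exact ⟨π, ⟨h1, h2, h3, h4⟩⟩

lemma Hyp.probtau (H : Hyp p μ) (m : ℕ) : IsProbabilityMeasure (μ.map (EX.tau m)) := by
  have := H.prob
  exact Measure.isProbabilityMeasure_map (tau_meas m).aemeasurable

lemma Hyp.mono (H : Hyp p μ) : Monotone (rho μ) := by
  have := H.prob
  have hprob := H.probtau 1
  apply monotone_int_of_le_succ
  intro x
  obtain ⟨π, hπ⟩ := H.cpl 1
  have h1 : x ∈ Lam x.natAbs := by simp only [Lam, Finset.mem_Icc]; omega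
  have e1 : rho μ x = ∫ z, (if z.1 x = true then (1 : ℝ) else 0) ∂π := by
    rw [int_fst hπ (Dep_ind x h1), integral_ind]
  have e2 : rho μ (x + 1) = ∫ z, (if z.2 x = true then (1 : ℝ) else 0) ∂π := by
    rw [int_snd hπ (Dep_ind x h1), integral_ind]
    have := rho_tau μ 1 x
    simp only [Nat.cast_one] at this ⊢
    rw [this]
  rw [e1, e2]
  apply integral_mono_ae (integrable_fst hπ (Dep_ind x h1)) (integrable_snd hπ (Dep_ind x h1))
  filter_upwards [hπ.ord] with z hz
  have := hz x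
  cases hc1 : z.1 x <;> cases hc2 : z.2 x <;> simp_all

/-- averaged influence -/
noncomputable def aa (p : ℤ → ℝ) (n : ℕ) (h : ℝ) (μ : Measure Conf) (k : ℕ) (A : Finset ℤ)
    (x : ℤ) : ℝ := ∫ η, dd ((KK mv p n h)^[k] (cnt A)) x η ∂μ

/-- total boundary rate of `μ` and of its translation -/
noncomputable def r2 (p : ℤ → ℝ) (n : ℕ) (μ : Measure Conf) (m : ℕ) : ℝ :=
  rr p n μ + rr p n (μ.map (tau m))

lemma dd_PP_le (hp : Ker p) (hs : Small p n h) (A : Finset ℤ) (hA : A ⊆ Lam n) (k : ℕ)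
    (x : ℤ) (hx : x ∈ Lam n) (η : Conf) : dd ((KK mv p n h)^[k] (cnt A)) x η ≤ 1 := by
  unfold dd
  split_ifs with h1
  · exact (le_abs_self _).trans (abs_PP hp hs A hA k η x hx h1)
  · exact zero_le_one

lemma int_diff (H : Hyp p μ) (hs : Small p n h) (A : Finset ℤ) (hA : A ⊆ Lam n) (k m : ℕ) :
    ∫ η, (KK mv p n h)^[k] (cnt A) η ∂(μ.map (tau m)) - ∫ η, (KK mv p n h)^[k] (cnt A) η ∂μ ≤
      ∑ x ∈ A, (rho μ (x + m) - rho μ x) + k * h * r2 p n μ m := by
  have := H.prob
  have hprob := H.probtau m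
  have h1 := apx_cnt (μ := μ) H.apx H.ker hs H.ordered.stat A hA k
  have h2 := apx_cnt (μ := μ.map (tau m)) H.apx H.ker hs
    (H.tau p H.ker μ m inferInstance H.ordered.stat) A hA k
  have h3 : ∑ x ∈ A, rho (μ.map (tau m)) x = ∑ x ∈ A, rho μ (x + m) :=
    Finset.sum_congr rfl fun x _ => rho_tau μ m x
  rw [h3] at h2
  rw [abs_le] at h1 h2
  rw [Finset.sum_sub_distrib]
  unfold r2
  rw [mul_add]
  linarith [h1.1, h1.2, h2.1, h2.2]

/-- escape to the right from `w0` -/
lemma esc_right0 (H : Hyp p μ) (hs : Small p n h) (k m : ℕ) (R w0 : ℤ) (hR : -(n : ℤ) ≤ R)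
    (hRn : R ≤ n) (hw : w0 ∈ Lam n) :
    aa p n h μ k (Finset.Ioc R n) w0 ≤ m * (1 - rho μ R) + (1 - rho μ (w0 + m)) +
      k * h * r2 p n μ m := by
  have := H.prob
  have hprob := H.probtau m
  obtain ⟨π, hπ⟩ := H.cpl m
  have hA : Finset.Ioc R (n : ℤ) ⊆ Lam n := by
    intro x hx
    simp only [Lam, Finset.mem_Icc, Finset.mem_Ioc] at hx ⊢
    omega
  have h1 := trap hπ (dep_iter (p := p) (h := h) (Dep_cnt _ hA) k)
    ((cnt_mono n _).iter H.ker.nonneg hs k) w0 hw (dd_PP_le H.ker hs _ hA k w0 hw)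
  have h2 := int_diff H hs _ hA k m
  have h3 := tel_right H.mono (rho_le_one μ) R n hRn m
  rw [rho_tau] at h1
  unfold aa
  linarith

/-- escape to the right from `x < w0` -/
lemma esc_right (H : Hyp p μ) (hs : Small p n h) (k m : ℕ) (R w0 x : ℤ) (hR : -(n : ℤ) ≤ R)
    (hRn : R ≤ n) (hw : w0 ∈ Lam n) (hx : x ∈ Lam n) (hxw : x < w0) :
    aa p n h μ k (Finset.Ioc R n) x ≤ m * (1 - rho μ R) + (1 - rho μ (w0 + m)) +
      k * h * r2 p n μ m + rho μ w0 := by
  have := H.prob
  have h1 := esc_right0 H hs k m R w0 hR hRn hw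
  have hA : Finset.Ioc R (n : ℤ) ⊆ Lam n := by
    intro x hx
    simp only [Lam, Finset.mem_Icc, Finset.mem_Ioc] at hx ⊢
    omega
  have hC0 : Cone n (cnt (Finset.Ioc R (n : ℤ))) := by
    constructor
    · exact cnt_mono n _
    · intro η u _ v hv hu0 hv0 huv
      have h3 := cnt_put (Finset.Ioc R (n : ℤ)) η u hu0
      have h4 := cnt_put (Finset.Ioc R (n : ℤ)) η v hv0
      have h5 : (if u ∈ Finset.Ioc R (n : ℤ) then (1 : ℝ) else 0) ≤
          if v ∈ Finset.Ioc R (n : ℤ) then 1 else 0 := by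
        by_cases hu : u ∈ Finset.Ioc R (n : ℤ)
        · have : v ∈ Finset.Ioc R (n : ℤ) := by
            simp only [Lam, Finset.mem_Icc, Finset.mem_Ioc] at hu hv ⊢
            omega
          simp [hu, this]
        · rw [if_neg hu]
          split_ifs <;> norm_num
      linarith
    · intro η u _ v _ hu0 hv0 huv
      have h3 := cnt_put (Finset.Ioc R (n : ℤ)) η u hu0
      have h4 := cnt_put (Finset.Ioc R (n : ℤ)) (put v η) u (by rw [put_ne huv]; exact hu0)
      linarith
  have hC : Cone n ((KK mv p n h)^[k] (cnt (Finset.Ioc R (n : ℤ)))) := by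
    clear h1
    induction k with
    | zero => exact hC0
    | succ k ih =>
      rw [Function.iterate_succ_apply']
      exact H.cone p H.uni n h hs _ ih
  set F := (KK mv p n h)^[k] (cnt (Finset.Ioc R (n : ℤ))) with hF
  have hD : Dep n F := dep_iter (Dep_cnt _ hA) k
  have h2 : aa p n h μ k (Finset.Ioc R n) x ≤ aa p n h μ k (Finset.Ioc R n) w0 + rho μ w0 := by
    unfold aa
    rw [← integral_ind μ w0, ← integral_add (dep_integrable (dep_dd hD w0 hw) μ)
      (dep_integrable (Dep_ind w0 hw) μ)]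
    apply integral_mono (dep_integrable (dep_dd hD x hx) μ)
      ((dep_integrable (dep_dd hD w0 hw) μ).add (dep_integrable (Dep_ind w0 hw) μ))
    intro η
    simp only [Pi.add_apply]
    have h6 := dd_nonneg hC.mono w0 hw η
    by_cases h3 : η w0 = true
    · simp only [h3, if_true]
      have := dd_PP_le H.ker hs _ hA k x hx η
      rw [← hF] at this
      linarith
    · have h3' : η w0 = false := by simpa using h3
      by_cases h4 : η x = false
      · have h5 := hC.right η x hx w0 hw h4 h3' hxw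
        unfold dd
        rw [if_pos h4, if_pos h3', if_neg h3]
        linarith
      · have : dd F x η = 0 := by unfold dd; rw [if_neg h4]
        rw [this, if_neg h3]
        linarith
  linarith

lemma cnt_split (A B : Finset ℤ) (hAB : Disjoint A B) (η : Conf) :
    cnt (A ∪ B) η = cnt A η + cnt B η := by
  unfold cnt
  exact Finset.sum_union hAB

/-- escape to the left -/
lemma esc_left (H : Hyp p μ) (hs : Small p n h) (k m : ℕ) (w : ℤ) (hw : -(n : ℤ) ≤ w)
    (hwn : w ≤ n) (I : Finset ℤ) (hI : I ⊆ Lam n) :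
    ∑ x ∈ I, aa p n h μ k (Finset.Ico (-(n : ℤ)) w) x ≤ m * rho μ (w + m) +
      ∑ x ∈ I, (1 - rho μ (x + m)) + k * h * r2 p n μ m := by
  have := H.prob
  have hprob := H.probtau m
  obtain ⟨π, hπ⟩ := H.cpl m
  have hA : Finset.Ico (-(n : ℤ)) w ⊆ Lam n := by
    intro x hx
    simp only [Lam, Finset.mem_Icc, Finset.mem_Ico] at hx ⊢
    omega
  have hB : Finset.Icc w (n : ℤ) ⊆ Lam n := by
    intro x hx
    simp only [Lam, Finset.mem_Icc] at hx ⊢
    omega
  have hBA : Lam n \ Finset.Ico (-(n : ℤ)) w = Finset.Icc w (n : ℤ) := by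
    ext x
    simp only [Lam, Finset.mem_sdiff, Finset.mem_Icc, Finset.mem_Ico]
    omega
  have hC0 : Cone n (cnt (Finset.Icc w (n : ℤ))) := by
    constructor
    · exact cnt_mono n _
    · intro η u _ v hv hu0 hv0 huv
      have h3 := cnt_put (Finset.Icc w (n : ℤ)) η u hu0
      have h4 := cnt_put (Finset.Icc w (n : ℤ)) η v hv0
      have h5 : (if u ∈ Finset.Icc w (n : ℤ) then (1 : ℝ) else 0) ≤
          if v ∈ Finset.Icc w (n : ℤ) then 1 else 0 := by
        by_cases hu : u ∈ Finset.Icc w (n : ℤ)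
        · have : v ∈ Finset.Icc w (n : ℤ) := by
            simp only [Lam, Finset.mem_Icc] at hu hv ⊢
            omega
          simp [hu, this]
        · rw [if_neg hu]
          split_ifs <;> norm_num
      linarith
    · intro η u _ v _ hu0 hv0 huv
      have h3 := cnt_put (Finset.Icc w (n : ℤ)) η u hu0
      have h4 := cnt_put (Finset.Icc w (n : ℤ)) (put v η) u (by rw [put_ne huv]; exact hu0)
      linarith
  have hC : Cone n ((KK mv p n h)^[k] (cnt (Finset.Icc w (n : ℤ)))) := by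
    induction k with
    | zero => exact hC0
    | succ k ih =>
      rw [Function.iterate_succ_apply']
      exact H.cone p H.uni n h hs _ ih
  have hS : Sup n ((KK mv p n h)^[k] (cnt (Finset.Ico (-(n : ℤ)) w))) := by
    have e : ∀ η, (KK mv p n h)^[k] (cnt (Finset.Ico (-(n : ℤ)) w)) η =
        cnt (Lam n) η - (KK mv p n h)^[k] (cnt (Finset.Icc w (n : ℤ))) η := by
      intro η
      have := iter_compl (p := p) (h := h) (Finset.Ico (-(n : ℤ)) w) hA k η
      rw [hBA] at this
      linarith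
    intro η u hu v hv hu0 hv0 huv
    rw [e, e, e, e]
    have h3 := hC.sub η u hu v hv hu0 hv0 huv
    have h4 := cnt_put (Lam n) η u hu0
    have h5 := cnt_put (Lam n) (put v η) u (by rw [put_ne huv]; exact hu0)
    linarith
  have h1 := noleft hπ (dep_iter (p := p) (h := h) (Dep_cnt _ hA) k)
    ((cnt_mono n _).iter H.ker.nonneg hs k) hS I hI
    (fun x hx => dd_PP_le H.ker hs _ hA k x (hI hx))
  have h2 := int_diff H hs _ hA k m
  have h3 := tel_left H.mono (rho_nonneg μ) (-(n : ℤ)) w hw m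
  have h4 : ∑ x ∈ I, (1 - rho (μ.map (tau m)) x) = ∑ x ∈ I, (1 - rho μ (x + m)) :=
    Finset.sum_congr rfl fun x _ => by rw [rho_tau]
  rw [h4] at h1
  unfold aa
  linarith

/-- the three parts -/
lemma aa_split (H : Hyp p μ) (k : ℕ) (w R x : ℤ) (hw : -(n : ℤ) ≤ w) (hwR : w ≤ R + 1)
    (hR : R ≤ n) (hx : x ∈ Lam n) :
    aa p n h μ k (Finset.Ico (-(n : ℤ)) w) x + aa p n h μ k (Finset.Icc w R) x +
      aa p n h μ k (Finset.Ioc R n) x = 1 - rho μ x := by
  have := H.prob
  have hA : Finset.Ico (-(n : ℤ)) w ⊆ Lam n := by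
    intro x hx
    simp only [Lam, Finset.mem_Icc, Finset.mem_Ico] at hx ⊢
    omega
  have hB : Finset.Icc w R ⊆ Lam n := by
    intro x hx
    simp only [Lam, Finset.mem_Icc] at hx ⊢
    omega
  have hC : Finset.Ioc R (n : ℤ) ⊆ Lam n := by
    intro x hx
    simp only [Lam, Finset.mem_Icc, Finset.mem_Ioc] at hx ⊢
    omega
  have e0 : ∀ η, cnt (Lam n) η = cnt (Finset.Ico (-(n : ℤ)) w) η + cnt (Finset.Icc w R) η +
      cnt (Finset.Ioc R (n : ℤ)) η := by
    intro η
    rw [← cnt_split, ← cnt_split]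
    · congr 1
      ext z
      simp only [Lam, Finset.mem_union, Finset.mem_Icc, Finset.mem_Ico, Finset.mem_Ioc]
      omega
    · rw [Finset.disjoint_left]
      intro z
      simp only [Finset.mem_union, Finset.mem_Icc, Finset.mem_Ico, Finset.mem_Ioc]
      omega
    · rw [Finset.disjoint_left]
      intro z
      simp only [Finset.mem_Icc, Finset.mem_Ico]
      omega
  have e1 : ∀ η, cnt (Lam n) η = (KK mv p n h)^[k] (cnt (Finset.Ico (-(n : ℤ)) w)) η +
      (KK mv p n h)^[k] (cnt (Finset.Icc w R)) η +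
      (KK mv p n h)^[k] (cnt (Finset.Ioc R (n : ℤ))) η := by
    intro η
    have h1 := KK_iter_add (act := mv) (p := p) (n := n) (h := h) k
      (cnt (Finset.Ico (-(n : ℤ)) w)) (cnt (Finset.Icc w R))
    have h2 := KK_iter_add (act := mv) (p := p) (n := n) (h := h) k
      (fun η => cnt (Finset.Ico (-(n : ℤ)) w) η + cnt (Finset.Icc w R) η)
      (cnt (Finset.Ioc R (n : ℤ)))
    rw [h1] at h2
    rw [← congrFun h2 η, ← funext e0, iter_cnt_Lam]
  have i1 := dep_integrable (dep_dd (dep_iter (p := p) (h := h) (Dep_cnt _ hA) k) x hx) μ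
  have i2 := dep_integrable (dep_dd (dep_iter (p := p) (h := h) (Dep_cnt _ hB) k) x hx) μ
  have i3 := dep_integrable (dep_dd (dep_iter (p := p) (h := h) (Dep_cnt _ hC) k) x hx) μ
  have i12 : Integrable (fun η => dd ((KK mv p n h)^[k] (cnt (Finset.Ico (-(n : ℤ)) w))) x η +
      dd ((KK mv p n h)^[k] (cnt (Finset.Icc w R))) x η) μ := i1.add i2
  unfold aa
  rw [← integral_add i1 i2, ← integral_add i12 i3, ← int_vac μ x hx]
  congr 1
  funext η
  simp only [dd]
  by_cases h1 : η x = true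
  · simp [h1]
  · have h1' : η x = false := by simpa using h1
    rw [if_pos h1', if_pos h1', if_pos h1', if_neg h1]
    have h2 := e1 η
    have h3 := e1 (put x η)
    have h4 := cnt_put (Lam n) η x h1'
    rw [if_pos hx] at h4
    linarith

lemma aa_nonneg (hp : Ker p) (hs : Small p n h) (k : ℕ) (A : Finset ℤ) (x : ℤ) (hx : x ∈ Lam n) :
    0 ≤ aa p n h μ k A x :=
  integral_nonneg fun η => dd_nonneg ((cnt_mono n _).iter hp.nonneg hs k) x hx η

end Fin4
end Pool.Agent.N959.EX
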