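import Pool.Agent.N959.EX.Fin4

/-! # The discrete Duhamel inequality -/

set_option autoImplicit false

open MeasureTheory Filter Topology

namespace Pool.Agent.N959.EX
namespace Fin5

open Fin1 Pool.Agent.N959.EX.Fin2 Pool.Agent.N959.EX.Fin3 Pool.Agent.N959.EX.Fin4

variable {p : ℤ → ℝ} {n : ℕ} {h : ℝ} {μ : Measure Conf}

/-- `W η` is a lower bound for the influence on `M` -/
def Low (n : ℕ) (M W : Conf → ℝ) : Prop :=
  ∀ η : Conf, ∀ d ∈ Lam n, η d = false → W η ≤ M (put d η) - M η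

lemma KK_diff (M W : Conf → ℝ) (η : Conf) (d : ℤ) (hη : η d = false) :
    KK mv p n h M (put d η) - KK mv p n h M η - KK mv p n h W η =
      (1 - h * Rt p n) * (M (put d η) - M η - W η) +
      h * ∑ x ∈ Lam n, ∑ y ∈ Lam n, p (y - x) *
        (M (put (dn x y η d) (mv x y η)) - M (mv x y η) - W (mv x y η)) := by
  rw [KK_eq, KK_eq, KK_eq]
  have e : ∑ x ∈ Lam n, ∑ y ∈ Lam n, p (y - x) *
      (M (put (dn x y η d) (mv x y η)) - M (mv x y η) - W (mv x y η)) =
      ∑ x ∈ Lam n, ∑ y ∈ Lam n, p (y - x) * M (mv x y (put d η)) -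
      ∑ x ∈ Lam n, ∑ y ∈ Lam n, p (y - x) * M (mv x y η) -
      ∑ x ∈ Lam n, ∑ y ∈ Lam n, p (y - x) * W (mv x y η) := by
    rw [← Finset.sum_sub_distrib, ← Finset.sum_sub_distrib]
    refine Finset.sum_congr rfl fun x _ => ?_
    rw [← Finset.sum_sub_distrib, ← Finset.sum_sub_distrib]
    refine Finset.sum_congr rfl fun y _ => ?_
    rw [mv_put x y η d hη]
    ring
  rw [e]
  ring

lemma Low.KK0 (hp : ∀ z, 0 ≤ p z) (hs : Small p n h) {M W : Conf → ℝ} (hL : Low n M W)
    (η : Conf) (d : ℤ) (hd : d ∈ Lam n) (hη : η d = false) :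
    KK mv p n h W η ≤ KK mv p n h M (put d η) - KK mv p n h M η := by
  have h1 := KK_diff (p := p) (n := n) (h := h) M W η d hη
  have h2 := diag_ge hs
  have h3 : 0 ≤ (1 - h * Rt p n) * (M (put d η) - M η - W η) :=
    mul_nonneg (by linarith) (by linarith [hL η d hd hη])
  have h4 : 0 ≤ h * ∑ x ∈ Lam n, ∑ y ∈ Lam n, p (y - x) *
        (M (put (dn x y η d) (mv x y η)) - M (mv x y η) - W (mv x y η)) := by
    refine mul_nonneg hs.1 (Finset.sum_nonneg fun x hx => Finset.sum_nonneg fun y hy =>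
      mul_nonneg (hp _) ?_)
    have := hL (mv x y η) (dn x y η d) (dn_mem x y η d _ hx hy hd) (dn_valid x y η d hη)
    linarith
  linarith

lemma Low.KK1 (hp : ∀ z, 0 ≤ p z) (hs : Small p n h) {M W : Conf → ℝ} (hL : Low n M W)
    (κ : ℝ) (hκ : h * κ ≤ 3 / 4) (w0 : ℤ) (hw0 : w0 ∈ Lam n)
    (η : Conf) (d : ℤ) (hd : d ∈ Lam n) (hη : η d = false) (hw : η w0 = false)
    (hr : d ≠ w0 → κ ≤ p (w0 - d)) :
    KK mv p n h W η + h * κ * (M (put w0 η) - M η - W η) ≤
      KK mv p n h M (put d η) - KK mv p n h M η := by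
  have h1 := KK_diff (p := p) (n := n) (h := h) M W η d hη
  have h2 := diag_ge hs
  have h3 : 0 ≤ (1 - h * Rt p n) * (M (put d η) - M η - W η) :=
    mul_nonneg (by linarith) (by linarith [hL η d hd hη])
  have h5 : 0 ≤ M (put w0 η) - M η - W η := by linarith [hL η w0 hw0 hw]
  have h6 : ∀ x ∈ Lam n, ∀ y ∈ Lam n, 0 ≤ p (y - x) *
        (M (put (dn x y η d) (mv x y η)) - M (mv x y η) - W (mv x y η)) := by
    intro x hx y hy
    refine mul_nonneg (hp _) ?_
    have := hL (mv x y η) (dn x y η d) (dn_mem x y η d _ hx hy hd) (dn_valid x y η d hη)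
    linarith
  by_cases hdw : d = w0
  · subst hdw
    have h4 : 0 ≤ h * ∑ x ∈ Lam n, ∑ y ∈ Lam n, p (y - x) *
        (M (put (dn x y η d) (mv x y η)) - M (mv x y η) - W (mv x y η)) :=
      mul_nonneg hs.1 (Finset.sum_nonneg fun x hx => Finset.sum_nonneg fun y hy => h6 x hx y hy)
    have h7 : h * κ * (M (put d η) - M η - W η) ≤
        (1 - h * Rt p n) * (M (put d η) - M η - W η) :=
      mul_le_mul_of_nonneg_right (by linarith) h5
    linarith
  · have h8 : p (w0 - d) * (M (put w0 η) - M η - W η) ≤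
        ∑ x ∈ Lam n, ∑ y ∈ Lam n, p (y - x) *
        (M (put (dn x y η d) (mv x y η)) - M (mv x y η) - W (mv x y η)) := by
      have e1 : mv d w0 η = η := mv_not _ _ _ (by simp [hη])
      have e2 : dn d w0 η d = w0 := by simp [dn, hw]
      have h9 : p (w0 - d) * (M (put w0 η) - M η - W η) ≤ ∑ y ∈ Lam n, p (y - d) *
          (M (put (dn d y η d) (mv d y η)) - M (mv d y η) - W (mv d y η)) := by
        have := Finset.single_le_sum (f := fun y => p (y - d) *
          (M (put (dn d y η d) (mv d y η)) - M (mv d y η) - W (mv d y η)))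
          (fun y hy => h6 d hd y hy) hw0
        simp only [e1, e2] at this
        exact this
      refine h9.trans ?_
      exact Finset.single_le_sum (f := fun x => ∑ y ∈ Lam n, p (y - x) *
        (M (put (dn x y η d) (mv x y η)) - M (mv x y η) - W (mv x y η)))
        (fun x hx => Finset.sum_nonneg fun y hy => h6 x hx y hy) hd
    have h10 : κ * (M (put w0 η) - M η - W η) ≤ p (w0 - d) * (M (put w0 η) - M η - W η) :=
      mul_le_mul_of_nonneg_right (hr hdw) h5
    have h11 := mul_le_mul_of_nonneg_left (h10.trans h8) hs.1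
    have h12 : h * κ * (M (put w0 η) - M η - W η) = h * (κ * (M (put w0 η) - M η - W η)) := by
      ring
    linarith

/-- lower bound function -/
noncomputable def WW (p : ℤ → ℝ) (n : ℕ) (h κ : ℝ) (w0 : ℤ) (F : Conf → ℝ) : ℕ → Conf → ℝ
  | 0 => fun _ => 0
  | N + 1 => fun η => h * κ * dd ((KK mv p n h)^[N] F) w0 η +
      (KK mv p n h (WW p n h κ w0 F N) η - h * κ * WW p n h κ w0 F N η)

/-- error function -/
noncomputable def HH (p : ℤ → ℝ) (n : ℕ) (h κ : ℝ) (E : Conf → ℝ) : ℕ → Conf → ℝ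
  | 0 => fun _ => 0
  | N + 1 => fun η => h * κ * E η + KK mv p n h (HH p n h κ E N) η

variable {κ : ℝ} {w0 : ℤ} {F E : Conf → ℝ}

lemma KK_ge_diag (hp : ∀ z, 0 ≤ p z) (hs : Small p n h) {W : Conf → ℝ} (hW : ∀ η, 0 ≤ W η)
    (hκ : h * κ ≤ 3 / 4) (η : Conf) : h * κ * W η ≤ KK mv p n h W η := by
  rw [KK_eq]
  have h2 := diag_ge hs
  have h3 : h * κ * W η ≤ (1 - h * Rt p n) * W η :=
    mul_le_mul_of_nonneg_right (by linarith) (hW η)
  have h4 : 0 ≤ h * ∑ x ∈ Lam n, ∑ y ∈ Lam n, p (y - x) * W (mv x y η) :=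
    mul_nonneg hs.1 (Finset.sum_nonneg fun x _ => Finset.sum_nonneg fun y _ =>
      mul_nonneg (hp _) (hW _))
  linarith

lemma WW_nonneg (hp : ∀ z, 0 ≤ p z) (hs : Small p n h) (hκ0 : 0 ≤ κ) (hκ : h * κ ≤ 3 / 4)
    (hG : ∀ k η, 0 ≤ dd ((KK mv p n h)^[k] F) w0 η) (N : ℕ) (η : Conf) :
    0 ≤ WW p n h κ w0 F N η := by
  induction N generalizing η with
  | zero => exact le_refl _
  | succ N ih =>
    have h1 := KK_ge_diag (κ := κ) hp hs ih hκ η
    have h2 := mul_nonneg (mul_nonneg hs.1 hκ0) (hG N η)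
    unfold WW
    linarith

lemma WW_le (hp : ∀ z, 0 ≤ p z) (hs : Small p n h) (hκ0 : 0 ≤ κ) (hκ : h * κ ≤ 3 / 4)
    (hG : ∀ k η, dd ((KK mv p n h)^[k] F) w0 η ≤ 1) (N : ℕ) (η : Conf) :
    WW p n h κ w0 F N η ≤ 1 - (1 - h * κ) ^ N := by
  induction N generalizing η with
  | zero => simp [WW]
  | succ N ih =>
    have h1 := KK_ge_diag (κ := κ) hp hs (W := fun η => (1 - (1 - h * κ) ^ N) -
      WW p n h κ w0 F N η) (fun η => by linarith [ih η]) hκ η
    rw [KK_sub, KK_const] at h1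
    have h2 := mul_le_mul_of_nonneg_left (hG N η) (mul_nonneg hs.1 hκ0)
    unfold WW
    rw [pow_succ]
    linarith

/-- **Duhamel inequality** -/
lemma duhamel (hp : ∀ z, 0 ≤ p z) (hs : Small p n h) (hκ0 : 0 ≤ κ) (hκ : h * κ ≤ 3 / 4)
    (hw0 : w0 ∈ Lam n) (reg : Finset ℤ)
    (hr : ∀ d ∈ reg, d ≠ w0 → κ ≤ p (w0 - d))
    (hE : Mono n E) (hE1 : ∀ η : Conf, ∀ d ∈ Lam n, d ∉ reg → η d = false →
      1 ≤ E (put d η) - E η)
    (hG0 : ∀ k η, 0 ≤ dd ((KK mv p n h)^[k] F) w0 η)
    (hG : ∀ k η, dd ((KK mv p n h)^[k] F) w0 η ≤ 1) (hF : Mono n F) (N : ℕ) :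
    Low n (fun η => (KK mv p n h)^[N] F η + HH p n h κ E N η) (WW p n h κ w0 F N) ∧
      Mono n (HH p n h κ E N) := by
  induction N with
  | zero =>
    constructor
    · intro η d hd hη
      have := hF η d hd hη
      simp only [WW, HH, Function.iterate_zero, id]
      linarith
    · intro η d _ _
      exact le_refl _
  | succ N ih =>
    obtain ⟨ih1, ih2⟩ := ih
    have hhκ : 0 ≤ h * κ := mul_nonneg hs.1 hκ0
    constructor
    · intro η d hd hη
      have e1 : ∀ ξ, (KK mv p n h)^[N + 1] F ξ + HH p n h κ E (N + 1) ξ =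
          KK mv p n h (fun η => (KK mv p n h)^[N] F η + HH p n h κ E N η) ξ + h * κ * E ξ := by
        intro ξ
        rw [Function.iterate_succ_apply', KK_add]
        simp only [HH]
        ring
      simp only [e1]
      set M : Conf → ℝ := fun η => (KK mv p n h)^[N] F η + HH p n h κ E N η with hM
      set W : Conf → ℝ := WW p n h κ w0 F N with hWdef
      have hWn : 0 ≤ W η := WW_nonneg hp hs hκ0 hκ hG0 N η
      have hE0 := mul_le_mul_of_nonneg_left (hE η d hd hη) hhκ
      have hG1 := hG N η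
      have e2 : WW p n h κ w0 F (N + 1) η = h * κ * dd ((KK mv p n h)^[N] F) w0 η +
          (KK mv p n h W η - h * κ * W η) := rfl
      rw [e2]
      have hW2 : 0 ≤ h * κ * W η := mul_nonneg hhκ hWn
      by_cases hdr : d ∈ reg
      · by_cases hw : η w0 = false
        · have h1 := Low.KK1 hp hs ih1 κ hκ w0 hw0 η d hd hη hw (hr d hdr)
          have h2 : dd ((KK mv p n h)^[N] F) w0 η =
              (KK mv p n h)^[N] F (put w0 η) - (KK mv p n h)^[N] F η := by
            unfold dd; rw [if_pos hw]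
          rw [h2]
          have h3 : 0 ≤ h * κ * (HH p n h κ E N (put w0 η) - HH p n h κ E N η) :=
            mul_nonneg hhκ (by linarith [ih2 η w0 hw0 hw])
          simp only [hM] at h1 ⊢
          linarith
        · have h1 := Low.KK0 hp hs ih1 η d hd hη
          have h2 : dd ((KK mv p n h)^[N] F) w0 η = 0 := by
            unfold dd; rw [if_neg hw]
          rw [h2]
          linarith
      · have h1 := Low.KK0 hp hs ih1 η d hd hη
        have h2 := mul_le_mul_of_nonneg_left (hE1 η d hd hdr hη) hhκ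
        have h3 := mul_le_mul_of_nonneg_left hG1 hhκ
        linarith
    · intro η d hd hη
      have h1 := Mono.KK hp hs ih2 η d hd hη
      have h2 := mul_le_mul_of_nonneg_left (hE η d hd hη) hhκ
      simp only [HH]
      linarith

/-! ### integrated version -/

lemma dep_WW (hF : Dep n F) (hw0 : w0 ∈ Lam n) (N : ℕ) : Dep n (WW p n h κ w0 F N) := by
  induction N with
  | zero => intro η ζ _; rfl
  | succ N ih =>
    intro η ζ hηζ
    simp only [WW]
    rw [dep_dd (dep_iter hF N) w0 hw0 η ζ hηζ, dep_KK ih η ζ hηζ, ih η ζ hηζ]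

lemma dep_HH (hE : Dep n E) (N : ℕ) : Dep n (HH p n h κ E N) := by
  induction N with
  | zero => intro η ζ _; rfl
  | succ N ih =>
    intro η ζ hηζ
    simp only [HH]
    rw [hE η ζ hηζ, dep_KK ih η ζ hηζ]

lemma HH_eq (N : ℕ) (η : Conf) :
    HH p n h κ E N η = ∑ i ∈ Finset.range N, h * κ * (KK mv p n h)^[i] E η := by
  induction N generalizing η with
  | zero => simp [HH]
  | succ N ih =>
    have e : HH p n h κ E N = fun η => ∑ i ∈ Finset.range N, h * κ * (KK mv p n h)^[i] E η :=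
      funext ih
    have e2 : ∀ s : Finset ℕ, KK mv p n h (fun η => ∑ i ∈ s, h * κ * (KK mv p n h)^[i] E η) η =
        ∑ i ∈ s, h * κ * (KK mv p n h)^[i + 1] E η := by
      intro s
      induction s using Finset.induction_on with
      | empty => simp [KK_const]
      | insert a s ha ih2 =>
        simp only [Finset.sum_insert ha]
        rw [KK_add]
        beta_reduce
        rw [ih2, KK_smul, Function.iterate_succ_apply']
    simp only [HH]
    rw [e, e2, Finset.sum_range_succ']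
    simp only [Function.iterate_zero, id]
    ring

lemma int_WW (hApx : S_APX) (hp : Ker p) (hs : Small p n h) (hκ0 : 0 ≤ κ) (hκ : h * κ ≤ 3 / 4)
    [IsProbabilityMeasure μ] (hμ : Stat p μ) (hF : Dep n F) (hw0 : w0 ∈ Lam n)
    (hG0 : ∀ k η, 0 ≤ dd ((KK mv p n h)^[k] F) w0 η)
    (hG : ∀ k η, dd ((KK mv p n h)^[k] F) w0 η ≤ 1)
    (g : ℝ) (N : ℕ) (hg : ∀ k < N, g ≤ ∫ η, dd ((KK mv p n h)^[k] F) w0 η ∂μ) :
    g * (1 - (1 - h * κ) ^ N) - N * h * rr p n μ ≤ ∫ η, WW p n h κ w0 F N η ∂μ := by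
  induction N with
  | zero => simp [WW]
  | succ N ih =>
    have ih' := ih fun k hk => hg k (by omega)
    have hD := dep_WW (p := p) (h := h) (κ := κ) hF hw0 N
    have hDG := dep_dd (dep_iter (p := p) (h := h) hF N) w0 hw0
    have hbd : ∀ η ζ : Conf, |WW p n h κ w0 F N η - WW p n h κ w0 F N ζ| ≤ 1 := by
      intro η ζ
      have h1 := WW_le hp.nonneg hs hκ0 hκ hG N
      have h2 := WW_nonneg hp.nonneg hs hκ0 hκ hG0 N
      have h3 : 0 ≤ (1 - h * κ) ^ N := pow_nonneg (by linarith) N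
      rw [abs_le]
      constructor <;> linarith [h1 η, h1 ζ, h2 η, h2 ζ]
    have h1 := apx hApx hp hμ hD (d := 1) (fun η x _ _ => hbd _ _)
    rw [one_mul] at h1
    have i0 := dep_integrable hDG μ
    have i1 := dep_integrable (dep_KK (p := p) (h := h) hD) μ
    have i2 := dep_integrable hD μ
    have h2 : ∫ η, WW p n h κ w0 F (N + 1) η ∂μ =
        h * κ * ∫ η, dd ((KK mv p n h)^[N] F) w0 η ∂μ +
        (∫ η, KK mv p n h (WW p n h κ w0 F N) η ∂μ - h * κ * ∫ η, WW p n h κ w0 F N η ∂μ) := by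
      simp only [WW]
      have i3 : Integrable (fun η => h * κ * dd ((KK mv p n h)^[N] F) w0 η) μ := i0.const_mul _
      have i4 : Integrable (fun η => h * κ * WW p n h κ w0 F N η) μ := i2.const_mul _
      have i5 : Integrable (fun η => KK mv p n h (WW p n h κ w0 F N) η -
        h * κ * WW p n h κ w0 F N η) μ := i1.sub i4
      rw [integral_add i3 i5, integral_sub i1 i4, integral_const_mul, integral_const_mul]
    rw [h2, int_KK hp hD]
    have hhκ : 0 ≤ h * κ := mul_nonneg hs.1 hκ0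
    have h3 := mul_le_mul_of_nonneg_left (hg N (by omega)) hhκ
    have h4 := mul_le_mul_of_nonneg_left (abs_le.1 h1).1 hs.1
    have h5 : (1 - h * κ) * (g * (1 - (1 - h * κ) ^ N) - N * h * rr p n μ) ≤
        (1 - h * κ) * ∫ η, WW p n h κ w0 F N η ∂μ :=
      mul_le_mul_of_nonneg_left ih' (by linarith)
    have h6 := rr_nonneg (n := n) hApx hp hμ
    have h7 : 0 ≤ h * κ * (N * h * rr p n μ) :=
      mul_nonneg hhκ (mul_nonneg (mul_nonneg (Nat.cast_nonneg _) hs.1) h6)
    rw [pow_succ]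
    push_cast
    nlinarith [h3, h4, h5, h7]

/-- averaged lower bound at one site -/
lemma aa_lower (hApx : S_APX) (hp : Ker p) (hs : Small p n h) (hκ0 : 0 ≤ κ) (hκ : h * κ ≤ 3 / 4)
    [IsProbabilityMeasure μ] (hμ : Stat p μ) (A : Finset ℤ) (hA : A ⊆ Lam n)
    (hw0 : w0 ∈ Lam n) (w R : ℤ) (hw : -(n : ℤ) ≤ w) (hR : R ≤ n) (hwR : w ≤ R)
    (hr : ∀ d ∈ Finset.Icc w R, d ≠ w0 → κ ≤ p (w0 - d))
    (g : ℝ) (N : ℕ) (hg : ∀ k < N, g ≤ aa p n h μ k A w0) (x : ℤ) (hx : x ∈ Lam n) :
    g * (1 - (1 - h * κ) ^ N) - N * h * rr p n μ - rho μ x -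
      ∑ i ∈ Finset.range N, h * κ * (aa p n h μ i (Finset.Ico (-(n : ℤ)) w) x +
        aa p n h μ i (Finset.Ioc R n) x) ≤ aa p n h μ N A x := by
  have hL : Finset.Ico (-(n : ℤ)) w ⊆ Lam n := by
    intro x hx
    simp only [Lam, Finset.mem_Icc, Finset.mem_Ico] at hx ⊢
    omega
  have hRi : Finset.Ioc R (n : ℤ) ⊆ Lam n := by
    intro x hx
    simp only [Lam, Finset.mem_Icc, Finset.mem_Ioc] at hx ⊢
    omega
  set E : Conf → ℝ := fun η => cnt (Finset.Ico (-(n : ℤ)) w) η + cnt (Finset.Ioc R (n : ℤ)) η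
    with hE
  have hEM : Mono n E := by
    intro η u hu h0
    have h1 := cnt_mono n (Finset.Ico (-(n : ℤ)) w) η u hu h0
    have h2 := cnt_mono n (Finset.Ioc R (n : ℤ)) η u hu h0
    simp only [hE]
    linarith
  have hE1 : ∀ η : Conf, ∀ d ∈ Lam n, d ∉ Finset.Icc w R → η d = false →
      1 ≤ E (put d η) - E η := by
    intro η d hd hdr h0
    have h1 := cnt_put (Finset.Ico (-(n : ℤ)) w) η d h0
    have h2 := cnt_put (Finset.Ioc R (n : ℤ)) η d h0
    have h3 : (1 : ℝ) ≤ (if d ∈ Finset.Ico (-(n : ℤ)) w then 1 else 0) +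
        if d ∈ Finset.Ioc R (n : ℤ) then 1 else 0 := by
      have : d ∈ Finset.Ico (-(n : ℤ)) w ∨ d ∈ Finset.Ioc R (n : ℤ) := by
        simp only [Lam, Finset.mem_Icc, Finset.mem_Ico, Finset.mem_Ioc] at hd hdr ⊢
        omega
      rcases this with h4 | h4
      · rw [if_pos h4]
        split_ifs <;> norm_num
      · rw [if_pos h4]
        split_ifs <;> norm_num
    simp only [hE]
    linarith
  have hG0 : ∀ k η, 0 ≤ dd ((KK mv p n h)^[k] (cnt A)) w0 η :=
    fun k η => dd_nonneg ((cnt_mono n _).iter hp.nonneg hs k) w0 hw0 η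
  have hG : ∀ k η, dd ((KK mv p n h)^[k] (cnt A)) w0 η ≤ 1 :=
    fun k η => dd_PP_le hp hs A hA k w0 hw0 η
  obtain ⟨hlow, -⟩ := duhamel hp.nonneg hs hκ0 hκ hw0 (Finset.Icc w R) hr hEM hE1 hG0 hG
    (cnt_mono n A) N
  have h1 := int_WW hApx hp hs hκ0 hκ hμ (Dep_cnt A hA) hw0 hG0 hG g N hg
  have hDW := dep_WW (p := p) (h := h) (κ := κ) (Dep_cnt A hA) hw0 N
  have hDE : Dep n E := by
    intro η ζ hηζ
    simp only [hE]
    rw [Dep_cnt _ hL η ζ hηζ, Dep_cnt _ hRi η ζ hηζ]
  have hDH := dep_HH (p := p) (h := h) (κ := κ) hDE N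
  have hDF := dep_iter (p := p) (h := h) (Dep_cnt A hA) N
  -- pointwise inequality
  have hpt : ∀ η, WW p n h κ w0 (cnt A) N η ≤ dd ((KK mv p n h)^[N] (cnt A)) x η +
      dd (HH p n h κ E N) x η + if η x = true then (1 : ℝ) else 0 := by
    intro η
    by_cases h2 : η x = true
    · have h3 := WW_le hp.nonneg hs hκ0 hκ hG N η
      have h4 : 0 ≤ (1 - h * κ) ^ N := pow_nonneg (by linarith) N
      unfold dd
      simp only [h2, if_true]
      simp only [Bool.true_eq_false, if_false]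
      linarith
    · have h2' : η x = false := by simpa using h2
      have h3 := hlow η x hx h2'
      unfold dd
      rw [if_pos h2', if_pos h2', if_neg h2]
      simp only at h3
      linarith
  have i1 := dep_integrable (dep_dd hDF x hx) μ
  have i2 := dep_integrable (dep_dd hDH x hx) μ
  have i3 := dep_integrable (Dep_ind x hx) μ
  have i12 : Integrable (fun η => dd ((KK mv p n h)^[N] (cnt A)) x η +
      dd (HH p n h κ E N) x η) μ := i1.add i2
  have i123 : Integrable (fun η => dd ((KK mv p n h)^[N] (cnt A)) x η +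
      dd (HH p n h κ E N) x η + if η x = true then (1 : ℝ) else 0) μ := i12.add i3
  have h5 := integral_mono (dep_integrable hDW μ) i123 hpt
  rw [integral_add i12 i3, integral_add i1 i2, integral_ind] at h5
  have h6 : ∫ η, dd (HH p n h κ E N) x η ∂μ = ∑ i ∈ Finset.range N, h * κ *
      (aa p n h μ i (Finset.Ico (-(n : ℤ)) w) x + aa p n h μ i (Finset.Ioc R n) x) := by
    have e1 : ∀ η, dd (HH p n h κ E N) x η = ∑ i ∈ Finset.range N, h * κ *
        (dd ((KK mv p n h)^[i] (cnt (Finset.Ico (-(n : ℤ)) w))) x η +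
          dd ((KK mv p n h)^[i] (cnt (Finset.Ioc R (n : ℤ)))) x η) := by
      intro η
      unfold dd
      by_cases h2 : η x = false
      · simp only [h2, if_true]
        rw [HH_eq, HH_eq, ← Finset.sum_sub_distrib]
        refine Finset.sum_congr rfl fun i _ => ?_
        have e3 := KK_iter_add (act := mv) (p := p) (n := n) (h := h) i
          (cnt (Finset.Ico (-(n : ℤ)) w)) (cnt (Finset.Ioc R (n : ℤ)))
        rw [hE, e3]
        ring
      · simp only [h2, if_false]
        simp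
    simp only [e1]
    rw [integral_finsetSum]
    · refine Finset.sum_congr rfl fun i _ => ?_
      rw [integral_const_mul]
      congr 1
      have j1 := dep_integrable (dep_dd (dep_iter (p := p) (h := h) (Dep_cnt _ hL) i) x hx) μ
      have j2 := dep_integrable (dep_dd (dep_iter (p := p) (h := h) (Dep_cnt _ hRi) i) x hx) μ
      rw [integral_add j1 j2]
      rfl
    · intro i _
      have j1 := dep_integrable (dep_dd (dep_iter (p := p) (h := h) (Dep_cnt _ hL) i) x hx) μ
      have j2 := dep_integrable (dep_dd (dep_iter (p := p) (h := h) (Dep_cnt _ hRi) i) x hx) μ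
      exact (j1.add j2).const_mul _
  rw [h6] at h5
  have h7 : ∫ η, dd ((KK mv p n h)^[N] (cnt A)) x η ∂μ = aa p n h μ N A x := rfl
  rw [h7] at h5
  linarith

end Fin5
end Pool.Agent.N959.EX
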