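import Pool.Agent.N959.EX.Fin5

/-! # The variance identity -/

set_option autoImplicit false

open MeasureTheory Filter Topology

namespace Pool.Agent.N959.EX
namespace Fin6

open Fin1 Pool.Agent.N959.EX.Fin2 Pool.Agent.N959.EX.Fin3 Pool.Agent.N959.EX.Fin4
  Pool.Agent.N959.EX.Fin5

variable {p : ℤ → ℝ} {n : ℕ} {h : ℝ} {μ : Measure Conf}

/-- carré du champ -/
noncomputable def Gam (p : ℤ → ℝ) (n : ℕ) (F : Conf → ℝ) (η : Conf) : ℝ :=
  ∑ x ∈ Lam n, ∑ y ∈ Lam n, p (y - x) * (F (mv x y η) - F η) ^ 2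

lemma Gam_nonneg (hp : ∀ z, 0 ≤ p z) (F : Conf → ℝ) (η : Conf) : 0 ≤ Gam p n F η :=
  Finset.sum_nonneg fun _ _ => Finset.sum_nonneg fun _ _ => mul_nonneg (hp _) (sq_nonneg _)

lemma cs (hp : ∀ z, 0 ≤ p z) (F : Conf → ℝ) (η : Conf) :
    (LL mv p n F η) ^ 2 ≤ Rt p n * Gam p n F η := by
  unfold LL Rt Gam
  rw [← Finset.sum_product', ← Finset.sum_product', ← Finset.sum_product']
  have h1 := Finset.sum_mul_sq_le_sq_mul_sq (Lam n ×ˢ Lam n)
    (fun w : ℤ × ℤ => Real.sqrt (p (w.2 - w.1)))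
    (fun w : ℤ × ℤ => Real.sqrt (p (w.2 - w.1)) * (F (mv w.1 w.2 η) - F η))
  have e1 : ∀ w : ℤ × ℤ, Real.sqrt (p (w.2 - w.1)) * (Real.sqrt (p (w.2 - w.1)) *
      (F (mv w.1 w.2 η) - F η)) = p (w.2 - w.1) * (F (mv w.1 w.2 η) - F η) := by
    intro w
    rw [← mul_assoc, Real.mul_self_sqrt (hp _)]
  have e2 : ∀ w : ℤ × ℤ, Real.sqrt (p (w.2 - w.1)) ^ 2 = p (w.2 - w.1) := by
    intro w
    rw [Real.sq_sqrt (hp _)]
  have e3 : ∀ w : ℤ × ℤ, (Real.sqrt (p (w.2 - w.1)) * (F (mv w.1 w.2 η) - F η)) ^ 2 =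
      p (w.2 - w.1) * (F (mv w.1 w.2 η) - F η) ^ 2 := by
    intro w
    rw [mul_pow, Real.sq_sqrt (hp _)]
  simp only [e1, e2, e3] at h1
  exact h1

lemma sq_KK (hp : ∀ z, 0 ≤ p z) (hs : Small p n h) (F : Conf → ℝ) (η : Conf) :
    (KK mv p n h F η) ^ 2 ≤ KK mv p n h (fun ξ => F ξ ^ 2) η - 3 / 4 * h * Gam p n F η := by
  have h1 : LL mv p n (fun ξ => F ξ ^ 2) η = 2 * F η * LL mv p n F η + Gam p n F η := by
    unfold LL Gam
    rw [Finset.mul_sum, ← Finset.sum_add_distrib]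
    refine Finset.sum_congr rfl fun x _ => ?_
    rw [Finset.mul_sum, ← Finset.sum_add_distrib]
    refine Finset.sum_congr rfl fun y _ => ?_
    ring
  have h2 := cs (n := n) hp F η
  have h3 := Gam_nonneg (n := n) hp F η
  have h4 := diag_ge hs
  unfold KK
  rw [h1]
  have h5 : h ^ 2 * (LL mv p n F η) ^ 2 ≤ h ^ 2 * (Rt p n * Gam p n F η) :=
    mul_le_mul_of_nonneg_left h2 (sq_nonneg h)
  have h6 : 0 ≤ h * Gam p n F η := mul_nonneg hs.1 h3
  have h7 : 3 / 4 * (h * Gam p n F η) ≤ (1 - h * Rt p n) * (h * Gam p n F η) :=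
    mul_le_mul_of_nonneg_right h4 h6
  nlinarith [h5, h7]

lemma dep_sq {F : Conf → ℝ} (hF : Dep n F) : Dep n (fun ξ => F ξ ^ 2) := by
  intro η ζ hηζ
  simp only [hF η ζ hηζ]

lemma dep_Gam {F : Conf → ℝ} (hF : Dep n F) : Dep n (Gam p n F) := by
  intro η ζ hηζ
  unfold Gam
  refine Finset.sum_congr rfl fun x hx => Finset.sum_congr rfl fun y hy => ?_
  rw [hF η ζ hηζ, hF _ _ (mv_congr x y hx hy hηζ)]

/-- one step -/
lemma var_step (hApx : S_APX) (hp : Ker p) (hs : Small p n h) [IsProbabilityMeasure μ]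
    (hμ : Stat p μ) {F : Conf → ℝ} (hF : Dep n F) {B : ℝ} (h0 : ∀ η, 0 ≤ F η)
    (hB : ∀ η, F η ≤ B) :
    ∫ η, (KK mv p n h F η) ^ 2 ∂μ + 3 / 4 * h * ∫ η, Gam p n F η ∂μ ≤
      ∫ η, F η ^ 2 ∂μ + h * (B ^ 2 * rr p n μ) := by
  have i1 := dep_integrable (dep_sq (dep_KK (p := p) (h := h) hF)) μ
  have i2 := dep_integrable (dep_Gam (p := p) hF) μ
  have i3 := dep_integrable (dep_KK (p := p) (h := h) (dep_sq hF)) μ
  have i4 : Integrable (fun η => KK mv p n h (fun ξ => F ξ ^ 2) η - 3 / 4 * h * Gam p n F η) μ :=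
    i3.sub (i2.const_mul _)
  have h1 := integral_mono i1 i4 (fun η => sq_KK hp.nonneg hs F η)
  rw [integral_sub i3 (i2.const_mul _), integral_const_mul, int_KK hp (dep_sq hF)] at h1
  have h2 := apx hApx hp hμ (dep_sq hF) (d := B ^ 2) (fun η x _ _ => by
    have h3 : 0 ≤ F (put x η) := h0 _
    have h4 : 0 ≤ F η := h0 _
    have h5 : F (put x η) ^ 2 ≤ B ^ 2 := pow_le_pow_left₀ h3 (hB _) 2
    have h6 : F η ^ 2 ≤ B ^ 2 := pow_le_pow_left₀ h4 (hB _) 2
    rw [abs_le]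
    constructor <;> nlinarith [sq_nonneg (F η), sq_nonneg (F (put x η))])
  have h3 := mul_le_mul_of_nonneg_left (abs_le.1 h2).2 hs.1
  linarith

/-- summation -/
lemma var_sum (hApx : S_APX) (hp : Ker p) (hs : Small p n h) [IsProbabilityMeasure μ]
    (hμ : Stat p μ) {F : Conf → ℝ} (hF : Dep n F) {B : ℝ} (h0 : ∀ η, 0 ≤ F η)
    (hB : ∀ η, F η ≤ B) (N : ℕ) :
    ∑ k ∈ Finset.range N, 3 / 4 * h * ∫ η, Gam p n ((KK mv p n h)^[k] F) η ∂μ ≤
      B ^ 2 + N * h * (B ^ 2 * rr p n μ) := by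
  have key : ∫ η, ((KK mv p n h)^[N] F η) ^ 2 ∂μ +
      ∑ k ∈ Finset.range N, 3 / 4 * h * ∫ η, Gam p n ((KK mv p n h)^[k] F) η ∂μ ≤
      B ^ 2 + N * h * (B ^ 2 * rr p n μ) := by
    induction N with
    | zero =>
      simp only [Function.iterate_zero, id, Finset.range_zero, Finset.sum_empty, add_zero,
        Nat.cast_zero, zero_mul]
      have : ∫ η, F η ^ 2 ∂μ ≤ ∫ _η, B ^ 2 ∂μ := by
        apply integral_mono (dep_integrable (dep_sq hF) μ) (integrable_const _)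
        intro η
        exact pow_le_pow_left₀ (h0 η) (hB η) 2
      simpa using this
    | succ N ih =>
      rw [Finset.sum_range_succ]
      have h1 := var_step hApx hp hs hμ (dep_iter (p := p) (h := h) hF N)
        (KK_iter_ge hp.nonneg hs h0 N) (KK_iter_le hp.nonneg hs hB N)
      simp only [Function.iterate_succ_apply']
      push_cast
      linarith
  have : 0 ≤ ∫ η, ((KK mv p n h)^[N] F η) ^ 2 ∂μ := integral_nonneg fun η => sq_nonneg _
  linarith

/-- a particle far to the right does not reach `[a, R]` -/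
lemma far (hD : S_DISP) (hp : Ker p) (hs : Small p n h) (a R z : ℤ) (D : ℝ) (hD0 : 0 < D)
    (hz : (R : ℝ) + D ≤ z) (hzn : z ∈ Lam n) (k : ℕ) (η : Conf) (hη : η z = false) :
    (KK mv p n h)^[k] (cnt (Finset.Icc a R)) (put z η) -
      (KK mv p n h)^[k] (cnt (Finset.Icc a R)) η ≤
      k * h * ((2 * ∑' z : ℤ, |(z : ℝ)| * p z) / D) := by
  set φ : ℤ → ℝ := fun x => max 0 (1 - max 0 ((x : ℝ) - R) / D) with hφ
  have h1 : ∀ x y : ℤ, |φ x - φ y| ≤ D⁻¹ * |((x - y : ℤ) : ℝ)| := by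
    intro x y
    have e1 : |φ x - φ y| ≤ |(1 - max 0 ((x : ℝ) - R) / D) - (1 - max 0 ((y : ℝ) - R) / D)| := by
      have e0 := abs_max_sub_max_le_abs (1 - max 0 ((x : ℝ) - R) / D)
        (1 - max 0 ((y : ℝ) - R) / D) 0
      rw [max_comm _ (0 : ℝ), max_comm (1 - max 0 ((y : ℝ) - R) / D) (0 : ℝ)] at e0
      exact e0
    refine e1.trans ?_
    have e2 : (1 - max 0 ((x : ℝ) - R) / D) - (1 - max 0 ((y : ℝ) - R) / D) =
        D⁻¹ * (max 0 ((y : ℝ) - R) - max 0 ((x : ℝ) - R)) := by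
      field_simp
      ring
    rw [e2, abs_mul, abs_of_pos (inv_pos.2 hD0)]
    refine mul_le_mul_of_nonneg_left ?_ (inv_pos.2 hD0).le
    have e3 := abs_max_sub_max_le_abs ((y : ℝ) - R) ((x : ℝ) - R) 0
    rw [max_comm ((y : ℝ) - R) (0 : ℝ), max_comm ((x : ℝ) - R) (0 : ℝ)] at e3
    refine e3.trans (le_of_eq ?_)
    push_cast
    rw [abs_sub_comm]
    congr 1
    ring
  have h2 : ∀ η : Conf, ∀ x ∈ Lam n, η x = false → cnt (Finset.Icc a R) (put x η) -
      cnt (Finset.Icc a R) η ≤ φ x := by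
    intro η x _ hx
    rw [cnt_put _ _ _ hx]
    split_ifs with h3
    · have h4 : x ≤ R := (Finset.mem_Icc.1 h3).2
      have h5 : (x : ℝ) - R ≤ 0 := by
        have : (x : ℝ) ≤ R := by exact_mod_cast h4
        linarith
      simp only [hφ, max_eq_left h5]
      simp
    · exact le_max_left _ _
  have h3 := hD p hp n h hs (cnt (Finset.Icc a R)) φ D⁻¹ (inv_pos.2 hD0).le h1 h2 k η z hzn hη
  have h4 : φ z = 0 := by
    simp only [hφ]
    have h5 : D ≤ max 0 ((z : ℝ) - R) := le_max_of_le_right (by linarith)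
    have h6 : 1 ≤ max 0 ((z : ℝ) - R) / D := by
      rw [le_div_iff₀ hD0]; linarith
    exact max_eq_left (by linarith)
  rw [h4] at h3
  refine h3.trans (le_of_eq ?_)
  rw [zero_add, div_eq_inv_mul]

/-- lower bound for the carré du champ -/
lemma Gam_lower (hp : Ker p) [IsProbabilityMeasure μ] {F : Conf → ℝ} (hF : Dep n F)
    (h1 : ∀ x ∈ Lam n, ∀ η, dd F x η ≤ 1)
    (I J : Finset ℤ) (hI : I ⊆ Lam n) (hJ : J ⊆ Lam n) (hIJ : ∀ x ∈ I, ∀ z ∈ J, x < z)
    (c1 : ℝ) (hc1 : 0 ≤ c1) (hc : ∀ x ∈ I, ∀ z ∈ J, c1 ≤ p (x - z)) (ε1 e3 s : ℝ)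
    (hs : 0 ≤ s) (hε0 : 0 ≤ ε1) (hε : ∀ z ∈ J, ∀ η, dd F z η ≤ ε1)
    (he3 : ∀ z ∈ J, 1 - rho μ z ≤ e3) (θ : ℝ) (hθ : I.card * θ ≤ ∑ x ∈ I, ∫ η, dd F x η ∂μ) :
    c1 * (J.card * (I.card * (2 * s * (θ - e3 - ε1) - s ^ 2))) ≤ ∫ η, Gam p n F η ∂μ := by
  -- pointwise
  have hpt : ∀ η, c1 * ∑ z ∈ J, ∑ x ∈ I, (2 * s * dd F x η -
      2 * s * (if η z = true then (0 : ℝ) else 1) - 2 * s * ε1 - s ^ 2) ≤ Gam p n F η := by
    intro η
    have a1 : ∑ z ∈ J, ∑ x ∈ I, p (x - z) * (F (mv z x η) - F η) ^ 2 ≤ Gam p n F η := by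
      unfold Gam
      calc ∑ z ∈ J, ∑ x ∈ I, p (x - z) * (F (mv z x η) - F η) ^ 2 ≤
          ∑ z ∈ J, ∑ x ∈ Lam n, p (x - z) * (F (mv z x η) - F η) ^ 2 :=
            Finset.sum_le_sum fun z _ => Finset.sum_le_sum_of_subset_of_nonneg hI
              fun x _ _ => mul_nonneg (hp.nonneg _) (sq_nonneg _)
        _ ≤ _ := Finset.sum_le_sum_of_subset_of_nonneg hJ
              fun z _ _ => Finset.sum_nonneg fun x _ => mul_nonneg (hp.nonneg _) (sq_nonneg _)
    refine le_trans ?_ a1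
    rw [Finset.mul_sum]
    refine Finset.sum_le_sum fun z hz => ?_
    rw [Finset.mul_sum]
    refine Finset.sum_le_sum fun x hx => ?_
    have a2 : 2 * s * dd F x η - 2 * s * (if η z = true then (0 : ℝ) else 1) - 2 * s * ε1 - s ^ 2
        ≤ (F (mv z x η) - F η) ^ 2 := by
      have hd1 := h1 x (hI hx) η
      have hsε : 0 ≤ s * ε1 := mul_nonneg hs hε0
      have hsd : s * dd F x η ≤ s * 1 := mul_le_mul_of_nonneg_left hd1 hs
      by_cases h2 : η z = true
      · rw [if_pos h2]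
        by_cases h3 : η x = false
        · have hxz : x ≠ z := ne_of_lt (hIJ x hx z hz)
          have e1 : put z (mv z x η) = put x η := by
            rw [mv_of _ _ _ ⟨h2, h3⟩]
            funext y
            by_cases h4 : y = z
            · subst h4
              rw [put_self, put_ne (Ne.symm hxz)]
              exact h2.symm
            · rw [put_ne h4]
              unfold sw
              by_cases h5 : y = x
              · subst h5
                simp [hxz, put_self, h2]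
              · simp [h4, h5, put_ne h5]
          have e2 : mv z x η z = false := by
            rw [mv_of _ _ _ ⟨h2, h3⟩]
            simp [sw, h3]
          have e3' := hε z hz (mv z x η)
          unfold dd at e3' ⊢
          rw [if_pos e2, e1] at e3'
          rw [if_pos h3]
          have h6 : F (put x η) - F η - ε1 ≤ F (mv z x η) - F η := by linarith
          have h7 : s * (F (put x η) - F η - ε1) ≤ s * (F (mv z x η) - F η) :=
            mul_le_mul_of_nonneg_left h6 hs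
          nlinarith [sq_nonneg (F (mv z x η) - F η - s)]
        · have : dd F x η = 0 := by unfold dd; rw [if_neg h3]
          rw [this]
          nlinarith [sq_nonneg (F (mv z x η) - F η), sq_nonneg s]
      · rw [if_neg h2]
        nlinarith [sq_nonneg (F (mv z x η) - F η), sq_nonneg s]
    calc c1 * (2 * s * dd F x η - 2 * s * (if η z = true then (0 : ℝ) else 1) -
        2 * s * ε1 - s ^ 2) ≤ c1 * (F (mv z x η) - F η) ^ 2 :=
          mul_le_mul_of_nonneg_left a2 hc1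
      _ ≤ p (x - z) * (F (mv z x η) - F η) ^ 2 :=
          mul_le_mul_of_nonneg_right (hc x hx z hz) (sq_nonneg _)
  have i0 : ∀ z ∈ J, ∀ x ∈ I, Integrable (fun η => 2 * s * dd F x η -
      2 * s * (if η z = true then (0 : ℝ) else 1) - 2 * s * ε1 - s ^ 2) μ := by
    intro z hz x hx
    exact ((((dep_integrable (dep_dd hF x (hI hx)) μ).const_mul _).sub
      ((dep_integrable (dep_vac z (hJ hz)) μ).const_mul _)).sub (integrable_const _)).sub
      (integrable_const _)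
  have i1 : Integrable (fun η => c1 * ∑ z ∈ J, ∑ x ∈ I, (2 * s * dd F x η -
      2 * s * (if η z = true then (0 : ℝ) else 1) - 2 * s * ε1 - s ^ 2)) μ :=
    (integrable_finsetSum _ fun z hz => integrable_finsetSum _ fun x hx => i0 z hz x hx).const_mul _
  have h2 := integral_mono i1 (dep_integrable (dep_Gam (p := p) hF) μ) hpt
  refine le_trans ?_ h2
  rw [integral_const_mul]
  refine mul_le_mul_of_nonneg_left ?_ hc1
  rw [integral_finsetSum _ fun z hz => integrable_finsetSum _ fun x hx => i0 z hz x hx]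
  have e : ∀ z ∈ J, (I.card : ℝ) * (2 * s * (θ - e3 - ε1) - s ^ 2) ≤
      ∫ η, ∑ x ∈ I, (2 * s * dd F x η -
      2 * s * (if η z = true then (0 : ℝ) else 1) - 2 * s * ε1 - s ^ 2) ∂μ := by
    intro z hz
    rw [integral_finsetSum _ fun x hx => i0 z hz x hx]
    have e4 : ∀ x ∈ I, ∫ η, (2 * s * dd F x η -
      2 * s * (if η z = true then (0 : ℝ) else 1) - 2 * s * ε1 - s ^ 2) ∂μ =
      2 * s * ∫ η, dd F x η ∂μ - 2 * s * (1 - rho μ z) - 2 * s * ε1 - s ^ 2 := by
      intro x hx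
      have j1 : Integrable (fun η => 2 * s * dd F x η) μ :=
        (dep_integrable (dep_dd hF x (hI hx)) μ).const_mul _
      have j2 : Integrable (fun η : Conf => 2 * s * (if η z = true then (0 : ℝ) else 1)) μ :=
        (dep_integrable (dep_vac z (hJ hz)) μ).const_mul _
      have j3 : Integrable (fun η : Conf => 2 * s * dd F x η -
        2 * s * (if η z = true then (0 : ℝ) else 1)) μ := j1.sub j2
      have j4 : Integrable (fun η : Conf => 2 * s * dd F x η -
        2 * s * (if η z = true then (0 : ℝ) else 1) - 2 * s * ε1) μ := j3.sub (integrable_const _)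
      rw [integral_sub j4 (integrable_const _), integral_sub j3 (integrable_const _),
        integral_sub j1 j2, integral_const_mul, integral_const_mul, int_vac μ z (hJ hz)]
      simp
    rw [Finset.sum_congr rfl e4]
    have e5 : ∑ x ∈ I, (2 * s * ∫ η, dd F x η ∂μ - 2 * s * (1 - rho μ z) - 2 * s * ε1 - s ^ 2) =
        2 * s * ∑ x ∈ I, ∫ η, dd F x η ∂μ -
          I.card * (2 * s * (1 - rho μ z) + 2 * s * ε1 + s ^ 2) := by
      simp only [Finset.sum_sub_distrib, Finset.sum_const, nsmul_eq_mul, ← Finset.mul_sum]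
      ring
    rw [e5]
    have e6 : 2 * s * (I.card * θ) ≤ 2 * s * ∑ x ∈ I, ∫ η, dd F x η ∂μ :=
      mul_le_mul_of_nonneg_left hθ (by linarith)
    have e7 : (I.card : ℝ) * (2 * s * (1 - rho μ z)) ≤ I.card * (2 * s * e3) :=
      mul_le_mul_of_nonneg_left (mul_le_mul_of_nonneg_left (he3 z hz) (by linarith))
        (Nat.cast_nonneg _)
    nlinarith [e6, e7]
  have e8 := Finset.sum_le_sum e
  rw [Finset.sum_const, nsmul_eq_mul] at e8
  exact e8

end Fin6
end Pool.Agent.N959.EX
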