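import Pool.Agent.N959.EX.Fin6

/-! # The core estimate -/

set_option autoImplicit false

open MeasureTheory Filter Topology

namespace Pool.Agent.N959.EX
namespace Fin7

open Fin1 Pool.Agent.N959.EX.Fin2 Pool.Agent.N959.EX.Fin3 Pool.Agent.N959.EX.Fin4
  Pool.Agent.N959.EX.Fin5 Pool.Agent.N959.EX.Fin6

variable {p : ℤ → ℝ} {n : ℕ} {h : ℝ} {μ : Measure Conf}

lemma profile_tau (H : Hyp p μ) (m : ℕ) : Profile (μ.map (tau m)) := by
  have e : rho (μ.map (tau m)) = fun x => rho μ (x + m) := funext fun x => rho_tau μ m x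
  constructor
  · rw [e]
    exact H.ordered.prof.1.comp (tendsto_atBot_add_const_right _ _ tendsto_id)
  · rw [e]
    exact H.ordered.prof.2.comp (tendsto_atTop_add_const_right _ _ tendsto_id)

lemma r2_tendsto (H : Hyp p μ) (m : ℕ) : Tendsto (fun n => r2 p n μ m) atTop (𝓝 0) := by
  have := H.prob
  have hprob := H.probtau m
  have h1 := H.rn p H.ker μ inferInstance H.ordered.prof
  have h2 := H.rn p H.ker (μ.map (tau m)) inferInstance (profile_tau H m)
  have h3 := h1.add h2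
  rw [add_zero] at h3
  exact h3

lemma core (H : Hyp p μ) (w0 a R : ℤ) (m0 : ℕ) (hm0 : 1 ≤ m0) (h1 : rho μ w0 ≤ 1 / 100)
    (h2 : 1 - rho μ (w0 + m0) ≤ 1 / 100) (h3 : m0 * (1 - rho μ R) ≤ 1 / 100)
    (h4 : m0 * rho μ (a + m0) ≤ 1 / 100) (haw : a ≤ w0) (hwR : w0 ≤ R)
    (j : ℕ) (hj1 : 1 ≤ j) (hj2 : -(j : ℤ) < w0) (hj3 : -(8 * j : ℤ) ≤ a)
    (hj5 : 4 * rho μ (-(4 * j : ℤ)) ≤ 1 / 100) (hj6 : 1 - rho μ (2 * j) ≤ 1 / 100)
    (hj7 : rho μ (-(j : ℤ)) ≤ 1 / 100)
    (S : ℝ) (hS : 0 < S) (hrate : ∀ d ∈ Finset.Icc (-(8 * j : ℤ)) R, d ≠ w0 → 1 / S ≤ p (w0 - d))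
    (J : Finset ℤ) (hJ : ∀ z ∈ J, (R : ℝ) + 20 * S * (2 * ∑' z : ℤ, |(z : ℝ)| * p z) ≤ z)
    (hC : 0 < 2 * ∑' z : ℤ, |(z : ℝ)| * p z)
    (c1 : ℝ) (hc0 : 0 ≤ c1) (hc1 : ∀ x ∈ Finset.Icc (-(2 * j : ℤ)) (-(j : ℤ)), ∀ z ∈ J,
      c1 ≤ p (x - z)) :
    3 / 80 * (S * (c1 * (J.card * j))) ≤ ((Finset.Icc a R).card : ℝ) ^ 2 + 1 := by
  have hprob := H.prob
  set C : ℝ := 2 * ∑' z : ℤ, |(z : ℝ)| * p z with hCdef
  set B : ℝ := ((Finset.Icc a R).card : ℝ) with hB
  set I : Finset ℤ := Finset.Icc (-(2 * j : ℤ)) (-(j : ℤ)) with hI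
  -- choice of the box
  have hrr : Tendsto (fun n => rr p n μ) atTop (𝓝 0) :=
    H.rn p H.ker μ inferInstance H.ordered.prof
  obtain ⟨n, hn1, hn2, hn3, hn4, hn5, hn6, hn7⟩ : ∃ n : ℕ, (8 * j ≤ n) ∧ (R ≤ n) ∧
      (∀ z ∈ J, z ≤ n) ∧ (2 * S * r2 p n μ (4 * j) ≤ 1 / 100) ∧
      (2 * S * r2 p n μ m0 ≤ 1 / 100) ∧ (2 * S * rr p n μ ≤ 1 / 100) ∧
      (2 * S * (B ^ 2 * rr p n μ) ≤ 1) := by
    have t1 : ∀ᶠ n : ℕ in atTop, 8 * j ≤ n := eventually_ge_atTop _
    have t2 : ∀ᶠ n : ℕ in atTop, R ≤ (n : ℤ) := by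
      filter_upwards [eventually_ge_atTop R.toNat] with n hn
      omega
    have t3 : ∀ᶠ n : ℕ in atTop, ∀ z ∈ J, z ≤ (n : ℤ) := by
      rw [Filter.eventually_all_finset]
      intro z _
      filter_upwards [eventually_ge_atTop z.toNat] with n hn
      omega
    have u4 := (r2_tendsto H (4 * j)).const_mul (2 * S)
    have u5 := (r2_tendsto H m0).const_mul (2 * S)
    have u6 := hrr.const_mul (2 * S)
    have u7 := (hrr.const_mul (B ^ 2)).const_mul (2 * S)
    simp only [mul_zero] at u4 u5 u6 u7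
    have t4 := u4.eventually_le_const (show (0 : ℝ) < 1 / 100 by norm_num)
    have t5 := u5.eventually_le_const (show (0 : ℝ) < 1 / 100 by norm_num)
    have t6 := u6.eventually_le_const (show (0 : ℝ) < 1 / 100 by norm_num)
    have t7 := u7.eventually_le_const (show (0 : ℝ) < 1 by norm_num)
    obtain ⟨n, hn⟩ := (t1.and (t2.and (t3.and (t4.and (t5.and (t6.and t7)))))).exists
    exact ⟨n, hn⟩
  have hrr0 : 0 ≤ rr p n μ := rr_nonneg H.apx H.ker H.ordered.stat
  have hr20 : ∀ m : ℕ, 0 ≤ r2 p n μ m := by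
    intro m
    have hprobt := H.probtau m
    have := rr_nonneg (n := n) H.apx H.ker (H.tau p H.ker μ m inferInstance H.ordered.stat)
    unfold r2
    linarith
  -- choice of the time step
  obtain ⟨M, hM1, hM2⟩ : ∃ M : ℕ, 2 ≤ M ∧ 4 * (S * Rt p n) ≤ M := by
    obtain ⟨M, hM⟩ := exists_nat_ge (4 * (S * Rt p n))
    refine ⟨max M 2, le_max_right _ _, hM.trans ?_⟩
    exact_mod_cast le_max_left _ _
  have hM0 : (0 : ℝ) < M := by
    have : 0 < M := by omega
    exact_mod_cast this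
  have hM2' : (2 : ℝ) ≤ M := by exact_mod_cast hM1
  set h : ℝ := S / M with hh
  have hh0 : 0 < h := div_pos hS hM0
  have hs : Small p n h := by
    refine ⟨hh0.le, ?_⟩
    have : h * Rt p n = S * Rt p n / M := by rw [hh]; ring
    rw [this, ← mul_div_assoc, div_le_one hM0]
    exact hM2
  have hMh : M * h = S := by rw [hh]; field_simp
  set κ : ℝ := 1 / S with hκ
  have hκ0 : 0 ≤ κ := (div_pos one_pos hS).le
  have hhκ : h * κ = 1 / M := by rw [hh, hκ]; field_simp
  have hhκ' : h * κ ≤ 3 / 4 := by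
    rw [hhκ, div_le_iff₀ hM0]
    linarith
  have hw0n : w0 ∈ Lam n := by
    simp only [Lam, Finset.mem_Icc]
    omega
  have hIn : I ⊆ Lam n := by
    intro x hx
    simp only [hI, Lam, Finset.mem_Icc] at hx ⊢
    omega
  have hAn : Finset.Icc a R ⊆ Lam n := by
    intro x hx
    simp only [Lam, Finset.mem_Icc] at hx ⊢
    omega
  have hcardI : I.card = j + 1 := by
    rw [hI, Int.card_Icc]
    omega
  have hcardI' : (I.card : ℝ) = j + 1 := by rw [hcardI]; push_cast; ring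
  have hj1' : (1 : ℝ) ≤ j := by exact_mod_cast hj1
  have hkh : ∀ k : ℕ, k ≤ 2 * M → (k : ℝ) * h ≤ 2 * S := by
    intro k hk
    have : (k : ℝ) ≤ 2 * M := by exact_mod_cast hk
    calc (k : ℝ) * h ≤ 2 * M * h := mul_le_mul_of_nonneg_right this hh0.le
      _ = 2 * S := by rw [mul_assoc, hMh]
  -- trap
  have hR0 : -(n : ℤ) ≤ R := by omega
  have htrap : ∀ k : ℕ, k ≤ 2 * M → 93 / 100 ≤ aa p n h μ k (Finset.Icc a R) w0 := by
    intro k hk
    have a1 := aa_split (p := p) (h := h) (n := n) H k a R w0 (by omega) (by omega) hn2 hw0n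
    have a2 := esc_right0 H hs k m0 R w0 hR0 hn2 hw0n
    have a3 := esc_left H hs k m0 a (by omega) (by omega) {w0}
      (Finset.singleton_subset_iff.2 hw0n)
    rw [Finset.sum_singleton, Finset.sum_singleton] at a3
    have a4 : (k : ℝ) * h * r2 p n μ m0 ≤ 1 / 100 :=
      (mul_le_mul_of_nonneg_right (hkh k hk) (hr20 m0)).trans hn5
    linarith
  -- discrete Duhamel
  have hθ : ∀ N : ℕ, M ≤ N → N ≤ 2 * M →
      (I.card : ℝ) * (2 / 5) ≤ ∑ x ∈ I, aa p n h μ N (Finset.Icc a R) x := by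
    intro N hMN hN2
    have b0 : ∀ x ∈ I, (93 / 100 : ℝ) * (1 - (1 - h * κ) ^ N) - N * h * rr p n μ - rho μ x -
        ∑ i ∈ Finset.range N, h * κ * (aa p n h μ i (Finset.Ico (-(n : ℤ)) (-(8 * j : ℤ))) x +
        aa p n h μ i (Finset.Ioc R n) x) ≤ aa p n h μ N (Finset.Icc a R) x := by
      intro x hx
      exact aa_lower H.apx H.ker hs hκ0 hhκ' H.ordered.stat (Finset.Icc a R) hAn hw0n
        (-(8 * j : ℤ)) R (by omega) hn2 (by omega) hrate (93 / 100) N
        (fun k hk => htrap k (by omega)) x (hIn hx)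
    have b1 := Finset.sum_le_sum b0
    refine le_trans ?_ b1
    have hpow : (1 - h * κ) ^ N ≤ 37 / 100 := by
      rw [hhκ]
      have c0 : 0 ≤ 1 - 1 / (M : ℝ) := by
        rw [sub_nonneg, div_le_one hM0]; linarith
      have c1 : 1 - 1 / (M : ℝ) ≤ 1 := by
        have : 0 ≤ 1 / (M : ℝ) := by positivity
        linarith
      calc (1 - 1 / (M : ℝ)) ^ N ≤ (1 - 1 / (M : ℝ)) ^ M := pow_le_pow_of_le_one c0 c1 hMN
        _ ≤ Real.exp (-1) := Real.one_sub_div_pow_le_exp_neg (by linarith)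
        _ ≤ 37 / 100 := by
          have := Real.exp_neg_one_lt_d9
          linarith
    have c3 : (N : ℝ) * h * rr p n μ ≤ 1 / 100 :=
      (mul_le_mul_of_nonneg_right (hkh N hN2) hrr0).trans hn6
    have c4 : ∀ x ∈ I, rho μ x ≤ 1 / 100 := by
      intro x hx
      have hx2 : x ≤ -(j : ℤ) := (Finset.mem_Icc.1 hx).2
      exact (H.mono hx2).trans hj7
    -- the error
    have c5 : ∑ x ∈ I, ∑ i ∈ Finset.range N, h * κ *
        (aa p n h μ i (Finset.Ico (-(n : ℤ)) (-(8 * j : ℤ))) x +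
        aa p n h μ i (Finset.Ioc R n) x) ≤ I.card * (14 / 100) := by
      rw [Finset.sum_comm]
      have c6 : ∀ i ∈ Finset.range N, ∑ x ∈ I, h * κ *
          (aa p n h μ i (Finset.Ico (-(n : ℤ)) (-(8 * j : ℤ))) x +
          aa p n h μ i (Finset.Ioc R n) x) ≤ h * κ * (I.card * (7 / 100)) := by
        intro i hi
        have hi' := Finset.mem_range.1 hi
        rw [← Finset.mul_sum]
        refine mul_le_mul_of_nonneg_left ?_ (mul_nonneg hh0.le hκ0)
        rw [Finset.sum_add_distrib]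
        have d1 := esc_left H hs i (4 * j) (-(8 * j : ℤ)) (by omega) (by omega) I hIn
        have d2 : ∑ x ∈ I, (1 - rho μ (x + ((4 * j : ℕ) : ℤ))) ≤ I.card * (1 / 100) := by
          rw [← nsmul_eq_mul]
          refine Finset.sum_le_card_nsmul _ _ _ fun x hx => ?_
          have hx1 : -(2 * j : ℤ) ≤ x := (Finset.mem_Icc.1 hx).1
          have : rho μ (2 * j) ≤ rho μ (x + ((4 * j : ℕ) : ℤ)) := by
            apply H.mono
            push_cast
            linarith
          linarith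
        have d3 : ((4 * j : ℕ) : ℝ) * rho μ (-(8 * j : ℤ) + ((4 * j : ℕ) : ℤ)) ≤
            I.card * (1 / 100) := by
          have e1 : -(8 * j : ℤ) + ((4 * j : ℕ) : ℤ) = -(4 * j : ℤ) := by push_cast; ring
          rw [e1, hcardI']
          push_cast
          have := rho_nonneg μ (-(4 * j : ℤ))
          nlinarith
        have d4 : (i : ℝ) * h * r2 p n μ (4 * j) ≤ I.card * (1 / 100) := by
          have e1 := (mul_le_mul_of_nonneg_right (hkh i (by omega)) (hr20 (4 * j))).trans hn4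
          rw [hcardI']
          nlinarith
        have d5 : ∑ x ∈ I, aa p n h μ i (Finset.Ioc R n) x ≤ I.card * (4 / 100) := by
          rw [← nsmul_eq_mul]
          refine Finset.sum_le_card_nsmul _ _ _ fun x hx => ?_
          have hx2 : x ≤ -(j : ℤ) := (Finset.mem_Icc.1 hx).2
          have e2 := esc_right H hs i m0 R w0 x hR0 hn2 hw0n (hIn hx) (by omega)
          have e3 : (i : ℝ) * h * r2 p n μ m0 ≤ 1 / 100 :=
            (mul_le_mul_of_nonneg_right (hkh i (by omega)) (hr20 m0)).trans hn5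
          linarith
        linarith
      refine (Finset.sum_le_sum c6).trans ?_
      rw [Finset.sum_const, Finset.card_range, nsmul_eq_mul, hhκ]
      have hN' : (N : ℝ) ≤ 2 * M := by exact_mod_cast hN2
      have e4 : (N : ℝ) * (1 / M * (I.card * (7 / 100))) = N / M * (I.card * (7 / 100)) := by
        ring
      rw [e4]
      have e5 : (N : ℝ) / M ≤ 2 := by
        rw [div_le_iff₀ hM0]; exact hN'
      have e6 : (0 : ℝ) ≤ I.card * (7 / 100) := by positivity
      nlinarith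
    rw [Finset.sum_sub_distrib, Finset.sum_sub_distrib, Finset.sum_const, nsmul_eq_mul]
    have c7 : ∑ x ∈ I, rho μ x ≤ I.card * (1 / 100) := by
      rw [← nsmul_eq_mul]
      exact Finset.sum_le_card_nsmul _ _ _ c4
    have c8 : (I.card : ℝ) * (56 / 100) ≤
        I.card * (93 / 100 * (1 - (1 - h * κ) ^ N) - N * h * rr p n μ) := by
      refine mul_le_mul_of_nonneg_left ?_ (Nat.cast_nonneg _)
      linarith
    linarith
  -- variance
  have hJn : J ⊆ Lam n := by
    intro z hz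
    have z1 := hJ z hz
    have z2 := hn3 z hz
    have z3 : (R : ℝ) ≤ z := by
      have : 0 ≤ 20 * S * C := by positivity
      linarith
    have z4 : R ≤ z := by exact_mod_cast z3
    simp only [Lam, Finset.mem_Icc]
    omega
  have hRz : ∀ z ∈ J, R ≤ z := by
    intro z hz
    have z1 := hJ z hz
    have z3 : (R : ℝ) ≤ z := by
      have : 0 ≤ 20 * S * C := by positivity
      linarith
    exact_mod_cast z3
  have hvar := var_sum (n := n) (h := h) H.apx H.ker hs H.ordered.stat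
    (Dep_cnt (Finset.Icc a R) hAn) (cnt_nonneg _) (cnt_le _) (2 * M)
  have hGam : ∀ k : ℕ, M ≤ k → k ≤ 2 * M → c1 * (J.card * (I.card * (1 / 20))) ≤
      ∫ η, Gam p n ((KK mv p n h)^[k] (cnt (Finset.Icc a R))) η ∂μ := by
    intro k hk1 hk2
    have g1 := Gam_lower (p := p) (μ := μ) H.ker
      (dep_iter (p := p) (h := h) (Dep_cnt (Finset.Icc a R) hAn) k)
      (fun x hx η => dd_PP_le H.ker hs (Finset.Icc a R) hAn k x hx η)
      I J hIn hJn (fun x hx z hz => by
        have hx2 : x ≤ -(j : ℤ) := (Finset.mem_Icc.1 hx).2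
        have := hRz z hz
        omega) c1 hc0 hc1 (1 / 10) (1 / 100) (1 / 4) (by norm_num) (by norm_num)
      (fun z hz η => by
        unfold dd
        split_ifs with h0
        · have f1 := far (h := h) H.disp H.ker hs a R z (20 * S * C) (by positivity) (hJ z hz)
            (hJn hz) k η h0
          refine f1.trans ?_
          have f2 : (k : ℝ) * h * (C / (20 * S * C)) = k * h / (20 * S) := by
            field_simp
          rw [← hCdef, f2, div_le_iff₀ (by positivity)]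
          linarith [hkh k hk2]
        · norm_num)
      (fun z hz => by
        have f3 := H.mono (hRz z hz)
        have f4 : (1 : ℝ) ≤ m0 := by exact_mod_cast hm0
        have f5 := rho_le_one μ R
        nlinarith) (2 / 5) (hθ k hk1 hk2)
    refine le_trans ?_ g1
    refine mul_le_mul_of_nonneg_left ?_ hc0
    refine mul_le_mul_of_nonneg_left ?_ (Nat.cast_nonneg _)
    refine mul_le_mul_of_nonneg_left ?_ (Nat.cast_nonneg _)
    norm_num
  have hsum : (M : ℝ) * (3 / 4 * h * (c1 * (J.card * (I.card * (1 / 20))))) ≤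
      ∑ k ∈ Finset.range (2 * M), 3 / 4 * h *
        ∫ η, Gam p n ((KK mv p n h)^[k] (cnt (Finset.Icc a R))) η ∂μ := by
    have s1 : Finset.Ico M (2 * M) ⊆ Finset.range (2 * M) := by
      intro k hk
      rw [Finset.mem_range]
      exact (Finset.mem_Ico.1 hk).2
    have s2 : ∑ k ∈ Finset.Ico M (2 * M), 3 / 4 * h *
        ∫ η, Gam p n ((KK mv p n h)^[k] (cnt (Finset.Icc a R))) η ∂μ ≤
        ∑ k ∈ Finset.range (2 * M), 3 / 4 * h *
        ∫ η, Gam p n ((KK mv p n h)^[k] (cnt (Finset.Icc a R))) η ∂μ := by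
      refine Finset.sum_le_sum_of_subset_of_nonneg s1 fun k _ _ => ?_
      exact mul_nonneg (mul_nonneg (by norm_num) hh0.le)
        (integral_nonneg fun η => Gam_nonneg H.ker.nonneg _ η)
    refine le_trans ?_ s2
    have s3 : ((Finset.Ico M (2 * M)).card : ℝ) = M := by
      rw [Nat.card_Ico]
      have : 2 * M - M = M := by omega
      rw [this]
    rw [← s3, ← nsmul_eq_mul]
    refine Finset.card_nsmul_le_sum _ _ _ fun k hk => ?_
    have hk' := Finset.mem_Ico.1 hk
    exact mul_le_mul_of_nonneg_left (hGam k hk'.1 hk'.2.le) (mul_nonneg (by norm_num) hh0.le)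
  have hfin : ((2 * M : ℕ) : ℝ) * h * (B ^ 2 * rr p n μ) ≤ 1 := by
    have : ((2 * M : ℕ) : ℝ) * h = 2 * S := by
      push_cast
      rw [mul_assoc, hMh]
    rw [this]
    exact hn7
  have e9 : (M : ℝ) * (3 / 4 * h * (c1 * (J.card * (I.card * (1 / 20))))) =
      3 / 80 * (S * (c1 * (J.card * (j + 1)))) := by
    rw [← hMh, hcardI']
    ring
  rw [e9] at hsum
  have e10 : 3 / 80 * (S * (c1 * (J.card * j))) ≤ 3 / 80 * (S * (c1 * (J.card * ((j : ℝ) + 1)))) := by
    have : (0 : ℝ) ≤ S * (c1 * J.card) := by positivity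
    nlinarith
  linarith

end Fin7
end Pool.Agent.N959.EX
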