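import Pool.Agent.N959.EX.Fin7

/-! # No ordered stationary profile measure -/

set_option autoImplicit false

open MeasureTheory Filter Topology

namespace Pool.Agent.N959.EX
namespace Fin8

open Fin1 Pool.Agent.N959.EX.Fin2 Pool.Agent.N959.EX.Fin3 Pool.Agent.N959.EX.Fin4
  Pool.Agent.N959.EX.Fin5 Pool.Agent.N959.EX.Fin6 Pool.Agent.N959.EX.Fin7

variable {p : ℤ → ℝ} {μ : Measure Conf}

/-- choice of the trap -/
lemma choice (H : Hyp p μ) : ∃ (w0 a R : ℤ) (m0 : ℕ), 1 ≤ m0 ∧ rho μ w0 ≤ 1 / 100 ∧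
    1 - rho μ (w0 + m0) ≤ 1 / 100 ∧ m0 * (1 - rho μ R) ≤ 1 / 100 ∧
    m0 * rho μ (a + m0) ≤ 1 / 100 ∧ a ≤ w0 ∧ w0 ≤ R := by
  have t0 := H.ordered.prof.1
  have t1 := H.ordered.prof.2
  obtain ⟨w0, hw0⟩ := (t0.eventually_le_const (show (0 : ℝ) < 1 / 100 by norm_num)).exists
  have t2 : Tendsto (fun x => 1 - rho μ x) atTop (𝓝 0) := by
    have := t1.const_sub 1
    simpa using this
  obtain ⟨v, hv1, hv2⟩ := ((t2.eventually_le_const (show (0 : ℝ) < 1 / 100 by norm_num)).and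
    (eventually_ge_atTop (w0 + 1))).exists
  obtain ⟨m0, hm0⟩ : ∃ m0 : ℕ, v = w0 + m0 := ⟨(v - w0).toNat, by omega⟩
  have t3 := t2.const_mul (m0 : ℝ)
  rw [mul_zero] at t3
  obtain ⟨R, hR1, hR2⟩ := ((t3.eventually_le_const (show (0 : ℝ) < 1 / 100 by norm_num)).and
    (eventually_ge_atTop w0)).exists
  have t4 := t0.const_mul (m0 : ℝ)
  rw [mul_zero] at t4
  obtain ⟨b, hb1, hb2⟩ := ((t4.eventually_le_const (show (0 : ℝ) < 1 / 100 by norm_num)).and
    (eventually_le_atBot w0)).exists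
  refine ⟨w0, b - m0, R, m0, by omega, hw0, ?_, hR1, ?_, by omega, hR2⟩
  · rw [← hm0]; exact hv1
  · rw [sub_add_cancel]; exact hb1

lemma tail_two {β c : ℝ} (hc : 0 < c)
    (hT : ∀ k : ℕ, 1 ≤ k → c * (k : ℝ) ^ (-β) ≤ p (-(k : ℤ))) (k : ℕ) (hk : 1 ≤ k) :
    c * (k : ℝ) ^ (-(max β 2)) ≤ p (-(k : ℤ)) := by
  refine le_trans ?_ (hT k hk)
  refine mul_le_mul_of_nonneg_left ?_ hc.le
  apply Real.rpow_le_rpow_of_exponent_le
  · exact_mod_cast hk
  · exact neg_le_neg (le_max_left _ _)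

/-- lower bounds for the rates -/
lemma rate {β c : ℝ} (hβ : 0 ≤ β) (hc : 0 < c)
    (hT : ∀ k : ℕ, 1 ≤ k → c * (k : ℝ) ^ (-β) ≤ p (-(k : ℤ))) (Y : ℝ) (z : ℤ)
    (hz : 1 ≤ z) (hzY : (z : ℝ) ≤ Y) : c * Y ^ (-β) ≤ p (-z) := by
  obtain ⟨k, rfl⟩ : ∃ k : ℕ, z = k := ⟨z.toNat, by omega⟩
  have hk : 1 ≤ k := by omega
  refine le_trans ?_ (hT k hk)
  refine mul_le_mul_of_nonneg_left ?_ hc.le
  have h0 : (0 : ℝ) < k := by
    have : 0 < k := by omega
    exact_mod_cast this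
  exact Real.rpow_le_rpow_of_nonpos h0 (by exact_mod_cast hzY) (by linarith)

lemma mean_pos (hp : Ker p) : 0 < 2 * ∑' z : ℤ, |(z : ℝ)| * p z := by
  have h1 : |((1 : ℤ) : ℝ)| * p 1 ≤ ∑' z : ℤ, |(z : ℝ)| * p z :=
    hp.mean.le_tsum 1 fun z _ => mul_nonneg (abs_nonneg _) (hp.nonneg z)
  have h2 := hp.pos 1 (by norm_num)
  simp at h1
  linarith

theorem final_aux (H : Hyp p μ) (hT : Tail p) : False := by
  obtain ⟨β₀, c, hβ₀, hc, hT0⟩ := hT
  have hprob := H.prob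
  set β : ℝ := max β₀ 2 with hβ
  have hT1 := tail_two (β := β₀) hc hT0
  rw [← hβ] at hT1
  have hβ2 : 2 ≤ β := le_max_right _ _
  have hs2 : (1 : ℝ) < Real.sqrt 2 := by
    rw [Real.lt_sqrt (by norm_num)]; norm_num
  have hβ1 : β < 1 + Real.sqrt 2 := max_lt hβ₀ (by linarith)
  set γ : ℝ := β * (2 - β) + 1 with hγ
  have hγ0 : 0 < γ := by
    have h1 : Real.sqrt 2 ^ 2 = 2 := Real.sq_sqrt (by norm_num)
    nlinarith
  obtain ⟨w0, a, R, m0, hm0, g1, g2, g3, g4, haw, hwR⟩ := choice H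
  set C : ℝ := 2 * ∑' z : ℤ, |(z : ℝ)| * p z with hC
  have hC0 : 0 < C := mean_pos H.ker
  set B : ℝ := ((Finset.Icc a R).card : ℝ) with hB
  set S : ℕ → ℝ := fun j => (9 * (j : ℝ)) ^ β / c with hS
  have t0 := H.ordered.prof.1
  have t1 := H.ordered.prof.2
  have cast_top : Tendsto (fun j : ℕ => (j : ℤ)) atTop atTop := tendsto_natCast_atTop_atTop
  -- eventual conditions
  have e1 : ∀ᶠ j : ℕ in atTop, 1 ≤ j := eventually_ge_atTop 1
  have e2 : ∀ᶠ j : ℕ in atTop, -(j : ℤ) < w0 ∧ -(8 * j : ℤ) ≤ a ∧ R - w0 ≤ 9 * j ∧ w0 ≤ j := by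
    filter_upwards [eventually_ge_atTop (w0.natAbs + a.natAbs + R.natAbs + 1)] with j hj
    omega
  have e3 : ∀ᶠ j : ℕ in atTop, 4 * rho μ (-(4 * j : ℤ)) ≤ 1 / 100 := by
    have u1 : Tendsto (fun j : ℕ => -(4 * j : ℤ)) atTop atBot := by
      apply tendsto_neg_atTop_atBot.comp
      exact cast_top.const_mul_atTop' (by norm_num)
    have u2 := (t0.comp u1).const_mul 4
    rw [mul_zero] at u2
    exact u2.eventually_le_const (by norm_num)
  have e4 : ∀ᶠ j : ℕ in atTop, 1 - rho μ (2 * j) ≤ 1 / 100 := by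
    have u1 : Tendsto (fun j : ℕ => (2 * j : ℤ)) atTop atTop :=
      cast_top.const_mul_atTop' (by norm_num)
    have u2 := (t1.comp u1).const_sub 1
    rw [sub_self] at u2
    exact u2.eventually_le_const (by norm_num)
  have e5 : ∀ᶠ j : ℕ in atTop, rho μ (-(j : ℤ)) ≤ 1 / 100 := by
    have u2 := t0.comp (tendsto_neg_atTop_atBot.comp cast_top)
    exact u2.eventually_le_const (by norm_num)
  have e6 : ∀ᶠ j : ℕ in atTop, (R : ℝ) + 2 + 2 * j ≤ S j := by
    obtain ⟨N, hN⟩ := exists_nat_ge (c * (|(R : ℝ)| + 4) / 81)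
    filter_upwards [eventually_ge_atTop (max N 1)] with j hj
    have hj1 : 1 ≤ j := le_trans (le_max_right _ _) hj
    have hjN : (N : ℝ) ≤ j := by exact_mod_cast le_trans (le_max_left _ _) hj
    have hj1' : (1 : ℝ) ≤ j := by exact_mod_cast hj1
    have f1 : (9 * (j : ℝ)) ^ (2 : ℝ) ≤ (9 * (j : ℝ)) ^ β :=
      Real.rpow_le_rpow_of_exponent_le (by linarith) hβ2
    rw [Real.rpow_two] at f1
    have f2 : c * (|(R : ℝ)| + 4) / 81 ≤ j := hN.trans hjN
    rw [div_le_iff₀ (by norm_num)] at f2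
    have f3 : (R : ℝ) + 2 + 2 * j ≤ (|(R : ℝ)| + 4) * j := by
      have := le_abs_self (R : ℝ)
      have := abs_nonneg (R : ℝ)
      nlinarith
    simp only [hS]
    rw [le_div_iff₀ hc]
    calc ((R : ℝ) + 2 + 2 * j) * c ≤ (|(R : ℝ)| + 4) * j * c :=
          mul_le_mul_of_nonneg_right f3 hc.le
      _ = c * (|(R : ℝ)| + 4) * j := by ring
      _ ≤ (j * 81) * j := mul_le_mul_of_nonneg_right f2 (by positivity)
      _ = (9 * (j : ℝ)) ^ 2 := by ring
      _ ≤ _ := f1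
  -- the growing quantity
  set K0 : ℝ := 3 / 80 * (c * (20 * C + 2) ^ (-β)) * (9 ^ β / c) ^ (2 - β) with hK0
  have hK0' : 0 < K0 := by positivity
  have e7 : ∀ᶠ j : ℕ in atTop, B ^ 2 + 1 < K0 * (j : ℝ) ^ γ := by
    have u1 : Tendsto (fun j : ℕ => K0 * (j : ℝ) ^ γ) atTop atTop :=
      ((tendsto_rpow_atTop hγ0).comp tendsto_natCast_atTop_atTop).const_mul_atTop hK0'
    exact u1.eventually_gt_atTop _
  obtain ⟨j, hj1, ⟨hj2, hj3, hj4, hj4'⟩, hj5, hj6, hj7, hj8, hj9⟩ :=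
    (e1.and (e2.and (e3.and (e4.and (e5.and (e6.and e7)))))).exists
  have hj1' : (1 : ℝ) ≤ j := by exact_mod_cast hj1
  have hj0 : (0 : ℝ) < j := by linarith
  have hSj : 0 < S j := by simp only [hS]; positivity
  have hSinv : 1 / S j = c * (9 * (j : ℝ)) ^ (-β) := by
    simp only [hS]
    rw [Real.rpow_neg (by positivity)]
    field_simp
  set z0 : ℤ := ⌈(R : ℝ) + 20 * S j * C⌉ with hz0
  set q : ℕ := ⌈S j⌉₊ with hq
  set J : Finset ℤ := Finset.Icc z0 (z0 + q) with hJ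
  have hJcard : S j ≤ (J.card : ℝ) := by
    rw [hJ, Int.card_Icc]
    have f1 : S j ≤ q := Nat.le_ceil _
    have f2 : (z0 + (q : ℤ) + 1 - z0).toNat = q + 1 := by omega
    rw [f2]
    push_cast
    linarith
  have hCore := core H w0 a R m0 hm0 g1 g2 g3 g4 haw hwR j hj1 hj2 hj3 hj5 hj6 hj7 (S j) hSj
    (by
      intro d hd hdw
      rw [hSinv]
      have hd' := Finset.mem_Icc.1 hd
      rcases lt_or_gt_of_ne hdw with h1 | h1
      · have r1 := rate (by linarith) hc hT1 (9 * (j : ℝ)) (w0 - d) (by omega) (by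
          have : w0 - d ≤ 9 * j := by omega
          exact_mod_cast this)
        exact r1.trans (H.uni.asym _ (by omega))
      · have r1 := rate (by linarith) hc hT1 (9 * (j : ℝ)) (d - w0) (by omega) (by
          have : d - w0 ≤ 9 * j := by omega
          exact_mod_cast this)
        rwa [neg_sub] at r1)
    J (by
      intro z hz
      have hz' := (Finset.mem_Icc.1 hz).1
      have : (z0 : ℝ) ≤ z := by exact_mod_cast hz'
      exact (Int.le_ceil _).trans this) hC0 (c * ((20 * C + 2) * S j) ^ (-β)) (by positivity)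
    (by
      intro x hx z hz
      have hx' := Finset.mem_Icc.1 hx
      have hz' := Finset.mem_Icc.1 hz
      have hRz0 : R ≤ z0 := by
        have : (R : ℝ) ≤ z0 := by
          have f1 := Int.le_ceil ((R : ℝ) + 20 * S j * C)
          have : 0 ≤ 20 * S j * C := by positivity
          linarith
        exact_mod_cast this
      have r1 := rate (by linarith) hc hT1 ((20 * C + 2) * S j) (z - x) (by omega) (by
        have f1 : (z : ℝ) ≤ z0 + q := by exact_mod_cast hz'.2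
        have f2 : (-(2 * j) : ℝ) ≤ x := by exact_mod_cast hx'.1
        have f3 : (z0 : ℝ) < (R : ℝ) + 20 * S j * C + 1 := Int.ceil_lt_add_one _
        have f4 : (q : ℝ) < S j + 1 := Nat.ceil_lt_add_one hSj.le
        push_cast
        linarith)
      rwa [neg_sub] at r1)
  have hfin : K0 * (j : ℝ) ^ γ ≤ 3 / 80 * (S j * (c * ((20 * C + 2) * S j) ^ (-β) * (J.card * j))) := by
    have f1 : ((20 * C + 2) * S j) ^ (-β) = (20 * C + 2) ^ (-β) * (S j) ^ (-β) :=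
      Real.mul_rpow (by positivity) hSj.le
    have f2 : S j * (S j * (S j) ^ (-β)) = (S j) ^ (2 - β) := by
      have : (2 - β) = 1 + (1 + (-β)) := by ring
      rw [this, Real.rpow_add hSj, Real.rpow_add hSj, Real.rpow_one]
    have f3 : S j = 9 ^ β / c * (j : ℝ) ^ β := by
      simp only [hS]
      rw [Real.mul_rpow (by norm_num) hj0.le]
      ring
    have f4 : (S j) ^ (2 - β) = (9 ^ β / c) ^ (2 - β) * (j : ℝ) ^ (β * (2 - β)) := by
      rw [f3, Real.mul_rpow (by positivity) (by positivity), ← Real.rpow_mul hj0.le]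
    have f5 : (j : ℝ) ^ γ = (j : ℝ) ^ (β * (2 - β)) * j := by
      rw [hγ, Real.rpow_add hj0, Real.rpow_one]
    have f6 : K0 * (j : ℝ) ^ γ = 3 / 80 * (c * (20 * C + 2) ^ (-β)) * (S j) ^ (2 - β) * j := by
      rw [f4, f5, hK0]
      ring
    rw [f6, ← f2, f1]
    have f7 : (0 : ℝ) ≤ 3 / 80 * (c * (20 * C + 2) ^ (-β)) * (S j * (S j) ^ (-β)) * j := by
      positivity
    have f8 := mul_le_mul_of_nonneg_left hJcard f7
    calc _ = 3 / 80 * (c * (20 * C + 2) ^ (-β)) * (S j * (S j) ^ (-β)) * j * S j := by ring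
      _ ≤ _ := f8
      _ = _ := by ring
  linarith

end Fin8

theorem t_FINAL (h1 : S_CONE) (h2 : S_DISP) (h3 : S_APX) (h4 : S_RN) (h5 : S_TAU) : S_FINAL :=
  fun _ hp hu hT _ hμ ho => Fin8.final_aux ⟨h1, h2, h3, h4, h5, hp, hu, hμ, ho⟩ hT

end Pool.Agent.N959.EX
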