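import Pool.Agent.N959.EX.Fin6

/-! # Second differences: pointwise inequalities -/

set_option autoImplicit false

open MeasureTheory Filter Topology

namespace Pool.Agent.N959.EX
namespace G1

open Fin1 Pool.Agent.N959.EX.Fin2 Pool.Agent.N959.EX.Fin3 Pool.Agent.N959.EX.Fin4
  Pool.Agent.N959.EX.Fin5 Pool.Agent.N959.EX.Fin6

variable {p : ℤ → ℝ} {n : ℕ} {h : ℝ}

/-- remove the particle at `x` -/
def rem (x : ℤ) (η : Conf) : Conf := Function.update η x false

lemma rem_self (x : ℤ) (η : Conf) : rem x η x = false := by simp [rem]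

lemma rem_ne {x y : ℤ} (h : y ≠ x) (η : Conf) : rem x η y = η y := by simp [rem, h]

lemma put_rem {x : ℤ} {η : Conf} (h : η x = true) : put x (rem x η) = η := by
  funext y
  by_cases hy : y = x
  · subst hy; rw [put_self, h]
  · rw [put_ne hy, rem_ne hy]

lemma rem_put_ne {x y : ℤ} (h : x ≠ y) (η : Conf) : rem x (put y η) = put y (rem x η) := by
  funext z
  by_cases hz : z = x
  · subst hz; rw [rem_self, put_ne h, rem_self]
  · rw [rem_ne hz]
    by_cases hz2 : z = y
    · subst hz2; rw [put_self, put_self]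
    · rw [put_ne hz2, put_ne hz2, rem_ne hz]

/-- influence of an occupied site -/
noncomputable def ee (F : Conf → ℝ) (z : ℤ) (η : Conf) : ℝ :=
  if η z = true then F η - F (rem z η) else 0

lemma dep_comp_rem {F : Conf → ℝ} (hF : Dep n F) (u : ℤ) : Dep n (fun η => F (rem u η)) := by
  intro η ζ hηζ
  refine hF _ _ fun x hx => ?_
  by_cases h : x = u
  · subst h; rw [rem_self, rem_self]
  · rw [rem_ne h, rem_ne h]; exact hηζ x hx

lemma dep_ee {F : Conf → ℝ} (hF : Dep n F) (x : ℤ) (hx : x ∈ Lam n) : Dep n (ee F x) := by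
  intro η ζ hηζ
  unfold ee
  have h1 : F (rem x η) = F (rem x ζ) := dep_comp_rem hF x η ζ hηζ
  rw [hηζ x hx, hF η ζ hηζ, h1]

lemma ee_eq {F : Conf → ℝ} {z : ℤ} {η : Conf} (h : η z = true) :
    ee F z η = dd F z (rem z η) := by
  unfold ee dd
  rw [if_pos h, if_pos (rem_self z η), put_rem h]

lemma ee_nonneg {F : Conf → ℝ} (hF : Mono n F) (x : ℤ) (hx : x ∈ Lam n) (η : Conf) :
    0 ≤ ee F x η := by
  by_cases h : η x = true
  · rw [ee_eq h]; exact dd_nonneg hF x hx _
  · unfold ee; rw [if_neg h]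

lemma ee_le {F : Conf → ℝ} {x : ℤ} {c : ℝ} (hc : 0 ≤ c) (h1 : ∀ η, dd F x η ≤ c) (η : Conf) :
    ee F x η ≤ c := by
  by_cases h : η x = true
  · rw [ee_eq h]; exact h1 _
  · unfold ee; rw [if_neg h]; exact hc

/-- influences increase with the environment for supermodular functions -/
lemma Sup_env {F : Conf → ℝ} (hF : Sup n F) (hD : Dep n F) (z : Conf × Conf) (hz : z ∈ Ord)
    (x : ℤ) (hx : x ∈ Lam n) (h2 : z.2 x = false) :
    F (put x z.1) - F z.1 ≤ F (put x z.2) - F z.2 := by
  have h1 : z.1 x = false := by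
    by_contra h
    have := hz x (by simpa using h)
    rw [this] at h2
    exact absurd h2 (by simp)
  have hT : x ∉ DS n z := by
    intro h
    rw [mem_DS, h2] at h
    exact absurd h.2.2 (by simp)
  have h3 := hF.incr (DS n z) (DS_sub z) z.1 x hx hT h1
  have h4 : F z.2 = F (putS (DS n z) z.1) := dep_ord hD z hz
  have h5 : F (put x z.2) = F (put x (putS (DS n z) z.1)) := by
    apply hD
    intro y hy
    by_cases hyx : y = x
    · subst hyx; rw [put_self, put_self]
    · rw [put_ne hyx, put_ne hyx]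
      unfold putS
      by_cases h : y ∈ DS n z
      · rw [if_pos h]
        exact ((mem_DS z y).1 h).2.2
      · rw [if_neg h]
        rw [mem_DS] at h
        have h1 := hz y
        cases h2 : z.1 y <;> cases h3 : z.2 y <;> simp_all
  rw [h4, h5]
  exact h3

/-- influences decrease with the environment for submodular functions -/
lemma Cone_env {F : Conf → ℝ} (hF : Cone n F) (hD : Dep n F) (z : Conf × Conf) (hz : z ∈ Ord)
    (x : ℤ) (hx : x ∈ Lam n) (h2 : z.2 x = false) :
    F (put x z.2) - F z.2 ≤ F (put x z.1) - F z.1 := by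
  have hS : Sup n (fun η => - F η) := by
    intro η u hu v hv hu0 hv0 huv
    have := hF.sub η u hu v hv hu0 hv0 huv
    linarith
  have hD' : Dep n (fun η => - F η) := by
    intro η ζ h
    simp only [hD η ζ h]
  have := Sup_env hS hD' z hz x hx h2
  linarith

/-- the data of the three parts of the box -/
structure Parts (n : ℕ) (F FL FR : Conf → ℝ) : Prop where
  sum : ∀ η, F η + FL η + FR η = cnt (Lam n) η
  dF : Dep n F
  dL : Dep n FL
  dR : Dep n FR
  mF : Mono n F
  mL : Mono n FL
  sL : Sup n FL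
  aL : ∀ η : Conf, ∀ u ∈ Lam n, ∀ v ∈ Lam n, η u = false → η v = false → u < v →
    FL (put v η) ≤ FL (put u η)
  cR : Cone n FR

namespace Parts

variable {F FL FR : Conf → ℝ} (P : Parts n F FL FR)

include P

lemma dsum (x : ℤ) (hx : x ∈ Lam n) (η : Conf) (h : η x = false) :
    (F (put x η) - F η) + (FL (put x η) - FL η) + (FR (put x η) - FR η) = 1 := by
  have h1 := P.sum η
  have h2 := P.sum (put x η)
  have h3 := cnt_put (Lam n) η x h
  rw [if_pos hx] at h3
  linarith

lemma dF_le (x : ℤ) (hx : x ∈ Lam n) (η : Conf) : dd F x η ≤ 1 := by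
  unfold dd
  split_ifs with h
  · have h1 := P.dsum x hx η h
    have h2 := P.mL η x hx h
    have h3 := P.cR.mono η x hx h
    linarith
  · exact zero_le_one

lemma dL_le (x : ℤ) (hx : x ∈ Lam n) (η : Conf) : dd FL x η ≤ 1 := by
  unfold dd
  split_ifs with h
  · have h1 := P.dsum x hx η h
    have h2 := P.mF η x hx h
    have h3 := P.cR.mono η x hx h
    linarith
  · exact zero_le_one

lemma dR_le (x : ℤ) (hx : x ∈ Lam n) (η : Conf) : dd FR x η ≤ 1 := by
  unfold dd
  split_ifs with h
  · have h1 := P.dsum x hx η h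
    have h2 := P.mF η x hx h
    have h3 := P.mL η x hx h
    linarith
  · exact zero_le_one

/-- the all-good case of the first inequality -/
lemma ptI0 (z : Conf × Conf) (hz : z ∈ Ord) (x y u : ℤ) (hx : x ∈ Lam n) (hy : y ∈ Lam n)
    (hu : u ∈ Lam n) (huy : u < y) (hxu : x ≠ u) (h1 : z.1 y = true) (h2 : z.1 x = false)
    (h3 : z.1 u = false) (h4 : z.2 u = true) (h5 : z.2 x = false) :
    ee F y z.1 ≤ dd F x z.1 + |F (mv y x z.1) - F z.1| + dd FL u z.1 +
      (dd FL x z.2 - dd FL x z.1) := by
  obtain ⟨η, ξ⟩ := z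
  simp only at h1 h2 h3 h4 h5 ⊢
  have hxy : x ≠ y := by
    rintro rfl
    rw [h1] at h2
    exact absurd h2 (by simp)
  have huy' : u ≠ y := ne_of_lt huy
  set ζ : Conf := rem y η with hζ
  have e0 : put y ζ = η := put_rem h1
  have hζx : ζ x = false := by rw [hζ, rem_ne hxy]; exact h2
  have hζu : ζ u = false := by rw [hζ, rem_ne huy']; exact h3
  have hζy : ζ y = false := rem_self _ _
  have e1 : mv y x η = put x ζ := by
    rw [mv_of _ _ _ ⟨h1, h2⟩]
    funext w
    unfold sw
    by_cases hw : w = y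
    · subst hw
      rw [put_ne (Ne.symm hxy), hζy]
      simp [h2]
    · by_cases hw2 : w = x
      · subst hw2
        rw [put_self]
        simp [hw, h1]
      · rw [put_ne hw2, hζ, rem_ne hw]
        simp [hw, hw2]
  -- second difference of `FL`
  have s1 : FL (put y (put x ζ)) ≤ FL (put u (put x ζ)) :=
    P.aL (put x ζ) u hu y hy (by rw [put_ne (Ne.symm hxu)]; exact hζu)
      (by rw [put_ne (Ne.symm hxy)]; exact hζy) huy
  have s2 := P.sL (put x ζ) u hu y hy (by rw [put_ne (Ne.symm hxu)]; exact hζu)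
    (by rw [put_ne (Ne.symm hxy)]; exact hζy) huy'
  have s3 : FL ζ ≤ FL (put y ζ) := P.mL ζ y hy hζy
  have e2 : put y (put x ζ) = put x η := by rw [put_comm, e0]
  rw [e2] at s1 s2
  rw [e0] at s3
  -- environment
  have hord : (put u η, ξ) ∈ Ord := by
    intro w hw
    by_cases hwu : w = u
    · subst hwu; exact h4
    · simp only [put_ne hwu] at hw
      exact hz w hw
  have s4 := Sup_env P.sL P.dL (put u η, ξ) hord x hx h5
  simp only at s4
  have e3 : put u (put x η) = put x (put u η) := put_comm _ _ _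
  rw [e3] at s2
  -- second difference of `FR`
  have s5 := P.cR.sub ζ x hx y hy hζx hζy hxy
  have e4 : put x (put y ζ) = put x η := by rw [e0]
  rw [e4, e0] at s5
  -- sums
  have t1 := P.dsum x hx η h2
  have t2 := P.dsum x hx ζ hζx
  have v1 : ee F y η = F η - F ζ := by unfold ee; rw [if_pos h1]
  have v2 : dd F x η = F (put x η) - F η := by unfold dd; rw [if_pos h2]
  have v3 : dd FL u η = FL (put u η) - FL η := by unfold dd; rw [if_pos h3]
  have v4 : dd FL x η = FL (put x η) - FL η := by unfold dd; rw [if_pos h2]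
  have v5 : dd FL x ξ = FL (put x ξ) - FL ξ := by unfold dd; rw [if_pos h5]
  rw [v1, v2, v3, v4, v5, e1]
  have v6 := neg_abs_le (F (put x ζ) - F η)
  linarith

/-- the all-good case of the second inequality -/
lemma ptII0 (z : Conf × Conf) (hz : z ∈ Ord) (x y u : ℤ) (hx : x ∈ Lam n) (hy : y ∈ Lam n)
    (hu : u ∈ Lam n) (huy : u < y) (hxu : x ≤ u) (h1 : z.1 y = true) (h2 : z.1 x = false)
    (h3 : z.1 u = false) (h4 : z.2 u = true) :
    dd F x z.1 ≤ ee F y z.1 + |F (mv y x z.1) - F z.1| + dd FR u z.1 +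
      (ee FR y z.1 - ee FR y z.2) := by
  obtain ⟨η, ξ⟩ := z
  simp only at h1 h2 h3 h4 ⊢
  have hxy : x ≠ y := by
    rintro rfl
    rw [h1] at h2
    exact absurd h2 (by simp)
  have huy' : u ≠ y := ne_of_lt huy
  set ζ : Conf := rem y η with hζ
  have e0 : put y ζ = η := put_rem h1
  have hζx : ζ x = false := by rw [hζ, rem_ne hxy]; exact h2
  have hζu : ζ u = false := by rw [hζ, rem_ne huy']; exact h3
  have hζy : ζ y = false := rem_self _ _
  have e1 : mv y x η = put x ζ := by
    rw [mv_of _ _ _ ⟨h1, h2⟩]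
    funext w
    unfold sw
    by_cases hw : w = y
    · subst hw
      rw [put_ne (Ne.symm hxy), hζy]
      simp [h2]
    · by_cases hw2 : w = x
      · subst hw2
        rw [put_self]
        simp [hw, h1]
      · rw [put_ne hw2, hζ, rem_ne hw]
        simp [hw, hw2]
  -- moving `x` to `u`
  have s1 : FR (put x ζ) ≤ FR (put u ζ) := by
    rcases eq_or_lt_of_le hxu with h | h
    · rw [h]
    · exact P.cR.right ζ x hx u hu hζx hζu h
  have s2 : FR η ≤ FR (put x η) := P.cR.mono η x hx h2
  -- second difference of `FL` is nonnegative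
  have s3 := P.sL ζ x hx y hy hζx hζy hxy
  have e4 : put x (put y ζ) = put x η := by rw [e0]
  rw [e4, e0] at s3
  -- environment
  have hy2 : ξ y = true := hz y h1
  have hord : (rem y (put u η), rem y ξ) ∈ Ord := by
    intro w hw
    simp only at hw ⊢
    by_cases hwy : w = y
    · subst hwy
      rw [rem_self] at hw
      exact absurd hw (by simp)
    · rw [rem_ne hwy] at hw ⊢
      by_cases hwu : w = u
      · subst hwu; exact h4
      · rw [put_ne hwu] at hw
        exact hz w hw
  have s4 := Cone_env P.cR P.dR _ hord y hy (rem_self _ _)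
  simp only at s4
  have e5 : put y (rem y (put u η)) = put u η :=
    put_rem (by rw [put_ne (Ne.symm huy')]; exact h1)
  have e6 : put y (rem y ξ) = ξ := put_rem hy2
  have e7 : rem y (put u η) = put u ζ := rem_put_ne (Ne.symm huy') η
  rw [e5, e6, e7] at s4
  -- sums
  have t1 := P.dsum x hx η h2
  have t2 := P.dsum x hx ζ hζx
  have v1 : ee F y η = F η - F ζ := by unfold ee; rw [if_pos h1]
  have v2 : dd F x η = F (put x η) - F η := by unfold dd; rw [if_pos h2]
  have v3 : dd FR u η = FR (put u η) - FR η := by unfold dd; rw [if_pos h3]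
  have v4 : ee FR y η = FR η - FR ζ := by unfold ee; rw [if_pos h1]
  have v5 : ee FR y ξ = FR ξ - FR (rem y ξ) := by unfold ee; rw [if_pos hy2]
  rw [v1, v2, v3, v4, v5, e1]
  have v6 := le_abs_self (F (put x ζ) - F η)
  linarith

end Parts

/-- indicator of occupation -/
noncomputable def occ (x : ℤ) (η : Conf) : ℝ := if η x = true then 1 else 0

/-- indicator of vacancy -/
noncomputable def vac (x : ℤ) (η : Conf) : ℝ := if η x = true then 0 else 1

lemma occ_nonneg (x : ℤ) (η : Conf) : 0 ≤ occ x η := by unfold occ; split_ifs <;> norm_num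
lemma vac_nonneg (x : ℤ) (η : Conf) : 0 ≤ vac x η := by unfold vac; split_ifs <;> norm_num
lemma occ_of {x : ℤ} {η : Conf} (h : η x = true) : occ x η = 1 := by unfold occ; rw [if_pos h]
lemma vac_of {x : ℤ} {η : Conf} (h : ¬ η x = true) : vac x η = 1 := by unfold vac; rw [if_neg h]

namespace Parts

variable {F FL FR : Conf → ℝ} (P : Parts n F FL FR)

include P

/-- first inequality -/
lemma ptI (z : Conf × Conf) (hz : z ∈ Ord) (x y u : ℤ) (hx : x ∈ Lam n) (hy : y ∈ Lam n)
    (hu : u ∈ Lam n) (huy : u < y) (hxu : x ≠ u) :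
    ee F y z.1 ≤ dd F x z.1 + |F (mv y x z.1) - F z.1| + dd FL u z.1 +
      (dd FL x z.2 - dd FL x z.1) + 2 * (occ x z.1 + vac y z.1 + occ u z.1 + vac u z.2 +
        occ x z.2) := by
  have a1 := dd_nonneg P.mF x hx z.1
  have a2 := abs_nonneg (F (mv y x z.1) - F z.1)
  have a3 := dd_nonneg P.mL u hu z.1
  have a4 := dd_nonneg P.mL x hx z.2
  have a5 := P.dL_le x hx z.1
  have a6 := ee_le zero_le_one (P.dF_le y hy) z.1
  have b1 := occ_nonneg x z.1
  have b2 := vac_nonneg y z.1
  have b3 := occ_nonneg u z.1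
  have b4 := vac_nonneg u z.2
  have b5 := occ_nonneg x z.2
  by_cases h1 : z.1 y = true
  · by_cases h2 : z.1 x = true
    · rw [occ_of h2] at b1 ⊢; linarith
    · by_cases h3 : z.1 u = true
      · rw [occ_of h3] at b3 ⊢; linarith
      · by_cases h4 : z.2 u = true
        · by_cases h5 : z.2 x = true
          · rw [occ_of h5] at b5 ⊢; linarith
          · have := P.ptI0 z hz x y u hx hy hu huy hxu h1 (by simpa using h2)
              (by simpa using h3) h4 (by simpa using h5)
            linarith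
        · rw [vac_of h4] at b4 ⊢; linarith
  · rw [vac_of h1] at b2 ⊢; linarith

/-- second inequality -/
lemma ptII (z : Conf × Conf) (hz : z ∈ Ord) (x y u : ℤ) (hx : x ∈ Lam n) (hy : y ∈ Lam n)
    (hu : u ∈ Lam n) (huy : u < y) (hxu : x ≤ u) :
    dd F x z.1 ≤ ee F y z.1 + |F (mv y x z.1) - F z.1| + dd FR u z.1 +
      (ee FR y z.1 - ee FR y z.2) + 2 * (occ x z.1 + vac y z.1 + occ u z.1 + vac u z.2) := by
  have a1 := P.dF_le x hx z.1
  have a2 := abs_nonneg (F (mv y x z.1) - F z.1)
  have a3 := dd_nonneg P.cR.mono u hu z.1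
  have a4 := ee_nonneg P.cR.mono y hy z.1
  have a5 := ee_le zero_le_one (P.dR_le y hy) z.2
  have a6 := ee_nonneg P.mF y hy z.1
  have b1 := occ_nonneg x z.1
  have b2 := vac_nonneg y z.1
  have b3 := occ_nonneg u z.1
  have b4 := vac_nonneg u z.2
  by_cases h1 : z.1 y = true
  · by_cases h2 : z.1 x = true
    · rw [occ_of h2] at b1 ⊢; linarith
    · by_cases h3 : z.1 u = true
      · rw [occ_of h3] at b3 ⊢; linarith
      · by_cases h4 : z.2 u = true
        · have := P.ptII0 z hz x y u hx hy hu huy hxu h1 (by simpa using h2)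
              (by simpa using h3) h4
          linarith
        · rw [vac_of h4] at b4 ⊢; linarith
  · rw [vac_of h1] at b2 ⊢; linarith

end Parts

end G1
end Pool.Agent.N959.EX
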