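import Pool.Agent.N959.EX.G1

/-! # Integrated step inequalities -/

set_option autoImplicit false

open MeasureTheory Filter Topology

namespace Pool.Agent.N959.EX
namespace G2

open Fin1 Pool.Agent.N959.EX.Fin2 Pool.Agent.N959.EX.Fin3 Pool.Agent.N959.EX.Fin4
  Pool.Agent.N959.EX.Fin5 Pool.Agent.N959.EX.Fin6 Pool.Agent.N959.EX.G1

variable {p : ℤ → ℝ} {n : ℕ} {h : ℝ}

/-! ### closure properties -/

section dep

variable {f g : Conf → ℝ}

lemma dep_add (hf : Dep n f) (hg : Dep n g) : Dep n (fun η => f η + g η) := by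
  intro η ζ h
  simp only [hf η ζ h, hg η ζ h]

lemma dep_sub (hf : Dep n f) (hg : Dep n g) : Dep n (fun η => f η - g η) := by
  intro η ζ h
  simp only [hf η ζ h, hg η ζ h]

lemma dep_cmul (c : ℝ) (hf : Dep n f) : Dep n (fun η => c * f η) := by
  intro η ζ h
  simp only [hf η ζ h]

lemma dep_abs (hf : Dep n f) : Dep n (fun η => |f η|) := by
  intro η ζ h
  simp only [hf η ζ h]

lemma dep_pow (hf : Dep n f) (k : ℕ) : Dep n (fun η => f η ^ k) := by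
  intro η ζ h
  simp only [hf η ζ h]

lemma dep_mv (hf : Dep n f) (x y : ℤ) (hx : x ∈ Lam n) (hy : y ∈ Lam n) :
    Dep n (fun η => f (mv x y η)) := by
  intro η ζ h
  exact hf _ _ (mv_congr x y hx hy h)

lemma dep_occ (x : ℤ) (hx : x ∈ Lam n) : Dep n (occ x) := Dep_ind x hx

lemma dep_vac' (x : ℤ) (hx : x ∈ Lam n) : Dep n (vac x) := dep_vac x hx

variable {μ : Measure Conf}

lemma int_add [IsFiniteMeasure μ] (hf : Dep n f) (hg : Dep n g) :
    ∫ η, (f η + g η) ∂μ = ∫ η, f η ∂μ + ∫ η, g η ∂μ :=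
  integral_add (dep_integrable hf μ) (dep_integrable hg μ)

lemma int_sub [IsFiniteMeasure μ] (hf : Dep n f) (hg : Dep n g) :
    ∫ η, (f η - g η) ∂μ = ∫ η, f η ∂μ - ∫ η, g η ∂μ :=
  integral_sub (dep_integrable hf μ) (dep_integrable hg μ)

lemma int_occ [IsFiniteMeasure μ] (x : ℤ) : ∫ η, occ x η ∂μ = rho μ x := integral_ind μ x

lemma int_vac' [IsProbabilityMeasure μ] (x : ℤ) (hx : x ∈ Lam n) :
    ∫ η, vac x η ∂μ = 1 - rho μ x := int_vac μ x hx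

end dep

variable {μ ν : Measure Conf} {π : Measure (Conf × Conf)}

/-- comparison of integrals through an ordered coupling -/
lemma int_cpl (hπ : Cpl μ ν π) {f A B : Conf → ℝ} (hf : Dep n f) (hA : Dep n A) (hB : Dep n B)
    (hle : ∀ z : Conf × Conf, z ∈ Ord → f z.1 ≤ A z.1 + B z.2) :
    ∫ η, f η ∂μ ≤ ∫ η, A η ∂μ + ∫ η, B η ∂ν := by
  have := hπ.prob
  rw [← int_fst hπ hf, ← int_fst hπ hA, ← int_snd hπ hB,
    ← integral_add (integrable_fst hπ hA) (integrable_snd hπ hB)]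
  apply integral_mono_ae (integrable_fst hπ hf)
    ((integrable_fst hπ hA).add (integrable_snd hπ hB))
  filter_upwards [hπ.ord] with z hz
  exact hle z hz

variable {F FL FR : Conf → ℝ}

lemma intI [IsProbabilityMeasure μ] [IsProbabilityMeasure ν] (hπ : Cpl μ ν π)
    (P : Parts n F FL FR) (x y u : ℤ) (hx : x ∈ Lam n)
    (hy : y ∈ Lam n) (hu : u ∈ Lam n) (huy : u < y) (hxu : x ≠ u) :
    ∫ η, ee F y η ∂μ ≤ ∫ η, dd F x η ∂μ + ∫ η, |F (mv y x η) - F η| ∂μ + ∫ η, dd FL u η ∂μ +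
      (∫ η, dd FL x η ∂ν - ∫ η, dd FL x η ∂μ) +
      2 * (rho μ x + (1 - rho μ y) + rho μ u + (1 - rho ν u) + rho ν x) := by
  have d1 := dep_ee P.dF y hy
  have d2 := dep_dd P.dF x hx
  have d3 := dep_abs (dep_sub (dep_mv P.dF y x hy hx) P.dF)
  have d4 := dep_dd P.dL u hu
  have d5 := dep_dd P.dL x hx
  have h1 := int_cpl hπ d1
    (dep_add (dep_sub (dep_add (dep_add d2 d3) d4) d5) (dep_cmul 2 (dep_add (dep_add
      (dep_occ x hx) (dep_vac' y hy)) (dep_occ u hu))))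
    (dep_add d5 (dep_cmul 2 (dep_add (dep_vac' u hu) (dep_occ x hx))))
    (fun z hz => by
      have := P.ptI z hz x y u hx hy hu huy hxu
      linarith)
  rw [int_add (dep_sub (dep_add (dep_add d2 d3) d4) d5) (dep_cmul 2 (dep_add (dep_add
      (dep_occ x hx) (dep_vac' y hy)) (dep_occ u hu))), int_sub (dep_add (dep_add d2 d3) d4) d5,
    int_add (dep_add d2 d3) d4, int_add d2 d3, integral_const_mul,
    int_add (dep_add (dep_occ x hx) (dep_vac' y hy)) (dep_occ u hu),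
    int_add (dep_occ x hx) (dep_vac' y hy), int_occ, int_vac' y hy, int_occ,
    int_add d5 (dep_cmul 2 (dep_add (dep_vac' u hu) (dep_occ x hx))), integral_const_mul,
    int_add (dep_vac' u hu) (dep_occ x hx), int_vac' u hu, int_occ] at h1
  linarith

lemma intII [IsProbabilityMeasure μ] [IsProbabilityMeasure ν] (hπ : Cpl μ ν π)
    (P : Parts n F FL FR) (x y u : ℤ) (hx : x ∈ Lam n)
    (hy : y ∈ Lam n) (hu : u ∈ Lam n) (huy : u < y) (hxu : x ≤ u) :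
    ∫ η, dd F x η ∂μ ≤ ∫ η, ee F y η ∂μ + ∫ η, |F (mv y x η) - F η| ∂μ + ∫ η, dd FR u η ∂μ +
      (∫ η, ee FR y η ∂μ - ∫ η, ee FR y η ∂ν) +
      2 * (rho μ x + (1 - rho μ y) + rho μ u + (1 - rho ν u)) := by
  have d1 := dep_dd P.dF x hx
  have d2 := dep_ee P.dF y hy
  have d3 := dep_abs (dep_sub (dep_mv P.dF y x hy hx) P.dF)
  have d4 := dep_dd P.dR u hu
  have d5 := dep_ee P.dR y hy
  have h1 := int_cpl hπ d1
    (dep_add (dep_add (dep_add (dep_add d2 d3) d4) d5) (dep_cmul 2 (dep_add (dep_add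
      (dep_occ x hx) (dep_vac' y hy)) (dep_occ u hu))))
    (dep_sub (dep_cmul 2 (dep_vac' u hu)) d5)
    (fun z hz => by
      have := P.ptII z hz x y u hx hy hu huy hxu
      linarith)
  rw [int_add (dep_add (dep_add (dep_add d2 d3) d4) d5) (dep_cmul 2 (dep_add (dep_add
      (dep_occ x hx) (dep_vac' y hy)) (dep_occ u hu))), int_add (dep_add (dep_add d2 d3) d4) d5,
    int_add (dep_add d2 d3) d4, int_add d2 d3, integral_const_mul,
    int_add (dep_add (dep_occ x hx) (dep_vac' y hy)) (dep_occ u hu),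
    int_add (dep_occ x hx) (dep_vac' y hy), int_occ, int_vac' y hy, int_occ,
    int_sub (dep_cmul 2 (dep_vac' u hu)) d5, integral_const_mul, int_vac' u hu] at h1
  linarith

/-! ### averages -/

/-- average -/
noncomputable def av (X : Finset ℤ) (f : ℤ → ℝ) : ℝ := (X.card : ℝ)⁻¹ * ∑ x ∈ X, f x

lemma av_mono {X : Finset ℤ} {f g : ℤ → ℝ} (h : ∀ x ∈ X, f x ≤ g x) : av X f ≤ av X g :=
  mul_le_mul_of_nonneg_left (Finset.sum_le_sum h) (inv_nonneg.2 (Nat.cast_nonneg _))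

lemma av_const {X : Finset ℤ} (hX : X.Nonempty) (c : ℝ) : av X (fun _ => c) = c := by
  unfold av
  rw [Finset.sum_const, nsmul_eq_mul]
  have : (X.card : ℝ) ≠ 0 := by
    have := Finset.card_pos.2 hX
    exact_mod_cast this.ne'
  field_simp

lemma av_add (X : Finset ℤ) (f g : ℤ → ℝ) : av X (fun x => f x + g x) = av X f + av X g := by
  unfold av
  rw [Finset.sum_add_distrib, mul_add]

lemma av_sub (X : Finset ℤ) (f g : ℤ → ℝ) : av X (fun x => f x - g x) = av X f - av X g := by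
  unfold av
  rw [Finset.sum_sub_distrib, mul_sub]

lemma av_cmul (X : Finset ℤ) (c : ℝ) (f : ℤ → ℝ) : av X (fun x => c * f x) = c * av X f := by
  unfold av
  rw [← Finset.mul_sum]
  ring

lemma av_le_const {X : Finset ℤ} (hX : X.Nonempty) {f : ℤ → ℝ} {c : ℝ} (h : ∀ x ∈ X, f x ≤ c) :
    av X f ≤ c := (av_mono h).trans (av_const hX c).le

lemma const_le_av {X : Finset ℤ} (hX : X.Nonempty) {f : ℤ → ℝ} {c : ℝ} (h : ∀ x ∈ X, c ≤ f x) :
    c ≤ av X f := (av_const hX c).ge.trans (av_mono h)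

/-- energy estimate for averages -/
lemma energy (hp : Ker p) [IsProbabilityMeasure μ] (hF : Dep n F) (X Z : Finset ℤ)
    (hXn : X ⊆ Lam n) (hZn : Z ⊆ Lam n) (hX : X.Nonempty) (hZ : Z.Nonempty) (κ : ℝ) (hκ : 0 < κ)
    (hr : ∀ x ∈ X, ∀ y ∈ Z, κ ≤ p (x - y)) (ε : ℝ) (hε : 0 < ε) :
    av X (fun x => av Z fun y => ∫ η, |F (mv y x η) - F η| ∂μ) ≤
      ε + (∫ η, Gam p n F η ∂μ) / (ε * κ * (X.card * Z.card)) := by
  have hXc : (0 : ℝ) < X.card := by exact_mod_cast Finset.card_pos.2 hX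
  have hZc : (0 : ℝ) < Z.card := by exact_mod_cast Finset.card_pos.2 hZ
  have dD : ∀ x ∈ X, ∀ y ∈ Z, Dep n (fun η => F (mv y x η) - F η) := fun x hx y hy =>
    dep_sub (dep_mv hF y x (hZn hy) (hXn hx)) hF
  -- absolute value versus square
  have h1 : ∀ x ∈ X, ∀ y ∈ Z, ∫ η, |F (mv y x η) - F η| ∂μ ≤
      ε + ε⁻¹ * ∫ η, (F (mv y x η) - F η) ^ 2 ∂μ := by
    intro x hx y hy
    have i1 := dep_integrable (dep_abs (dD x hx y hy)) μ
    have i2 := dep_integrable (dep_pow (dD x hx y hy) 2) μ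
    have i3 : Integrable (fun η => ε + ε⁻¹ * (F (mv y x η) - F η) ^ 2) μ :=
      (integrable_const _).add (i2.const_mul _)
    have h2 := integral_mono i1 i3 (fun η => by
      simp only
      by_cases h3 : |F (mv y x η) - F η| ≤ ε
      · have : 0 ≤ ε⁻¹ * (F (mv y x η) - F η) ^ 2 := by positivity
        linarith
      · have h4 : ε ≤ |F (mv y x η) - F η| := (not_le.1 h3).le
        have h5 : |F (mv y x η) - F η| ≤ ε⁻¹ * (F (mv y x η) - F η) ^ 2 := by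
          rw [← sq_abs (F (mv y x η) - F η), inv_mul_eq_div, le_div_iff₀ hε, sq]
          exact mul_le_mul_of_nonneg_left h4 (abs_nonneg _)
        linarith)
    rw [integral_add (integrable_const _) (i2.const_mul _), integral_const_mul] at h2
    simpa using h2
  -- the total energy
  have h6 : κ * ∑ x ∈ X, ∑ y ∈ Z, ∫ η, (F (mv y x η) - F η) ^ 2 ∂μ ≤ ∫ η, Gam p n F η ∂μ := by
    have e1 : κ * ∑ x ∈ X, ∑ y ∈ Z, ∫ η, (F (mv y x η) - F η) ^ 2 ∂μ =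
        ∫ η, κ * ∑ x ∈ X, ∑ y ∈ Z, (F (mv y x η) - F η) ^ 2 ∂μ := by
      rw [integral_const_mul, integral_finsetSum]
      · congr 1
        refine Finset.sum_congr rfl fun x hx => ?_
        rw [integral_finsetSum]
        exact fun y hy => dep_integrable (dep_pow (dD x hx y hy) 2) μ
      · exact fun x hx => integrable_finsetSum _ fun y hy =>
          dep_integrable (dep_pow (dD x hx y hy) 2) μ
    rw [e1]
    apply integral_mono
    · exact (integrable_finsetSum _ fun x hx => integrable_finsetSum _ fun y hy =>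
          dep_integrable (dep_pow (dD x hx y hy) 2) μ).const_mul _
    · exact dep_integrable (dep_Gam hF) μ
    intro η
    simp only
    calc κ * ∑ x ∈ X, ∑ y ∈ Z, (F (mv y x η) - F η) ^ 2 =
          ∑ y ∈ Z, ∑ x ∈ X, κ * (F (mv y x η) - F η) ^ 2 := by
          rw [Finset.sum_comm, Finset.mul_sum]
          exact Finset.sum_congr rfl fun y _ => Finset.mul_sum _ _ _
      _ ≤ ∑ y ∈ Z, ∑ x ∈ X, p (x - y) * (F (mv y x η) - F η) ^ 2 :=
          Finset.sum_le_sum fun y hy => Finset.sum_le_sum fun x hx =>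
            mul_le_mul_of_nonneg_right (hr x hx y hy) (sq_nonneg _)
      _ ≤ ∑ y ∈ Z, ∑ x ∈ Lam n, p (x - y) * (F (mv y x η) - F η) ^ 2 :=
          Finset.sum_le_sum fun y _ => Finset.sum_le_sum_of_subset_of_nonneg hXn
              fun x _ _ => mul_nonneg (hp.nonneg _) (sq_nonneg _)
      _ ≤ Gam p n F η := Finset.sum_le_sum_of_subset_of_nonneg hZn
              fun z _ _ => Finset.sum_nonneg fun x _ => mul_nonneg (hp.nonneg _) (sq_nonneg _)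
  have h7 : av X (fun x => av Z fun y => ∫ η, |F (mv y x η) - F η| ∂μ) ≤
      av X (fun x => av Z fun y => ε + ε⁻¹ * ∫ η, (F (mv y x η) - F η) ^ 2 ∂μ) :=
    av_mono fun x hx => av_mono fun y hy => h1 x hx y hy
  refine h7.trans ?_
  have h8 : av X (fun x => av Z fun y => ε + ε⁻¹ * ∫ η, (F (mv y x η) - F η) ^ 2 ∂μ) =
      ε + ε⁻¹ * ((X.card : ℝ)⁻¹ * (Z.card : ℝ)⁻¹ *
        ∑ x ∈ X, ∑ y ∈ Z, ∫ η, (F (mv y x η) - F η) ^ 2 ∂μ) := by
    have e2 : ∀ x : ℤ, av Z (fun y => ε + ε⁻¹ * ∫ η, (F (mv y x η) - F η) ^ 2 ∂μ) =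
        ε + ε⁻¹ * av Z (fun y => ∫ η, (F (mv y x η) - F η) ^ 2 ∂μ) := by
      intro x
      rw [av_add, av_const hZ, av_cmul]
    simp only [e2]
    rw [av_add, av_const hX, av_cmul]
    congr 2
    unfold av
    rw [← Finset.mul_sum]
    ring
  rw [h8]
  have h9 : ε⁻¹ * ((X.card : ℝ)⁻¹ * (Z.card : ℝ)⁻¹ *
        ∑ x ∈ X, ∑ y ∈ Z, ∫ η, (F (mv y x η) - F η) ^ 2 ∂μ) ≤
        (∫ η, Gam p n F η ∂μ) / (ε * κ * (X.card * Z.card)) := by
    rw [le_div_iff₀ (by positivity)]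
    have e3 : ε⁻¹ * ((X.card : ℝ)⁻¹ * (Z.card : ℝ)⁻¹ *
        ∑ x ∈ X, ∑ y ∈ Z, ∫ η, (F (mv y x η) - F η) ^ 2 ∂μ) * (ε * κ * (X.card * Z.card)) =
        κ * ∑ x ∈ X, ∑ y ∈ Z, ∫ η, (F (mv y x η) - F η) ^ 2 ∂μ := by
      field_simp
    rw [e3]
    exact h6
  linarith

/-- first step: from the right to the left -/
lemma stepI (hp : Ker p) [IsProbabilityMeasure μ] [IsProbabilityMeasure ν] (hπ : Cpl μ ν π)
    (P : Parts n F FL FR) (X Z : Finset ℤ) (hXn : X ⊆ Lam n) (hZn : Z ⊆ Lam n)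
    (hX : X.Nonempty) (hZ : Z.Nonempty) (κ : ℝ) (hκ : 0 < κ)
    (hr : ∀ x ∈ X, ∀ y ∈ Z, κ ≤ p (x - y)) (ε : ℝ) (hε : 0 < ε) (u : ℤ) (hu : u ∈ Lam n)
    (hXu : ∀ x ∈ X, x ≠ u) (hZu : ∀ y ∈ Z, u < y) (δ : ℝ)
    (h1 : ∀ x ∈ X, rho μ x ≤ δ) (h2 : ∀ y ∈ Z, 1 - rho μ y ≤ δ) (h3 : rho μ u ≤ δ)
    (h4 : 1 - rho ν u ≤ δ) (h5 : ∀ x ∈ X, rho ν x ≤ δ) :
    av Z (fun y => ∫ η, ee F y η ∂μ) ≤ av X (fun x => ∫ η, dd F x η ∂μ) +
      (ε + (∫ η, Gam p n F η ∂μ) / (ε * κ * (X.card * Z.card))) + ∫ η, dd FL u η ∂μ +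
      (av X (fun x => ∫ η, dd FL x η ∂ν) - av X (fun x => ∫ η, dd FL x η ∂μ)) + 10 * δ := by
  have a1 := energy (μ := μ) hp P.dF X Z hXn hZn hX hZ κ hκ hr ε hε
  have a2 : ∀ x ∈ X, av Z (fun y => ∫ η, ee F y η ∂μ) ≤ (∫ η, dd F x η ∂μ) +
      av Z (fun y => ∫ η, |F (mv y x η) - F η| ∂μ) +
      ((∫ η, dd FL u η ∂μ) + (∫ η, dd FL x η ∂ν - ∫ η, dd FL x η ∂μ) + 10 * δ) := by
    intro x hx
    have e1 : (∫ η, dd F x η ∂μ) + av Z (fun y => ∫ η, |F (mv y x η) - F η| ∂μ) +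
      ((∫ η, dd FL u η ∂μ) + (∫ η, dd FL x η ∂ν - ∫ η, dd FL x η ∂μ) + 10 * δ) =
      av Z (fun y => ∫ η, |F (mv y x η) - F η| ∂μ + ((∫ η, dd F x η ∂μ) +
        ((∫ η, dd FL u η ∂μ) + (∫ η, dd FL x η ∂ν - ∫ η, dd FL x η ∂μ) + 10 * δ))) := by
      rw [av_add, av_const hZ]
      ring
    rw [e1]
    refine av_mono fun y hy => ?_
    have := intI hπ P x y u (hXn hx) (hZn hy) hu (hZu y hy) (hXu x hx)
    linarith [h1 x hx, h2 y hy, h5 x hx]
  have a3 := const_le_av hX a2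
  have e2 : av X (fun x => (∫ η, dd F x η ∂μ) +
      av Z (fun y => ∫ η, |F (mv y x η) - F η| ∂μ) +
      ((∫ η, dd FL u η ∂μ) + (∫ η, dd FL x η ∂ν - ∫ η, dd FL x η ∂μ) + 10 * δ)) =
      av X (fun x => ∫ η, dd F x η ∂μ) +
      av X (fun x => av Z fun y => ∫ η, |F (mv y x η) - F η| ∂μ) + (∫ η, dd FL u η ∂μ +
      (av X (fun x => ∫ η, dd FL x η ∂ν) - av X (fun x => ∫ η, dd FL x η ∂μ)) + 10 * δ) := by
    rw [av_add, av_add, av_add, av_add, av_const hX, av_const hX, av_sub]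
  rw [e2] at a3
  linarith

/-- second step: from the left to the right -/
lemma stepII (hp : Ker p) [IsProbabilityMeasure μ] [IsProbabilityMeasure ν] (hπ : Cpl μ ν π)
    (P : Parts n F FL FR) (X Z : Finset ℤ) (hXn : X ⊆ Lam n) (hZn : Z ⊆ Lam n)
    (hX : X.Nonempty) (hZ : Z.Nonempty) (κ : ℝ) (hκ : 0 < κ)
    (hr : ∀ x ∈ X, ∀ y ∈ Z, κ ≤ p (x - y)) (ε : ℝ) (hε : 0 < ε) (u : ℤ) (hu : u ∈ Lam n)
    (hXu : ∀ x ∈ X, x ≤ u) (hZu : ∀ y ∈ Z, u < y) (δ : ℝ)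
    (h1 : ∀ x ∈ X, rho μ x ≤ δ) (h2 : ∀ y ∈ Z, 1 - rho μ y ≤ δ) (h3 : rho μ u ≤ δ)
    (h4 : 1 - rho ν u ≤ δ) :
    av X (fun x => ∫ η, dd F x η ∂μ) ≤ av Z (fun y => ∫ η, ee F y η ∂μ) +
      (ε + (∫ η, Gam p n F η ∂μ) / (ε * κ * (X.card * Z.card))) + ∫ η, dd FR u η ∂μ +
      (av Z (fun y => ∫ η, ee FR y η ∂μ) - av Z (fun y => ∫ η, ee FR y η ∂ν)) + 8 * δ := by
  have a1 := energy (μ := μ) hp P.dF X Z hXn hZn hX hZ κ hκ hr ε hε
  have a2 : ∀ x ∈ X, ∫ η, dd F x η ∂μ ≤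
      av Z (fun y => ∫ η, |F (mv y x η) - F η| ∂μ) + (av Z (fun y => ∫ η, ee F y η ∂μ) +
      ((∫ η, dd FR u η ∂μ) + (av Z (fun y => ∫ η, ee FR y η ∂μ) -
        av Z (fun y => ∫ η, ee FR y η ∂ν)) + 8 * δ)) := by
    intro x hx
    have e1 : av Z (fun y => ∫ η, |F (mv y x η) - F η| ∂μ) +
      (av Z (fun y => ∫ η, ee F y η ∂μ) + ((∫ η, dd FR u η ∂μ) +
        (av Z (fun y => ∫ η, ee FR y η ∂μ) - av Z (fun y => ∫ η, ee FR y η ∂ν)) + 8 * δ)) =
      av Z (fun y => ∫ η, |F (mv y x η) - F η| ∂μ + (∫ η, ee F y η ∂μ +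
        (((∫ η, dd FR u η ∂μ) + 8 * δ) + (∫ η, ee FR y η ∂μ - ∫ η, ee FR y η ∂ν)))) := by
      rw [av_add, av_add, av_add, av_const hZ, av_sub]
      ring
    rw [e1]
    refine const_le_av hZ fun y hy => ?_
    have := intII hπ P x y u (hXn hx) (hZn hy) hu (hZu y hy) (hXu x hx)
    linarith [h1 x hx, h2 y hy]
  have a3 := av_mono a2
  rw [av_add, av_const hX] at a3
  linarith

end G2
end Pool.Agent.N959.EX
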