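import Pool.Agent.N959.EX.G2
import Pool.Agent.N959.EX.Fin7

/-! # The chain over the scales -/

set_option autoImplicit false

open MeasureTheory Filter Topology

namespace Pool.Agent.N959.EX
namespace G3

open Fin1 Pool.Agent.N959.EX.Fin2 Pool.Agent.N959.EX.Fin3 Pool.Agent.N959.EX.Fin4
  Pool.Agent.N959.EX.Fin5 Pool.Agent.N959.EX.Fin6 Pool.Agent.N959.EX.Fin7
  Pool.Agent.N959.EX.G1 Pool.Agent.N959.EX.G2

variable {p : ℤ → ℝ} {n : ℕ} {h : ℝ} {μ : Measure Conf}

/-! ### shifts -/

lemma tau_tau (a b : ℤ) (η : Conf) : tau a (tau b η) = tau (a + b) η := by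
  funext x
  simp only [tau]
  congr 1
  ring

lemma map_tau_tau (μ : Measure Conf) (a b : ℤ) :
    (μ.map (tau b)).map (tau a) = μ.map (tau (a + b)) := by
  rw [Measure.map_map (tau_meas a) (tau_meas b)]
  congr 1
  funext η
  exact tau_tau a b η

lemma Hyp_shift (H : Hyp p μ) (a : ℕ) : Hyp p (μ.map (tau a)) := by
  have hprob := H.prob
  have hpt := H.probtau a
  refine ⟨H.cone, H.disp, H.apx, H.rn, H.tau, H.ker, H.uni, hpt,
    ⟨H.tau p H.ker μ a inferInstance H.ordered.stat, profile_tau H a, ?_⟩⟩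
  intro m
  obtain ⟨π, h1, h2, h3, h4⟩ := H.ordered.ord m
  have hm : Measurable (fun z : Conf × Conf => (tau a z.1, tau a z.2)) :=
    ((tau_meas a).comp measurable_fst).prodMk ((tau_meas a).comp measurable_snd)
  refine ⟨π.map (fun z => (tau a z.1, tau a z.2)), Measure.isProbabilityMeasure_map hm.aemeasurable,
    ?_, ?_, ?_⟩
  · rw [Measure.map_map measurable_fst hm, ← h2, Measure.map_map (tau_meas a) measurable_fst]
    rfl
  · rw [Measure.map_map measurable_snd hm, map_tau_tau, add_comm, ← map_tau_tau, ← h3,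
      Measure.map_map (tau_meas a) measurable_snd]
    rfl
  · have hO : MeasurableSet (Ord : Set (Conf × Conf)) := by
      have : (Ord : Set (Conf × Conf)) = ⋂ x : ℤ, {z | z.1 x = true → z.2 x = true} := by
        ext z; simp [Ord]
      rw [this]
      refine MeasurableSet.iInter fun x => ?_
      have e : {z : Conf × Conf | z.1 x = true → z.2 x = true} =
          {z : Conf × Conf | z.1 x = true}ᶜ ∪ {z : Conf × Conf | z.2 x = true} := by
        ext z
        simp only [Set.mem_union, Set.mem_compl_iff, Set.mem_ofPred_eq]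
        tauto
      rw [e]
      exact (measurableSet_eq_fun ((measurable_pi_apply x).comp measurable_fst)
        measurable_const).compl.union
        (measurableSet_eq_fun ((measurable_pi_apply x).comp measurable_snd) measurable_const)
    refine (ae_map_iff (p := fun z => z ∈ (Ord : Set (Conf × Conf))) hm.aemeasurable hO).2 ?_
    filter_upwards [h4] with z hz
    intro x hx
    exact hz _ hx

/-- the shifted measures -/
noncomputable def ms (μ : Measure Conf) (m0 s : ℕ) : Measure Conf := μ.map (tau ((s * m0 : ℕ) : ℤ))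

lemma rho_ms (μ : Measure Conf) (m0 s : ℕ) (x : ℤ) :
    rho (ms μ m0 s) x = rho μ (x + s * m0) := by
  unfold ms
  rw [rho_tau]
  push_cast
  rfl

lemma ms_succ (μ : Measure Conf) (m0 s : ℕ) :
    (ms μ m0 s).map (tau (m0 : ℤ)) = ms μ m0 (s + 1) := by
  unfold ms
  rw [map_tau_tau]
  congr 2
  push_cast
  ring

lemma Hyp_ms (H : Hyp p μ) (m0 s : ℕ) : Hyp p (ms μ m0 s) := Hyp_shift H _

lemma cpl_ms (H : Hyp p μ) (m0 s : ℕ) : ∃ π, Cpl (ms μ m0 s) (ms μ m0 (s + 1)) π := by
  rw [← ms_succ]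
  exact (Hyp_ms H m0 s).cpl m0

/-! ### the three parts -/

lemma parts (hcone : S_CONE) (hp : Ker p) (hu : Uni p) (hs : Small p n h) (k : ℕ) (a R : ℤ)
    (ha : -(n : ℤ) ≤ a) (haR : a ≤ R + 1) (hR : R ≤ n) :
    Parts n ((KK mv p n h)^[k] (cnt (Finset.Icc a R)))
      ((KK mv p n h)^[k] (cnt (Finset.Ico (-(n : ℤ)) a)))
      ((KK mv p n h)^[k] (cnt (Finset.Ioc R n))) := by
  have hA : Finset.Ico (-(n : ℤ)) a ⊆ Lam n := by
    intro x hx
    simp only [Lam, Finset.mem_Icc, Finset.mem_Ico] at hx ⊢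
    omega
  have hB : Finset.Icc a R ⊆ Lam n := by
    intro x hx
    simp only [Lam, Finset.mem_Icc] at hx ⊢
    omega
  have hC : Finset.Ioc R (n : ℤ) ⊆ Lam n := by
    intro x hx
    simp only [Lam, Finset.mem_Icc, Finset.mem_Ioc] at hx ⊢
    omega
  have hBn : Finset.Icc a (n : ℤ) ⊆ Lam n := by
    intro x hx
    simp only [Lam, Finset.mem_Icc] at hx ⊢
    omega
  have hcomp : Lam n \ Finset.Ico (-(n : ℤ)) a = Finset.Icc a (n : ℤ) := by
    ext x
    simp only [Lam, Finset.mem_sdiff, Finset.mem_Icc, Finset.mem_Ico]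
    omega
  have e0 : ∀ η, cnt (Lam n) η = cnt (Finset.Ico (-(n : ℤ)) a) η + cnt (Finset.Icc a R) η +
      cnt (Finset.Ioc R (n : ℤ)) η := by
    intro η
    rw [← cnt_split, ← cnt_split]
    · congr 1
      ext z
      simp only [Lam, Finset.mem_union, Finset.mem_Icc, Finset.mem_Ico, Finset.mem_Ioc]
      omega
    · rw [Finset.disjoint_left]
      intro z
      simp only [Finset.mem_union, Finset.mem_Icc, Finset.mem_Ico, Finset.mem_Ioc]
      omega
    · rw [Finset.disjoint_left]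
      intro z
      simp only [Finset.mem_Icc, Finset.mem_Ico]
      omega
  have hup : ∀ w : ℤ, Cone n (cnt (Finset.Icc w (n : ℤ))) := by
    intro w
    constructor
    · exact cnt_mono n _
    · intro η u _ v hv hu0 hv0 huv
      have h3 := cnt_put (Finset.Icc w (n : ℤ)) η u hu0
      have h4 := cnt_put (Finset.Icc w (n : ℤ)) η v hv0
      have h5 : (if u ∈ Finset.Icc w (n : ℤ) then (1 : ℝ) else 0) ≤
          if v ∈ Finset.Icc w (n : ℤ) then 1 else 0 := by
        by_cases hu : u ∈ Finset.Icc w (n : ℤ)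
        · have : v ∈ Finset.Icc w (n : ℤ) := by
            simp only [Lam, Finset.mem_Icc] at hu hv ⊢
            omega
          simp [hu, this]
        · rw [if_neg hu]
          split_ifs <;> norm_num
      linarith
    · intro η u _ v _ hu0 hv0 huv
      have h3 := cnt_put (Finset.Icc w (n : ℤ)) η u hu0
      have h4 := cnt_put (Finset.Icc w (n : ℤ)) (put v η) u (by rw [put_ne huv]; exact hu0)
      linarith
  have hupk : ∀ w : ℤ, ∀ k : ℕ, Cone n ((KK mv p n h)^[k] (cnt (Finset.Icc w (n : ℤ)))) := by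
    intro w k
    induction k with
    | zero => exact hup w
    | succ k ih =>
      rw [Function.iterate_succ_apply']
      exact hcone p hu n h hs _ ih
  have hIoc : Finset.Ioc R (n : ℤ) = Finset.Icc (R + 1) (n : ℤ) := by
    ext x
    simp only [Finset.mem_Icc, Finset.mem_Ioc]
    omega
  have eL : ∀ η, (KK mv p n h)^[k] (cnt (Finset.Ico (-(n : ℤ)) a)) η =
      cnt (Lam n) η - (KK mv p n h)^[k] (cnt (Finset.Icc a (n : ℤ))) η := by
    intro η
    have := iter_compl (p := p) (h := h) (Finset.Ico (-(n : ℤ)) a) hA k η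
    rw [hcomp] at this
    linarith
  refine ⟨?_, dep_iter (Dep_cnt _ hB) k, dep_iter (Dep_cnt _ hA) k, dep_iter (Dep_cnt _ hC) k,
    (cnt_mono n _).iter hp.nonneg hs k, (cnt_mono n _).iter hp.nonneg hs k, ?_, ?_, ?_⟩
  · intro η
    have h1 := KK_iter_add (act := mv) (p := p) (n := n) (h := h) k
      (cnt (Finset.Ico (-(n : ℤ)) a)) (cnt (Finset.Icc a R))
    have h2 := KK_iter_add (act := mv) (p := p) (n := n) (h := h) k
      (fun η => cnt (Finset.Ico (-(n : ℤ)) a) η + cnt (Finset.Icc a R) η)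
      (cnt (Finset.Ioc R (n : ℤ)))
    rw [h1] at h2
    have h3 := congrFun h2 η
    rw [← funext e0, iter_cnt_Lam] at h3
    linarith
  · intro η u hu v hv hu0 hv0 huv
    rw [eL, eL, eL, eL]
    have h3 := (hupk a k).sub η u hu v hv hu0 hv0 huv
    have h4 := cnt_put (Lam n) η u hu0
    have h5 := cnt_put (Lam n) (put v η) u (by rw [put_ne huv]; exact hu0)
    linarith
  · intro η u hu v hv hu0 hv0 huv
    rw [eL, eL]
    have h3 := (hupk a k).right η u hu v hv hu0 hv0 huv
    have h4 := cnt_put (Lam n) η u hu0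
    have h5 := cnt_put (Lam n) η v hv0
    rw [if_pos hu] at h4
    rw [if_pos hv] at h5
    linarith
  · rw [hIoc]
    exact hupk (R + 1) k

/-! ### the chain -/

/-- abstract summation of the chain -/
lemma chain_sum (m M : ℕ) (hm : 1 ≤ m) (U : ℕ → ℝ) (Cc Aa CR AL : ℕ → ℕ → ℝ) (E b c : ℝ)
    (hE : 0 ≤ E)
    (hU : ∀ s < M, b ≤ U s)
    (h0 : ∀ s < M, U s ≤ Cc s 1 + E + (CR s 1 - CR (s + 1) 1))
    (h1 : ∀ s < M, ∀ q, 1 ≤ q → q < m → Cc s q ≤ Aa s q + E + (AL (s + 1) q - AL s q))
    (h2 : ∀ s < M, ∀ q, 1 ≤ q → q < m →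
      Aa s q ≤ Cc s (q + 1) + E + (CR s (q + 1) - CR (s + 1) (q + 1)))
    (hfin : ∀ s < M, Cc s m ≤ c)
    (hCR : ∀ q, 1 ≤ q → q ≤ m → CR 0 q ≤ 1 ∧ 0 ≤ CR M q)
    (hAL : ∀ q, 1 ≤ q → q ≤ m → AL M q ≤ 1 ∧ 0 ≤ AL 0 q) :
    M * b ≤ M * c + M * (2 * m * E) + 2 * m := by
  -- for each `s`
  have key : ∀ s < M, ∀ q, 1 ≤ q → q ≤ m → U s ≤ Cc s q + (CR s q - CR (s + 1) q) +
      ∑ i ∈ Finset.Ico 1 q, ((CR s i - CR (s + 1) i) + (AL (s + 1) i - AL s i)) +
      2 * q * E := by
    intro s hs q hq1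
    induction q, hq1 using Nat.le_induction with
    | base =>
      intro _
      have := h0 s hs
      simp only [Finset.Ico_self, Finset.sum_empty, Nat.cast_one]
      linarith
    | succ q hq1 ih =>
      intro hqm
      have a1 := ih (by omega)
      have a2 := h1 s hs q hq1 (by omega)
      have a3 := h2 s hs q hq1 (by omega)
      rw [Finset.sum_Ico_succ_top hq1]
      push_cast
      linarith
  have h3 : ∀ s ∈ Finset.range M, b ≤ c + (CR s m - CR (s + 1) m) +
      ∑ i ∈ Finset.Ico 1 m, ((CR s i - CR (s + 1) i) + (AL (s + 1) i - AL s i)) +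
      2 * m * E := by
    intro s hs
    have hs' := Finset.mem_range.1 hs
    have := key s hs' m hm le_rfl
    linarith [hU s hs', hfin s hs']
  have h4 := Finset.sum_le_sum h3
  rw [Finset.sum_const, Finset.card_range, nsmul_eq_mul] at h4
  have telA : ∀ f : ℕ → ℝ, ∑ s ∈ Finset.range M, (f s - f (s + 1)) = f 0 - f M := by
    intro f
    exact Finset.sum_range_sub' f M
  have telB : ∀ f : ℕ → ℝ, ∑ s ∈ Finset.range M, (f (s + 1) - f s) = f M - f 0 := by
    intro f
    exact Finset.sum_range_sub f M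
  rw [Finset.sum_add_distrib, Finset.sum_add_distrib, Finset.sum_add_distrib, Finset.sum_const,
    Finset.sum_const, Finset.card_range, nsmul_eq_mul, nsmul_eq_mul, telA (fun s => CR s m),
    Finset.sum_comm] at h4
  have h5 : ∑ i ∈ Finset.Ico 1 m, ∑ s ∈ Finset.range M,
      ((CR s i - CR (s + 1) i) + (AL (s + 1) i - AL s i)) ≤ ∑ i ∈ Finset.Ico 1 m, (2 : ℝ) := by
    refine Finset.sum_le_sum fun i hi => ?_
    have hi' := Finset.mem_Ico.1 hi
    rw [Finset.sum_add_distrib, telA (fun s => CR s i), telB (fun s => AL s i)]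
    have := hCR i hi'.1 hi'.2.le
    have := hAL i hi'.1 hi'.2.le
    linarith
  rw [Finset.sum_const, Nat.card_Ico, nsmul_eq_mul] at h5
  have h6 := hCR m hm le_rfl
  have h7 : ((m - 1 : ℕ) : ℝ) = m - 1 := by
    rw [Nat.cast_sub hm]; simp
  rw [h7] at h5
  linarith

end G3
end Pool.Agent.N959.EX
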