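import Pool.Agent.N959.EX.G3

/-! # The core estimate, multiscale version -/

set_option autoImplicit false

open MeasureTheory Filter Topology

namespace Pool.Agent.N959.EX
namespace G4

open Fin1 Pool.Agent.N959.EX.Fin2 Pool.Agent.N959.EX.Fin3 Pool.Agent.N959.EX.Fin4
  Pool.Agent.N959.EX.Fin5 Pool.Agent.N959.EX.Fin6 Pool.Agent.N959.EX.Fin7
  Pool.Agent.N959.EX.G1 Pool.Agent.N959.EX.G2 Pool.Agent.N959.EX.G3

variable {p : ℤ → ℝ} {n : ℕ} {h : ℝ} {μ : Measure Conf}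

lemma ev_sub (X : Finset ℤ) : ∀ᶠ n : ℕ in atTop, X ⊆ Lam n := by
  have : ∀ᶠ n : ℕ in atTop, ∀ x ∈ X, x ∈ Lam n := by
    rw [Filter.eventually_all_finset]
    intro x _
    filter_upwards [eventually_ge_atTop x.natAbs] with n hn
    simp only [Lam, Finset.mem_Icc]
    omega
  filter_upwards [this] with n hn x hx
  exact hn x hx

theorem core2 (H : Hyp p μ) (w0 a R : ℤ) (m0 M m : ℕ) (hM : 1 ≤ M) (hm : 1 ≤ m)
    (δ : ℝ) (hδ : 0 < δ) (g1 : rho μ w0 ≤ δ) (g2 : 1 - rho μ (w0 + m0) ≤ δ)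
    (g3 : m0 * (1 - rho μ R) ≤ δ) (g4 : m0 * rho μ (a + (M + 1) * m0) ≤ δ)
    (haw : a ≤ w0 - M * m0) (hwR : w0 ≤ R) (X Z : ℕ → Finset ℤ)
    (hX : ∀ q, 1 ≤ q → q ≤ m → (X q).Nonempty ∧
      ∀ x ∈ X q, x < w0 - M * m0 ∧ rho μ (x + (M + 1) * m0) ≤ δ)
    (hZ : ∀ q, 1 ≤ q → q ≤ m → (Z q).Nonempty ∧ ∀ y ∈ Z q, w0 < y ∧ 1 - rho μ y ≤ δ)
    (T : ℝ) (hT : 0 < T) (G0 : ℝ)
    (hG0 : G0 = 4 / 3 * (M * (((Finset.Icc a R).card : ℝ) ^ 2 + 1)))
    (r0 : ∃ κ > 0, (∀ s < M, ∀ y ∈ Z 1, κ ≤ p (w0 - (s : ℕ) * m0 - y)) ∧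
      G0 ≤ T * δ ^ 2 * κ * (Z 1).card)
    (rI : ∀ q, 1 ≤ q → q < m → ∃ κ > 0, (∀ x ∈ X q, ∀ y ∈ Z q, κ ≤ p (x - y)) ∧
      G0 ≤ T * δ ^ 2 * κ * ((X q).card * (Z q).card))
    (rII : ∀ q, 1 ≤ q → q < m → ∃ κ > 0, (∀ x ∈ X q, ∀ y ∈ Z (q + 1), κ ≤ p (x - y)) ∧
      G0 ≤ T * δ ^ 2 * κ * ((X q).card * (Z (q + 1)).card))
    (hfar : ∀ y ∈ Z m, (R : ℝ) + 20 * T * (2 * ∑' z : ℤ, |(z : ℝ)| * p z) ≤ y)
    (hC : 0 < 2 * ∑' z : ℤ, |(z : ℝ)| * p z) :
    M * (1 - 7 * δ) ≤ M * (1 / 10) + M * (2 * m * (16 * δ)) + 2 * m := by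
  have hprob := H.prob
  set C : ℝ := 2 * ∑' z : ℤ, |(z : ℝ)| * p z with hCdef
  set B : ℝ := ((Finset.Icc a R).card : ℝ) with hB
  have hHs : ∀ s, Hyp p (ms μ m0 s) := Hyp_ms H m0
  have hps : ∀ s, IsProbabilityMeasure (ms μ m0 s) := fun s => (hHs s).prob
  have hG0nn : 0 ≤ G0 := by rw [hG0]; positivity
  -- choice of the box
  obtain ⟨n, hn1, hn2, hn3, hn4, hn5, hn6, hn7⟩ : ∃ n : ℕ, (-(n : ℤ) ≤ a) ∧ (R ≤ n) ∧
      (∀ q ∈ Finset.range (m + 1), X q ⊆ Lam n) ∧ (∀ q ∈ Finset.range (m + 1), Z q ⊆ Lam n) ∧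
      (∀ s ∈ Finset.range (M + 1), 2 * T * r2 p n (ms μ m0 s) m0 ≤ δ) ∧
      (∀ s ∈ Finset.range (M + 1), 2 * T * (B ^ 2 * rr p n (ms μ m0 s)) ≤ 1) ∧ True := by
    have t1 : ∀ᶠ n : ℕ in atTop, -(n : ℤ) ≤ a := by
      filter_upwards [eventually_ge_atTop a.natAbs] with n hn
      omega
    have t2 : ∀ᶠ n : ℕ in atTop, R ≤ (n : ℤ) := by
      filter_upwards [eventually_ge_atTop R.toNat] with n hn
      omega
    have t3 : ∀ᶠ n : ℕ in atTop, ∀ q ∈ Finset.range (m + 1), X q ⊆ Lam n := by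
      rw [Filter.eventually_all_finset]
      exact fun q _ => ev_sub _
    have t4 : ∀ᶠ n : ℕ in atTop, ∀ q ∈ Finset.range (m + 1), Z q ⊆ Lam n := by
      rw [Filter.eventually_all_finset]
      exact fun q _ => ev_sub _
    have t5 : ∀ᶠ n : ℕ in atTop, ∀ s ∈ Finset.range (M + 1),
        2 * T * r2 p n (ms μ m0 s) m0 ≤ δ := by
      rw [Filter.eventually_all_finset]
      intro s _
      have u := (r2_tendsto (hHs s) m0).const_mul (2 * T)
      rw [mul_zero] at u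
      exact u.eventually_le_const hδ
    have t6 : ∀ᶠ n : ℕ in atTop, ∀ s ∈ Finset.range (M + 1),
        2 * T * (B ^ 2 * rr p n (ms μ m0 s)) ≤ 1 := by
      rw [Filter.eventually_all_finset]
      intro s _
      have u0 : Tendsto (fun n => rr p n (ms μ m0 s)) atTop (𝓝 0) :=
        (hHs s).rn p H.ker _ (hps s) (hHs s).ordered.prof
      have u := (u0.const_mul (B ^ 2)).const_mul (2 * T)
      rw [mul_zero, mul_zero] at u
      exact u.eventually_le_const zero_lt_one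
    obtain ⟨n, hn⟩ := (t1.and (t2.and (t3.and (t4.and (t5.and t6))))).exists
    exact ⟨n, hn.1, hn.2.1, hn.2.2.1, hn.2.2.2.1, hn.2.2.2.2.1, hn.2.2.2.2.2, trivial⟩
  have hr20 : ∀ s, 0 ≤ r2 p n (ms μ m0 s) m0 := by
    intro s
    have h1 := rr_nonneg (n := n) (hHs s).apx H.ker (hHs s).ordered.stat
    have hp1 := hps (s + 1)
    have h2 := rr_nonneg (n := n) (hHs (s + 1)).apx H.ker (hHs (s + 1)).ordered.stat
    unfold r2
    rw [ms_succ]
    linarith
  -- choice of the time step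
  obtain ⟨N, hN1, hN2⟩ : ∃ N : ℕ, 2 ≤ N ∧ 4 * (T * Rt p n) ≤ N := by
    obtain ⟨N, hN⟩ := exists_nat_ge (4 * (T * Rt p n))
    refine ⟨max N 2, le_max_right _ _, hN.trans ?_⟩
    exact_mod_cast le_max_left _ _
  have hN0 : (0 : ℝ) < N := by
    have : 0 < N := by omega
    exact_mod_cast this
  set h : ℝ := T / N with hh
  have hh0 : 0 < h := div_pos hT hN0
  have hs : Small p n h := by
    refine ⟨hh0.le, ?_⟩
    have : h * Rt p n = T * Rt p n / N := by rw [hh]; ring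
    rw [this, ← mul_div_assoc, div_le_one hN0]
    exact hN2
  have hNh : N * h = T := by rw [hh]; field_simp
  have hkh : ∀ k : ℕ, k ≤ 2 * N → (k : ℝ) * h ≤ 2 * T := by
    intro k hk
    have : (k : ℝ) ≤ 2 * N := by exact_mod_cast hk
    calc (k : ℝ) * h ≤ 2 * N * h := mul_le_mul_of_nonneg_right this hh0.le
      _ = 2 * T := by rw [mul_assoc, hNh]
  have haR : a ≤ R := by
    have : (0 : ℤ) ≤ M * m0 := by positivity
    linarith
  have hAn : Finset.Icc a R ⊆ Lam n := by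
    intro x hx
    simp only [Lam, Finset.mem_Icc] at hx ⊢
    omega
  have hP : ∀ k, Parts n ((KK mv p n h)^[k] (cnt (Finset.Icc a R)))
      ((KK mv p n h)^[k] (cnt (Finset.Ico (-(n : ℤ)) a)))
      ((KK mv p n h)^[k] (cnt (Finset.Ioc R n))) := fun k =>
    parts H.cone H.ker H.uni hs k a R hn1 (by omega) hn2
  -- choice of the time
  obtain ⟨k, hk1, hk2, hk3⟩ : ∃ k : ℕ, N ≤ k ∧ k ≤ 2 * N ∧ ∀ s < M,
      ∫ η, Gam p n ((KK mv p n h)^[k] (cnt (Finset.Icc a R))) η ∂(ms μ m0 s) ≤ G0 / T := by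
    set G : ℕ → ℕ → ℝ := fun s k =>
      ∫ η, Gam p n ((KK mv p n h)^[k] (cnt (Finset.Icc a R))) η ∂(ms μ m0 s) with hG
    have hGnn : ∀ s k, 0 ≤ G s k := fun s k => integral_nonneg fun η => Gam_nonneg H.ker.nonneg _ η
    have v1 : ∀ s ∈ Finset.range M, ∑ k ∈ Finset.Ico N (2 * N), 3 / 4 * h * G s k ≤ B ^ 2 + 1 := by
      intro s hsM
      have hsM' := Finset.mem_range.1 hsM
      have hpr := hps s
      have w1 := var_sum (n := n) (h := h) (μ := ms μ m0 s) (hHs s).apx H.ker hs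
        (hHs s).ordered.stat (Dep_cnt (Finset.Icc a R) hAn) (cnt_nonneg _) (cnt_le _) (2 * N)
      have w2 : ((2 * N : ℕ) : ℝ) * h * (B ^ 2 * rr p n (ms μ m0 s)) ≤ 1 := by
        have : ((2 * N : ℕ) : ℝ) * h = 2 * T := by
          push_cast
          rw [mul_assoc, hNh]
        rw [this]
        exact hn6 s (Finset.mem_range.2 (by omega))
      have w3 : ∑ k ∈ Finset.Ico N (2 * N), 3 / 4 * h * G s k ≤
          ∑ k ∈ Finset.range (2 * N), 3 / 4 * h * G s k := by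
        refine Finset.sum_le_sum_of_subset_of_nonneg ?_ fun k _ _ => ?_
        · intro k hk
          rw [Finset.mem_range]
          exact (Finset.mem_Ico.1 hk).2
        · exact mul_nonneg (mul_nonneg (by norm_num) hh0.le) (hGnn s k)
      linarith
    have v2 : ∑ k ∈ Finset.Ico N (2 * N), ∑ s ∈ Finset.range M, 3 / 4 * h * G s k ≤
        ∑ _k ∈ Finset.Ico N (2 * N), M * (B ^ 2 + 1) / N := by
      rw [Finset.sum_comm, Finset.sum_const, Nat.card_Ico, nsmul_eq_mul]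
      have e1 : ((2 * N - N : ℕ) : ℝ) = N := by
        have : 2 * N - N = N := by omega
        rw [this]
      rw [e1]
      have e2 : (N : ℝ) * (M * (B ^ 2 + 1) / N) = M * (B ^ 2 + 1) := by field_simp
      rw [e2]
      calc _ ≤ ∑ _s ∈ Finset.range M, (B ^ 2 + 1) := Finset.sum_le_sum v1
        _ = M * (B ^ 2 + 1) := by rw [Finset.sum_const, Finset.card_range, nsmul_eq_mul]
    obtain ⟨k, hk, hk'⟩ := Finset.exists_le_of_sum_le
      (Finset.nonempty_Ico.2 (by omega : N < 2 * N)) v2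
    have hkI := Finset.mem_Ico.1 hk
    refine ⟨k, hkI.1, hkI.2.le, fun s hsM => ?_⟩
    have w4 : 3 / 4 * h * G s k ≤ ∑ s ∈ Finset.range M, 3 / 4 * h * G s k :=
      Finset.single_le_sum (f := fun s => 3 / 4 * h * G s k)
        (fun s _ => mul_nonneg (mul_nonneg (by norm_num) hh0.le) (hGnn s k))
        (Finset.mem_range.2 hsM)
    have w5 := w4.trans hk'
    rw [le_div_iff₀ hT, hG0]
    rw [le_div_iff₀ hN0] at w5
    have w6 : 3 / 4 * h * G s k * N = 3 / 4 * (G s k * T) := by rw [← hNh]; ring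
    rw [w6] at w5
    linarith
  set F := (KK mv p n h)^[k] (cnt (Finset.Icc a R)) with hF
  set FL := (KK mv p n h)^[k] (cnt (Finset.Ico (-(n : ℤ)) a)) with hFL
  set FR := (KK mv p n h)^[k] (cnt (Finset.Ioc R n)) with hFR
  have P : Parts n F FL FR := hP k
  have hkT := hkh k hk2
  -- the centers
  set u : ℕ → ℤ := fun s => w0 - (s : ℕ) * m0 with hu
  have hun : ∀ s ≤ M, u s ∈ Lam n := by
    intro s hsM
    have e1 : (0 : ℤ) ≤ s * m0 := by positivity
    have e2 : ((s : ℕ) : ℤ) * m0 ≤ M * m0 := by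
      have : ((s : ℕ) : ℤ) ≤ M := by exact_mod_cast hsM
      exact mul_le_mul_of_nonneg_right this (by positivity)
    simp only [hu, Lam, Finset.mem_Icc]
    constructor <;> linarith
  have hrho1 : ∀ s, rho (ms μ m0 s) (u s) ≤ δ := by
    intro s
    rw [rho_ms]
    simp only [hu, sub_add_cancel]
    exact g1
  have hrho2 : ∀ s, 1 - rho (ms μ m0 (s + 1)) (u s) ≤ δ := by
    intro s
    rw [rho_ms]
    have : u s + ((s + 1 : ℕ) : ℤ) * m0 = w0 + m0 := by
      simp only [hu]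
      push_cast
      ring
    rw [this]
    exact g2
  have hmono := H.mono
  -- leaks
  have leakR : ∀ s < M, ∫ η, dd FR (u s) η ∂(ms μ m0 s) ≤ 3 * δ := by
    intro s hsM
    have e1 := esc_right0 (hHs s) hs k m0 R (u s) (by omega) hn2 (hun s hsM.le)
    have e2 : aa p n h (ms μ m0 s) k (Finset.Ioc R n) (u s) =
        ∫ η, dd FR (u s) η ∂(ms μ m0 s) := rfl
    rw [e2] at e1
    have e3 : (k : ℝ) * h * r2 p n (ms μ m0 s) m0 ≤ δ :=
      (mul_le_mul_of_nonneg_right hkT (hr20 s)).trans (hn5 s (Finset.mem_range.2 (by omega)))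
    have e4 : rho (ms μ m0 s) (u s + m0) = rho μ (w0 + m0) := by
      rw [rho_ms]
      congr 1
      simp only [hu]
      ring
    have e5 : rho μ R ≤ rho (ms μ m0 s) R := by
      rw [rho_ms]
      apply hmono
      have : (0 : ℤ) ≤ s * m0 := by positivity
      linarith
    have e6 : (m0 : ℝ) * (1 - rho (ms μ m0 s) R) ≤ m0 * (1 - rho μ R) :=
      mul_le_mul_of_nonneg_left (by linarith) (Nat.cast_nonneg _)
    rw [e4] at e1
    linarith
  have leakL : ∀ s < M, ∫ η, dd FL (u s) η ∂(ms μ m0 s) ≤ 3 * δ := by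
    intro s hsM
    have e1 := esc_left (hHs s) hs k m0 a hn1 (by omega) {u s}
      (Finset.singleton_subset_iff.2 (hun s hsM.le))
    rw [Finset.sum_singleton, Finset.sum_singleton] at e1
    have e2 : aa p n h (ms μ m0 s) k (Finset.Ico (-(n : ℤ)) a) (u s) =
        ∫ η, dd FL (u s) η ∂(ms μ m0 s) := rfl
    rw [e2] at e1
    have e3 : (k : ℝ) * h * r2 p n (ms μ m0 s) m0 ≤ δ :=
      (mul_le_mul_of_nonneg_right hkT (hr20 s)).trans (hn5 s (Finset.mem_range.2 (by omega)))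
    have e4 : rho (ms μ m0 s) (u s + m0) = rho μ (w0 + m0) := by
      rw [rho_ms]
      congr 1
      simp only [hu]
      ring
    have e5 : rho (ms μ m0 s) (a + m0) ≤ rho μ (a + (M + 1) * m0) := by
      rw [rho_ms]
      apply hmono
      have : ((s : ℕ) : ℤ) * m0 ≤ M * m0 :=
        mul_le_mul_of_nonneg_right (by exact_mod_cast hsM.le) (by positivity)
      linarith
    have e6 : (m0 : ℝ) * rho (ms μ m0 s) (a + m0) ≤ m0 * rho μ (a + (M + 1) * m0) :=
      mul_le_mul_of_nonneg_left e5 (Nat.cast_nonneg _)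
    rw [e4] at e1
    linarith
  -- the starting value
  have hU : ∀ s < M, 1 - 7 * δ ≤ ∫ η, dd F (u s) η ∂(ms μ m0 s) := by
    intro s hsM
    have e1 := aa_split (p := p) (h := h) (n := n) (hHs s) k a R (u s) hn1 (by omega) hn2
      (hun s hsM.le)
    have e2 : aa p n h (ms μ m0 s) k (Finset.Icc a R) (u s) =
        ∫ η, dd F (u s) η ∂(ms μ m0 s) := rfl
    have e3 : aa p n h (ms μ m0 s) k (Finset.Ico (-(n : ℤ)) a) (u s) =
        ∫ η, dd FL (u s) η ∂(ms μ m0 s) := rfl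
    have e4 : aa p n h (ms μ m0 s) k (Finset.Ioc R n) (u s) =
        ∫ η, dd FR (u s) η ∂(ms μ m0 s) := rfl
    rw [e2, e3, e4] at e1
    linarith [leakL s hsM, leakR s hsM, hrho1 s]
  -- geometry
  have hshift0 : ∀ s : ℕ, (0 : ℤ) ≤ s * m0 := fun s => by positivity
  have hshift : ∀ s : ℕ, s ≤ M → ((s : ℕ) : ℤ) * m0 ≤ M * m0 := fun s hs' =>
    mul_le_mul_of_nonneg_right (by exact_mod_cast hs') (by positivity)
  have hXlt : ∀ q, 1 ≤ q → q ≤ m → ∀ s ≤ M, ∀ x ∈ X q, x < u s := by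
    intro q hq1 hq2 s hsM x hx
    have e1 := ((hX q hq1 hq2).2 x hx).1
    have e2 := hshift s hsM
    simp only [hu]
    linarith
  have hZlt : ∀ q, 1 ≤ q → q ≤ m → ∀ s, ∀ y ∈ Z q, u s < y := by
    intro q hq1 hq2 s y hy
    have e1 := ((hZ q hq1 hq2).2 y hy).1
    have e2 := hshift0 s
    simp only [hu]
    linarith
  have hXrho : ∀ q, 1 ≤ q → q ≤ m → ∀ s ≤ M + 1, ∀ x ∈ X q, rho (ms μ m0 s) x ≤ δ := by
    intro q hq1 hq2 s hsM x hx
    have e1 := ((hX q hq1 hq2).2 x hx).2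
    rw [rho_ms]
    refine le_trans (hmono ?_) e1
    have : ((s : ℕ) : ℤ) * m0 ≤ (M + 1) * m0 :=
      mul_le_mul_of_nonneg_right (by exact_mod_cast hsM) (by positivity)
    linarith
  have hZrho : ∀ q, 1 ≤ q → q ≤ m → ∀ s, ∀ y ∈ Z q, 1 - rho (ms μ m0 s) y ≤ δ := by
    intro q hq1 hq2 s y hy
    have e1 := ((hZ q hq1 hq2).2 y hy).2
    rw [rho_ms]
    have e2 : rho μ y ≤ rho μ (y + s * m0) := hmono (by linarith [hshift0 s])
    linarith
  have hXn : ∀ q, q ≤ m → X q ⊆ Lam n := fun q hq => hn3 q (Finset.mem_range.2 (by omega))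
  have hZn : ∀ q, q ≤ m → Z q ⊆ Lam n := fun q hq => hn4 q (Finset.mem_range.2 (by omega))
  -- energy
  have hen : ∀ s < M, ∀ (κ W : ℝ), 0 < κ → 0 < W → G0 ≤ T * δ ^ 2 * κ * W →
      (∫ η, Gam p n F η ∂(ms μ m0 s)) / (δ * κ * W) ≤ δ := by
    intro s hsM κ W hκ hW hle
    rw [div_le_iff₀ (by positivity)]
    refine (hk3 s hsM).trans ?_
    rw [div_le_iff₀ hT]
    calc G0 ≤ T * δ ^ 2 * κ * W := hle
      _ = δ * (δ * κ * W) * T := by ring
  have hcardpos : ∀ Y : Finset ℤ, Y.Nonempty → (0 : ℝ) < Y.card := fun Y hY => by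
    exact_mod_cast Finset.card_pos.2 hY
  refine chain_sum m M hm (fun s => ∫ η, dd F (u s) η ∂(ms μ m0 s))
    (fun s q => av (Z q) fun y => ∫ η, ee F y η ∂(ms μ m0 s))
    (fun s q => av (X q) fun x => ∫ η, dd F x η ∂(ms μ m0 s))
    (fun s q => av (Z q) fun y => ∫ η, ee FR y η ∂(ms μ m0 s))
    (fun s q => av (X q) fun x => ∫ η, dd FL x η ∂(ms μ m0 s))
    (16 * δ) (1 - 7 * δ) (1 / 10) (by positivity) hU ?_ ?_ ?_ ?_ ?_ ?_
  · -- first step
    intro s hsM
    have hpr := hps s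
    have hpr' := hps (s + 1)
    obtain ⟨π, hπ⟩ := cpl_ms H m0 s
    obtain ⟨κ, hκ, hκr, hκG⟩ := r0
    have hZ1 := hZ 1 le_rfl hm
    have hst := stepII H.ker hπ P {u s} (Z 1) (Finset.singleton_subset_iff.2 (hun s hsM.le))
      (hZn 1 hm) (Finset.singleton_nonempty _) hZ1.1 κ hκ
      (fun x hx y hy => by rw [Finset.mem_singleton.1 hx]; exact hκr s hsM y hy) δ hδ (u s)
      (hun s hsM.le) (fun x hx => (Finset.mem_singleton.1 hx).le) (hZlt 1 le_rfl hm s) δ
      (fun x hx => by rw [Finset.mem_singleton.1 hx]; exact hrho1 s)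
      (hZrho 1 le_rfl hm s) (hrho1 s) (hrho2 s)
    have e1 : av {u s} (fun x => ∫ η, dd F x η ∂(ms μ m0 s)) =
        ∫ η, dd F (u s) η ∂(ms μ m0 s) := by
      simp [av]
    rw [e1] at hst
    have e2 := hen s hsM κ ((({u s} : Finset ℤ).card : ℝ) * (Z 1).card) hκ (by
      have := hcardpos _ hZ1.1
      simp only [Finset.card_singleton, Nat.cast_one, one_mul]
      exact this) (by
      simp only [Finset.card_singleton, Nat.cast_one, one_mul]
      exact hκG)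
    have e3 := leakR s hsM
    linarith
  · -- from right to left
    intro s hsM q hq1 hqm
    have hpr := hps s
    have hpr' := hps (s + 1)
    obtain ⟨π, hπ⟩ := cpl_ms H m0 s
    obtain ⟨κ, hκ, hκr, hκG⟩ := rI q hq1 hqm
    have hZ1 := hZ q hq1 hqm.le
    have hX1 := hX q hq1 hqm.le
    have hst := stepI H.ker hπ P (X q) (Z q) (hXn q hqm.le) (hZn q hqm.le) hX1.1 hZ1.1 κ hκ
      hκr δ hδ (u s) (hun s hsM.le) (fun x hx => (hXlt q hq1 hqm.le s hsM.le x hx).ne)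
      (hZlt q hq1 hqm.le s) δ (hXrho q hq1 hqm.le s (by omega)) (hZrho q hq1 hqm.le s)
      (hrho1 s) (hrho2 s) (hXrho q hq1 hqm.le (s + 1) (by omega))
    have e2 := hen s hsM κ (((X q).card : ℝ) * (Z q).card) hκ
      (mul_pos (hcardpos _ hX1.1) (hcardpos _ hZ1.1)) hκG
    have e3 := leakL s hsM
    linarith
  · -- from left to right
    intro s hsM q hq1 hqm
    have hpr := hps s
    have hpr' := hps (s + 1)
    obtain ⟨π, hπ⟩ := cpl_ms H m0 s
    obtain ⟨κ, hκ, hκr, hκG⟩ := rII q hq1 hqm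
    have hZ1 := hZ (q + 1) (by omega) (by omega)
    have hX1 := hX q hq1 hqm.le
    have hst := stepII H.ker hπ P (X q) (Z (q + 1)) (hXn q hqm.le) (hZn (q + 1) (by omega))
      hX1.1 hZ1.1 κ hκ hκr δ hδ (u s) (hun s hsM.le)
      (fun x hx => (hXlt q hq1 hqm.le s hsM.le x hx).le)
      (hZlt (q + 1) (by omega) (by omega) s) δ (hXrho q hq1 hqm.le s (by omega))
      (hZrho (q + 1) (by omega) (by omega) s) (hrho1 s) (hrho2 s)
    have e2 := hen s hsM κ (((X q).card : ℝ) * (Z (q + 1)).card) hκ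
      (mul_pos (hcardpos _ hX1.1) (hcardpos _ hZ1.1)) hκG
    have e3 := leakR s hsM
    linarith
  · -- far away
    intro s hsM
    have hZ1 := hZ m hm le_rfl
    have hpr := hps s
    refine av_le_const hZ1.1 fun y hy => ?_
    have hyn := hZn m le_rfl hy
    have e1 : ∀ η, ee F y η ≤ 1 / 10 := by
      intro η
      refine ee_le (by norm_num) (fun η => ?_) η
      unfold dd
      split_ifs with h0
      · have f1 := far (h := h) H.disp H.ker hs a R y (20 * T * C) (by positivity)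
          (hfar y hy) hyn k η h0
        refine f1.trans ?_
        have f2 : (k : ℝ) * h * (C / (20 * T * C)) = k * h / (20 * T) := by
          field_simp
        rw [← hCdef, f2, div_le_iff₀ (by positivity)]
        linarith
      · norm_num
    calc ∫ η, ee F y η ∂(ms μ m0 s) ≤ ∫ _η, (1 / 10 : ℝ) ∂(ms μ m0 s) :=
          integral_mono (dep_integrable (dep_ee P.dF y hyn) _) (integrable_const _) e1
      _ = 1 / 10 := by simp
  · -- bounds
    intro q hq1 hqm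
    have hZ1 := hZ q hq1 hqm
    have hb : ∀ s, 0 ≤ av (Z q) (fun y => ∫ η, ee FR y η ∂(ms μ m0 s)) ∧
        av (Z q) (fun y => ∫ η, ee FR y η ∂(ms μ m0 s)) ≤ 1 := by
      intro s
      have hpr := hps s
      constructor
      · refine const_le_av hZ1.1 fun y hy => ?_
        exact integral_nonneg fun η => ee_nonneg P.cR.mono y (hZn q hqm hy) η
      · refine av_le_const hZ1.1 fun y hy => ?_
        calc ∫ η, ee FR y η ∂(ms μ m0 s) ≤ ∫ _η, (1 : ℝ) ∂(ms μ m0 s) :=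
              integral_mono (dep_integrable (dep_ee P.dR y (hZn q hqm hy)) _)
                (integrable_const _) (fun η => ee_le zero_le_one
                  (P.dR_le y (hZn q hqm hy)) η)
          _ = 1 := by simp
    exact ⟨(hb 0).2, (hb M).1⟩
  · intro q hq1 hqm
    have hX1 := hX q hq1 hqm
    have hb : ∀ s, 0 ≤ av (X q) (fun y => ∫ η, dd FL y η ∂(ms μ m0 s)) ∧
        av (X q) (fun y => ∫ η, dd FL y η ∂(ms μ m0 s)) ≤ 1 := by
      intro s
      have hpr := hps s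
      constructor
      · refine const_le_av hX1.1 fun y hy => ?_
        exact integral_nonneg fun η => dd_nonneg P.mL y (hXn q hqm hy) η
      · refine av_le_const hX1.1 fun y hy => ?_
        calc ∫ η, dd FL y η ∂(ms μ m0 s) ≤ ∫ _η, (1 : ℝ) ∂(ms μ m0 s) :=
              integral_mono (dep_integrable (dep_dd P.dL y (hXn q hqm hy)) _)
                (integrable_const _) (fun η => P.dL_le y (hXn q hqm hy) η)
          _ = 1 := by simp
    exact ⟨(hb M).2, (hb 0).1⟩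

end G4
end Pool.Agent.N959.EX
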