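import Pool.Agent.N959.EX.G4
import Pool.Agent.N959.EX.Fin8

/-! # No ordered stationary profile measure for tails with exponent below three -/

set_option autoImplicit false

open MeasureTheory Filter Topology

namespace Pool.Agent.N959.EX

/-- heavy left tail, all exponents below three -/
def Tail3 (p : ℤ → ℝ) : Prop :=
  ∃ β c : ℝ, β < 3 ∧ 0 < c ∧ ∀ k : ℕ, 1 ≤ k → c * (k : ℝ) ^ (-β) ≤ p (-(k : ℤ))

namespace G5

open Fin1 Pool.Agent.N959.EX.Fin2 Pool.Agent.N959.EX.Fin3 Pool.Agent.N959.EX.Fin4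
  Pool.Agent.N959.EX.Fin5 Pool.Agent.N959.EX.Fin6 Pool.Agent.N959.EX.Fin7
  Pool.Agent.N959.EX.G1 Pool.Agent.N959.EX.G2 Pool.Agent.N959.EX.G3 Pool.Agent.N959.EX.G4

variable {p : ℤ → ℝ} {μ : Measure Conf}

/-- choice of the trap -/
lemma choice (H : Hyp p μ) (δ : ℝ) (hδ : 0 < δ) (M : ℕ) : ∃ (w0 a R : ℤ) (m0 : ℕ),
    rho μ w0 ≤ δ ∧ 1 - rho μ (w0 + m0) ≤ δ ∧ m0 * (1 - rho μ R) ≤ δ ∧
    m0 * rho μ (a + (M + 1) * m0) ≤ δ ∧ a ≤ w0 - M * m0 ∧ w0 ≤ R := by
  have t0 := H.ordered.prof.1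
  have t1 := H.ordered.prof.2
  obtain ⟨w0, hw0⟩ := (t0.eventually_le_const hδ).exists
  have t2 : Tendsto (fun x => 1 - rho μ x) atTop (𝓝 0) := by
    have := t1.const_sub 1
    simpa using this
  obtain ⟨v, hv1, hv2⟩ := ((t2.eventually_le_const hδ).and
    (eventually_ge_atTop (w0 + 1))).exists
  obtain ⟨m0, hm0⟩ : ∃ m0 : ℕ, v = w0 + m0 := ⟨(v - w0).toNat, by omega⟩
  have t3 := t2.const_mul (m0 : ℝ)
  rw [mul_zero] at t3
  obtain ⟨R, hR1, hR2⟩ := ((t3.eventually_le_const hδ).and (eventually_ge_atTop w0)).exists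
  have t4 := t0.const_mul (m0 : ℝ)
  rw [mul_zero] at t4
  obtain ⟨b, hb1, hb2⟩ := ((t4.eventually_le_const hδ).and (eventually_le_atBot w0)).exists
  refine ⟨w0, b - (M + 1) * m0, R, m0, hw0, ?_, hR1, ?_, ?_, hR2⟩
  · rw [← hm0]; exact hv1
  · rw [sub_add_cancel]; exact hb1
  · have : (0 : ℤ) ≤ m0 := by positivity
    linarith

lemma power_bound {β : ℝ} (hβ : 2 ≤ β) (K N m q : ℕ) (hK : 1 ≤ K) (hN : 1 ≤ N) (hq1 : 1 ≤ q)
    (hqm : q ≤ m) :
    (4 * (K : ℝ)) ^ (-β) * (N : ℝ) ^ ((3 - β) * m - 1) ≤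
      (N : ℝ) ^ m * (4 * ((K * N ^ q : ℕ) : ℝ)) ^ (-β) * ((N : ℝ) ^ (q - 1) * (N : ℝ) ^ q) := by
  have hN0 : (0 : ℝ) < N := by
    have : 0 < N := by omega
    exact_mod_cast this
  have hN1 : (1 : ℝ) ≤ N := by exact_mod_cast hN
  have hK0 : (0 : ℝ) < K := by
    have : 0 < K := by omega
    exact_mod_cast this
  have e1 : (4 * ((K * N ^ q : ℕ) : ℝ)) ^ (-β) = (4 * (K : ℝ)) ^ (-β) * (N : ℝ) ^ (-β * q) := by
    push_cast
    rw [← mul_assoc, Real.mul_rpow (by positivity) (by positivity), ← Real.rpow_natCast,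
      ← Real.rpow_mul hN0.le]
    congr 2
    ring
  have e2 : (N : ℝ) ^ m * (N : ℝ) ^ (-β * q) * ((N : ℝ) ^ (q - 1) * (N : ℝ) ^ q) =
      (N : ℝ) ^ ((m : ℝ) + (-β * q) + ((q : ℝ) - 1 + q)) := by
    have e2a : (N : ℝ) ^ ((q : ℝ) - 1) = (N : ℝ) ^ (q - 1) := by
      rw [← Real.rpow_natCast, Nat.cast_sub hq1, Nat.cast_one]
    rw [Real.rpow_add hN0, Real.rpow_add hN0, Real.rpow_add hN0, e2a, Real.rpow_natCast,
      Real.rpow_natCast]
  have e3 : (N : ℝ) ^ ((3 - β) * m - 1) ≤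
      (N : ℝ) ^ ((m : ℝ) + (-β * q) + ((q : ℝ) - 1 + q)) := by
    apply Real.rpow_le_rpow_of_exponent_le hN1
    have : (q : ℝ) ≤ m := by exact_mod_cast hqm
    nlinarith
  rw [e1]
  calc (4 * (K : ℝ)) ^ (-β) * (N : ℝ) ^ ((3 - β) * m - 1) ≤
        (4 * (K : ℝ)) ^ (-β) * (N : ℝ) ^ ((m : ℝ) + (-β * q) + ((q : ℝ) - 1 + q)) :=
        mul_le_mul_of_nonneg_left e3 (by positivity)
    _ = _ := by rw [← e2]; ring

theorem final_aux (H : Hyp p μ) (hT : Tail3 p) : False := by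
  obtain ⟨β₀, c, hβ₀, hc, hT0⟩ := hT
  have hprob := H.prob
  set β : ℝ := max β₀ 2 with hβ
  have hT1 := Fin8.tail_two (β := β₀) hc hT0
  rw [← hβ] at hT1
  have hβ2 : 2 ≤ β := le_max_right _ _
  have hβ1 : β < 3 := max_lt hβ₀ (by norm_num)
  -- number of scales
  obtain ⟨m, hm⟩ : ∃ m : ℕ, 1 / (3 - β) < m := exists_nat_gt _
  have h3β : 0 < 3 - β := by linarith
  have hm' : 1 < (3 - β) * m := by
    rw [div_lt_iff₀ h3β] at hm
    linarith
  have hm0 : (0 : ℝ) < m := by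
    have : 0 < 1 / (3 - β) := by positivity
    linarith
  have hm1 : 1 ≤ m := by
    have : 0 < m := by exact_mod_cast hm0
    omega
  set γ : ℝ := (3 - β) * m - 1 with hγ
  have hγ0 : 0 < γ := by rw [hγ]; linarith
  set δ : ℝ := 1 / (1000 * m) with hδ
  have hδ0 : 0 < δ := by positivity
  set M : ℕ := 20 * m with hM
  have hM1 : 1 ≤ M := by omega
  obtain ⟨w0, a, R, m0, g1, g2, g3, g4, haw, hwR⟩ := choice H δ hδ0 M
  set C : ℝ := 2 * ∑' z : ℤ, |(z : ℝ)| * p z with hC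
  have hC0 : 0 < C := Fin8.mean_pos H.ker
  set G0 : ℝ := 4 / 3 * (M * (((Finset.Icc a R).card : ℝ) ^ 2 + 1)) with hG0
  obtain ⟨K, hK⟩ : ∃ K : ℕ, 20 * C + 1 ≤ K := exists_nat_ge _
  have hK1 : 1 ≤ K := by
    have : (1 : ℝ) ≤ K := by linarith
    exact_mod_cast this
  have t0 := H.ordered.prof.1
  have t1 := H.ordered.prof.2
  have cast_top : Tendsto (fun j : ℕ => (j : ℤ)) atTop atTop := tendsto_natCast_atTop_atTop
  -- eventual conditions
  have e1 : ∀ᶠ N : ℕ in atTop, 1 ≤ N ∧ w0.natAbs + M * m0 + R.natAbs + 1 ≤ N := by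
    filter_upwards [eventually_ge_atTop (w0.natAbs + M * m0 + R.natAbs + 1)] with N hN
    omega
  have e2 : ∀ᶠ N : ℕ in atTop, rho μ (-(N : ℤ) + (M + 1) * m0) ≤ δ := by
    have u1 : Tendsto (fun N : ℕ => -(N : ℤ) + (M + 1) * m0) atTop atBot :=
      tendsto_atBot_add_const_right _ _ (tendsto_neg_atTop_atBot.comp cast_top)
    exact (t0.comp u1).eventually_le_const hδ0
  have e3 : ∀ᶠ N : ℕ in atTop, 1 - rho μ (N : ℤ) ≤ δ := by
    have u2 := (t1.comp cast_top).const_sub 1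
    rw [sub_self] at u2
    exact u2.eventually_le_const hδ0
  have e4 : ∀ᶠ N : ℕ in atTop, G0 ≤ (δ ^ 2 * c * (4 * (K : ℝ)) ^ (-β)) * (N : ℝ) ^ γ := by
    have u1 : Tendsto (fun N : ℕ => (δ ^ 2 * c * (4 * (K : ℝ)) ^ (-β)) * (N : ℝ) ^ γ)
        atTop atTop :=
      ((tendsto_rpow_atTop hγ0).comp tendsto_natCast_atTop_atTop).const_mul_atTop
        (by positivity)
    exact u1.eventually_ge_atTop _
  obtain ⟨N, ⟨hN1, hN2⟩, hN3, hN4, hN5⟩ := (e1.and (e2.and (e3.and e4))).exists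
  have hN0 : (0 : ℝ) < N := by
    have : 0 < N := by omega
    exact_mod_cast this
  have hN1' : (1 : ℝ) ≤ N := by exact_mod_cast hN1
  -- scales
  set j : ℕ → ℕ := fun q => K * N ^ q with hj
  have hjN : ∀ q, 1 ≤ q → N ≤ j q := by
    intro q hq
    calc N = 1 * N ^ 1 := by ring
      _ ≤ K * N ^ q := Nat.mul_le_mul hK1 (Nat.pow_le_pow_right hN1 hq)
  have hjsucc : ∀ q, j q ≤ j (q + 1) := by
    intro q
    exact Nat.mul_le_mul le_rfl (Nat.pow_le_pow_right hN1 (Nat.le_succ q))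
  set X : ℕ → Finset ℤ := fun q => Finset.Icc (-(2 * (j q : ℤ))) (-(j q : ℤ)) with hX
  set Z : ℕ → Finset ℤ := fun q => Finset.Icc (j q : ℤ) (2 * (j q : ℤ)) with hZ
  have hXc : ∀ q, (j q : ℝ) ≤ (X q).card := by
    intro q
    have : (X q).card = j q + 1 := by
      simp only [hX]
      rw [Int.card_Icc]
      omega
    rw [this]
    push_cast
    linarith
  have hZc : ∀ q, (j q : ℝ) ≤ (Z q).card := by
    intro q
    have : (Z q).card = j q + 1 := by
      simp only [hZ]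
      rw [Int.card_Icc]
      omega
    rw [this]
    push_cast
    linarith
  -- rates
  have hrate : ∀ q, 1 ≤ q → ∀ z : ℤ, 1 ≤ z → z ≤ 4 * j q →
      c * (4 * ((j q : ℕ) : ℝ)) ^ (-β) ≤ p (-z) := by
    intro q hq z hz1 hz2
    exact Fin8.rate (by linarith) hc hT1 (4 * ((j q : ℕ) : ℝ)) z hz1 (by exact_mod_cast hz2)
  have hjpos : ∀ q, 1 ≤ q → (0 : ℝ) < j q := by
    intro q hq
    have : 0 < j q := by have := hjN q hq; omega
    exact_mod_cast this
  have hκpos : ∀ q, 1 ≤ q → 0 < c * (4 * ((j q : ℕ) : ℝ)) ^ (-β) := by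
    intro q hq
    have := hjpos q hq
    positivity
  have hKr : (1 : ℝ) ≤ K := by exact_mod_cast hK1
  -- energy condition
  have hE : ∀ q, 1 ≤ q → q ≤ m → ∀ W : ℝ, (N : ℝ) ^ (q - 1) * (N : ℝ) ^ q ≤ W →
      G0 ≤ (N : ℝ) ^ m * δ ^ 2 * (c * (4 * ((j q : ℕ) : ℝ)) ^ (-β)) * W := by
    intro q hq1 hqm W hW
    have b1 := power_bound hβ2 K N m q hK1 hN1 hq1 hqm
    have b2 : 0 ≤ (N : ℝ) ^ m * (4 * ((K * N ^ q : ℕ) : ℝ)) ^ (-β) := by positivity
    have b3 := mul_le_mul_of_nonneg_left hW b2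
    have b4 := b1.trans b3
    have b5 := mul_le_mul_of_nonneg_left b4 (by positivity : 0 ≤ δ ^ 2 * c)
    calc G0 ≤ (δ ^ 2 * c * (4 * (K : ℝ)) ^ (-β)) * (N : ℝ) ^ γ := hN5
      _ = δ ^ 2 * c * ((4 * (K : ℝ)) ^ (-β) * (N : ℝ) ^ γ) := by ring
      _ ≤ _ := b5
      _ = _ := by ring
  have hNabs : (w0.natAbs : ℤ) + M * m0 + R.natAbs + 1 ≤ N := by exact_mod_cast hN2
  have hw0abs : |w0| = w0.natAbs := by simp
  have hw0a : w0 ≤ w0.natAbs := by omega
  have hw0b : -(w0.natAbs : ℤ) ≤ w0 := by omega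
  have hRa : R ≤ R.natAbs := by omega
  have hMm0 : (0 : ℤ) ≤ M * m0 := by positivity
  have hfinal := core2 H w0 a R m0 M m hM1 hm1 δ hδ0 g1 g2 g3 g4 haw hwR X Z
    (by
      intro q hq1 hqm
      have hjq := hjN q hq1
      have hjq' : (N : ℤ) ≤ j q := by exact_mod_cast hjq
      refine ⟨Finset.nonempty_Icc.2 (by linarith), fun x hx => ?_⟩
      have hx' := Finset.mem_Icc.1 hx
      constructor
      · linarith [hx'.2]
      · refine le_trans (H.mono ?_) hN3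
        linarith [hx'.2])
    (by
      intro q hq1 hqm
      have hjq := hjN q hq1
      have hjq' : (N : ℤ) ≤ j q := by exact_mod_cast hjq
      refine ⟨Finset.nonempty_Icc.2 (by linarith), fun y hy => ?_⟩
      have hy' := Finset.mem_Icc.1 hy
      constructor
      · linarith [hy'.1]
      · have := H.mono (show (N : ℤ) ≤ y by linarith [hy'.1])
        linarith)
    ((N : ℝ) ^ m) (by positivity) G0 hG0
    (by
      refine ⟨c * (4 * ((j 1 : ℕ) : ℝ)) ^ (-β), hκpos 1 le_rfl, ?_, ?_⟩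
      · intro s hs y hy
        have hy' := Finset.mem_Icc.1 hy
        have hjq' : (N : ℤ) ≤ j 1 := by exact_mod_cast hjN 1 le_rfl
        have hsm : ((s : ℕ) : ℤ) * m0 ≤ M * m0 :=
          mul_le_mul_of_nonneg_right (by exact_mod_cast hs.le) (by positivity)
        have hsm0 : (0 : ℤ) ≤ ((s : ℕ) : ℤ) * m0 := by positivity
        have := hrate 1 le_rfl (y - (w0 - (s : ℕ) * m0)) (by linarith [hy'.1])
          (by linarith [hy'.2])
        rwa [neg_sub] at this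
      · refine hE 1 le_rfl hm1 _ ?_
        refine le_trans ?_ (hZc 1)
        simp only [hj, Nat.sub_self, pow_zero, one_mul, pow_one]
        push_cast
        nlinarith)
    (by
      intro q hq1 hqm
      refine ⟨c * (4 * ((j q : ℕ) : ℝ)) ^ (-β), hκpos q hq1, ?_, ?_⟩
      · intro x hx y hy
        have hx' := Finset.mem_Icc.1 hx
        have hy' := Finset.mem_Icc.1 hy
        have hjq' : (N : ℤ) ≤ j q := by exact_mod_cast hjN q hq1
        have := hrate q hq1 (y - x) (by linarith [hx'.2, hy'.1]) (by linarith [hx'.1, hy'.2])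
        rwa [neg_sub] at this
      · refine hE q hq1 hqm.le _ ?_
        have b1 : (N : ℝ) ^ q ≤ j q := by
          simp only [hj]
          push_cast
          have : (0 : ℝ) < (N : ℝ) ^ q := by positivity
          nlinarith
        have b2 : (N : ℝ) ^ (q - 1) ≤ (N : ℝ) ^ q := pow_le_pow_right₀ hN1' (by omega)
        have b3 : (N : ℝ) ^ (q - 1) ≤ (X q).card := b2.trans (b1.trans (hXc q))
        have b4 : (N : ℝ) ^ q ≤ (Z q).card := b1.trans (hZc q)
        exact mul_le_mul b3 b4 (by positivity) (Nat.cast_nonneg _))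
    (by
      intro q hq1 hqm
      refine ⟨c * (4 * ((j (q + 1) : ℕ) : ℝ)) ^ (-β), hκpos (q + 1) (by omega), ?_, ?_⟩
      · intro x hx y hy
        have hx' := Finset.mem_Icc.1 hx
        have hy' := Finset.mem_Icc.1 hy
        have hjq' : (N : ℤ) ≤ j q := by exact_mod_cast hjN q hq1
        have hjs : (j q : ℤ) ≤ j (q + 1) := by exact_mod_cast hjsucc q
        have := hrate (q + 1) (by omega) (y - x) (by linarith [hx'.2, hy'.1])
          (by linarith [hx'.1, hy'.2])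
        rwa [neg_sub] at this
      · refine hE (q + 1) (by omega) (by omega) _ ?_
        have b1 : ∀ i, (N : ℝ) ^ i ≤ j i := by
          intro i
          simp only [hj]
          push_cast
          have : (0 : ℝ) < (N : ℝ) ^ i := by positivity
          nlinarith
        rw [Nat.add_sub_cancel]
        exact mul_le_mul ((b1 q).trans (hXc q)) ((b1 (q + 1)).trans (hZc (q + 1)))
          (by positivity) (Nat.cast_nonneg _))
    (by
      intro y hy
      have hy' := Finset.mem_Icc.1 hy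
      have b1 : ((j m : ℕ) : ℝ) ≤ y := by exact_mod_cast hy'.1
      have b2 : (R : ℝ) ≤ (N : ℝ) ^ m := by
        have c1 : (R : ℝ) ≤ N := by
          have : R ≤ (N : ℤ) := by linarith
          exact_mod_cast this
        have c2 : (N : ℝ) ≤ (N : ℝ) ^ m := le_self_pow₀ hN1' (by omega)
        linarith
      have b3 : (20 * C + 1) * (N : ℝ) ^ m ≤ ((j m : ℕ) : ℝ) := by
        simp only [hj]
        push_cast
        exact mul_le_mul_of_nonneg_right hK (by positivity)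
      have b4 : (20 * C + 1) * (N : ℝ) ^ m = 20 * (N : ℝ) ^ m * C + (N : ℝ) ^ m := by ring
      rw [← hC]
      linarith) hC0
  -- contradiction
  have hMr : (M : ℝ) = 20 * m := by rw [hM]; push_cast; ring
  have hmr : (1 : ℝ) ≤ m := by exact_mod_cast hm1
  rw [hMr] at hfinal
  have hδm : δ * m = 1 / 1000 := by rw [hδ]; field_simp
  nlinarith

end G5

/-- no ordered stationary profile measure -/
def S_FINAL3 : Prop := ∀ p, Ker p → Uni p → Tail3 p → ∀ μ : Measure Conf,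
  IsProbabilityMeasure μ → ¬ Ordered p μ

theorem t_FINAL3 (h1 : S_CONE) (h2 : S_DISP) (h3 : S_APX) (h4 : S_RN) (h5 : S_TAU) : S_FINAL3 :=
  fun _ hp hu hT _ hμ ho => G5.final_aux ⟨h1, h2, h3, h4, h5, hp, hu, hμ, ho⟩ hT

end Pool.Agent.N959.EX
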