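import Pool.Agent.N959.EX.Def

/-!
# No opposite discrepancies in stationary couplings
-/

set_option autoImplicit false

open MeasureTheory Filter Topology

namespace Pool.Agent.N959.EX

namespace Opp

/-! ### The moves -/

theorem mv_x (x y : ℤ) (η : Conf) : mv x y η x = (η x && η y) := by
  unfold mv sw
  cases hx : η x <;> cases hy : η y <;> simp [hx]

theorem mv_y (x y : ℤ) (η : Conf) : mv x y η y = (η x || η y) := by
  unfold mv sw
  by_cases hxy : y = x
  · subst hxy
    cases hx : η y <;> simp [hx]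
  · cases hx : η x <;> cases hy : η y <;> simp [hxy, hx, hy]

theorem mv_o {x y t : ℤ} (hx : t ≠ x) (hy : t ≠ y) (η : Conf) : mv x y η t = η t := by
  unfold mv sw
  cases h1 : η x <;> cases h2 : η y <;> simp [hx, hy]

theorem mv_self (x : ℤ) (η : Conf) : mv x x η = η := by
  unfold mv
  cases h1 : η x <;> simp [h1]

theorem mv_meas (x y : ℤ) : Measurable (mv x y) := by
  rw [measurable_pi_iff]
  intro t
  by_cases hx : t = x
  · subst hx
    have : (fun η : Conf => mv t y η t) = fun η => (fun q : Bool × Bool => q.1 && q.2) (η t, η y) := by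
      funext η
      exact mv_x t y η
    rw [this]
    exact (Measurable.of_discrete (f := fun q : Bool × Bool => q.1 && q.2)).comp
      ((measurable_pi_apply t : Measurable fun η : Conf => η t).prodMk
        (measurable_pi_apply y : Measurable fun η : Conf => η y))
  · by_cases hy : t = y
    · subst hy
      have : (fun η : Conf => mv x t η t) =
          fun η => (fun q : Bool × Bool => q.1 || q.2) (η x, η t) := by
        funext η
        exact mv_y x t η
      rw [this]
      exact (Measurable.of_discrete (f := fun q : Bool × Bool => q.1 || q.2)).comp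
        ((measurable_pi_apply x : Measurable fun η : Conf => η x).prodMk
          (measurable_pi_apply t : Measurable fun η : Conf => η t))
    · have : (fun η : Conf => mv x y η t) = fun η => η t := by
        funext η
        exact mv_o hx hy η
      rw [this]
      exact measurable_pi_apply t

theorem mv2_meas (x y : ℤ) : Measurable (mv2 x y) :=
  ((mv_meas x y).comp measurable_fst).prodMk ((mv_meas x y).comp measurable_snd)

/-! ### Sums over the moves -/

variable {p : ℤ → ℝ}

theorem shift_summ (hp : Ker p) (x : ℤ) : Summable fun y : ℤ => p (y - x) :=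
  (Equiv.subRight x).summable_iff.2 hp.sum.summable

theorem shift_summ' (hp : Ker p) (x : ℤ) : Summable fun y : ℤ => p (x - y) :=
  (Equiv.subLeft x).summable_iff.2 hp.sum.summable

theorem summ_l (hp : Ker p) (I : Finset ℤ) :
    Summable fun w : ℤ × ℤ => if w.1 ∈ I then p (w.2 - w.1) else 0 := by
  rw [summable_prod_of_nonneg (fun w => by
    show (0 : ℝ) ≤ if w.1 ∈ I then p (w.2 - w.1) else 0
    split_ifs
    · exact hp.nonneg _
    · exact le_rfl)]
  refine ⟨fun x => ?_, ?_⟩
  · by_cases hx : x ∈ I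
    · simp only [if_pos hx]
      exact shift_summ hp x
    · simp only [if_neg hx]
      exact summable_zero
  · refine summable_of_ne_finset_zero (s := I) fun x hx => ?_
    simp only [if_neg hx, tsum_zero]

theorem summ_r (hp : Ker p) (I : Finset ℤ) :
    Summable fun w : ℤ × ℤ => if w.2 ∈ I then p (w.2 - w.1) else 0 := by
  have h1 : Summable fun w : ℤ × ℤ => if w.1 ∈ I then p (w.1 - w.2) else 0 := by
    rw [summable_prod_of_nonneg (fun w => by
      show (0 : ℝ) ≤ if w.1 ∈ I then p (w.1 - w.2) else 0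
      split_ifs
      · exact hp.nonneg _
      · exact le_rfl)]
    refine ⟨fun x => ?_, ?_⟩
    · by_cases hx : x ∈ I
      · simp only [if_pos hx]
        exact shift_summ' hp x
      · simp only [if_neg hx]
        exact summable_zero
    · refine summable_of_ne_finset_zero (s := I) fun x hx => ?_
      simp only [if_neg hx, tsum_zero]
  exact h1.prod_symm

theorem summ_I (hp : Ker p) (I : Finset ℤ) :
    Summable fun w : ℤ × ℤ => if w.1 ∈ I ∨ w.2 ∈ I then p (w.2 - w.1) else 0 := by
  refine Summable.of_nonneg_of_le (fun w => ?_) (fun w => ?_) ((summ_l hp I).add (summ_r hp I))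
  · split_ifs
    · exact hp.nonneg _
    · exact le_rfl
  · have := hp.nonneg (w.2 - w.1)
    by_cases h1 : w.1 ∈ I <;> by_cases h2 : w.2 ∈ I <;> simp [h1, h2, this]

/-- The generator under the integral. -/
theorem hasSum_gen (hp : Ker p) (π : Measure (Conf × Conf)) [IsProbabilityMeasure π]
    (I : Finset ℤ) {f : Conf × Conf → ℝ} (hf : Measurable f) {M : ℝ} (hM : ∀ z, |f z| ≤ M)
    (hI : ∀ x y z, x ∉ I → y ∉ I → f (mv2 x y z) = f z) :
    HasSum (fun w : ℤ × ℤ => p (w.2 - w.1) * ∫ z, (f (mv2 w.1 w.2 z) - f z) ∂π)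
      (∫ z, gen mv2 p f z ∂π) := by
  have hbd : ∀ w : ℤ × ℤ, ∀ z, |f (mv2 w.1 w.2 z) - f z| ≤ 2 * M := by
    intro w z
    have h1 := hM (mv2 w.1 w.2 z)
    have h2 := hM z
    rw [abs_le] at h1 h2 ⊢
    constructor <;> linarith
  have hm : ∀ w : ℤ × ℤ, Measurable fun z => f (mv2 w.1 w.2 z) - f z := fun w =>
    (hf.comp (mv2_meas w.1 w.2)).sub hf
  have hint : ∀ w : ℤ × ℤ, Integrable (fun z => f (mv2 w.1 w.2 z) - f z) π := fun w =>
    Integrable.of_bound (hm w).aestronglyMeasurable (2 * M) (ae_of_all _ fun z => hbd w z)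
  have h1 := hasSum_integral_of_summable_integral_norm (μ := π)
    (F := fun (w : ℤ × ℤ) z => p (w.2 - w.1) * (f (mv2 w.1 w.2 z) - f z))
    (fun w => (hint w).const_mul _) (by
      refine Summable.of_nonneg_of_le (fun w => integral_nonneg fun z => norm_nonneg _)
        (fun w => ?_) ((summ_I hp I).mul_left (2 * M))
      have hM0 : 0 ≤ 2 * M := le_trans (abs_nonneg _) (hbd w ((fun _ => true), fun _ => true))
      by_cases hw : w.1 ∈ I ∨ w.2 ∈ I
      · rw [if_pos hw]
        have h2 : ∀ z, ‖p (w.2 - w.1) * (f (mv2 w.1 w.2 z) - f z)‖ ≤ 2 * M * p (w.2 - w.1) := by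
          intro z
          rw [norm_mul, Real.norm_eq_abs, Real.norm_eq_abs, abs_of_nonneg (hp.nonneg _), mul_comm]
          exact mul_le_mul_of_nonneg_right (hbd w z) (hp.nonneg _)
        calc ∫ z, ‖p (w.2 - w.1) * (f (mv2 w.1 w.2 z) - f z)‖ ∂π
            ≤ ∫ _, 2 * M * p (w.2 - w.1) ∂π :=
              integral_mono ((hint w).const_mul _).norm (integrable_const _) h2
          _ = 2 * M * p (w.2 - w.1) := by simp
      · rw [if_neg hw, mul_zero]
        push Not at hw
        have h2 : ∀ z, f (mv2 w.1 w.2 z) - f z = 0 := fun z => by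
          rw [hI w.1 w.2 z hw.1 hw.2, sub_self]
        simp only [h2, mul_zero, norm_zero, integral_zero, le_refl])
  simp only [integral_const_mul] at h1
  exact h1

/-- The sum over the moves which cross the boundary. -/
theorem hasSum_cross (hp : Ker p) (I : Finset ℤ) (s : ℤ → ℤ → ℝ) (hs : ∀ x y, s x y = s y x)
    {M : ℝ} (hM : ∀ x y, |s x y| ≤ M) :
    HasSum (fun w : ℤ × ℤ => p (w.2 - w.1) *
      (if (w.1 ∈ I ∧ w.2 ∉ I) ∨ (w.1 ∉ I ∧ w.2 ∈ I) then s w.1 w.2 else 0))
      (∑ x ∈ I, ∑' y : ℤ, if y ∈ I then 0 else (p (y - x) + p (x - y)) * s x y) := by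
  have hM0 : 0 ≤ M := (abs_nonneg _).trans (hM 0 0)
  -- the two parts
  have s1 : Summable fun w : ℤ × ℤ => if w.1 ∈ I ∧ w.2 ∉ I then p (w.2 - w.1) * s w.1 w.2 else 0 := by
    refine Summable.of_norm_bounded ((summ_l hp I).mul_left M) fun w => ?_
    by_cases h1 : w.1 ∈ I
    · by_cases h2 : w.2 ∈ I
      · simp only [h1, h2, not_true, and_false, if_false, if_true, norm_zero]
        exact mul_nonneg hM0 (hp.nonneg _)
      · simp only [h1, h2, not_false_iff, and_self, if_true]
        rw [norm_mul, Real.norm_eq_abs, Real.norm_eq_abs, abs_of_nonneg (hp.nonneg _), mul_comm]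
        exact mul_le_mul_of_nonneg_right (hM _ _) (hp.nonneg _)
    · simp [h1]
  have s2 : Summable fun w : ℤ × ℤ => if w.1 ∈ I ∧ w.2 ∉ I then p (w.1 - w.2) * s w.1 w.2 else 0 := by
    refine Summable.of_norm_bounded (((summ_r hp I).prod_symm).mul_left M) fun w => ?_
    show _ ≤ M * (if w.swap.2 ∈ I then p (w.swap.2 - w.swap.1) else 0)
    rw [Prod.fst_swap, Prod.snd_swap]
    by_cases h1 : w.1 ∈ I
    · by_cases h2 : w.2 ∈ I
      · simp only [h1, h2, not_true, and_false, if_false, if_true, norm_zero]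
        exact mul_nonneg hM0 (hp.nonneg _)
      · simp only [h1, h2, not_false_iff, and_self, if_true]
        rw [norm_mul, Real.norm_eq_abs, Real.norm_eq_abs, abs_of_nonneg (hp.nonneg _), mul_comm]
        exact mul_le_mul_of_nonneg_right (hM _ _) (hp.nonneg _)
    · simp [h1]
  have e : ∀ {g : ℤ → ℤ → ℝ}, (Summable fun w : ℤ × ℤ => if w.1 ∈ I ∧ w.2 ∉ I then g w.1 w.2 else 0) →
      ∑' w : ℤ × ℤ, (if w.1 ∈ I ∧ w.2 ∉ I then g w.1 w.2 else 0) =
        ∑ x ∈ I, ∑' y : ℤ, if y ∈ I then 0 else g x y := by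
    intro g hg
    rw [hg.tsum_prod, tsum_eq_sum (s := I)]
    · refine Finset.sum_congr rfl fun x hx => tsum_congr fun y => ?_
      by_cases hy : y ∈ I <;> simp [hx, hy]
    · intro x hx
      simp [hx]
  have h1 := s1.hasSum
  have h2 : HasSum (fun w : ℤ × ℤ => if w.2 ∈ I ∧ w.1 ∉ I then p (w.2 - w.1) * s w.1 w.2 else 0)
      (∑' w : ℤ × ℤ, if w.1 ∈ I ∧ w.2 ∉ I then p (w.1 - w.2) * s w.1 w.2 else 0) := by
    have h3 := (Equiv.prodComm ℤ ℤ).hasSum_iff.2 s2.hasSum
    have h4 : ((fun w : ℤ × ℤ => if w.1 ∈ I ∧ w.2 ∉ I then p (w.1 - w.2) * s w.1 w.2 else 0) ∘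
        (Equiv.prodComm ℤ ℤ)) =
        fun w : ℤ × ℤ => if w.2 ∈ I ∧ w.1 ∉ I then p (w.2 - w.1) * s w.1 w.2 else 0 := by
      funext w
      show (if w.2 ∈ I ∧ w.1 ∉ I then p (w.2 - w.1) * s w.2 w.1 else 0) = _
      rw [hs w.2 w.1]
    rw [h4] at h3
    exact h3
  have h3 := h1.add h2
  rw [e (g := fun x y => p (y - x) * s x y) s1, e (g := fun x y => p (x - y) * s x y) s2,
    ← Finset.sum_add_distrib] at h3
  have e1 : (fun w : ℤ × ℤ => p (w.2 - w.1) *
      (if (w.1 ∈ I ∧ w.2 ∉ I) ∨ (w.1 ∉ I ∧ w.2 ∈ I) then s w.1 w.2 else 0)) = fun w : ℤ × ℤ =>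
      (if w.1 ∈ I ∧ w.2 ∉ I then p (w.2 - w.1) * s w.1 w.2 else 0) +
      (if w.2 ∈ I ∧ w.1 ∉ I then p (w.2 - w.1) * s w.1 w.2 else 0) := by
    funext w
    by_cases h1 : w.1 ∈ I <;> by_cases h2 : w.2 ∈ I <;> simp [h1, h2]
  have e2 : ∑ x ∈ I, (∑' y : ℤ, if y ∈ I then 0 else (p (y - x) + p (x - y)) * s x y) =
      ∑ x ∈ I, ((∑' y : ℤ, if y ∈ I then 0 else p (y - x) * s x y) +
        ∑' y : ℤ, if y ∈ I then 0 else p (x - y) * s x y) := by
    refine Finset.sum_congr rfl fun x _ => ?_
    have t1 : Summable fun y : ℤ => if y ∈ I then 0 else p (y - x) * s x y := by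
      refine Summable.of_norm_bounded ((shift_summ hp x).mul_left M) fun y => ?_
      by_cases h1 : y ∈ I
      · rw [if_pos h1, norm_zero]
        exact mul_nonneg hM0 (hp.nonneg _)
      · rw [if_neg h1, norm_mul, Real.norm_eq_abs, Real.norm_eq_abs, abs_of_nonneg (hp.nonneg _),
          mul_comm]
        exact mul_le_mul_of_nonneg_right (hM _ _) (hp.nonneg _)
    have t2 : Summable fun y : ℤ => if y ∈ I then 0 else p (x - y) * s x y := by
      refine Summable.of_norm_bounded ((shift_summ' hp x).mul_left M) fun y => ?_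
      by_cases h1 : y ∈ I
      · rw [if_pos h1, norm_zero]
        exact mul_nonneg hM0 (hp.nonneg _)
      · rw [if_neg h1, norm_mul, Real.norm_eq_abs, Real.norm_eq_abs, abs_of_nonneg (hp.nonneg _),
          mul_comm]
        exact mul_le_mul_of_nonneg_right (hM _ _) (hp.nonneg _)
    rw [← t1.tsum_add t2]
    refine tsum_congr fun y => ?_
    by_cases h1 : y ∈ I
    · simp [h1]
    · simp only [if_neg h1]
      ring
  rw [e1, e2]
  exact h3

/-! ### The discrepancies -/

/-- discrepancy at `x` -/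
noncomputable def dsc (x : ℤ) (z : Conf × Conf) : ℝ := if z.1 x ≠ z.2 x then 1 else 0

theorem dsc_nonneg (x : ℤ) (z : Conf × Conf) : 0 ≤ dsc x z := by
  unfold dsc
  split_ifs <;> norm_num

theorem dsc_le (x : ℤ) (z : Conf × Conf) : dsc x z ≤ 1 := by
  unfold dsc
  split_ifs <;> norm_num

theorem c1_meas (x : ℤ) : Measurable fun z : Conf × Conf => z.1 x :=
  (measurable_pi_apply x).comp measurable_fst

theorem c2_meas (x : ℤ) : Measurable fun z : Conf × Conf => z.2 x :=
  (measurable_pi_apply x).comp measurable_snd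

theorem dset_meas (x : ℤ) : MeasurableSet {z : Conf × Conf | z.1 x ≠ z.2 x} :=
  (measurableSet_eq_fun (c1_meas x) (c2_meas x)).compl

theorem dsc_meas (x : ℤ) : Measurable (dsc x) :=
  Measurable.ite (dset_meas x) measurable_const measurable_const

/-- the probability of a discrepancy -/
noncomputable def dd (π : Measure (Conf × Conf)) (x : ℤ) : ℝ := π.real {z | z.1 x ≠ z.2 x}

theorem dsc_int (π : Measure (Conf × Conf)) (x : ℤ) : ∫ z, dsc x z ∂π = dd π x := by
  have h1 : dsc x = {z : Conf × Conf | z.1 x ≠ z.2 x}.indicator 1 := by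
    funext z
    unfold dsc Set.indicator
    simp
  rw [h1]
  exact integral_indicator_one (dset_meas x)

/-- number of discrepancies in `I` -/
noncomputable def fI (I : Finset ℤ) (z : Conf × Conf) : ℝ := ∑ t ∈ I, dsc t z

/-- opposite discrepancies -/
noncomputable def opp (x y : ℤ) (z : Conf × Conf) : ℝ :=
  if z.1 x = true ∧ z.2 x = false ∧ z.1 y = false ∧ z.2 y = true then 1 else 0

theorem dsc_x (x y : ℤ) (z : Conf × Conf) : dsc x (mv2 x y z) =
    if (z.1 x && z.1 y) ≠ (z.2 x && z.2 y) then 1 else 0 := by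
  unfold dsc mv2
  simp only [mv_x]

theorem dsc_y (x y : ℤ) (z : Conf × Conf) : dsc y (mv2 x y z) =
    if (z.1 x || z.1 y) ≠ (z.2 x || z.2 y) then 1 else 0 := by
  unfold dsc mv2
  simp only [mv_y]

theorem dsc_o {x y t : ℤ} (hx : t ≠ x) (hy : t ≠ y) (z : Conf × Conf) :
    dsc t (mv2 x y z) = dsc t z := by
  unfold dsc mv2
  simp only [mv_o hx hy]

theorem fI_out {I : Finset ℤ} {x y : ℤ} (hx : x ∉ I) (hy : y ∉ I) (z : Conf × Conf) :
    fI I (mv2 x y z) = fI I z := by
  unfold fI
  refine Finset.sum_congr rfl fun t ht => ?_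
  exact dsc_o (ne_of_mem_of_not_mem ht hx) (ne_of_mem_of_not_mem ht hy) z

theorem fI_in {I : Finset ℤ} {x y : ℤ} (hx : x ∈ I) (hy : y ∈ I) (hxy : x ≠ y)
    (z : Conf × Conf) : fI I (mv2 x y z) - fI I z ≤ -(2 * opp x y z) := by
  have h1 : ∀ z, fI I z = dsc x z + (dsc y z + ∑ t ∈ (I.erase x).erase y, dsc t z) := by
    intro z
    unfold fI
    rw [← Finset.add_sum_erase I _ hx, ← Finset.add_sum_erase (I.erase x) _
      (Finset.mem_erase.2 ⟨hxy.symm, hy⟩)]
  have h2 : ∑ t ∈ (I.erase x).erase y, dsc t (mv2 x y z) =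
      ∑ t ∈ (I.erase x).erase y, dsc t z := by
    refine Finset.sum_congr rfl fun t ht => ?_
    rw [Finset.mem_erase, Finset.mem_erase] at ht
    exact dsc_o ht.2.1 ht.1 z
  rw [h1, h1, h2, dsc_x, dsc_y]
  generalize ∑ t ∈ (I.erase x).erase y, dsc t z = S
  unfold dsc opp
  generalize z.1 x = a
  generalize z.2 x = b
  generalize z.1 y = c
  generalize z.2 y = d
  cases a <;> cases b <;> cases c <;> cases d <;> norm_num <;> linarith

theorem fI_x {I : Finset ℤ} {x y : ℤ} (hx : x ∈ I) (hy : y ∉ I)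
    (z : Conf × Conf) : fI I (mv2 x y z) - fI I z ≤ dsc x z + dsc y z := by
  have h1 : ∀ z, fI I z = dsc x z + ∑ t ∈ I.erase x, dsc t z := by
    intro z
    unfold fI
    rw [← Finset.add_sum_erase I _ hx]
  have h2 : ∑ t ∈ I.erase x, dsc t (mv2 x y z) = ∑ t ∈ I.erase x, dsc t z := by
    refine Finset.sum_congr rfl fun t ht => ?_
    rw [Finset.mem_erase] at ht
    exact dsc_o ht.1 (ne_of_mem_of_not_mem ht.2 hy) z
  rw [h1, h1, h2, dsc_x]
  generalize ∑ t ∈ I.erase x, dsc t z = S
  unfold dsc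
  generalize z.1 x = a
  generalize z.2 x = b
  generalize z.1 y = c
  generalize z.2 y = d
  cases a <;> cases b <;> cases c <;> cases d <;> norm_num

theorem fI_y {I : Finset ℤ} {x y : ℤ} (hx : x ∉ I) (hy : y ∈ I)
    (z : Conf × Conf) : fI I (mv2 x y z) - fI I z ≤ dsc x z + dsc y z := by
  have h1 : ∀ z, fI I z = dsc y z + ∑ t ∈ I.erase y, dsc t z := by
    intro z
    unfold fI
    rw [← Finset.add_sum_erase I _ hy]
  have h2 : ∑ t ∈ I.erase y, dsc t (mv2 x y z) = ∑ t ∈ I.erase y, dsc t z := by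
    refine Finset.sum_congr rfl fun t ht => ?_
    rw [Finset.mem_erase] at ht
    exact dsc_o (ne_of_mem_of_not_mem ht.2 hx) ht.1 z
  rw [h1, h1, h2, dsc_y]
  generalize ∑ t ∈ I.erase y, dsc t z = S
  unfold dsc
  generalize z.1 x = a
  generalize z.2 x = b
  generalize z.1 y = c
  generalize z.2 y = d
  cases a <;> cases b <;> cases c <;> cases d <;> norm_num

theorem fI_meas (I : Finset ℤ) : Measurable (fI I) := by
  unfold fI
  exact Finset.measurable_fun_sum I fun t _ => dsc_meas t

theorem fI_bd (I : Finset ℤ) (z : Conf × Conf) : |fI I z| ≤ I.card := by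
  unfold fI
  rw [abs_of_nonneg (Finset.sum_nonneg fun t _ => dsc_nonneg t z)]
  calc ∑ t ∈ I, dsc t z ≤ ∑ _t ∈ I, (1 : ℝ) := Finset.sum_le_sum fun t _ => dsc_le t z
    _ = I.card := by simp

theorem sub_Lam (I : Finset ℤ) : ∃ n, I ⊆ Lam n := by
  refine ⟨I.sup Int.natAbs, fun x hx => ?_⟩
  have h1 : x.natAbs ≤ I.sup Int.natAbs := Finset.le_sup hx
  unfold Lam
  rw [Finset.mem_Icc]
  omega

theorem fI_dep (I : Finset ℤ) : ∃ n, Dep2 n (fI I) := by
  obtain ⟨n, hn⟩ := sub_Lam I
  refine ⟨n, fun z w hzw => ?_⟩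
  unfold fI dsc
  refine Finset.sum_congr rfl fun t ht => ?_
  rw [(hzw t (hn ht)).1, (hzw t (hn ht)).2]

theorem oset_meas (x y : ℤ) :
    MeasurableSet {z : Conf × Conf | z.1 x = true ∧ z.2 x = false ∧ z.1 y = false ∧ z.2 y = true} :=
  (c1_meas x (measurableSet_singleton true)).inter
    ((c2_meas x (measurableSet_singleton false)).inter
      ((c1_meas y (measurableSet_singleton false)).inter
        (c2_meas y (measurableSet_singleton true))))

theorem opp_meas (x y : ℤ) : Measurable (opp x y) :=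
  Measurable.ite (oset_meas x y) measurable_const measurable_const

theorem opp_int (π : Measure (Conf × Conf)) (x y : ℤ) : ∫ z, opp x y z ∂π =
    π.real {z | z.1 x = true ∧ z.2 x = false ∧ z.1 y = false ∧ z.2 y = true} := by
  have h1 : opp x y = {z : Conf × Conf | z.1 x = true ∧ z.2 x = false ∧ z.1 y = false ∧
      z.2 y = true}.indicator 1 := by
    funext z
    unfold opp Set.indicator
    simp
  rw [h1]
  exact integral_indicator_one (oset_meas x y)

theorem opp_bd (x y : ℤ) (z : Conf × Conf) : ‖opp x y z‖ ≤ 1 := by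
  unfold opp
  split_ifs <;> norm_num

/-- The balance of the discrepancies. -/
theorem balance (hp : Ker p) (π : Measure (Conf × Conf)) [IsProbabilityMeasure π]
    (hS : Stat2 p π) (I : Finset ℤ) {u v : ℤ} (hu : u ∈ I) (hv : v ∈ I) (huv : u ≠ v) :
    2 * p (v - u) * π.real {z | z.1 u = true ∧ z.2 u = false ∧ z.1 v = false ∧ z.2 v = true} ≤
      ∑ x ∈ I, ∑' y : ℤ, if y ∈ I then 0 else (p (y - x) + p (x - y)) * (dd π x + dd π y) := by
  obtain ⟨n, hn⟩ := fI_dep I
  have h1 := hasSum_gen hp π I (fI_meas I) (fI_bd I) (fun x y z hx hy => fI_out hx hy z)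
  rw [hS n _ hn] at h1
  have hdd0 : ∀ x, 0 ≤ dd π x := fun x => measureReal_nonneg
  have hdd1 : ∀ x, dd π x ≤ 1 := fun x => measureReal_le_one
  have h2 := hasSum_cross hp I (fun x y => dd π x + dd π y) (fun x y => add_comm _ _) (M := 2)
    (fun x y => by
      rw [abs_of_nonneg (add_nonneg (hdd0 x) (hdd0 y))]
      linarith [hdd1 x, hdd1 y])
  have h3 : HasSum (fun w : ℤ × ℤ => if w = (u, v) then
      -(2 * p (v - u) * ∫ z, opp u v z ∂π) else 0) (-(2 * p (v - u) * ∫ z, opp u v z ∂π)) :=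
    hasSum_ite_eq (u, v) _
  have h4 := h3.add h2
  have hle : ∀ w : ℤ × ℤ, p (w.2 - w.1) * ∫ z, (fI I (mv2 w.1 w.2 z) - fI I z) ∂π ≤
      (if w = (u, v) then -(2 * p (v - u) * ∫ z, opp u v z ∂π) else 0) + p (w.2 - w.1) *
      (if (w.1 ∈ I ∧ w.2 ∉ I) ∨ (w.1 ∉ I ∧ w.2 ∈ I) then dd π w.1 + dd π w.2 else 0) := by
    rintro ⟨x, y⟩
    show p (y - x) * ∫ z, (fI I (mv2 x y z) - fI I z) ∂π ≤
      (if (x, y) = (u, v) then -(2 * p (v - u) * ∫ z, opp u v z ∂π) else 0) + p (y - x) *
      (if (x ∈ I ∧ y ∉ I) ∨ (x ∉ I ∧ y ∈ I) then dd π x + dd π y else 0)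
    have hp0 := hp.nonneg (y - x)
    have hint : Integrable (fun z => fI I (mv2 x y z) - fI I z) π := by
      refine Integrable.of_bound (((fI_meas I).comp (mv2_meas x y)).sub
        (fI_meas I)).aestronglyMeasurable (2 * I.card) (ae_of_all _ fun z => ?_)
      have a1 := fI_bd I (mv2 x y z)
      have a2 := fI_bd I z
      rw [Real.norm_eq_abs]
      rw [abs_le] at a1 a2 ⊢
      constructor <;> linarith
    have hintd : ∀ t, Integrable (dsc t) π := fun t =>
      Integrable.of_bound (dsc_meas t).aestronglyMeasurable 1 (ae_of_all _ fun z => by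
        rw [Real.norm_eq_abs, abs_of_nonneg (dsc_nonneg t z)]
        exact dsc_le t z)
    have hinto : Integrable (opp x y) π :=
      Integrable.of_bound (opp_meas x y).aestronglyMeasurable 1 (ae_of_all _ fun z => opp_bd x y z)
    have hcross : (∀ z, fI I (mv2 x y z) - fI I z ≤ dsc x z + dsc y z) →
        ∫ z, (fI I (mv2 x y z) - fI I z) ∂π ≤ dd π x + dd π y := by
      intro hz
      rw [← dsc_int, ← dsc_int, ← integral_add (hintd x) (hintd y)]
      exact integral_mono hint ((hintd x).add (hintd y)) hz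
    by_cases hx : x ∈ I
    · by_cases hy : y ∈ I
      · rw [if_neg (show ¬ ((x ∈ I ∧ y ∉ I) ∨ (x ∉ I ∧ y ∈ I)) by tauto), mul_zero, add_zero]
        by_cases hxy : x = y
        · subst hxy
          have e1 : ∀ z, fI I (mv2 x x z) - fI I z = 0 := by
            intro z
            unfold mv2
            rw [mv_self, mv_self, sub_self]
          rw [if_neg (fun h => huv ((Prod.ext_iff.1 h).1.symm.trans (Prod.ext_iff.1 h).2))]
          simp only [e1, integral_zero, mul_zero, le_refl]
        · have hin : ∫ z, (fI I (mv2 x y z) - fI I z) ∂π ≤ -(2 * ∫ z, opp x y z ∂π) := by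
            rw [← integral_const_mul, ← integral_neg]
            exact integral_mono hint (hinto.const_mul 2).neg (fun z => fI_in hx hy hxy z)
          by_cases hw : (x, y) = (u, v)
          · rw [if_pos hw]
            obtain ⟨rfl, rfl⟩ := Prod.ext_iff.1 hw
            have := mul_le_mul_of_nonneg_left hin hp0
            calc _ ≤ _ := this
              _ = _ := by ring
          · rw [if_neg hw]
            have h5 : 0 ≤ ∫ z, opp x y z ∂π := integral_nonneg fun z => by
              show 0 ≤ opp x y z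
              unfold opp
              split_ifs <;> norm_num
            exact mul_nonpos_of_nonneg_of_nonpos hp0 (by linarith)
      · have hw : (x, y) ≠ (u, v) := fun h => hy (by rw [(Prod.mk.inj h).2]; exact hv)
        rw [if_neg hw, if_pos (Or.inl ⟨hx, hy⟩), zero_add]
        exact mul_le_mul_of_nonneg_left (hcross fun z => fI_x hx hy z) hp0
    · have hw : (x, y) ≠ (u, v) := fun h => hx (by rw [(Prod.mk.inj h).1]; exact hu)
      rw [if_neg hw, zero_add]
      by_cases hy : y ∈ I
      · rw [if_pos (Or.inr ⟨hx, hy⟩)]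
        exact mul_le_mul_of_nonneg_left (hcross fun z => fI_y hx hy z) hp0
      · rw [if_neg (show ¬ ((x ∈ I ∧ y ∉ I) ∨ (x ∉ I ∧ y ∈ I)) by tauto)]
        have e1 : ∀ z, fI I (mv2 x y z) - fI I z = 0 := by
          intro z
          rw [fI_out hx hy, sub_self]
        simp only [e1, integral_zero, mul_zero, le_refl]
  have h5 := hasSum_le hle h1 h4
  rw [opp_int] at h5
  linarith

/-- The boundary terms tend to zero. -/
theorem cross_lim (hB : S_BDY) (hp : Ker p) (π : Measure (Conf × Conf)) [IsProbabilityMeasure π]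
    {a b : ℕ → ℤ} (ha : Tendsto a atTop atBot) (hb : Tendsto b atTop atTop)
    (h1 : ∀ j : ℤ, Tendsto (fun k => π.real {z | z.1 (a k + j) ≠ z.2 (a k + j)}) atTop (𝓝 0))
    (h2 : ∀ j : ℤ, Tendsto (fun k => π.real {z | z.1 (b k + j) ≠ z.2 (b k + j)}) atTop (𝓝 0)) :
    Tendsto (fun k => ∑ x ∈ Finset.Icc (a k) (b k), ∑' y : ℤ,
      if y ∈ Finset.Icc (a k) (b k) then 0 else (p (y - x) + p (x - y)) * (dd π x + dd π y))
      atTop (𝓝 0) := by
  have hdd0 : ∀ x, 0 ≤ dd π x := fun x => measureReal_nonneg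
  have hdd1 : ∀ x, dd π x ≤ 1 := fun x => measureReal_le_one
  have h3 := hB p hp (fun x y => (dd π x + dd π y) / 2) (fun x y => by
    have := hdd0 x; have := hdd0 y; positivity) (fun x y => by
    have := hdd1 x; have := hdd1 y; linarith) a b ha hb
    (fun i j => by
      have := ((h1 i).add (h1 j)).div_const 2
      rw [add_zero, zero_div] at this
      exact this)
    (fun i j => by
      have := ((h2 i).add (h2 j)).div_const 2
      rw [add_zero, zero_div] at this
      exact this)
  have h4 := h3.const_mul 2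
  rw [mul_zero] at h4
  refine h4.congr fun k => ?_
  rw [Finset.mul_sum]
  refine Finset.sum_congr rfl fun x _ => ?_
  rw [← tsum_mul_left]
  refine tsum_congr fun y => ?_
  by_cases hy : y ∈ Finset.Icc (a k) (b k)
  · rw [if_pos hy, if_pos hy, mul_zero]
  · rw [if_neg hy, if_neg hy]
    ring

end Opp

theorem t_OPP : S_BDY → S_OPP := by
  intro hB p hp π hπ hS a b ha hb h1 h2 u v
  by_cases huv : u = v
  · subst huv
    have : {z : Conf × Conf | z.1 u = true ∧ z.2 u = false ∧ z.1 u = false ∧ z.2 u = true} = ∅ := by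
      ext z
      simp only [Set.mem_empty_iff_false, iff_false]
      rintro ⟨h3, _, h4, _⟩
      rw [h3] at h4
      exact absurd h4 (by decide)
    rw [this, measure_empty]
  · have hlim := Opp.cross_lim hB hp π ha hb h1 h2
    have hev : ∀ᶠ k in atTop, 2 * p (v - u) * π.real {z | z.1 u = true ∧ z.2 u = false ∧
        z.1 v = false ∧ z.2 v = true} ≤ ∑ x ∈ Finset.Icc (a k) (b k), ∑' y : ℤ,
        if y ∈ Finset.Icc (a k) (b k) then 0 else
          (p (y - x) + p (x - y)) * (Opp.dd π x + Opp.dd π y) := by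
      filter_upwards [ha.eventually_le_atBot u, ha.eventually_le_atBot v,
        hb.eventually_ge_atTop u, hb.eventually_ge_atTop v] with k k1 k2 k3 k4
      exact Opp.balance hp π hS _ (Finset.mem_Icc.2 ⟨k1, k3⟩) (Finset.mem_Icc.2 ⟨k2, k4⟩) huv
    have h3 := ge_of_tendsto hlim hev
    have h4 : 0 < p (v - u) := hp.pos _ (sub_ne_zero.2 (Ne.symm huv))
    have h5 : π.real {z | z.1 u = true ∧ z.2 u = false ∧ z.1 v = false ∧ z.2 v = true} = 0 := by
      have h6 : 0 ≤ π.real {z : Conf × Conf | z.1 u = true ∧ z.2 u = false ∧ z.1 v = false ∧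
        z.2 v = true} := measureReal_nonneg
      by_contra h7
      have h8 := lt_of_le_of_ne h6 (Ne.symm h7)
      have := mul_pos (mul_pos two_pos h4) h8
      linarith
    exact (measureReal_eq_zero_iff (measure_ne_top _ _)).1 h5

end Pool.Agent.N959.EX
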