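import Pool.Agent.N959.EX.CondP
import Pool.Agent.N959.EX.G3

/-! # Translations; extremal profile measures are ordered -/

set_option autoImplicit false

open MeasureTheory Filter Topology

namespace Pool.Agent.N959.EX
namespace OrdQ

variable {p : ℤ → ℝ}

/-- translation as a measurable equivalence -/
def te (m : ℤ) : Conf ≃ᵐ Conf where
  toFun := tau m
  invFun := tau (-m)
  left_inv := by
    intro η; funext x; simp only [tau]; congr 1; ring
  right_inv := by
    intro η; funext x; simp only [tau]; congr 1; ring
  measurable_toFun := measurable_pi_lambda _ fun _ => measurable_pi_apply _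
  measurable_invFun := measurable_pi_lambda _ fun _ => measurable_pi_apply _

lemma te_apply (m : ℤ) (η : Conf) : te m η = tau m η := rfl

lemma tau_mv (m x y : ℤ) (η : Conf) : tau m (mv (x + m) (y + m) η) = mv x y (tau m η) := by
  unfold mv
  have e1 : tau m η x = η (x + m) := rfl
  have e2 : tau m η y = η (y + m) := rfl
  rw [e1, e2]
  split_ifs
  · funext z
    simp only [tau, sw]
    have a1 : (z + m = x + m) ↔ z = x := by omega
    have a2 : (z + m = y + m) ↔ z = y := by omega
    simp only [a1, a2]
  · rfl

lemma gen_tau (m : ℤ) (F : Conf → ℝ) (η : Conf) :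
    gen mv p F (tau m η) = gen mv p (fun ξ => F (tau m ξ)) η := by
  unfold gen
  have e : ℤ × ℤ ≃ ℤ × ℤ := (Equiv.addRight m).prodCongr (Equiv.addRight m)
  rw [← ((Equiv.addRight m).prodCongr (Equiv.addRight m)).tsum_eq
    (fun w : ℤ × ℤ => p (w.2 - w.1) * (F (tau m (mv w.1 w.2 η)) - F (tau m η)))]
  refine tsum_congr fun w => ?_
  simp only [Equiv.prodCongr_apply, Prod.map_fst, Prod.map_snd, Equiv.coe_addRight]
  rw [tau_mv]
  congr 2
  ring

lemma dep_tau (m : ℤ) {n : ℕ} {F : Conf → ℝ} (hF : Dep n F) :
    Dep (n + m.natAbs) (fun ξ => F (tau m ξ)) := by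
  intro η ζ h
  apply hF
  intro x hx
  apply h
  simp only [Lam, Finset.mem_Icc] at hx ⊢
  omega

end OrdQ

theorem t_TAU' : S_TAU := by
  intro p hp μ m hμ hst n F hF
  have e1 : μ.map (tau m) = μ.map (OrdQ.te m) := rfl
  rw [e1, integral_map_equiv]
  have : ∀ η, gen mv p F (OrdQ.te m η) = gen mv p (fun ξ => F (tau m ξ)) η := fun η => by
    rw [OrdQ.te_apply, OrdQ.gen_tau]
  simp only [this]
  exact hst _ _ (OrdQ.dep_tau m hF)

namespace OrdQ

variable {p : ℤ → ℝ}

lemma gen1_meas (hp : Ker p) {n : ℕ} {F : Conf → ℝ} (hF : Dep n F) : Measurable (gen mv p F) := by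
  have h2 : Dep2 n (fun z : Conf × Conf => F z.1) := by
    intro z w h
    exact hF _ _ fun x hx => (h x hx).1
  have h3 := CondP.gen_meas hp h2
  have h4 : Measurable (fun η : Conf => ((η, η) : Conf × Conf)) := measurable_id.prodMk measurable_id
  exact h3.comp h4

lemma marg_fst (hp : Ker p) {π : Measure (Conf × Conf)} (hπ : Stat2 p π) :
    Stat p (π.map Prod.fst) := by
  intro n F hF
  rw [integral_map measurable_fst.aemeasurable (gen1_meas hp hF).aestronglyMeasurable]
  exact hπ n (fun z => F z.1) (fun z w h => hF _ _ fun x hx => (h x hx).1)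

lemma marg_snd (hp : Ker p) {π : Measure (Conf × Conf)} (hπ : Stat2 p π) :
    Stat p (π.map Prod.snd) := by
  intro n F hF
  rw [integral_map measurable_snd.aemeasurable (gen1_meas hp hF).aestronglyMeasurable]
  exact hπ n (fun z => F z.2) (fun z w h => hF _ _ fun x hx => (h x hx).2)

lemma stat_smul {μ : Measure Conf} (hμ : Stat p μ) (c : ENNReal) : Stat p (c • μ) := by
  intro n F hF
  rw [integral_smul_measure, hμ n F hF, smul_zero]

lemma meas_Ord : MeasurableSet (Ord : Set (Conf × Conf)) := by
  have : (Ord : Set (Conf × Conf)) = ⋂ x : ℤ, {z | z.1 x = true → z.2 x = true} := by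
    ext z; simp [Ord]
  rw [this]
  refine MeasurableSet.iInter fun x => ?_
  have e : {z : Conf × Conf | z.1 x = true → z.2 x = true} =
      {z : Conf × Conf | z.1 x = true}ᶜ ∪ {z : Conf × Conf | z.2 x = true} := by
    ext z
    simp only [Set.mem_union, Set.mem_compl_iff, Set.mem_ofPred_eq]
    tauto
  rw [e]
  exact (measurableSet_eq_fun ((measurable_pi_apply x).comp measurable_fst)
    measurable_const).compl.union
    (measurableSet_eq_fun ((measurable_pi_apply x).comp measurable_snd) measurable_const)

/-- translations of extremal measures are extremal -/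
lemma ext_tau (hT : S_TAU) (hp : Ker p) {μ : Measure Conf} (hμp : IsProbabilityMeasure μ)
    (hμ : Extremal p μ) (m : ℤ) : Extremal p (μ.map (tau m)) := by
  refine ⟨hT p hp μ m hμp hμ.1, ?_⟩
  intro μ₁ μ₂ h1 h2 hs1 hs2 t ht0 ht1 heq
  have hm : Measurable (tau (-m)) := measurable_pi_lambda _ fun _ => measurable_pi_apply _
  have hm' : Measurable (tau m) := measurable_pi_lambda _ fun _ => measurable_pi_apply _
  have e0 : ∀ ν : Measure Conf, (ν.map (tau m)).map (tau (-m)) = ν := by
    intro ν
    rw [Measure.map_map hm hm']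
    have : tau (-m) ∘ tau m = id := by
      funext η x
      simp only [Function.comp, tau, id]
      congr 1; ring
    rw [this, Measure.map_id]
  have e0' : ∀ ν : Measure Conf, (ν.map (tau (-m))).map (tau m) = ν := by
    intro ν
    rw [Measure.map_map hm' hm]
    have : tau m ∘ tau (-m) = id := by
      funext η x
      simp only [Function.comp, tau, id]
      congr 1; ring
    rw [this, Measure.map_id]
  have i1 : IsProbabilityMeasure (μ₁.map (tau (-m))) :=
    Measure.isProbabilityMeasure_map hm.aemeasurable
  have i2 : IsProbabilityMeasure (μ₂.map (tau (-m))) :=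
    Measure.isProbabilityMeasure_map hm.aemeasurable
  have e1 : μ = ENNReal.ofReal t • μ₁.map (tau (-m)) + ENNReal.ofReal (1 - t) • μ₂.map (tau (-m)) := by
    rw [← Measure.map_smul, ← Measure.map_smul, ← Measure.map_add _ _ hm, ← heq, e0]
  have h3 := hμ.2 _ _ i1 i2 (hT p hp μ₁ (-m) h1 hs1) (hT p hp μ₂ (-m) h2 hs2) t ht0 ht1 e1
  rw [← h3, e0']

lemma rho_fst {π : Measure (Conf × Conf)} (x : ℤ) :
    rho (π.map Prod.fst) x = π.real {z | z.1 x = true} := by
  unfold rho
  rw [map_measureReal_apply measurable_fst
    (measurableSet_eq_fun (measurable_pi_apply x) measurable_const)]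
  rfl

lemma rho_snd {π : Measure (Conf × Conf)} (x : ℤ) :
    rho (π.map Prod.snd) x = π.real {z | z.2 x = true} := by
  unfold rho
  rw [map_measureReal_apply measurable_snd
    (measurableSet_eq_fun (measurable_pi_apply x) measurable_const)]
  rfl

/-- discrepancy bounds -/
lemma disc_le {π : Measure (Conf × Conf)} [IsProbabilityMeasure π] {μ ν : Measure Conf}
    (h1 : π.map Prod.fst = μ) (h2 : π.map Prod.snd = ν) (x : ℤ) :
    π.real {z | z.1 x ≠ z.2 x} ≤ rho μ x + rho ν x ∧
    π.real {z | z.1 x ≠ z.2 x} ≤ (1 - rho μ x) + (1 - rho ν x) := by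
  have m1 : MeasurableSet {z : Conf × Conf | z.1 x = true} :=
    measurableSet_eq_fun ((measurable_pi_apply x).comp measurable_fst) measurable_const
  have m2 : MeasurableSet {z : Conf × Conf | z.2 x = true} :=
    measurableSet_eq_fun ((measurable_pi_apply x).comp measurable_snd) measurable_const
  rw [← h1, ← h2, rho_fst, rho_snd]
  constructor
  · refine (measureReal_mono ?_).trans (measureReal_union_le _ _)
    intro z hz
    simp only [Set.mem_ofPred_eq, Set.mem_union] at hz ⊢
    cases h3 : z.1 x <;> cases h4 : z.2 x <;> simp_all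
  · rw [← probReal_compl_eq_one_sub m1, ← probReal_compl_eq_one_sub m2]
    refine (measureReal_mono ?_).trans (measureReal_union_le _ _)
    intro z hz
    simp only [Set.mem_ofPred_eq, Set.mem_union, Set.mem_compl_iff] at hz ⊢
    cases h3 : z.1 x <;> cases h4 : z.2 x <;> simp_all

/-- monotonicity of the densities under an ordered coupling -/
lemma rho_mono {π : Measure (Conf × Conf)} [IsProbabilityMeasure π] {μ ν : Measure Conf}
    (h1 : π.map Prod.fst = μ) (h2 : π.map Prod.snd = ν) (h : ∀ᵐ z ∂π, z ∈ Ord) (x : ℤ) :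
    rho μ x ≤ rho ν x := by
  rw [← h1, ← h2, rho_fst, rho_snd]
  unfold Measure.real
  apply ENNReal.toReal_mono (measure_ne_top _ _)
  apply measure_mono_ae
  filter_upwards [h] with z hz hz1
  exact hz x hz1

/-- normalised restriction -/
noncomputable def nr (π : Measure (Conf × Conf)) (A : Set (Conf × Conf)) : Measure (Conf × Conf) :=
  (π A)⁻¹ • π.restrict A

lemma nr_prob {π : Measure (Conf × Conf)} [IsProbabilityMeasure π] {A : Set (Conf × Conf)}
    (h0 : π A ≠ 0) : IsProbabilityMeasure (nr π A) := by
  constructor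
  unfold nr
  rw [Measure.smul_apply, Measure.restrict_apply_univ, smul_eq_mul,
    ENNReal.inv_mul_cancel h0 (measure_ne_top _ _)]

lemma nr_stat {π : Measure (Conf × Conf)} {A : Set (Conf × Conf)}
    (h : Stat2 p (π.restrict A)) : Stat2 p (nr π A) := by
  intro n F hF
  unfold nr
  rw [integral_smul_measure, h n F hF, smul_zero]

lemma nr_smul {π : Measure (Conf × Conf)} [IsProbabilityMeasure π] {A : Set (Conf × Conf)}
    (h0 : π A ≠ 0) : π A • nr π A = π.restrict A := by
  unfold nr
  rw [smul_smul, ENNReal.mul_inv_cancel h0 (measure_ne_top _ _), one_smul]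

/-- the decomposition of the marginals -/
lemma decomp {π : Measure (Conf × Conf)} [IsProbabilityMeasure π] (h0 : π Ord ≠ 0)
    (h1 : π Ordᶜ ≠ 0) (f : Conf × Conf → Conf) (hf : Measurable f) :
    π.map f = ENNReal.ofReal (π.real Ord) • (nr π Ord).map f +
      ENNReal.ofReal (1 - π.real Ord) • (nr π Ordᶜ).map f := by
  have e1 : ENNReal.ofReal (π.real Ord) = π Ord := ENNReal.ofReal_toReal (measure_ne_top _ _)
  have e2 : ENNReal.ofReal (1 - π.real Ord) = π Ordᶜ := by
    rw [← probReal_compl_eq_one_sub meas_Ord]
    exact ENNReal.ofReal_toReal (measure_ne_top _ _)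
  rw [e1, e2, ← Measure.map_smul, ← Measure.map_smul, ← Measure.map_add _ _ hf, nr_smul h0,
    nr_smul h1, Measure.restrict_add_restrict_compl meas_Ord]

lemma ae_nr {π : Measure (Conf × Conf)} : ∀ᵐ z ∂(nr π Ord), z ∈ (Ord : Set (Conf × Conf)) := by
  unfold nr
  exact Measure.ae_smul_measure (ae_restrict_mem meas_Ord) _

/-- the ordered couplings -/
lemma key (hC : S_CPL) (hO : S_OPP) (hD : S_COND) (hp : Ker p) {μ : Measure Conf}
    (hμp : IsProbabilityMeasure μ) (hμ : Extremal p μ) (hwin : Win μ) (m : ℕ) :
    ∃ π : Measure (Conf × Conf), IsProbabilityMeasure π ∧ π.map Prod.fst = μ ∧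
      π.map Prod.snd = μ.map (tau m) ∧ ∀ᵐ z ∂π, z ∈ (Ord : Set (Conf × Conf)) := by
  obtain ⟨a, b, ha, hb, ha0, hb0⟩ := hwin
  rcases Nat.eq_zero_or_pos m with rfl | hm
  · have hd : Measurable (fun η : Conf => ((η, η) : Conf × Conf)) :=
      measurable_id.prodMk measurable_id
    refine ⟨μ.map (fun η => (η, η)), Measure.isProbabilityMeasure_map hd.aemeasurable, ?_, ?_, ?_⟩
    · rw [Measure.map_map measurable_fst hd]
      exact Measure.map_id
    · rw [Measure.map_map measurable_snd hd]
      congr 1
      funext η x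
      simp [tau]
    · refine (ae_map_iff (p := fun z => z ∈ (Ord : Set (Conf × Conf))) hd.aemeasurable
        meas_Ord).2 ?_
      exact Eventually.of_forall fun η x hx => hx
  · set ν : Measure Conf := μ.map (tau m) with hν
    have htm : Measurable (tau m) := measurable_pi_lambda _ fun _ => measurable_pi_apply _
    have hνp : IsProbabilityMeasure ν := Measure.isProbabilityMeasure_map htm.aemeasurable
    have hνe : Extremal p ν := ext_tau t_TAU' hp hμp hμ m
    have hrν : ∀ x, rho ν x = rho μ (x + m) := Fin4.rho_tau μ m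
    obtain ⟨π, hπp, h1, h2, hst⟩ := hC p hp μ ν hμp hνp hμ.1 hνe.1
    have da : ∀ j : ℤ, Tendsto (fun k => π.real {z | z.1 (a k + j) ≠ z.2 (a k + j)}) atTop
        (𝓝 0) := by
      intro j
      have u1 := (ha0 j).add (ha0 (j + m))
      rw [add_zero] at u1
      refine squeeze_zero (fun k => measureReal_nonneg) (fun k => ?_) u1
      have := (disc_le h1 h2 (a k + j)).1
      rw [hrν, add_assoc] at this
      exact this
    have db : ∀ j : ℤ, Tendsto (fun k => π.real {z | z.1 (b k + j) ≠ z.2 (b k + j)}) atTop
        (𝓝 0) := by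
      intro j
      have u1 := ((hb0 j).const_sub 1).add ((hb0 (j + m)).const_sub 1)
      rw [sub_self, add_zero] at u1
      refine squeeze_zero (fun k => measureReal_nonneg) (fun k => ?_) u1
      have := (disc_le h1 h2 (b k + j)).2
      rw [hrν, add_assoc] at this
      exact this
    have hopp := hO p hp π hπp hst a b ha hb da db
    obtain ⟨hs1, hs2⟩ := hD p hp π hπp hst a b ha hb da db hopp
    by_cases c0 : π Ord = 0
    · -- reversed order
      exfalso
      have r1 : ∀ᵐ z ∂π, z ∉ (Ord : Set (Conf × Conf)) := by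
        rw [ae_iff]
        simpa using c0
      have r2 : ∀ᵐ z ∂π, ∀ x y : ℤ, ¬ (z.1 x = true ∧ z.2 x = false ∧ z.1 y = false ∧
          z.2 y = true) := by
        rw [ae_all_iff]
        intro x
        rw [ae_all_iff]
        intro y
        rw [ae_iff]
        simpa using hopp x y
      have hsw : Measurable (Prod.swap : Conf × Conf → Conf × Conf) := measurable_swap
      have r3 : ∀ᵐ z ∂(π.map Prod.swap), z ∈ (Ord : Set (Conf × Conf)) := by
        refine (ae_map_iff (p := fun z => z ∈ (Ord : Set (Conf × Conf))) hsw.aemeasurable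
          meas_Ord).2 ?_
        filter_upwards [r1, r2] with z hz1 hz2
        intro x hx
        simp only [Prod.fst_swap, Prod.snd_swap] at hx ⊢
        by_contra hx1
        apply hz1
        intro y hy
        by_contra hy2
        exact hz2 y x ⟨hy, by simpa using hy2, by simpa using hx1, hx⟩
      have i3 : IsProbabilityMeasure (π.map Prod.swap) :=
        Measure.isProbabilityMeasure_map hsw.aemeasurable
      have r4 : ∀ x, rho ν x ≤ rho μ x := by
        intro x
        refine rho_mono (π := π.map Prod.swap) ?_ ?_ r3 x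
        · rw [Measure.map_map measurable_fst hsw]
          exact h2
        · rw [Measure.map_map measurable_snd hsw]
          exact h1
      have r5 : ∀ i : ℕ, ∀ x, rho μ (x + i * m) ≤ rho μ x := by
        intro i
        induction i with
        | zero => intro x; simp
        | succ i ih =>
          intro x
          have e1 := r4 (x + i * m)
          rw [hrν] at e1
          have e2 : x + ((i + 1 : ℕ) : ℤ) * m = x + i * m + m := by push_cast; ring
          rw [e2]
          exact e1.trans (ih x)
      have v1 : ∀ᶠ k in atTop, rho μ (a k + 0) < 1 / 2 :=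
        (ha0 0).eventually_lt_const (by norm_num)
      have v2 : ∀ᶠ k in atTop, ∀ j ∈ Finset.range m, 1 / 2 < rho μ (b k + (j : ℕ)) := by
        rw [Filter.eventually_all_finset]
        intro j _
        exact (hb0 (j : ℕ)).eventually_const_lt (by norm_num)
      have v3 : ∀ᶠ k in atTop, a k ≤ 0 := ha.eventually_le_atBot 0
      have v4 : ∀ᶠ k in atTop, 0 ≤ b k := hb.eventually_ge_atTop 0
      obtain ⟨k, w1, w2, w3, w4⟩ := (v1.and (v2.and (v3.and v4))).exists
      have hm' : (0 : ℤ) < m := by exact_mod_cast hm
      set d : ℤ := b k - a k with hd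
      have hd0 : 0 ≤ d := by omega
      have q1 := Int.emod_add_mul_ediv (d + m - 1) m
      have q2 := Int.emod_nonneg (d + m - 1) hm'.ne'
      have q3 := Int.emod_lt_of_pos (d + m - 1) hm'
      set i : ℤ := (d + m - 1) / m with hi
      have hi0 : 0 ≤ i := Int.ediv_nonneg (by omega) hm'.le
      obtain ⟨i', hi'⟩ : ∃ i' : ℕ, i = i' := ⟨i.toNat, by omega⟩
      obtain ⟨j, hj⟩ : ∃ j : ℕ, (j : ℤ) = m * i - d := ⟨(m * i - d).toNat, by omega⟩
      have hjm : j < m := by
        have : (j : ℤ) < m := by omega
        exact_mod_cast this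
      have z1 := r5 i' (a k)
      have z2 := w2 j (Finset.mem_range.2 hjm)
      have z3 : a k + (i' : ℤ) * m = b k + j := by
        rw [hj, ← hi', hd]; ring
      rw [z3] at z1
      rw [add_zero] at w1
      linarith
    · by_cases c1 : π Ordᶜ = 0
      · refine ⟨π, hπp, h1, h2, ?_⟩
        rw [ae_iff]
        exact c1
      · have t1 : 0 < π.real Ord := by
          unfold Measure.real
          exact ENNReal.toReal_pos c0 (measure_ne_top _ _)
        have t2 : π.real Ord < 1 := by
          have : 0 < π.real Ordᶜ := ENNReal.toReal_pos c1 (measure_ne_top _ _)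
          rw [probReal_compl_eq_one_sub meas_Ord] at this
          linarith
        have j1 := nr_prob c0
        have j2 := nr_prob c1
        have k1 := nr_stat hs1
        have k2 := nr_stat hs2
        have mf : (nr π Ord).map Prod.fst = μ := by
          refine hμ.2 _ ((nr π Ordᶜ).map Prod.fst)
            (Measure.isProbabilityMeasure_map measurable_fst.aemeasurable)
            (Measure.isProbabilityMeasure_map measurable_fst.aemeasurable)
            (marg_fst hp k1) (marg_fst hp k2) (π.real Ord) t1 t2 ?_
          rw [← decomp c0 c1 Prod.fst measurable_fst, h1]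
        have mg : (nr π Ord).map Prod.snd = ν := by
          refine hνe.2 _ ((nr π Ordᶜ).map Prod.snd)
            (Measure.isProbabilityMeasure_map measurable_snd.aemeasurable)
            (Measure.isProbabilityMeasure_map measurable_snd.aemeasurable)
            (marg_snd hp k1) (marg_snd hp k2) (π.real Ord) t1 t2 ?_
          rw [← decomp c0 c1 Prod.snd measurable_snd, h2]
        exact ⟨nr π Ord, j1, mf, mg, ae_nr⟩

end OrdQ

theorem t_ORD' (hC : S_CPL) (hO : S_OPP) (hD : S_COND) : S_ORD := by
  intro p hp μ hμp hμ hwin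
  have hk := OrdQ.key hC hO hD hp hμp hμ hwin
  refine ⟨hμ.1, ?_, hk⟩
  have hmono : Monotone (rho μ) := by
    apply monotone_int_of_le_succ
    intro x
    obtain ⟨π, h1, h2, h3, h4⟩ := hk 1
    have := OrdQ.rho_mono h2 h3 h4 x
    rw [Fin4.rho_tau] at this
    simpa using this
  obtain ⟨a, b, ha, hb, ha0, hb0⟩ := hwin
  constructor
  · rw [tendsto_order]
    constructor
    · intro l hl
      exact Eventually.of_forall fun x => lt_of_lt_of_le hl (Fin4.rho_nonneg μ x)
    · intro u hu
      obtain ⟨k, hk⟩ := ((ha0 0).eventually_lt_const hu).exists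
      rw [add_zero] at hk
      filter_upwards [eventually_le_atBot (a k)] with x hx
      exact (hmono hx).trans_lt hk
  · rw [tendsto_order]
    constructor
    · intro l hl
      obtain ⟨k, hk⟩ := ((hb0 0).eventually_const_lt hl).exists
      rw [add_zero] at hk
      filter_upwards [eventually_ge_atTop (b k)] with x hx
      exact hk.trans_le (hmono hx)
    · intro u hu
      exact Eventually.of_forall fun x => lt_of_le_of_lt (Fin4.rho_le_one μ x) hu

end Pool.Agent.N959.EX
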