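import Pool.Agent.N959.EX.Apx
import Pool.Agent.N959.EX.ConeP
import Pool.Agent.N959.EX.Disp
import Pool.Agent.N959.EX.Ext
import Pool.Agent.N959.EX.Cpl
import Pool.Agent.N959.EX.Opp
import Pool.Agent.N959.EX.CondP
import Pool.Agent.N959.EX.OrdQ
import Pool.Agent.N959.EX.G5

/-! # Assembly -/

set_option autoImplicit false

open MeasureTheory Filter Topology

namespace Pool.Agent.N959.EX

/-- no stationary profile measure for unimodal kernels with left tail at least `c k ^ (-β)`,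
`β < 3` -/
theorem t_MAIN3 (p : ℤ → ℝ) (hp : Ker p) (hu : Uni p) (ht : Tail3 p) (μ : Measure Conf)
    (hμ : IsProbabilityMeasure μ) (hst : Stat p μ) : ¬ Profile μ := by
  intro hprof
  obtain ⟨μ', h1, h2, h3⟩ := t_EXT p hp μ hμ hst hprof
  have hord := t_ORD' (t_CPL t_DISP t_APX) (t_OPP t_BDY) (t_COND t_BDY) p hp μ' h1 h2 h3
  exact t_FINAL3 t_CONE t_DISP t_APX t_RN t_TAU' p hp hu ht μ' h1 hord

end Pool.Agent.N959.EX
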